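import Mathlib
import Pool.Agent.Lib.MP_0b8c1e_lc.PtDefs
import Pool.Agent.Lib.MP_711ea9_lc.FH.Tm

section

set_option autoImplicit false

/-!
# Constraint graphs given by rotation maps (typed definitions of the campaign PC)
-/

namespace Pool.Agent.Lib.MP_0b8c1e_lc.PC

open Finset

/-- A constraint graph: the darts are the pairs `(v, i)`, `rot (v, i) = (w, j)` means that the dart
leads from `v` to `w` and is the reverse of the dart `(w, j)` (so `rot` should be an involution,
see `DS.Inv`), and every dart carries a constraint (a relation, not necessarily symmetric under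
`rot`). -/
structure DS (V I P : Type*) where
  /-- the rotation map -/
  rot : V × I → V × I
  /-- the constraints -/
  con : V × I → P → P → Bool

namespace DS

variable {V W I P : Type*}

/-- The rotation map is an involution. -/
def Inv (G : DS V I P) : Prop := ∀ p, G.rot (G.rot p) = p

/-- `φ` maps the graph `G` into the graph `g`, preserving labels and constraints. -/
def Hom (φ : V → W) (G : DS V I P) (g : DS W I P) : Prop :=
  ∀ v i, g.rot (φ v, i) = (φ (G.rot (v, i)).1, (G.rot (v, i)).2) ∧ g.con (φ v, i) = G.con (v, i)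

/-- The darts whose constraint is violated by the assignment `σ`. -/
def bad [Fintype V] [Fintype I] (G : DS V I P) (σ : V → P) : Finset (V × I) :=
  univ.filter fun p => G.con p (σ p.1) (σ (G.rot p).1) = false

/-- All constraints can be satisfied. -/
def Sat [Fintype V] [Fintype I] (G : DS V I P) : Prop := ∃ σ : V → P, G.bad σ = ∅

/-- Every assignment violates at least the fraction `ε` of the constraints. -/
def Gap [Fintype V] [Fintype I] (G : DS V I P) (ε : ℝ) : Prop :=
  ∀ σ : V → P, ε * (Fintype.card V * Fintype.card I) ≤ #(G.bad σ)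

/-- The end of the walk from `v` along the labels in the list. -/
def walk (G : DS V I P) : V → List I → V
  | v, [] => v
  | v, i :: l => G.walk (G.rot (v, i)).1 l

/-- The labels of the reverse walk. -/
def back (G : DS V I P) : V → List I → List I
  | _, [] => []
  | v, i :: l => G.back (G.rot (v, i)).1 l ++ [(G.rot (v, i)).2]

/-- The constraints along the walk. -/
def cons (G : DS V I P) : V → List I → List (P → P → Bool)
  | _, [] => []
  | v, i :: l => G.con (v, i) :: G.cons (G.rot (v, i)).1 l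

/-- The sum of the values of `f` at the neighbours of `v`. -/
def nb [Fintype I] (G : DS V I P) (f : V → ℝ) (v : V) : ℝ := ∑ i, f (G.rot (v, i)).1

/-- The adjacency operator is positive semidefinite, and it contracts by `17.3 / 18` on functions
with sum zero. -/
structure Spec [Fintype V] [Fintype I] (G : DS V I P) : Prop where
  psd : ∀ f : V → ℝ, 0 ≤ ∑ v, f v * G.nb f v
  gap : ∀ f : V → ℝ, ∑ v, f v = 0 →
    ∑ v, f v * G.nb f v ≤ 17.3 / 18 * (Fintype.card I * ∑ v, f v ^ 2)

end DS

/-- The sum of the values of `f` on all lists of length `k`. -/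
def sumL {I : Type*} [Fintype I] : ℕ → (List I → ℝ) → ℝ
  | 0, f => f []
  | k + 1, f => ∑ i, sumL k fun l => f (i :: l)

noncomputable instance fintypeLt {I : Type*} [Finite I] (M : ℕ) :
    Fintype {l : List I // l.length < M} :=
  @Fintype.ofFinite _ (List.finite_length_lt I M).to_subtype

noncomputable instance fintypeEq {I : Type*} [Finite I] (n : ℕ) :
    Fintype {l : List I // l.length = n} :=
  @Fintype.ofFinite _ (List.finite_length_eq I n).to_subtype

/-! ### Step 1: adding an expander and loops -/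

/-- The back label of the expander labels `1, …, 8`: `k ↦ k + 4` modulo 8 (as numbers `1, …, 8`). -/
def bk (k : Fin 8) : Fin 8 := k + 4

/-- Add `8` expander edges and `9` half-loops for every label. The label `(i, k)` is the old label
`i` for `k = 0`, the expander edge `k - 1` for `1 ≤ k ≤ 8`, and a half-loop for `k ≥ 9`. -/
def exRot {V I : Type*} (r : V × I → V × I) (X : V → Fin 8 → V) : V × (I × Fin 18) → V × (I × Fin 18)
  | (v, (i, k)) =>
    if k.val = 0 then ((r (v, i)).1, ((r (v, i)).2, k))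
    else if h : k.val < 9 then
      (X v ⟨k.val - 1, by omega⟩, (i, ⟨(bk ⟨k.val - 1, by omega⟩).val + 1, by omega⟩))
    else (v, (i, k))

/-- The constraints: the old ones on the old darts, none on the others. -/
def exCon {V I P : Type*} (c : V × I → P → P → Bool) : V × (I × Fin 18) → P → P → Bool
  | (v, (i, k)) => if k.val = 0 then c (v, i) else fun _ _ => true

/-- The rotation maps of the `8`-regular expanders: `X v k` is the neighbour number `k` of `v`. -/
structure XExp {V : Type*} [Fintype V] (X : V → Fin 8 → V) : Prop where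
  inv : ∀ v k, X (X v k) (bk k) = v
  spec : ∀ f : V → ℝ, ∑ v, f v = 0 → ∑ v, ∑ k, f v * f (X v k) ≤ 7.3 * ∑ v, f v ^ 2

/-- The graph `G` with an expander and loops added. -/
def exDS {V I P : Type*} (G : DS V I P) (X : V → Fin 8 → V) : DS V (I × Fin 18) P :=
  ⟨exRot G.rot X, exCon G.con⟩

/-! ### Step 2: powering -/

/-- Labels of the power: a length `ℓ + 1 ≤ 2 M - 1` and a list of `2 M - 1` labels. -/
abbrev PLab (I : Type*) (M : ℕ) : Type _ := Fin (2 * M - 1) × {l : List I // l.length = 2 * M - 1}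

/-- Opinions about all vertices at the ends of walks of length less than `M`. -/
def Opin (I S : Type*) (M : ℕ) : Type _ := {l : List I // l.length < M} → S

noncomputable instance {I S : Type*} [Finite I] [Finite S] (M : ℕ) : Fintype (Opin I S M) :=
  @Fintype.ofFinite _ (inferInstanceAs (Finite ({l : List I // l.length < M} → S)))

noncomputable instance {I S : Type*} (M : ℕ) : DecidableEq (Opin I S M) := Classical.decEq _

/-- The opinion in the list form (with a default for long lists). -/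
def Opin.at {I S : Type*} [Inhabited S] {M : ℕ} (X : Opin I S M) (l : List I) : S :=
  if h : l.length < M then X ⟨l, h⟩ else default

/-- The constraint on a walk with `ℓ + 1` steps, `l` its labels, `q` the labels of the reverse walk,
`ks` the constraints along the walk: for every step `i` with `i < M` and `ℓ - i < M` the opinion of
the start about the start of the step and the opinion of the end about the end of the step satisfy
the constraint of the step. -/
def powCon {I S : Type*} [Inhabited S] (M ℓ : ℕ) (l q : List I) (ks : List (S → S → Bool)) :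
    Opin I S M → Opin I S M → Bool := fun X Y =>
  decide (∀ i < ℓ + 1, i < M → ℓ - i < M →
    (ks.getD i fun _ _ => true) (X.at (l.take i)) (Y.at (q.take (ℓ - i))) = true)

/-- The rotation map of the power. -/
def powRot {V I P : Type*} (G : DS V I P) (M : ℕ) : V × PLab I M → V × PLab I M
  | (v, (ℓ, p)) => (G.walk v (p.1.take (ℓ + 1)),
      (ℓ, ⟨if (G.back v (p.1.take (ℓ + 1)) ++ p.1.drop (ℓ + 1)).length = 2 * M - 1 then
          G.back v (p.1.take (ℓ + 1)) ++ p.1.drop (ℓ + 1) else p.1, by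
            split_ifs with h
            · exact h
            · exact p.2⟩))

/-- The constraints of the power. -/
def powC {V I S : Type*} [Inhabited S] (G : DS V I S) (M : ℕ) :
    V × PLab I M → Opin I S M → Opin I S M → Bool
  | (v, (ℓ, p)) => powCon M ℓ (p.1.take (ℓ + 1)) (G.back v (p.1.take (ℓ + 1)))
      (G.cons v (p.1.take (ℓ + 1)))

/-- The power of a constraint graph. -/
def powDS {V I S : Type*} [Inhabited S] (G : DS V I S) (M : ℕ) : DS V (PLab I M) (Opin I S M) :=
  ⟨powRot G M, powC G M⟩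

/-! ### Step 3: the tester -/

/-- The probability of an event under the uniform distribution. -/
noncomputable def pr {Ω : Type*} [Fintype Ω] (p : Ω → Prop) : ℝ :=
  haveI := Classical.decPred p
  (#((univ : Finset Ω).filter p) : ℝ) / Fintype.card Ω

section tester

variable (P : Type*)

/-- The randomness of one test. -/
def Rnd : Type _ :=
  ((P × P → ZMod 2) × (P × P → ZMod 2)) ×
  (((P × P) × (P × P) → ZMod 2) × ((P × P) × (P × P) → ZMod 2)) ×
  ((P → ZMod 2) × (P × P → ZMod 2)) × ((P → ZMod 2) × (P × P → ZMod 2)) ×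
  ((P × P → ZMod 2) × (P × P → ZMod 2) × ((P × P) × (P × P) → ZMod 2)) ×
  (((P × P) × (P × P) → ZMod 2) × ZMod 2 × ((P × P) × (P × P) → ZMod 2))

/-- Positions of the two auxiliary tables. -/
def Aux : Type _ := (P × P → ZMod 2) ⊕ ((P × P) × (P × P) → ZMod 2)

instance [Finite P] : Finite (Rnd P) := by
  unfold Rnd
  have h1 : Finite (P × P → ZMod 2) := inferInstance
  have h2 : Finite ((P × P) × (P × P) → ZMod 2) := inferInstance
  have h3 : Finite (P → ZMod 2) := inferInstance
  have h4 : Finite ((P × P → ZMod 2) × ((P × P) × (P × P) → ZMod 2)) := inferInstance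
  have h5 : Finite ((P × P → ZMod 2) × (P × P → ZMod 2) × ((P × P) × (P × P) → ZMod 2)) :=
    inferInstance
  have h6 : Finite (((P × P) × (P × P) → ZMod 2) × ZMod 2 × ((P × P) × (P × P) → ZMod 2)) :=
    inferInstance
  exact inferInstance

noncomputable instance [Finite P] : Fintype (Rnd P) := Fintype.ofFinite _

noncomputable instance : DecidableEq (Rnd P) := Classical.decEq _

noncomputable instance [Finite P] : Fintype (Aux P) :=
  @Fintype.ofFinite _ (inferInstanceAs
    (Finite ((P × P → ZMod 2) ⊕ ((P × P) × (P × P) → ZMod 2))))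

noncomputable instance : DecidableEq (Aux P) := Classical.decEq _

variable {P}

/-- The position which is read in the table of the start. -/
def qa (ρ : Rnd P) : P → ZMod 2 := ρ.2.2.1.1

/-- The position which is read in the table of the end. -/
def qb (ρ : Rnd P) : P → ZMod 2 := ρ.2.2.2.1.1

/-- The linear form which is tested for the constraint `c`. -/
def lin [DecidableEq P] (c : P → P → Bool) (α : (P × P) × (P × P) → ZMod 2) (α₀ : ZMod 2) :
    (P × P) × (P × P) → ZMod 2 := fun z =>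
  if z.1 = z.2 then α₀ + (if c z.1.1 z.1.2 then 0 else α z) else α z

/-- The 16 positions which are read in the auxiliary tables. -/
def qx [DecidableEq P] (c : P → P → Bool) (ρ : Rnd P) : Fin 16 → Aux P :=
  ![.inl ρ.1.1, .inl ρ.1.2, .inl (ρ.1.1 + ρ.1.2),
    .inr ρ.2.1.1, .inr ρ.2.1.2, .inr (ρ.2.1.1 + ρ.2.1.2),
    .inl ((fun z => ρ.2.2.1.1 z.1) + ρ.2.2.1.2), .inl ρ.2.2.1.2,
    .inl ((fun z => ρ.2.2.2.1.1 z.2) + ρ.2.2.2.1.2), .inl ρ.2.2.2.1.2,
    .inr ((fun z => ρ.2.2.2.2.1.1 z.1 * ρ.2.2.2.2.1.2.1 z.2) + ρ.2.2.2.2.1.2.2),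
    .inr ρ.2.2.2.2.1.2.2, .inl ρ.2.2.2.2.1.1, .inl ρ.2.2.2.2.1.2.1,
    .inr (lin c ρ.2.2.2.2.2.1 ρ.2.2.2.2.2.2.1 + ρ.2.2.2.2.2.2.2), .inr ρ.2.2.2.2.2.2.2]

/-- The test accepts the answers `w 0` (start), `w 1` (end), `w 2, …, w 17` (auxiliary tables). -/
def accept (ρ : Rnd P) (w : Fin 18 → ZMod 2) : Bool :=
  decide (w 2 + w 3 = w 4 ∧ w 5 + w 6 = w 7 ∧ w 0 = w 8 - w 9 ∧ w 1 = w 10 - w 11 ∧
    w 12 - w 13 = w 14 * w 15 ∧ w 16 - w 17 = ρ.2.2.2.2.2.2.1)

/-- The answers of the tables `A`, `B` (start and end) and `F` (auxiliary). -/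
def answers [DecidableEq P] (c : P → P → Bool) (ρ : Rnd P) (A B : (P → ZMod 2) → ZMod 2)
    (F : Aux P → ZMod 2) : Fin 18 → ZMod 2 :=
  Fin.cons (A (qa ρ)) (Fin.cons (B (qb ρ)) fun j => F (qx c ρ j))

end tester

/-! ### Step 4: the tests as vertices of a new constraint graph -/

open scoped Classical in
/-- A fibrewise expander: `R` is an involution on `Φ × Fin 9` which preserves `key`, and every set
`T` of elements with the same key `κ` which has at most half of the elements with this key has at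
least `#T / 6` darts leaving it. -/
structure FibExp {Φ K : Type*} [Fintype Φ] (key : Φ → K)
    (R : Φ × Fin 9 → Φ × Fin 9) : Prop where
  inv : ∀ p, R (R p) = p
  pres : ∀ p, key (R p).1 = key p.1
  expand : ∀ (κ : K) (T : Finset Φ), (∀ x ∈ T, key x = κ) → 2 * #T ≤ #(univ.filter fun x => key x = κ) →
    #T ≤ 6 * #((univ : Finset (Φ × Fin 9)).filter fun p => p.1 ∈ T ∧ (R p).1 ∉ T)

section tests

variable {V K P : Type*} [DecidableEq P]

/-- The tests: a dart, the randomness, and a multiplicity. -/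
abbrev Tst (V K P : Type*) (μ : ℕ) : Type _ := (V × K) × (Rnd P × Fin μ)

/-- The local form of the positions in the tables of a vertex: the label of a dart at the vertex
(`false`: the dart starts at the vertex, `true`: its reverse does), the randomness. -/
abbrev LocA (K P : Type*) (μ : ℕ) : Type _ := (K × Bool) × (Rnd P × Fin μ)

/-- The key of the local form. -/
def keyA {K P : Type*} {μ : ℕ} (x : LocA K P μ) : P → ZMod 2 :=
  if x.1.2 then qb x.2.1 else qa x.2.1

/-- The local form of the positions in the auxiliary tables of a dart with constraint `c`. -/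
abbrev LocB (P : Type*) (μ : ℕ) : Type _ := Fin 16 × (Rnd P × Fin μ)

/-- The key of the local form. -/
def keyB {μ : ℕ} (c : P → P → Bool) (x : LocB P μ) : Aux P := qx c x.2.1 x.1

/-- The global position of the answer `j` of a test. -/
def gloc {μ : ℕ} (G : DS V K P) (τ : Tst V K P μ) (j : Fin 18) :
    (V × (P → ZMod 2)) ⊕ ((V × K) × Aux P) :=
  if j.val = 0 then .inl (τ.1.1, qa τ.2.1)
  else if j.val = 1 then .inl ((G.rot τ.1).1, qb τ.2.1)
  else .inr (τ.1, qx (G.con τ.1) τ.2.1 ⟨j.val - 2, by omega⟩)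

/-- From the local form at the vertex `v` to the test and the number of the answer. -/
def outA {μ : ℕ} (G : DS V K P) (v : V) (x : LocA K P μ) : Tst V K P μ × Fin 18 :=
  if x.1.2 then ((G.rot (v, x.1.1), x.2), 1) else (((v, x.1.1), x.2), 0)

/-- The rotation map on the tests, from fibrewise expanders `RA`, `RB`. -/
def tRot {μ : ℕ} (G : DS V K P) (RA : LocA K P μ × Fin 9 → LocA K P μ × Fin 9)
    (RB : (P → P → Bool) → LocB P μ × Fin 9 → LocB P μ × Fin 9) :
    Tst V K P μ × (Fin 18 × Fin 9) → Tst V K P μ × (Fin 18 × Fin 9)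
  | (τ, (j, i)) =>
    if j.val = 0 then
      ((outA G τ.1.1 (RA (((τ.1.2, false), τ.2), i)).1).1,
        ((outA G τ.1.1 (RA (((τ.1.2, false), τ.2), i)).1).2, (RA (((τ.1.2, false), τ.2), i)).2))
    else if j.val = 1 then
      ((outA G (G.rot τ.1).1 (RA ((((G.rot τ.1).2, true), τ.2), i)).1).1,
        ((outA G (G.rot τ.1).1 (RA ((((G.rot τ.1).2, true), τ.2), i)).1).2,
          (RA ((((G.rot τ.1).2, true), τ.2), i)).2))
    else
      ((τ.1, (RB (G.con τ.1) ((⟨j.val - 2, by omega⟩, τ.2), i)).1.2),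
        (⟨(RB (G.con τ.1) ((⟨j.val - 2, by omega⟩, τ.2), i)).1.1.val + 2, by omega⟩,
          (RB (G.con τ.1) ((⟨j.val - 2, by omega⟩, τ.2), i)).2))

/-- The constraints on the tests: both tests accept and the two answers agree. -/
def tCon {μ : ℕ} (R : Tst V K P μ × (Fin 18 × Fin 9) → Tst V K P μ × (Fin 18 × Fin 9)) :
    Tst V K P μ × (Fin 18 × Fin 9) → (Fin 18 → ZMod 2) → (Fin 18 → ZMod 2) → Bool := fun p w w' =>
  accept p.1.2.1 w && accept (R p).1.2.1 w' && decide (w p.2.1 = w' (R p).2.1)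

/-- The graph of the tests. -/
def testDS {μ : ℕ} (G : DS V K P) (RA : LocA K P μ × Fin 9 → LocA K P μ × Fin 9)
    (RB : (P → P → Bool) → LocB P μ × Fin 9 → LocB P μ × Fin 9) :
    DS (Tst V K P μ) (Fin 18 × Fin 9) (Fin 18 → ZMod 2) :=
  ⟨tRot G RA RB, tCon (tRot G RA RB)⟩

end tests

/-! ### The round -/

/-- The labels of the graph after steps 1 and 2. -/
abbrev EK (I : Type) (M : ℕ) : Type := PLab (I × Fin 18) M

/-- The alphabet of the graph after steps 1 and 2. -/
abbrev EP (I S : Type) (M : ℕ) : Type := Opin (I × Fin 18) S M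

/-- The parameters of a round. -/
structure Kit (I S : Type) where
  /-- the parameter of the powering -/
  M : ℕ
  /-- the multiplicity of the tests -/
  μ : ℕ
  /-- the fibrewise expander for the tables of the vertices -/
  RA : LocA (EK I M) (EP I S M) μ × Fin 9 → LocA (EK I M) (EP I S M) μ × Fin 9
  /-- the fibrewise expanders for the tables of the darts -/
  RB : (EP I S M → EP I S M → Bool) → LocB (EP I S M) μ × Fin 9 → LocB (EP I S M) μ × Fin 9

/-- One round. -/
noncomputable def round {V I S : Type} [Fintype I] [Inhabited S] [DecidableEq S] (κ : Kit I S)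
    (X : V → Fin 8 → V) (G : DS V I S) :
    DS (Tst V (EK I κ.M) (EP I S κ.M) κ.μ) (Fin 18 × Fin 9) (Fin 18 → ZMod 2) :=
  testDS (powDS (exDS G X) κ.M) κ.RA κ.RB

/-- The parameters are as they should be. -/
structure Kit.Good {I S : Type} [Fintype I] [Fintype S] (κ : Kit I S) (c : ℕ) : Prop where
  hM : κ.M = 2 * 18 * 432 * Fintype.card S ^ 4 * 45360
  hc : Fintype.card (EK I κ.M) * Fintype.card (Rnd (EP I S κ.M)) = c
  hμ : κ.μ = c
  ha : FibExp (keyA (K := EK I κ.M) (P := EP I S κ.M) (μ := κ.μ)) κ.RA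
  hb : ∀ r : EP I S κ.M → EP I S κ.M → Bool, FibExp (keyB r) (κ.RB r)

end Pool.Agent.Lib.MP_0b8c1e_lc.PC
end

section

set_option autoImplicit false

/-!
# Definitions on the level of natural numbers (campaign PC)
-/

namespace Pool.Agent.Lib.MP_0b8c1e_lc.PC

open Finset Pool.Agent.Lib.MP_711ea9_lc Pool.Agent.Lib.MP_711ea9_lc.FH

/-- The expander on the numbers below `N * N`; the number `v` stands for the pair
`(v / N, v % N)`. The label `k + 4` belongs to the inverse of the map with the label `k`. -/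
def mg (N v : ℕ) (k : Fin 8) : ℕ :=
  ![(v / N + 2 * (v % N)) % N * N + v % N,
    (v / N + 2 * (v % N) + 1) % N * N + v % N,
    v / N * N + (v % N + 2 * (v / N)) % N,
    v / N * N + (v % N + 2 * (v / N) + 1) % N,
    (v / N + 2 * (N - v % N)) % N * N + v % N,
    (v / N + 2 * (N - v % N) + (N - 1)) % N * N + v % N,
    v / N * N + (v % N + 2 * (N - v / N)) % N,
    v / N * N + (v % N + 2 * (N - v / N) + (N - 1)) % N] k

/-- The expander on `Fin (N * N)`. -/
def mgT (N : ℕ) (v : Fin (N * N)) (k : Fin 8) : Fin (N * N) :=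
  if h : mg N v k < N * N then ⟨mg N v k, h⟩ else v

/-- A numbering of the elements of a type by the numbers below `D`. -/
structure Cod (α : Type) (D : ℕ) where
  /-- the number of an element -/
  c : α → ℕ
  /-- the element with a number -/
  d : ℕ → α
  lt : ∀ x, c x < D
  dc : ∀ x, d (c x) = x
  cd : ∀ n, n < D → c (d n) = n

/-- The number of the vertex `((v, k), y)`. -/
def vc {K Y : Type} {D : ℕ} (E : Cod (K × Y) D) (w : (ℕ × K) × Y) : ℕ := w.1.1 * D + E.c (w.1.2, w.2)

/-- The vertex with the number `τ`. -/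
def vd {K Y : Type} {D : ℕ} (E : Cod (K × Y) D) (τ : ℕ) : (ℕ × K) × Y :=
  ((τ / D, (E.d (τ % D)).1), (E.d (τ % D)).2)

/-- A graph with vertices `((v, k), y)` as a graph with vertices in `ℕ`. -/
def recode {K Y I P : Type} {D : ℕ} (E : Cod (K × Y) D) (g : DS ((ℕ × K) × Y) I P) : DS ℕ I P where
  rot := fun p => (vc E (g.rot (vd E p.1, p.2)).1, (g.rot (vd E p.1, p.2)).2)
  con := fun p => g.con (vd E p.1, p.2)

/-- The restriction of a graph to the vertices below `n`. -/
def toFin {I P : Type} (n : ℕ) (g : DS ℕ I P) : DS (Fin n) I P where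
  rot := fun p => if h : (g.rot ((p.1 : ℕ), p.2)).1 < n then
    (⟨(g.rot ((p.1 : ℕ), p.2)).1, h⟩, (g.rot ((p.1 : ℕ), p.2)).2) else p
  con := fun p => g.con ((p.1 : ℕ), p.2)

/-- The extension of a graph on `Fin n` to `ℕ`. -/
def toNat {I P : Type} {n : ℕ} (G : DS (Fin n) I P) : DS ℕ I P where
  rot := fun p => if h : p.1 < n then
    (((G.rot (⟨p.1, h⟩, p.2)).1 : ℕ), (G.rot (⟨p.1, h⟩, p.2)).2) else p
  con := fun p => if h : p.1 < n then G.con (⟨p.1, h⟩, p.2) else fun _ _ => true

/-- The vertices of the tests as pairs. -/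
abbrev TY {I S : Type} (κ : Kit I S) : Type := EK I κ.M × (Rnd (EP I S κ.M) × Fin κ.μ)

/-- One round on numbers. -/
noncomputable def rdN {I S : Type} [Fintype I] [Inhabited S] [DecidableEq S] (κ : Kit I S) {D : ℕ}
    (E : Cod (TY κ) D) (N : ℕ) (g : DS ℕ I S) : DS ℕ (Fin 18 × Fin 9) (Fin 18 → ZMod 2) :=
  recode E (round κ (mg N) g)

/-- One round on `Fin (N * N)`. -/
noncomputable def rdT {I S : Type} [Fintype I] [Inhabited S] [DecidableEq S] (κ : Kit I S) {c : ℕ}
    (E : Cod (TY κ) (c * c)) (N : ℕ) (G : DS (Fin (N * N)) I S) :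
    DS (Fin (c * N * (c * N))) (Fin 18 × Fin 9) (Fin 18 → ZMod 2) :=
  toFin (c * N * (c * N)) (rdN κ E N (toNat G))

/-! ### Graphs in arrays -/

section arrays

variable {I S : Type} {D Kc : ℕ}

/-- The code of an edge leading to the dart `(w, i)`, with the constraint `r`. -/
def ent (cI : Cod I D) (cR : Cod (S → S → Bool) Kc) (w : ℕ) (i : I) (r : S → S → Bool) : ℕ :=
  (w * D + cI.c i) * Kc + cR.c r

/-- The graph in the array `A`: the entry `1 + v D + i` describes the dart `(v, i)`. -/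
def dec (cI : Cod I D) (cR : Cod (S → S → Bool) Kc) (A : ℕ → ℕ) : DS ℕ I S where
  rot := fun p => (A (1 + p.1 * D + cI.c p.2) / Kc / D,
    cI.d (A (1 + p.1 * D + cI.c p.2) / Kc % D))
  con := fun p => cR.d (A (1 + p.1 * D + cI.c p.2) % Kc)

/-- The array of a graph, with the number `r` in entry 0. -/
def arrOf (cI : Cod I D) (cR : Cod (S → S → Bool) Kc) {n : ℕ} (r : ℕ) (G : DS (Fin n) I S)
    (j : ℕ) : ℕ :=
  if j = 0 then r
  else if h : (j - 1) / D < n then
    ent cI cR (G.rot (⟨(j - 1) / D, h⟩, cI.d ((j - 1) % D))).1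
      (G.rot (⟨(j - 1) / D, h⟩, cI.d ((j - 1) % D))).2 (G.con (⟨(j - 1) / D, h⟩, cI.d ((j - 1) % D)))
  else 0

end arrays

/-! ### Memories and computable functions -/

/-- The memory with `N` in variable 0, `A` in array 0, and zeros everywhere else. -/
def cl (N : ℕ) (A : ℕ → ℕ) : Store where
  var := fun x => if x = 0 then N else 0
  arr := fun a j => if a = 0 then A j else 0

/-- A function to an arbitrary type which has finitely many values, each of them on a computable
set. -/
def CpF {α : Type} {k : ℕ} (F : (ℕ → ℕ) → (Fin k → ℕ) → α) : Prop :=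
  ∃ T : Finset α, (∀ A e, F A e ∈ T) ∧ ∀ a ∈ T, Pp (fun A e => F A e = a)

/-- A graph on `ℕ`, depending on an array and a number, is computable. -/
def CpD {I P : Type} (g : (ℕ → ℕ) → ℕ → DS ℕ I P) : Prop :=
  ∀ (k : ℕ) (n v : (ℕ → ℕ) → (Fin k → ℕ) → ℕ) (i : (ℕ → ℕ) → (Fin k → ℕ) → I), Cp n → Cp v →
    CpF i → Cp (fun A e => ((g A (n A e)).rot (v A e, i A e)).1) ∧
      CpF (fun A e => ((g A (n A e)).rot (v A e, i A e)).2) ∧
      CpF (fun A e => (g A (n A e)).con (v A e, i A e))

/-! ### The first graph -/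

/-- The labels of all stages. -/
abbrev Idx : Type := Fin 18 × Fin 9

/-- The alphabet of all stages. -/
abbrev Lab : Type := Fin 18 → ZMod 2

/-- The unary constraint at the vertex `(c₁, c₂)` of the first graph, where `C` is the code of the
formula: the bits 0, 1, 2 are the values of the variables of the clause `c₁`, the bits 3, 4, 5 are
those of the clause `c₂`; both clauses are satisfied, and equal variables have equal values. -/
def unC (C : ℕ → ℕ) (c₁ c₂ : ℕ) (a : Lab) : Bool :=
  decide ((∃ s : Fin 3, (a ⟨s, by omega⟩).val = C (3 * c₁ + s) % 2) ∧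
    (∃ s : Fin 3, (a ⟨3 + s, by omega⟩).val = C (3 * c₂ + s) % 2) ∧
    ∀ s t : Fin 3, C (3 * c₁ + s) / 2 = C (3 * c₂ + t) / 2 →
      a ⟨s, by omega⟩ = a ⟨3 + t, by omega⟩)

/-- The rotation map of the first graph: a torus; the labels `(0, 0)`, `(0, 1)` are the steps in the
row, `(0, 2)`, `(0, 3)` are the steps in the column, all other labels are half-loops. -/
def rot0 (m : ℕ) : ℕ × Idx → ℕ × Idx := fun p =>
  if p.2 = (0, 0) then (p.1 / m * m + (p.1 % m + 1) % m, (0, 1))
  else if p.2 = (0, 1) then (p.1 / m * m + (p.1 % m + (m - 1)) % m, (0, 0))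
  else if p.2 = (0, 2) then ((p.1 / m + 1) % m * m + p.1 % m, (0, 3))
  else if p.2 = (0, 3) then ((p.1 / m + (m - 1)) % m * m + p.1 % m, (0, 2))
  else p

/-- The first graph. -/
def g0 (C : ℕ → ℕ) (m : ℕ) : DS ℕ Idx Lab where
  rot := rot0 m
  con := fun p a b => unC C (p.1 / m) (p.1 % m) a &&
    decide ((p.2 = (0, 0) ∨ p.2 = (0, 1) → ∀ s : Fin 3, a ⟨s, by omega⟩ = b ⟨s, by omega⟩) ∧
      (p.2 = (0, 2) ∨ p.2 = (0, 3) → ∀ s : Fin 3, a ⟨3 + s, by omega⟩ = b ⟨3 + s, by omega⟩))

/-! ### The last formula -/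

/-- The literal which says that the bit `j % 18` of the start (`j < 18`) or the end (`j ≥ 18`) of
the dart from `v` to `w` is not the one of the pattern `π`; there are `M` auxiliary variables. -/
def litN (M v w : ℕ) (π : Lab × Lab) (t : Fin 36) : ℕ × Bool :=
  if h : t.val < 18 then (M + 18 * v + t.val, decide (π.1 ⟨t.val, h⟩ = 0))
  else (M + 18 * w + (t.val - 18), decide (π.2 ⟨t.val - 18, by omega⟩ = 0))

/-- The clause number `q = ((v D + i) Pt + π) 36 + t` of the last formula: the variable `q` is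
auxiliary. For a dart `(v, i)` and a pattern `π` which is not allowed the `36` clauses say that the
pattern does not occur. -/
def clN {D₀ Pt : ℕ} (cI : Cod Idx D₀) (cP : Cod (Lab × Lab) Pt) (M : ℕ) (g : DS ℕ Idx Lab) (q : ℕ)
    (s : Fin 3) : ℕ × Bool :=
  let t : Fin 36 := ⟨q % 36, Nat.mod_lt _ (by norm_num)⟩
  let π := cP.d (q / 36 % Pt)
  let i := cI.d (q / 36 / Pt % D₀)
  let v := q / 36 / Pt / D₀
  let w := (g.rot (v, i)).1
  if g.con (v, i) π.1 π.2 = true then (q, true)
  else if s = 1 then litN M v w π t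
  else if s = 0 then (if q % 36 = 0 then litN M v w π t else (q - 1, false))
  else (if q % 36 = 35 then litN M v w π t else (q, true))

end Pool.Agent.Lib.MP_0b8c1e_lc.PC
end

section

set_option autoImplicit false

namespace Pool.Agent.Lib.MP_0b8c1e_lc.PC.DS

open Finset

variable {V I P : Type*} (G : DS V I P)

/-- TASK W1 (all the lemmas of this file, by induction on the list; `walk`, `back`, `cons` are
defined in `Base.lean`). -/
theorem walk_append (v : V) (l l' : List I) : G.walk v (l ++ l') = G.walk (G.walk v l) l' := by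
  induction l generalizing v with
  | nil => rfl
  | cons i l ih => exact ih _

theorem back_length (v : V) (l : List I) : (G.back v l).length = l.length := by
  induction l generalizing v with
  | nil => rfl
  | cons i l ih =>
    show (G.back (G.rot (v, i)).1 l ++ [(G.rot (v, i)).2]).length = l.length + 1
    rw [List.length_append, ih, List.length_singleton]

theorem back_append (v : V) (l l' : List I) :
    G.back v (l ++ l') = G.back (G.walk v l) l' ++ G.back v l := by
  induction l generalizing v with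
  | nil =>
    show G.back v l' = G.back v l' ++ []
    rw [List.append_nil]
  | cons i l ih =>
    show G.back (G.rot (v, i)).1 (l ++ l') ++ [(G.rot (v, i)).2] =
      G.back (G.walk (G.rot (v, i)).1 l) l' ++ (G.back (G.rot (v, i)).1 l ++ [(G.rot (v, i)).2])
    rw [ih, List.append_assoc]

/-- Proof. Induction on `l`: for `i :: l` the reverse walk is the reverse walk of `l` (from the end
back to `(rot (v, i)).1`, induction hypothesis and `walk_append`) followed by the label
`(rot (v, i)).2`, which leads back to `v` by `Inv`. -/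
theorem walk_back (hG : G.Inv) (v : V) (l : List I) : G.walk (G.walk v l) (G.back v l) = v := by
  induction l generalizing v with
  | nil => rfl
  | cons i l ih =>
    show G.walk (G.walk (G.rot (v, i)).1 l) (G.back (G.rot (v, i)).1 l ++ [(G.rot (v, i)).2]) = v
    rw [walk_append, ih]
    show (G.rot ((G.rot (v, i)).1, (G.rot (v, i)).2)).1 = v
    rw [Prod.mk.eta, hG]

/-- Proof. Induction on `l` with `back_append` and `walk_back`. -/
theorem back_back (hG : G.Inv) (v : V) (l : List I) : G.back (G.walk v l) (G.back v l) = l := by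
  induction l generalizing v with
  | nil => rfl
  | cons i l ih =>
    show G.back (G.walk (G.rot (v, i)).1 l) (G.back (G.rot (v, i)).1 l ++ [(G.rot (v, i)).2]) = i :: l
    rw [back_append, ih, walk_back G hG]
    show [] ++ [(G.rot ((G.rot (v, i)).1, (G.rot (v, i)).2)).2] ++ l = i :: l
    rw [Prod.mk.eta, hG]
    rfl

theorem cons_length (v : V) (l : List I) : (G.cons v l).length = l.length := by
  induction l generalizing v with
  | nil => rfl
  | cons i l ih =>
    show (G.con (v, i) :: G.cons (G.rot (v, i)).1 l).length = l.length + 1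
    rw [List.length_cons, ih]

/-- The constraint of step `i`. -/
theorem cons_getD (v : V) (l₁ l₂ : List I) (a : I) (x : P → P → Bool) :
    (G.cons v (l₁ ++ a :: l₂)).getD l₁.length x = G.con (G.walk v l₁, a) := by
  induction l₁ generalizing v with
  | nil => rfl
  | cons i l ih =>
    show (G.con (v, i) :: G.cons (G.rot (v, i)).1 (l ++ a :: l₂)).getD (l.length + 1) x =
      G.con (G.walk (G.rot (v, i)).1 l, a)
    rw [List.getD_cons_succ, ih]

/-- The first steps of the reverse walk are the reverse of the last steps. Proof.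
`l = l.take i ++ l.drop i`, `back_append`, `back_length`, `List.take_left'`. -/
theorem back_take (v : V) (l : List I) (i : ℕ) (hi : i ≤ l.length) :
    (G.back v l).take (l.length - i) = G.back (G.walk v (l.take i)) (l.drop i) := by
  have h1 : G.back v l = G.back (G.walk v (l.take i)) (l.drop i) ++ G.back v (l.take i) := by
    rw [← back_append, List.take_append_drop]
  rw [h1]
  apply List.take_left'
  rw [back_length, List.length_drop]

/-- Proof. `back_take`, and `walk v l = walk (walk v (l.take i)) (l.drop i)`, then `walk_back`. -/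
theorem walk_back_take (hG : G.Inv) (v : V) (l : List I) (i : ℕ) (hi : i ≤ l.length) :
    G.walk (G.walk v l) ((G.back v l).take (l.length - i)) = G.walk v (l.take i) := by
  rw [back_take G v l i hi]
  have h1 : G.walk v l = G.walk (G.walk v (l.take i)) (l.drop i) := by
    rw [← walk_append, List.take_append_drop]
  rw [h1, walk_back G hG]

end Pool.Agent.Lib.MP_0b8c1e_lc.PC.DS
end

section

set_option autoImplicit false

namespace Pool.Agent.Lib.MP_0b8c1e_lc.PC

open Finset Complex

variable {N : ℕ} [NeZero N]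

/-- The Fourier transform on `(ZMod N) ^ 2`. -/
noncomputable def ft (f : ZMod N × ZMod N → ℂ) (z : ZMod N × ZMod N) : ℂ :=
  ∑ w, f w * ZMod.stdAddChar (-(z.1 * w.1 + z.2 * w.2))

/-- The absolute value of the representative of least absolute value. -/
def ab (a : ZMod N) : ℕ := a.valMinAbs.natAbs

/-- `z` is smaller than `w`: both coordinates are at most as large, one is smaller. -/
def Lt (z w : ZMod N × ZMod N) : Prop :=
  ab z.1 ≤ ab w.1 ∧ ab z.2 ≤ ab w.2 ∧ (ab z.1 < ab w.1 ∨ ab z.2 < ab w.2)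

open scoped Classical in
/-- The weight: `5 / 4` if `w` is smaller than `z`, `4 / 5` if `z` is smaller than `w`. -/
noncomputable def gam (z w : ZMod N × ZMod N) : ℝ :=
  if Lt w z then 5 / 4 else if Lt z w then 4 / 5 else 1

/-- The factor of a frequency. -/
noncomputable def cs (a : ZMod N) : ℝ := |Real.cos (Real.pi * a.valMinAbs / N)|

/-- The expander on `(ZMod N) ^ 2`. -/
def mgg (v : ZMod N × ZMod N) (k : Fin 8) : ZMod N × ZMod N :=
  ![(v.1 + 2 * v.2, v.2), (v.1 + 2 * v.2 + 1, v.2), (v.1, v.2 + 2 * v.1),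
    (v.1, v.2 + 2 * v.1 + 1), (v.1 - 2 * v.2, v.2), (v.1 - 2 * v.2 - 1, v.2),
    (v.1, v.2 - 2 * v.1), (v.1, v.2 - 2 * v.1 - 1)] k

/-- The rotation map `R` on `Φ × Fin 9` is an expander with constant `1 / 6`. -/
def Exp6 {Φ : Type*} [Fintype Φ] [DecidableEq Φ] (R : Φ × Fin 9 → Φ × Fin 9) : Prop :=
  (∀ p, R (R p) = p) ∧ ∀ T : Finset Φ, 2 * #T ≤ Fintype.card Φ →
    #T ≤ 6 * #((univ : Finset (Φ × Fin 9)).filter fun p => p.1 ∈ T ∧ (R p).1 ∉ T)

end Pool.Agent.Lib.MP_0b8c1e_lc.PC
end

section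

set_option autoImplicit false

namespace Pool.Agent.Lib.MP_0b8c1e_lc.PC

open Finset Complex

variable {N : ℕ} [NeZero N]

private theorem X1_orth (w w' : ZMod N × ZMod N) :
    ∑ z : ZMod N × ZMod N, (ZMod.stdAddChar (-(z.1 * w.1 + z.2 * w.2)) : ℂ) *
      ZMod.stdAddChar (z.1 * w'.1 + z.2 * w'.2) = if w = w' then (N : ℂ) ^ 2 else 0 := by
  have h1 : ∀ z : ZMod N × ZMod N, (ZMod.stdAddChar (-(z.1 * w.1 + z.2 * w.2)) : ℂ) *
      ZMod.stdAddChar (z.1 * w'.1 + z.2 * w'.2) =
      ZMod.stdAddChar (z.1 * (w'.1 - w.1)) * ZMod.stdAddChar (z.2 * (w'.2 - w.2)) := by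
    intro z
    rw [← AddChar.map_add_eq_mul, ← AddChar.map_add_eq_mul]
    congr 1
    ring
  rw [Fintype.sum_congr _ _ h1, Fintype.sum_prod_type]
  simp only
  rw [← Finset.sum_mul_sum, AddChar.sum_mulShift _ (ZMod.isPrimitive_stdAddChar N),
    AddChar.sum_mulShift _ (ZMod.isPrimitive_stdAddChar N), ZMod.card]
  by_cases h2 : w = w'
  · subst h2
    simp [pow_two]
  · rw [if_neg h2]
    by_cases h3 : w'.1 - w.1 = 0
    · have h4 : w'.2 - w.2 ≠ 0 := fun h => h2 (Prod.ext (sub_eq_zero.1 h3).symm (sub_eq_zero.1 h).symm)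
      simp [h4]
    · simp [h3]

/-- TASK X1a. Parseval. -/
theorem ft_parseval (f g : ZMod N × ZMod N → ℂ) :
    ∑ z, ft f z * (starRingEnd ℂ) (ft g z) = (N : ℂ) ^ 2 * ∑ w, f w * (starRingEnd ℂ) (g w) := by
  have h1 : ∀ z : ZMod N × ZMod N, ft f z * (starRingEnd ℂ) (ft g z) =
      ∑ w, ∑ w', f w * (starRingEnd ℂ) (g w') *
        ((ZMod.stdAddChar (-(z.1 * w.1 + z.2 * w.2)) : ℂ) *
          ZMod.stdAddChar (z.1 * w'.1 + z.2 * w'.2)) := by
    intro z
    unfold ft
    rw [map_sum, Finset.sum_mul_sum]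
    refine Finset.sum_congr rfl fun w _ => Finset.sum_congr rfl fun w' _ => ?_
    rw [map_mul, ← AddChar.map_neg_eq_conj, neg_neg]
    ring
  rw [Fintype.sum_congr _ _ h1, Finset.sum_comm, Finset.mul_sum]
  refine Finset.sum_congr rfl fun w _ => ?_
  rw [Finset.sum_comm]
  have h2 : ∀ w' : ZMod N × ZMod N, ∑ z : ZMod N × ZMod N, f w * (starRingEnd ℂ) (g w') *
        ((ZMod.stdAddChar (-(z.1 * w.1 + z.2 * w.2)) : ℂ) *
          ZMod.stdAddChar (z.1 * w'.1 + z.2 * w'.2)) =
      if w = w' then (N : ℂ) ^ 2 * (f w * (starRingEnd ℂ) (g w')) else 0 := by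
    intro w'
    rw [← Finset.mul_sum, X1_orth]
    split_ifs
    · ring
    · ring
  rw [Fintype.sum_congr _ _ h2, Finset.sum_ite_eq]
  simp

private def X1_eL (t : ZMod N) : ZMod N × ZMod N ≃ ZMod N × ZMod N where
  toFun w := (w.1 + 2 * w.2 + t, w.2)
  invFun w := (w.1 - 2 * w.2 - t, w.2)
  left_inv w := by ext <;> simp <;> ring
  right_inv w := by ext <;> simp <;> ring

private def X1_eR (t : ZMod N) : ZMod N × ZMod N ≃ ZMod N × ZMod N where
  toFun w := (w.1, w.2 + 2 * w.1 + t)
  invFun w := (w.1, w.2 - 2 * w.1 - t)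
  left_inv w := by ext <;> simp <;> ring
  right_inv w := by ext <;> simp <;> ring

/-- TASK X1b. Substitution `x' = x + 2 y + t`. -/
theorem ft_shear_left (f : ZMod N × ZMod N → ℂ) (t a b : ZMod N) :
    ft (fun w => f (w.1 + 2 * w.2 + t, w.2)) (a, b) =
      ZMod.stdAddChar (a * t) * ft f (a, b - 2 * a) := by
  unfold ft
  rw [Finset.mul_sum]
  refine Fintype.sum_equiv (X1_eL t) _ _ fun w => ?_
  show f (w.1 + 2 * w.2 + t, w.2) * ZMod.stdAddChar (-(a * w.1 + b * w.2)) =
    ZMod.stdAddChar (a * t) * (f (w.1 + 2 * w.2 + t, w.2) *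
      ZMod.stdAddChar (-(a * (w.1 + 2 * w.2 + t) + (b - 2 * a) * w.2)))
  rw [show -(a * w.1 + b * w.2) = a * t + -(a * (w.1 + 2 * w.2 + t) + (b - 2 * a) * w.2) by ring,
    AddChar.map_add_eq_mul]
  ring

/-- TASK X1c. The same for the other coordinate. -/
theorem ft_shear_right (f : ZMod N × ZMod N → ℂ) (t a b : ZMod N) :
    ft (fun w => f (w.1, w.2 + 2 * w.1 + t)) (a, b) =
      ZMod.stdAddChar (b * t) * ft f (a - 2 * b, b) := by
  unfold ft
  rw [Finset.mul_sum]
  refine Fintype.sum_equiv (X1_eR t) _ _ fun w => ?_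
  show f (w.1, w.2 + 2 * w.1 + t) * ZMod.stdAddChar (-(a * w.1 + b * w.2)) =
    ZMod.stdAddChar (b * t) * (f (w.1, w.2 + 2 * w.1 + t) *
      ZMod.stdAddChar (-((a - 2 * b) * w.1 + b * (w.2 + 2 * w.1 + t))))
  rw [show -(a * w.1 + b * w.2) = b * t + -((a - 2 * b) * w.1 + b * (w.2 + 2 * w.1 + t)) by ring,
    AddChar.map_add_eq_mul]
  ring

/-- TASK X1d. `|1 + χ(a)| = 2 |cos (π a / N)|`. -/
theorem norm_one_add_char (a : ZMod N) :
    ‖1 + ZMod.stdAddChar a‖ = 2 * |Real.cos (Real.pi * a.valMinAbs / N)| := by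
  have h1 : (ZMod.stdAddChar a : ℂ) = Complex.exp (2 * Real.pi * I * a.valMinAbs / N) := by
    conv_lhs => rw [← ZMod.coe_valMinAbs a]
    exact ZMod.stdAddChar_coe _
  set θ : ℝ := Real.pi * a.valMinAbs / N with hθ
  have h2 : (2 * Real.pi * I * a.valMinAbs / N : ℂ) = θ * I + θ * I := by
    rw [hθ]
    push_cast
    ring
  rw [h1, h2]
  have h3 : (1 : ℂ) + Complex.exp (θ * I + θ * I) = Complex.exp (θ * I) * (2 * Complex.cos θ) := by
    rw [Complex.two_cos, Complex.exp_add, mul_add, ← Complex.exp_add, ← Complex.exp_add]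
    have : (θ : ℂ) * I + -θ * I = 0 := by ring
    rw [this, Complex.exp_zero, Complex.exp_add]
    ring
  rw [h3, norm_mul, Complex.norm_exp_ofReal_mul_I, one_mul, norm_mul, ← Complex.ofReal_cos,
    Complex.norm_real, Real.norm_eq_abs]
  norm_num

end Pool.Agent.Lib.MP_0b8c1e_lc.PC
end

section

set_option autoImplicit false

namespace Pool.Agent.Lib.MP_0b8c1e_lc.PC

open Finset

variable {N : ℕ} [NeZero N]

private theorem X3a_ab_le (a : ZMod N) : 2 * ab a ≤ N := by
  have h := ZMod.natAbs_valMinAbs_le a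
  unfold ab
  omega

private theorem X3a_pos : (0 : ℝ) < N := by
  have : 0 < N := Nat.pos_of_ne_zero (NeZero.ne N)
  exact_mod_cast this

private theorem X3a_bound (a : ZMod N) :
    0 ≤ Real.pi * (ab a : ℝ) / N ∧ Real.pi * (ab a : ℝ) / N ≤ Real.pi / 2 := by
  have hN : (0 : ℝ) < N := X3a_pos
  have h1 : (2 : ℝ) * (ab a : ℝ) ≤ N := by exact_mod_cast X3a_ab_le a
  have hpi := Real.pi_pos
  have h0 : (0 : ℝ) ≤ (ab a : ℝ) := Nat.cast_nonneg _
  constructor
  · positivity
  · rw [div_le_div_iff₀ hN (by norm_num)]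
    nlinarith

private theorem X3a_cs (a : ZMod N) : cs a = Real.cos (Real.pi * (ab a : ℝ) / N) := by
  have hb := X3a_bound a
  have hpi := Real.pi_pos
  have hN : (0 : ℝ) < N := X3a_pos
  have h1 : Real.cos (Real.pi * (a.valMinAbs : ℝ) / N) = Real.cos (Real.pi * (ab a : ℝ) / N) := by
    rw [← Real.cos_abs]
    congr 1
    unfold ab
    rw [Nat.cast_natAbs, Int.cast_abs, abs_div, abs_mul, abs_of_pos hpi, abs_of_pos hN]
  unfold cs
  rw [h1, abs_of_nonneg]
  exact Real.cos_nonneg_of_neg_pi_div_two_le_of_le (by linarith) hb.2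

/-- TASK X3a. If `ab a + ab b ≥ N / 2` then `cs a + cs b ≤ √2`. Proof. `cs a = cos (π α)` with
`α = ab a / N ∈ [0, 1/2]` (`Real.cos_abs`; the cosine is nonnegative there), similarly `β`, and
`α + β ≥ 1/2`: `cos (π α) + cos (π β) = 2 cos (π (α + β) / 2) cos (π (α - β) / 2)
≤ 2 cos (π / 4) = √2` (cosine is antitone on `[0, π]`, and `π (α + β) / 2 ∈ [π / 4, π / 2]`). -/
theorem cs_add_le {a b : ZMod N} (h : N ≤ 2 * (ab a + ab b)) : cs a + cs b ≤ Real.sqrt 2 := by
  have ha := X3a_bound a
  have hb := X3a_bound b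
  have hpi := Real.pi_pos
  have hN : (0 : ℝ) < N := X3a_pos
  have h' : (N : ℝ) ≤ 2 * ((ab a : ℝ) + (ab b : ℝ)) := by exact_mod_cast h
  have hsum : Real.pi / 2 ≤ Real.pi * (ab a : ℝ) / N + Real.pi * (ab b : ℝ) / N := by
    rw [← add_div, ← mul_add, div_le_div_iff₀ (by norm_num) hN]
    nlinarith
  rw [X3a_cs, X3a_cs]
  generalize Real.pi * (ab a : ℝ) / N = α at *
  generalize Real.pi * (ab b : ℝ) / N = β at *
  rw [Real.cos_add_cos]
  have h1 : Real.cos ((α + β) / 2) ≤ Real.sqrt 2 / 2 := by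
    rw [← Real.cos_pi_div_four]
    apply Real.cos_le_cos_of_nonneg_of_le_pi <;> linarith [ha.1, ha.2, hb.1, hb.2]
  have h2 : 0 ≤ Real.cos ((α + β) / 2) :=
    Real.cos_nonneg_of_neg_pi_div_two_le_of_le (by linarith [ha.1, hb.1]) (by linarith [ha.2, hb.2])
  have h3 : Real.cos ((α - β) / 2) ≤ 1 := Real.cos_le_one _
  calc 2 * Real.cos ((α + β) / 2) * Real.cos ((α - β) / 2)
      ≤ 2 * Real.cos ((α + β) / 2) * 1 := by
        apply mul_le_mul_of_nonneg_left h3
        linarith
    _ ≤ Real.sqrt 2 := by linarith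

end Pool.Agent.Lib.MP_0b8c1e_lc.PC
end

section

set_option autoImplicit false

namespace Pool.Agent.Lib.MP_0b8c1e_lc.PC

open Finset DS

variable {V K P : Type*} [DecidableEq P] [Fintype K] [Fintype P] {μ : ℕ}
  {G : DS V K P} {RA : LocA K P μ × Fin 9 → LocA K P μ × Fin 9}
  {RB : (P → P → Bool) → LocB P μ × Fin 9 → LocB P μ × Fin 9}

/-- TASK C1a. The rotation map on the positions in the tables of the vertices: the darts of the
form `(outA G v x, i)` (the numbers `0`, `1` of the answers). Proof. Case distinction on `x.1.2`: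
for `outA G v ((k, false), y) = (((v, k), y), 0)` unfold; for
`outA G v ((k, true), y) = ((rot (v, k), y), 1)` note that `rot (rot (v, k)) = (v, k)`. -/
theorem tRot_outA (hG : G.Inv) (v : V) (x : LocA K P μ) (i : Fin 9) :
    tRot G RA RB ((outA G v x).1, ((outA G v x).2, i)) =
      ((outA G v (RA (x, i)).1).1, ((outA G v (RA (x, i)).1).2, (RA (x, i)).2)) := by
  obtain ⟨⟨k, b⟩, y⟩ := x
  cases b
  · have h1 : outA G v ((k, false), y) = (((v, k), y), 0) := by simp [outA]
    rw [h1]
    rfl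
  · have h1 : outA G v ((k, true), y) = ((G.rot (v, k), y), 1) := by simp [outA]
    rw [h1]
    have h2 : tRot G RA RB ((G.rot (v, k), y), ((1 : Fin 18), i)) =
      ((outA G (G.rot (G.rot (v, k))).1 (RA ((((G.rot (G.rot (v, k))).2, true), y), i)).1).1,
        ((outA G (G.rot (G.rot (v, k))).1 (RA ((((G.rot (G.rot (v, k))).2, true), y), i)).1).2,
          (RA ((((G.rot (G.rot (v, k))).2, true), y), i)).2)) := rfl
    rw [h2, hG (v, k)]

/-- TASK C1b. The same for the positions in the auxiliary tables. -/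
theorem tRot_aux (e : V × K) (x : LocB P μ) (i : Fin 9) :
    tRot G RA RB ((e, x.2), (⟨x.1.val + 2, by omega⟩, i)) =
      ((e, (RB (G.con e) (x, i)).1.2),
        (⟨(RB (G.con e) (x, i)).1.1.val + 2, by omega⟩, (RB (G.con e) (x, i)).2)) := by
  obtain ⟨j, y⟩ := x
  have h0 : ¬ ((j.val + 2) = 0) := by omega
  have h1 : ¬ ((j.val + 2) = 1) := by omega
  simp only [tRot, h0, h1, if_false, Nat.add_sub_cancel]

/-- TASK C1c. Every pair (test, number of an answer) with a number `< 2` is `outA G v x` for exactly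
one `v` and `x`. -/
theorem exists_outA (hG : G.Inv) (τ : Tst V K P μ) (j : Fin 18) (hj : j.val < 2) :
    ∃ v x, outA G v x = (τ, j) := by
  obtain ⟨⟨v, k⟩, y⟩ := τ
  have hj' : j = 0 ∨ j = 1 := by
    rcases Nat.lt_or_ge j.val 1 with h | h
    · left
      apply Fin.ext
      show j.val = 0
      omega
    · right
      apply Fin.ext
      show j.val = 1
      omega
  rcases hj' with rfl | rfl
  · exact ⟨v, ((k, false), y), by simp [outA]⟩
  · refine ⟨(G.rot (v, k)).1, (((G.rot (v, k)).2, true), y), ?_⟩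
    have h1 : outA G (G.rot (v, k)).1 (((G.rot (v, k)).2, true), y) =
      ((G.rot (G.rot (v, k)), y), 1) := by simp [outA]
    rw [h1, hG (v, k)]

theorem outA_injective (hG : G.Inv) (v v' : V) (x x' : LocA K P μ)
    (h : outA G v x = outA G v' x') : v = v' ∧ x = x' := by
  obtain ⟨⟨k, b⟩, y⟩ := x
  obtain ⟨⟨k', b'⟩, y'⟩ := x'
  cases b <;> cases b'
  · simp only [outA, Bool.false_eq_true, if_false, Prod.mk.injEq, and_true] at h
    obtain ⟨⟨h1, h2⟩, h3⟩ := h
    subst h1 h2 h3
    exact ⟨rfl, rfl⟩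
  · exfalso
    have h1 := congrArg Prod.snd h
    simp [outA] at h1
  · exfalso
    have h1 := congrArg Prod.snd h
    simp [outA] at h1
  · simp only [outA, if_true, Prod.mk.injEq, and_true] at h
    obtain ⟨h1, h3⟩ := h
    have h2 := congrArg G.rot h1
    rw [hG, hG] at h2
    simp only [Prod.mk.injEq] at h2
    obtain ⟨h2, h4⟩ := h2
    subst h2 h4 h3
    exact ⟨rfl, rfl⟩

/-- TASK C1d. The position of an answer in local form. -/
theorem gloc_outA (hG : G.Inv) (v : V) (x : LocA K P μ) :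
    gloc G (outA G v x).1 (outA G v x).2 = .inl (v, keyA x) := by
  obtain ⟨⟨k, b⟩, y⟩ := x
  cases b
  · have h1 : outA G v ((k, false), y) = (((v, k), y), 0) := by simp [outA]
    rw [h1]
    rfl
  · have h1 : outA G v ((k, true), y) = ((G.rot (v, k), y), 1) := by simp [outA]
    rw [h1]
    have h2 : gloc G (G.rot (v, k), y) (1 : Fin 18) =
      .inl ((G.rot (G.rot (v, k))).1, qb y.1) := rfl
    rw [h2, hG (v, k)]
    rfl

theorem gloc_aux (e : V × K) (x : LocB P μ) :
    gloc G (e, x.2) ⟨x.1.val + 2, by omega⟩ = .inr (e, keyB (G.con e) x) := by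
  obtain ⟨j, y⟩ := x
  have h0 : ¬ ((j.val + 2) = 0) := by omega
  have h1 : ¬ ((j.val + 2) = 1) := by omega
  simp only [gloc, h0, h1, if_false, Nat.add_sub_cancel, keyB]

/-- TASK C1e. Proof. By `exists_outA` and `tRot_outA` twice for the numbers `0`, `1`; by `tRot_aux`
twice for the others; `RA`, `RB` are involutions. -/
theorem testDS_inv (hG : G.Inv) (hA : ∀ p, RA (RA p) = p) (hB : ∀ c p, RB c (RB c p) = p) :
    (testDS G RA RB).Inv := by
  rintro ⟨τ, j, i⟩
  show tRot G RA RB (tRot G RA RB (τ, (j, i))) = (τ, (j, i))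
  rcases Nat.lt_or_ge j.val 2 with hj | hj
  · obtain ⟨v, x, hx⟩ := exists_outA hG τ j hj
    have e1 : τ = (outA G v x).1 := by rw [hx]
    have e2 : j = (outA G v x).2 := by rw [hx]
    rw [e1, e2, tRot_outA hG, tRot_outA hG, Prod.mk.eta, hA]
  · obtain ⟨e, y⟩ := τ
    obtain ⟨x, hx⟩ : ∃ x : Fin 16, j = ⟨x.val + 2, Nat.add_lt_add_right x.2 2⟩ :=
      ⟨⟨j.val - 2, by omega⟩, Fin.ext (show j.val = j.val - 2 + 2 by omega)⟩
    subst hx
    have h1 := tRot_aux (G := G) (RA := RA) (RB := RB) e (x, y) i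
    rw [h1]
    have h2 := tRot_aux (G := G) (RA := RA) (RB := RB) e (RB (G.con e) ((x, y), i)).1
      (RB (G.con e) ((x, y), i)).2
    rw [h2]
    simp only [Prod.mk.eta, hB]

/-- TASK C1f. The rotation map connects answers at the same position. -/
theorem gloc_tRot (hG : G.Inv) (hA : ∀ p, keyA (RA p).1 = keyA p.1)
    (hB : ∀ c p, keyB c (RB c p).1 = keyB c p.1) (p : Tst V K P μ × (Fin 18 × Fin 9)) :
    gloc G (tRot G RA RB p).1 (tRot G RA RB p).2.1 = gloc G p.1 p.2.1 := by
  obtain ⟨τ, j, i⟩ := p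
  rcases Nat.lt_or_ge j.val 2 with hj | hj
  · obtain ⟨v, x, hx⟩ := exists_outA hG τ j hj
    have e1 : τ = (outA G v x).1 := by rw [hx]
    have e2 : j = (outA G v x).2 := by rw [hx]
    rw [e1, e2, tRot_outA hG, gloc_outA hG, gloc_outA hG, hA]
  · obtain ⟨e, y⟩ := τ
    obtain ⟨x, hx⟩ : ∃ x : Fin 16, j = ⟨x.val + 2, Nat.add_lt_add_right x.2 2⟩ :=
      ⟨⟨j.val - 2, by omega⟩, Fin.ext (show j.val = j.val - 2 + 2 by omega)⟩
    subst hx
    have h1 := tRot_aux (G := G) (RA := RA) (RB := RB) e (x, y) i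
    rw [h1]
    have h2 := gloc_aux (G := G) e (RB (G.con e) ((x, y), i)).1
    have h3 := gloc_aux (G := G) e (x, y)
    rw [h2, h3, hB]

end Pool.Agent.Lib.MP_0b8c1e_lc.PC
end

section

set_option autoImplicit false

namespace Pool.Agent.Lib.MP_0b8c1e_lc.PC

open Finset DS

/-- The linear form with the coefficients `ℓ`. -/
def dot {Z : Type*} [Fintype Z] (ℓ u : Z → ZMod 2) : ZMod 2 := ∑ z, u z * ℓ z

section

variable {P : Type*} [Fintype P] [DecidableEq P]

/-- The six parts of the test. -/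
structure Fails (c : P → P → Bool) (A B : (P → ZMod 2) → ZMod 2) (F : Aux P → ZMod 2) (η : ℝ) :
    Prop where
  h1 : pr (fun w : (P × P → ZMod 2) × (P × P → ZMod 2) =>
    F (.inl w.1) + F (.inl w.2) ≠ F (.inl (w.1 + w.2))) ≤ η
  h2 : pr (fun w : ((P × P) × (P × P) → ZMod 2) × ((P × P) × (P × P) → ZMod 2) =>
    F (.inr w.1) + F (.inr w.2) ≠ F (.inr (w.1 + w.2))) ≤ η
  h3 : pr (fun w : (P → ZMod 2) × (P × P → ZMod 2) =>
    A w.1 ≠ F (.inl ((fun z => w.1 z.1) + w.2)) - F (.inl w.2)) ≤ η
  h4 : pr (fun w : (P → ZMod 2) × (P × P → ZMod 2) =>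
    B w.1 ≠ F (.inl ((fun z => w.1 z.2) + w.2)) - F (.inl w.2)) ≤ η
  h5 : pr (fun w : (P × P → ZMod 2) × (P × P → ZMod 2) × ((P × P) × (P × P) → ZMod 2) =>
    F (.inr ((fun z => w.1 z.1 * w.2.1 z.2) + w.2.2)) - F (.inr w.2.2) ≠
      F (.inl w.1) * F (.inl w.2.1)) ≤ η
  h6 : pr (fun w : ((P × P) × (P × P) → ZMod 2) × ZMod 2 × ((P × P) × (P × P) → ZMod 2) =>
    F (.inr (lin c w.1 w.2.1 + w.2.2)) - F (.inr w.2.2) ≠ w.2.1) ≤ η

end

section

variable {V K P : Type*} [DecidableEq P] [Fintype K] [Fintype P] [Fintype V] {μ : ℕ}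

/-- The answers of a table of all positions. -/
def ans (G : DS V K P) (T : (V × (P → ZMod 2)) ⊕ ((V × K) × Aux P) → ZMod 2) (τ : Tst V K P μ) :
    Fin 18 → ZMod 2 := fun j => T (gloc G τ j)

end

end Pool.Agent.Lib.MP_0b8c1e_lc.PC
end

section

set_option autoImplicit false

namespace Pool.Agent.Lib.MP_0b8c1e_lc.PC

open Finset DS

variable {V K P : Type*} [DecidableEq P] [Fintype K] [Fintype P] [Fintype V] {μ : ℕ}
  {G : DS V K P} {RA : LocA K P μ × Fin 9 → LocA K P μ × Fin 9}
  {RB : (P → P → Bool) → LocB P μ × Fin 9 → LocB P μ × Fin 9}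

private theorem C3a_maj {Y : Type*} (s : Finset Y) (β : Y → ZMod 2) :
    ∃ t : ZMod 2, ∀ s' : Finset Y, (∀ y ∈ s', y ∈ s ∧ β y ≠ t) → 2 * #s' ≤ #s := by
  classical
  have h1 := Finset.card_filter_add_card_filter_not (s := s) (fun y => β y ≠ 0)
  by_cases h : 2 * #(s.filter fun y => β y ≠ 0) ≤ #s
  · refine ⟨0, fun s' hs' => ?_⟩
    have h2 : #s' ≤ #(s.filter fun y => β y ≠ 0) :=
      Finset.card_le_card fun y hy => Finset.mem_filter.mpr (hs' y hy)
    omega
  · refine ⟨1, fun s' hs' => ?_⟩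
    have h2 : #s' ≤ #(s.filter fun y => ¬ β y ≠ 0) := by
      apply Finset.card_le_card
      intro y hy
      obtain ⟨h3, h4⟩ := hs' y hy
      refine Finset.mem_filter.mpr ⟨h3, ?_⟩
      have h5 : ∀ a : ZMod 2, a ≠ 1 → ¬ a ≠ 0 := by decide
      exact h5 _ h4
    omega

open scoped Classical in
/-- TASK C3a. Majority. Proof. For every position choose the more frequent value. -/
theorem exists_majority (G : DS V K P) (β : Tst V K P μ → Fin 18 → ZMod 2) :
    ∃ T : (V × (P → ZMod 2)) ⊕ ((V × K) × Aux P) → ZMod 2, ∀ x,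
      2 * #((univ : Finset (Tst V K P μ × Fin 18)).filter fun y =>
        gloc G y.1 y.2 = x ∧ β y.1 y.2 ≠ T x) ≤
      #((univ : Finset (Tst V K P μ × Fin 18)).filter fun y => gloc G y.1 y.2 = x) := by
  choose T hT using fun x => C3a_maj ((univ : Finset (Tst V K P μ × Fin 18)).filter
    fun y => gloc G y.1 y.2 = x) (fun y => β y.1 y.2)
  refine ⟨T, fun x => hT x _ ?_⟩
  intro y hy
  have h := (Finset.mem_filter.mp hy).2
  exact ⟨Finset.mem_filter.mpr ⟨Finset.mem_univ _, h.1⟩, h.2⟩

end Pool.Agent.Lib.MP_0b8c1e_lc.PC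
end

section

set_option autoImplicit false

namespace Pool.Agent.Lib.MP_0b8c1e_lc.PC

open Finset DS

variable {V K P : Type*} [DecidableEq P] [Fintype K] [Fintype P] [Fintype V] {μ : ℕ}
  {G : DS V K P} {RA : LocA K P μ × Fin 9 → LocA K P μ × Fin 9}
  {RB : (P → P → Bool) → LocB P μ × Fin 9 → LocB P μ × Fin 9}

private theorem C3b_mem {α : Type*} [Fintype α] {p : α → Prop} (inst : DecidablePred p) {a : α}
    (h : p a) : a ∈ @Finset.filter α p inst univ :=
  Finset.mem_filter.2 ⟨Finset.mem_univ a, h⟩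

private theorem C3b_gen {Φ κ Θ : Type*} [Fintype Φ] [Fintype Θ] {key : Φ → κ}
    {R : Φ × Fin 9 → Φ × Fin 9} (hR : FibExp key R) (f : Φ → Θ × Fin 18) (hf : Function.Injective f)
    (T : Θ × (Fin 18 × Fin 9) → Θ × (Fin 18 × Fin 9))
    (hT : ∀ x i, T ((f x).1, ((f x).2, i)) =
      ((f (R (x, i)).1).1, ((f (R (x, i)).1).2, (R (x, i)).2)))
    (S : Finset (Θ × Fin 18)) (κ₀ : κ) (hS : ∀ y, y ∈ S ↔ ∃ x, key x = κ₀ ∧ f x = y)
    (A : Finset (Θ × Fin 18)) (hA : ∀ y ∈ A, y ∈ S) (h2 : 2 * #A ≤ #S)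
    (D : Finset (Θ × (Fin 18 × Fin 9)))
    (hD : ∀ p : Θ × (Fin 18 × Fin 9), (p.1, p.2.1) ∈ A ∧ ((T p).1, (T p).2.1) ∉ A → p ∈ D) :
    #A ≤ 6 * #D := by
  classical
  let A' : Finset Φ := univ.filter fun x => f x ∈ A
  have hA' : ∀ x, x ∈ A' ↔ f x ∈ A := fun x => by simp [A']
  have hkey : ∀ x ∈ A', key x = κ₀ := by
    intro x hx
    obtain ⟨x', h3, h4⟩ := (hS _).1 (hA _ ((hA' x).1 hx))
    rw [← hf h4]
    exact h3
  have hc : #A ≤ #A' := by
    refine Finset.card_le_card_of_surjOn f fun y hy => ?_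
    obtain ⟨x, -, h4⟩ := (hS _).1 (hA y (Finset.mem_coe.1 hy))
    refine ⟨x, Finset.mem_coe.2 ((hA' x).2 ?_), h4⟩
    rw [h4]
    exact Finset.mem_coe.1 hy
  have hc' : #A' ≤ #A :=
    Finset.card_le_card_of_injOn f (fun x hx => Finset.mem_coe.2 ((hA' x).1 (Finset.mem_coe.1 hx)))
      hf.injOn
  have h5 := hR.expand κ₀ A' hkey (by
    refine le_trans (le_trans (Nat.mul_le_mul_left 2 hc') h2) ?_
    refine Finset.card_le_card_of_surjOn f fun y hy => ?_
    obtain ⟨x, h3, h4⟩ := (hS _).1 (Finset.mem_coe.1 hy)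
    exact ⟨x, Finset.mem_coe.2 (Finset.mem_filter.2 ⟨Finset.mem_univ _, h3⟩), h4⟩)
  refine le_trans hc (le_trans h5 (Nat.mul_le_mul_left 6 ?_))
  refine Finset.card_le_card_of_injOn (fun p => ((f p.1).1, ((f p.1).2, p.2))) ?_ ?_
  · intro p hp
    obtain ⟨-, h6, h7⟩ := Finset.mem_filter.1 (Finset.mem_coe.1 hp)
    refine Finset.mem_coe.2 (hD _ ⟨(hA' _).1 h6, ?_⟩)
    show ((T ((f p.1).1, ((f p.1).2, p.2))).1, (T ((f p.1).1, ((f p.1).2, p.2))).2.1) ∉ A
    rw [hT p.1 p.2]
    exact fun h8 => h7 ((hA' _).2 h8)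
  · intro p _ p' _ h8
    have h9 : ((f p.1).1, ((f p.1).2, p.2)) = ((f p'.1).1, ((f p'.1).2, p'.2)) := h8
    have h10 : f p.1 = f p'.1 :=
      Prod.ext (congrArg (fun z => z.1) h9) (congrArg (fun z => z.2.1) h9)
    exact Prod.ext (hf h10) (congrArg (fun z => z.2.2) h9)

open scoped Classical in
/-- TASK C3b. Expansion in the fibre of a position in the table of a vertex.

Proof. Let `A` be the set on the left, `A' = {x : LocA | outA G v x ∈ A}`. By `exists_outA`,
`outA_injective`, `gloc_outA` the map `outA G v` is a bijection from `{x | keyA x = r}` to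
`{y | gloc y = inl (v, r)}` (an answer with a number `≥ 2` has a position `inr`) and from `A'` to
`A`. `FibExp.expand` for `A'` gives `#A ≤ 6 #{(x, i) | x ∈ A', (RA (x, i)).1 ∉ A'}`, and by
`tRot_outA` the map `(x, i) ↦ ((outA G v x).1, ((outA G v x).2, i))` is an injection of the set on the
right into the set on the right side. -/
theorem expand_inl (hG : G.Inv) (hA : FibExp keyA RA) (v : V) (r : P → ZMod 2)
    (A : Finset (Tst V K P μ × Fin 18)) (h : ∀ y ∈ A, gloc G y.1 y.2 = .inl (v, r))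
    (h2 : 2 * #A ≤
      #((univ : Finset (Tst V K P μ × Fin 18)).filter fun y => gloc G y.1 y.2 = .inl (v, r))) :
    #A ≤ 6 * #((univ : Finset (Tst V K P μ × (Fin 18 × Fin 9))).filter fun p =>
      (p.1, p.2.1) ∈ A ∧ ((tRot G RA RB p).1, (tRot G RA RB p).2.1) ∉ A) := by
  refine C3b_gen hA (outA G v) (fun x x' hx => (outA_injective hG v v x x' hx).2) (tRot G RA RB)
    (fun x i => tRot_outA hG v x i) _ r (fun y => ?_) A
    (fun y hy => Finset.mem_filter.2 ⟨Finset.mem_univ _, h y hy⟩) h2 _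
    (fun p hp => C3b_mem _ hp)
  rw [Finset.mem_filter]
  constructor
  · rintro ⟨-, hy⟩
    have hj : y.2.val < 2 := by
      by_contra hj
      unfold gloc at hy
      rw [if_neg (by omega), if_neg (by omega)] at hy
      exact absurd hy (by simp)
    obtain ⟨v', x, hx⟩ := exists_outA (μ := μ) hG y.1 y.2 hj
    have h3 := gloc_outA hG v' x
    rw [hx] at h3
    rw [h3] at hy
    have h4 := Sum.inl_injective hy
    have h5 : v' = v := congrArg Prod.fst h4
    have h6 : keyA x = r := congrArg Prod.snd h4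
    subst h5
    exact ⟨x, h6, hx⟩
  · rintro ⟨x, hx, rfl⟩
    refine ⟨Finset.mem_univ _, ?_⟩
    rw [gloc_outA hG v x, hx]

open scoped Classical in
/-- TASK C3c. Expansion in the fibre of a position in an auxiliary table. Proof. As C3b, with the
bijection `x ↦ ((e, x.2), x.1 + 2)`, `gloc_aux`, `tRot_aux`. -/
theorem expand_inr (hG : G.Inv) (e : V × K) (hB : FibExp (keyB (G.con e)) (RB (G.con e)))
    (z : Aux P) (A : Finset (Tst V K P μ × Fin 18)) (h : ∀ y ∈ A, gloc G y.1 y.2 = .inr (e, z))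
    (h2 : 2 * #A ≤
      #((univ : Finset (Tst V K P μ × Fin 18)).filter fun y => gloc G y.1 y.2 = .inr (e, z))) :
    #A ≤ 6 * #((univ : Finset (Tst V K P μ × (Fin 18 × Fin 9))).filter fun p =>
      (p.1, p.2.1) ∈ A ∧ ((tRot G RA RB p).1, (tRot G RA RB p).2.1) ∉ A) := by
  refine C3b_gen hB (fun x : LocB P μ => (((e, x.2), ⟨x.1.val + 2, by omega⟩) : Tst V K P μ × Fin 18))
    (fun x x' hx => ?_) (tRot G RA RB) (fun x i => tRot_aux e x i) _ z (fun y => ?_) A
    (fun y hy => Finset.mem_filter.2 ⟨Finset.mem_univ _, h y hy⟩) h2 _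
    (fun p hp => C3b_mem _ hp)
  · have h3 : x.2 = x'.2 := congrArg (fun w : Tst V K P μ × Fin 18 => w.1.2) hx
    have h4 : x.1.val + 2 = x'.1.val + 2 := congrArg (fun w : Tst V K P μ × Fin 18 => w.2.val) hx
    exact Prod.ext (Fin.ext (by omega)) h3
  · rw [Finset.mem_filter]
    constructor
    · rintro ⟨-, hy⟩
      obtain ⟨⟨e', ρ⟩, j⟩ := y
      have hj : 2 ≤ j.val := by
        by_contra hj
        unfold gloc at hy
        rcases Nat.lt_or_ge j.val 1 with h5 | h5
        · rw [if_pos (by show j.val = 0; omega)] at hy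
          exact absurd hy (by simp)
        · rw [if_neg (by show ¬ j.val = 0; omega), if_pos (by show j.val = 1; omega)] at hy
          exact absurd hy (by simp)
      have h6 : gloc G (e', ρ) j = .inr (e', qx (G.con e') ρ.1 ⟨j.val - 2, by omega⟩) := by
        unfold gloc
        rw [if_neg (by omega), if_neg (by omega)]
      have hy' : gloc G (e', ρ) j = .inr (e, z) := hy
      rw [h6] at hy'
      have h7 := Sum.inr_injective hy'
      have h8 : e' = e := congrArg Prod.fst h7
      have h9 : qx (G.con e') ρ.1 ⟨j.val - 2, by omega⟩ = z := congrArg Prod.snd h7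
      subst h8
      refine ⟨(⟨j.val - 2, by omega⟩, ρ), h9, ?_⟩
      have h10 : (⟨j.val - 2 + 2, by omega⟩ : Fin 18) = j := Fin.ext (by show j.val - 2 + 2 = j.val; omega)
      show (((e', ρ), (⟨j.val - 2 + 2, by omega⟩ : Fin 18)) : Tst V K P μ × Fin 18) = ((e', ρ), j)
      rw [h10]
    · rintro ⟨x, hx, rfl⟩
      refine ⟨Finset.mem_univ _, ?_⟩
      have h11 := gloc_aux (G := G) e x
      rw [hx] at h11
      exact h11

end Pool.Agent.Lib.MP_0b8c1e_lc.PC
end

section

set_option autoImplicit false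

namespace Pool.Agent.Lib.MP_0b8c1e_lc.PC

open Finset

variable {Ω Ω' : Type*} [Fintype Ω] [Fintype Ω']

open Classical in
private theorem T1_sum (p : Ω → Prop) :
    pr p = (∑ ω, (if p ω then (1 : ℝ) else 0)) / Fintype.card Ω := by
  unfold pr
  rw [Finset.sum_boole]

/-- TASK T1 (all the lemmas of this file). `pr p` is `#{ω | p ω} / card Ω`. -/
theorem pr_nonneg (p : Ω → Prop) : 0 ≤ pr p := by
  unfold pr
  positivity

theorem pr_le_one (p : Ω → Prop) : pr p ≤ 1 := by
  classical
  unfold pr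
  apply div_le_one_of_le₀
  · exact_mod_cast (Finset.card_filter_le _ _).trans_eq Finset.card_univ
  · positivity

theorem pr_mono {p q : Ω → Prop} (h : ∀ ω, p ω → q ω) : pr p ≤ pr q := by
  classical
  rw [T1_sum, T1_sum]
  apply div_le_div_of_nonneg_right _ (by positivity)
  apply Finset.sum_le_sum
  intro ω _
  by_cases h1 : p ω
  · simp [h1, h ω h1]
  · by_cases h2 : q ω <;> simp [h1, h2]

theorem pr_congr {p q : Ω → Prop} (h : ∀ ω, p ω ↔ q ω) : pr p = pr q :=
  le_antisymm (pr_mono fun ω => (h ω).mp) (pr_mono fun ω => (h ω).mpr)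

/-- Union bound. -/
theorem pr_or_le (p q : Ω → Prop) : pr (fun ω => p ω ∨ q ω) ≤ pr p + pr q := by
  classical
  rw [T1_sum, T1_sum, T1_sum, ← add_div, ← Finset.sum_add_distrib]
  apply div_le_div_of_nonneg_right _ (by positivity)
  apply Finset.sum_le_sum
  intro ω _
  by_cases h1 : p ω <;> by_cases h2 : q ω <;> simp [h1, h2]

theorem pr_not [Nonempty Ω] (p : Ω → Prop) : pr (fun ω => ¬ p ω) = 1 - pr p := by
  classical
  have hc : (Fintype.card Ω : ℝ) ≠ 0 := by exact_mod_cast Fintype.card_ne_zero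
  rw [T1_sum, T1_sum, eq_sub_iff_add_eq, ← add_div, ← Finset.sum_add_distrib, div_eq_one_iff_eq hc]
  trans ∑ _ω : Ω, (1 : ℝ)
  · apply Finset.sum_congr rfl
    intro ω _
    by_cases h : p ω <;> simp [h]
  · simp

/-- If the probability is less than 1, the complement is possible. -/
theorem exists_of_pr_lt_one {p : Ω → Prop} (h : pr p < 1) (hne : Nonempty Ω) : ∃ ω, ¬ p ω := by
  by_contra hcon
  push Not at hcon
  have hc : (Fintype.card Ω : ℝ) ≠ 0 := by exact_mod_cast Fintype.card_ne_zero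
  rw [T1_sum] at h
  simp [hcon, hc] at h

theorem pr_equiv (e : Ω ≃ Ω') (p : Ω' → Prop) : pr (fun ω => p (e ω)) = pr p := by
  classical
  rw [T1_sum, T1_sum, Fintype.card_congr e]
  congr 1
  exact Equiv.sum_comp e (fun ω => if p ω then (1 : ℝ) else 0)

theorem pr_fst [Nonempty Ω'] (p : Ω → Prop) : pr (fun ω : Ω × Ω' => p ω.1) = pr p := by
  classical
  have hc : (Fintype.card Ω' : ℝ) ≠ 0 := by exact_mod_cast Fintype.card_ne_zero
  rw [T1_sum, T1_sum, Fintype.sum_prod_type]
  have h : (∑ x : Ω, ∑ _y : Ω', if p x then (1 : ℝ) else 0) =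
      (Fintype.card Ω' : ℝ) * ∑ x : Ω, if p x then (1 : ℝ) else 0 := by
    rw [Finset.mul_sum]
    apply Finset.sum_congr rfl
    intro x _
    rw [Finset.sum_const, Finset.card_univ, nsmul_eq_mul]
  have h2 := mul_div_mul_left (∑ x : Ω, if p x then (1 : ℝ) else 0) (Fintype.card Ω : ℝ) hc
  rw [Fintype.card_prod, Nat.cast_mul, mul_comm (Fintype.card Ω : ℝ), ← h2, ← h]

theorem pr_snd [Nonempty Ω'] (p : Ω → Prop) : pr (fun ω : Ω' × Ω => p ω.2) = pr p := by
  rw [← pr_fst (Ω' := Ω') p]
  exact pr_equiv (Equiv.prodComm Ω' Ω) (fun ω : Ω × Ω' => p ω.1)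

/-- Fubini: `pr` on a product is the average of the probabilities on the fibres. -/
theorem pr_prod (p : Ω × Ω' → Prop) :
    pr p = (∑ ω, pr fun ω' => p (ω, ω')) / Fintype.card Ω := by
  classical
  rw [T1_sum, Fintype.sum_prod_type]
  simp only [T1_sum]
  rw [← Finset.sum_div, div_div, Fintype.card_prod, Nat.cast_mul, mul_comm (Fintype.card Ω : ℝ)]

theorem pr_prod' (p : Ω × Ω' → Prop) :
    pr p = (∑ ω', pr fun ω => p (ω, ω')) / Fintype.card Ω' := by
  rw [← pr_equiv (Equiv.prodComm Ω' Ω) p, pr_prod]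
  rfl

/-- Proof. `pr_prod`; every summand is at most `x`. -/
theorem pr_prod_le {p : Ω × Ω' → Prop} {x : ℝ} (h : ∀ ω, pr (fun ω' => p (ω, ω')) ≤ x)
    (hx : 0 ≤ x) : pr p ≤ x := by
  rw [pr_prod]
  by_cases hc : (Fintype.card Ω : ℝ) = 0
  · rw [hc, div_zero]
    exact hx
  · have hc' : (0 : ℝ) < Fintype.card Ω := lt_of_le_of_ne (by positivity) (Ne.symm hc)
    rw [div_le_iff₀ hc']
    calc (∑ ω, pr fun ω' => p (ω, ω')) ≤ ∑ _ω : Ω, x := Finset.sum_le_sum fun ω _ => h ω
      _ = x * Fintype.card Ω := by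
        rw [Finset.sum_const, Finset.card_univ, nsmul_eq_mul, mul_comm]

theorem pr_prod_ge [Nonempty Ω] {p : Ω × Ω' → Prop} {x : ℝ}
    (h : ∀ ω, x ≤ pr (fun ω' => p (ω, ω'))) : x ≤ pr p := by
  rw [pr_prod]
  have hc' : (0 : ℝ) < Fintype.card Ω := by exact_mod_cast Fintype.card_pos
  rw [le_div_iff₀ hc']
  calc x * Fintype.card Ω = ∑ _ω : Ω, x := by
        rw [Finset.sum_const, Finset.card_univ, nsmul_eq_mul, mul_comm]
    _ ≤ ∑ ω, pr fun ω' => p (ω, ω') := Finset.sum_le_sum fun ω _ => h ω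

/-- Two independent uniform elements of an abelian group: `u` and `u + v`. Proof. `pr_equiv` for
the bijection `(u, v) ↦ (u, u + v)`. -/
theorem pr_shift {A : Type*} [AddCommGroup A] [Fintype A] (p : A × A → Prop) :
    pr (fun w : A × A => p (w.1, w.1 + w.2)) = pr p := by
  rw [pr_prod, pr_prod]
  congr 1
  apply Finset.sum_congr rfl
  intro u _
  exact pr_equiv (Equiv.addLeft u) (fun v => p (u, v))

/-- A uniform element plus a function of an independent one. Proof. `pr_prod` and translation in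
the second coordinate (`pr_equiv`, `Equiv.addLeft`). -/
theorem pr_add {A : Type*} [AddCommGroup A] [Fintype A] (f : Ω → A) (p : A → Prop)
    [Nonempty Ω] : pr (fun w : Ω × A => p (f w.1 + w.2)) = pr p := by
  have hc : (Fintype.card Ω : ℝ) ≠ 0 := by exact_mod_cast Fintype.card_ne_zero
  rw [pr_prod]
  have h : ∀ ω ∈ (univ : Finset Ω), (pr fun a : A => p (f ω + a)) = pr p := by
    intro ω _
    exact pr_equiv (Equiv.addLeft (f ω)) p
  rw [Finset.sum_congr rfl h, Finset.sum_const, Finset.card_univ, nsmul_eq_mul, mul_comm,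
    mul_div_assoc, div_self hc, mul_one]

theorem pr_eq [DecidableEq Ω] (p : Ω → Prop) [DecidablePred p] :
    pr p = (#((univ : Finset Ω).filter p) : ℝ) / Fintype.card Ω := by
  unfold pr
  congr!

end Pool.Agent.Lib.MP_0b8c1e_lc.PC
end
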