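import Pool.Agent.Lib.MP_0b8c1e_lc.Mg.G001
import Pool.Agent.Lib.MP_711ea9_lc.FH.J1

section

set_option autoImplicit false

namespace Pool.Agent.Lib.MP_0b8c1e_lc.PC

open Finset DS

section

variable {V W I P K S : Type*} {φ : V → W}

/-- TASK N1a. Proof. Induction on the list. -/
theorem hom_walk {G : DS V I P} {g : DS W I P} (h : Hom φ G g) (v : V) (l : List I) :
    g.walk (φ v) l = φ (G.walk v l) ∧ g.back (φ v) l = G.back v l ∧
      g.cons (φ v) l = G.cons v l := by
  induction l generalizing v with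
  | nil => exact ⟨rfl, rfl, rfl⟩
  | cons i l ih =>
    obtain ⟨h1, h2⟩ := h v i
    obtain ⟨i1, i2, i3⟩ := ih (G.rot (v, i)).1
    refine ⟨?_, ?_, ?_⟩
    · show g.walk (g.rot (φ v, i)).1 l = φ (G.walk (G.rot (v, i)).1 l)
      rw [h1]
      exact i1
    · show g.back (g.rot (φ v, i)).1 l ++ [(g.rot (φ v, i)).2] =
        G.back (G.rot (v, i)).1 l ++ [(G.rot (v, i)).2]
      rw [h1, i2]
    · show g.con (φ v, i) :: g.cons (g.rot (φ v, i)).1 l = G.con (v, i) :: G.cons (G.rot (v, i)).1 l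
      rw [h1, h2, i3]

/-- TASK N1b. Proof. Case distinction on the label. -/
theorem hom_ex {G : DS V I P} {g : DS W I P} (h : Hom φ G g) {X : V → Fin 8 → V}
    {x : W → Fin 8 → W} (hx : ∀ v k, x (φ v) k = φ (X v k)) : Hom φ (exDS G X) (exDS g x) := by
  rintro v ⟨i, k⟩
  obtain ⟨h1, h2⟩ := h v i
  constructor
  · show exRot g.rot x (φ v, (i, k)) = (φ (exRot G.rot X (v, (i, k))).1, (exRot G.rot X (v, (i, k))).2)
    unfold exRot
    by_cases hk : k.val = 0
    · simp only [hk, if_true, h1]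
    · by_cases hk' : k.val < 9
      · simp only [hk, hk', if_false, dif_pos, hx]
      · simp only [hk, hk', if_false, dif_neg, not_false_eq_true]
  · show exCon g.con (φ v, (i, k)) = exCon G.con (v, (i, k))
    unfold exCon
    by_cases hk : k.val = 0
    · simp only [hk, if_true, h2]
    · simp only [hk, if_false]

/-- TASK N1c. Proof. `hom_walk`. -/
theorem hom_pow [Inhabited S] {G : DS V I S} {g : DS W I S} (h : Hom φ G g) (M : ℕ) :
    Hom φ (powDS G M) (powDS g M) := by
  rintro v ⟨ℓ, p⟩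
  obtain ⟨h1, h2, h3⟩ := hom_walk h v (p.1.take (ℓ + 1))
  constructor
  · show powRot g M (φ v, (ℓ, p)) = (φ (powRot G M (v, (ℓ, p))).1, (powRot G M (v, (ℓ, p))).2)
    unfold powRot
    simp only [h1, h2]
  · show powC g M (φ v, (ℓ, p)) = powC G M (v, (ℓ, p))
    unfold powC
    simp only [h2, h3]

/-- The two cases of `outA`. -/
private theorem N1_outA {μ : ℕ} {G : DS V K P} {g : DS W K P}
    (h : Hom φ G g) (v : V) (x : LocA K P μ) :
    outA g (φ v) x = (((φ (outA G v x).1.1.1, (outA G v x).1.1.2), (outA G v x).1.2),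
      (outA G v x).2) := by
  unfold outA
  by_cases hx : x.1.2 = true
  · simp only [hx, if_true, (h v x.1.1).1]
  · simp only [hx, if_false, Bool.false_eq_true]

private theorem N1_tRot [DecidableEq P] {μ : ℕ} {G : DS V K P} {g : DS W K P} (h : Hom φ G g)
    (RA : LocA K P μ × Fin 9 → LocA K P μ × Fin 9)
    (RB : (P → P → Bool) → LocB P μ × Fin 9 → LocB P μ × Fin 9)
    (w : Tst V K P μ) (i : Fin 18 × Fin 9) :
    tRot g RA RB (((φ w.1.1, w.1.2), w.2), i) =
      (((φ (tRot G RA RB (w, i)).1.1.1, (tRot G RA RB (w, i)).1.1.2), (tRot G RA RB (w, i)).1.2),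
        (tRot G RA RB (w, i)).2) := by
  obtain ⟨⟨v, k⟩, y⟩ := w
  obtain ⟨j, i⟩ := i
  have h0 := h v k
  unfold tRot
  by_cases hj : j.val = 0
  · simp only [hj, if_true, N1_outA h]
  · by_cases hj1 : j.val = 1
    · simp only [hj1, if_true, if_false, h0.1, N1_outA h, one_ne_zero]
    · simp only [hj, hj1, if_false, h0.2]

/-- TASK N1d. Proof. Case distinction on the number of the answer; `outA`, `tRot`, `tCon` use only
`rot` and `con`. -/
theorem hom_test [DecidableEq P] {μ : ℕ} {G : DS V K P} {g : DS W K P} (h : Hom φ G g)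
    (RA : LocA K P μ × Fin 9 → LocA K P μ × Fin 9)
    (RB : (P → P → Bool) → LocB P μ × Fin 9 → LocB P μ × Fin 9) :
    Hom (fun w : Tst V K P μ => (((φ w.1.1, w.1.2), w.2) : Tst W K P μ)) (testDS G RA RB)
      (testDS g RA RB) := by
  intro w i
  have h1 := N1_tRot h RA RB w i
  constructor
  · exact h1
  · show tCon (tRot g RA RB) (((φ w.1.1, w.1.2), w.2), i) = tCon (tRot G RA RB) (w, i)
    unfold tCon
    rw [h1]

/-- TASK N1e. For a bijection `e` the properties are transported. -/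
theorem hom_equiv [Fintype V] [Fintype W] [Fintype I] {G : DS V I P} {g : DS W I P} (e : V ≃ W)
    (h : Hom e G g) : (G.Inv → g.Inv) ∧ (G.Sat → g.Sat) ∧ ∀ ε, G.Gap ε → g.Gap ε := by
  have key : ∀ σ : W → P, #(g.bad σ) = #(G.bad (σ ∘ e)) := by
    intro σ
    symm
    apply Finset.card_bij (fun p _ => (e p.1, p.2))
    · rintro ⟨v, i⟩ hp
      simp only [bad, mem_filter, mem_univ, true_and, Function.comp] at hp ⊢
      rw [(h v i).1, (h v i).2]
      exact hp
    · rintro ⟨v, i⟩ _ ⟨v', i'⟩ _ hh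
      simp only [Prod.mk.injEq, e.injective.eq_iff] at hh
      rw [hh.1, hh.2]
    · rintro ⟨w, i⟩ hp
      refine ⟨(e.symm w, i), ?_, by simp⟩
      simp only [bad, mem_filter, mem_univ, true_and, Function.comp] at hp ⊢
      have h1 := h (e.symm w) i
      rw [e.apply_symm_apply] at h1 ⊢
      rw [h1.1, h1.2] at hp
      exact hp
  refine ⟨fun hG => ?_, fun hG => ?_, fun ε hG => ?_⟩
  · rintro ⟨w, i⟩
    have h1 := h (e.symm w) i
    rw [e.apply_symm_apply] at h1
    rw [h1.1]
    have h2 := h (G.rot (e.symm w, i)).1 (G.rot (e.symm w, i)).2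
    rw [h2.1, Prod.mk.eta, hG]
    simp
  · obtain ⟨σ, hσ⟩ := hG
    refine ⟨σ ∘ e.symm, ?_⟩
    rw [← Finset.card_eq_zero, key]
    have : (σ ∘ e.symm) ∘ e = σ := by
      funext v
      simp
    rw [this, hσ, Finset.card_empty]
  · intro σ
    rw [key, ← Fintype.card_congr e]
    exact hG _

/-- TASK N1f. -/
theorem hom_unique {G G' : DS V I P} {g : DS W I P} (hφ : Function.Injective φ) (h : Hom φ G g)
    (h' : Hom φ G' g) : G = G' := by
  obtain ⟨r, c⟩ := G
  obtain ⟨r', c'⟩ := G'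
  have h1 : r = r' := by
    funext ⟨v, i⟩
    have e1 := (h v i).1
    have e2 := (h' v i).1
    rw [e1] at e2
    simp only [Prod.mk.injEq] at e2
    exact Prod.ext (hφ e2.1) e2.2
  have h2 : c = c' := by
    funext ⟨v, i⟩
    exact ((h v i).2.symm.trans (h' v i).2)
  rw [h1, h2]

theorem hom_trans {U : Type*} {ψ : U → V} {F : DS U I P} {G : DS V I P} {g : DS W I P}
    (h : Hom ψ F G) (h' : Hom φ G g) : Hom (fun u => φ (ψ u)) F g := by
  intro u i
  constructor
  · rw [(h' (ψ u) i).1, (h u i).1]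
  · rw [(h' (ψ u) i).2, (h u i).2]

end

/-- TASK N1g. -/
theorem hom_toNat {I P : Type} {n : ℕ} (G : DS (Fin n) I P) : Hom (fun v : Fin n => (v : ℕ)) G (toNat G) := by
  intro v i
  constructor
  · simp [toNat]
  · simp [toNat]

/-- TASK N1h. If the graph on `ℕ` maps the numbers below `n` to numbers below `n`. -/
theorem hom_toFin {I P : Type} {n : ℕ} {g : DS ℕ I P}
    (h : ∀ v < n, ∀ i, (g.rot (v, i)).1 < n) : Hom (fun v : Fin n => (v : ℕ)) (toFin n g) g := by
  intro v i
  constructor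
  · simp [toFin, h v v.2 i]
  · rfl

end Pool.Agent.Lib.MP_0b8c1e_lc.PC
end

section

set_option autoImplicit false

namespace Pool.Agent.Lib.MP_0b8c1e_lc.PC

open Finset DS

/-- The gap which is reached after sufficiently many rounds. -/
noncomputable def eps1 (S : Type) [Fintype S] : ℝ :=
  1 / (2 * 432 * (Fintype.card S : ℝ) ^ 4 * 45360)

/-- A stage: a graph with `N * N` vertices and a counter. -/
structure St where
  /-- the square root of the number of vertices -/
  N : ℕ
  /-- the counter -/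
  r : ℕ
  /-- the graph -/
  G : DS (Fin (N * N)) Idx Lab

/-- The next stage. -/
noncomputable def St.next (κ : Kit Idx Lab) {c : ℕ} (E : Cod (TY κ) (c * c)) (s : St) : St :=
  if s.r = 0 then s else ⟨c * s.N, s.r / 2, rdT κ E s.N s.G⟩

/-- The first graph of a formula. -/
def G0 {m : ℕ} (φ : Formula m) : DS (Fin (m * m)) Idx Lab := toFin (m * m) (g0 (code φ) m)

/-- The last formula, with `N * N * D * Pt * 36` clauses. -/
def finF {D Pt : ℕ} (cI : Cod Idx D) (cP : Cod (Lab × Lab) Pt) {N : ℕ} (G : DS (Fin (N * N)) Idx Lab) :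
    Formula (N * N * D * Pt * 36) := fun q s =>
  (⟨(clN cI cP (N * N * D * Pt * 36) (toNat G) q s).1 % (3 * (N * N * D * Pt * 36)),
    Nat.mod_lt _ (by have := q.2; omega)⟩, (clN cI cP (N * N * D * Pt * 36) (toNat G) q s).2)

end Pool.Agent.Lib.MP_0b8c1e_lc.PC
end

section

set_option autoImplicit false

namespace Pool.Agent.Lib.MP_0b8c1e_lc.PC

open Finset DS

variable {D Pt : ℕ}

private theorem F1a_lit {M n v w : ℕ} (hn : 36 * n ≤ M) (hv : v < n) (hw : w < n)
    (π : Lab × Lab) (t : Fin 36) : (litN M v w π t).1 < 3 * M := by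
  unfold litN
  have ht := t.2
  split
  · show M + 18 * v + t.val < 3 * M
    omega
  · show M + 18 * w + (t.val - 18) < 3 * M
    omega

/-- TASK F1a. The variables have numbers less than `3 M`, `M = N * N * D * Pt * 36`, so the
reduction modulo `3 M` does nothing. Proof. `q < M`, and `M + 18 v + t < M + 18 N ^ 2 ≤ 2 M` for
vertices `v < N ^ 2` and `t < 18` (`D, Pt ≥ 1`); `v = q / 36 / Pt / D < N ^ 2` (`Nat.div_lt_iff_lt_mul`
or so), and `w` is the vertex of `toNat G`. -/
theorem clN_lt (hD : 1 ≤ D) (hP : 1 ≤ Pt) (cI : Cod Idx D) (cP : Cod (Lab × Lab) Pt) {N : ℕ}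
    (G : DS (Fin (N * N)) Idx Lab) {q : ℕ} (hq : q < N * N * D * Pt * 36) (s : Fin 3) :
    (clN cI cP (N * N * D * Pt * 36) (toNat G) q s).1 < 3 * (N * N * D * Pt * 36) := by
  have hv : q / 36 / Pt / D < N * N := by
    rw [Nat.div_lt_iff_lt_mul (by omega), Nat.div_lt_iff_lt_mul (by omega),
      Nat.div_lt_iff_lt_mul (by norm_num)]
    exact hq
  have hn : 36 * (N * N) ≤ N * N * D * Pt * 36 := by
    have h1 : N * N * 1 * 1 ≤ N * N * D * Pt :=
      Nat.mul_le_mul (Nat.mul_le_mul le_rfl hD) hP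
    omega
  have hw : ((toNat G).rot (q / 36 / Pt / D, cI.d (q / 36 / Pt % D))).1 < N * N := by
    unfold toNat
    simp only [dif_pos hv]
    exact Fin.isLt _
  generalize N * N * D * Pt * 36 = M at hq hn ⊢
  unfold clN
  simp only []
  split
  · show q < 3 * M
    omega
  · split
    · exact F1a_lit hn hv hw _ _
    · split
      · split
        · exact F1a_lit hn hv hw _ _
        · show q - 1 < 3 * M
          omega
      · split
        · exact F1a_lit hn hv hw _ _
        · show q < 3 * M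
          omega

end Pool.Agent.Lib.MP_0b8c1e_lc.PC
end

section

set_option autoImplicit false

namespace Pool.Agent.Lib.MP_0b8c1e_lc.PC

open Finset DS

variable {D Pt : ℕ}

private theorem F1d_idx (cI : Cod Idx D) : Fintype.card Idx ≤ D := by
  have h := Fintype.card_le_of_injective (fun i : Idx => (⟨cI.c i, cI.lt i⟩ : Fin D)) (by
    intro i j hij
    have h1 : cI.c i = cI.c j := congrArg Fin.val hij
    rw [← cI.dc i, h1, cI.dc])
  rwa [Fintype.card_fin] at h

/-- The start and the end of the dart of clause `q`. -/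
private theorem F1d_var (cI : Cod Idx D) (cP : Cod (Lab × Lab) Pt) (M : ℕ) (g : DS ℕ Idx Lab)
    (q : ℕ) (s : Fin 3) : (clN cI cP M g q s).1 = q ∨ (clN cI cP M g q s).1 + 1 = q ∨
      (M ≤ (clN cI cP M g q s).1 ∧ (((clN cI cP M g q s).1 - M) / 18 = q / 36 / Pt / D ∨
        ((clN cI cP M g q s).1 - M) / 18 =
          (g.rot (q / 36 / Pt / D, cI.d (q / 36 / Pt % D))).1)) := by
  have hlit : ∀ (v w : ℕ) (π : Lab × Lab) (t : Fin 36), M ≤ (litN M v w π t).1 ∧
      (((litN M v w π t).1 - M) / 18 = v ∨ ((litN M v w π t).1 - M) / 18 = w) := by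
    intro v w π t
    unfold litN
    split_ifs with h
    · refine ⟨by simp only; omega, Or.inl ?_⟩
      simp only
      omega
    · have ht := t.2
      refine ⟨by simp only; omega, Or.inr ?_⟩
      simp only
      omega
  unfold clN
  simp only
  split_ifs with h1 h2 h3 h4 h5
  · exact Or.inl rfl
  · exact Or.inr (Or.inr (hlit _ _ _ _))
  · exact Or.inr (Or.inr (hlit _ _ _ _))
  · refine Or.inr (Or.inl ?_)
    simp only
    omega
  · exact Or.inr (Or.inr (hlit _ _ _ _))
  · exact Or.inl rfl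

private theorem F1d_q {a b P : ℕ} (h1 : a % (36 * P) = b % (36 * P))
    (h2 : a / 36 / P = b / 36 / P) : a = b := by
  rw [Nat.div_div_eq_div_mul, Nat.div_div_eq_div_mul] at h2
  rw [← Nat.div_add_mod a (36 * P), ← Nat.div_add_mod b (36 * P), h1, h2]

/-- TASK F1d. Occurrences. -/
theorem finF_occ (hD : 1 ≤ D) (hP : 1 ≤ Pt) (cI : Cod Idx D) (cP : Cod (Lab × Lab) Pt) {N : ℕ}
    {G : DS (Fin (N * N)) Idx Lab} (hG : G.Inv) (x : Fin (3 * (N * N * D * Pt * 36))) :
    #(occurrences (finF cI cP G) x) ≤ 6 + 2 * D * (36 * Pt) * 3 := by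
  classical
  obtain ⟨M, hM⟩ : ∃ M, M = N * N * D * Pt * 36 := ⟨_, rfl⟩
  -- the sets of slots
  let Q : Fin (N * N * D * Pt * 36) → ℕ := fun q => (q : ℕ) / 36 / Pt
  have hQ : ∀ q, Q q / D < N * N := by
    intro q
    have := q.2
    show (q : ℕ) / 36 / Pt / D < N * N
    rw [Nat.div_lt_iff_lt_mul (by omega), Nat.div_lt_iff_lt_mul (by omega),
      Nat.div_lt_iff_lt_mul (by omega)]
    exact this
  let e : Fin (N * N * D * Pt * 36) → Fin (N * N) × Idx := fun q =>
    (⟨Q q / D, hQ q⟩, cI.d (Q q % D))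
  have he : ∀ q q', e q = e q' → (q : ℕ) % (36 * Pt) = (q' : ℕ) % (36 * Pt) → q = q' := by
    intro q q' h1 h2
    have h3 : Q q / D = Q q' / D := congrArg (fun z : Fin (N * N) × Idx => (z.1 : ℕ)) h1
    have h4 : cI.d (Q q % D) = cI.d (Q q' % D) := congrArg Prod.snd h1
    have h5 : Q q % D = Q q' % D := by
      rw [← cI.cd _ (Nat.mod_lt (Q q) (by omega)), h4, cI.cd _ (Nat.mod_lt (Q q') (by omega))]
    have h6 : Q q = Q q' := by
      rw [← Nat.div_add_mod (Q q) D, ← Nat.div_add_mod (Q q') D, h3, h5]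
    exact Fin.ext (F1d_q h2 h6)
  let S₁ : Finset (Fin (N * N * D * Pt * 36) × Fin 3) :=
    univ.filter fun p => (p.1 : ℕ) = x ∨ (p.1 : ℕ) = x + 1
  let S₂ : Finset (Fin (N * N * D * Pt * 36) × Fin 3) :=
    univ.filter fun p => ((e p.1).1 : ℕ) = ((x : ℕ) - N * N * D * Pt * 36) / 18
  let S₃ : Finset (Fin (N * N * D * Pt * 36) × Fin 3) :=
    univ.filter fun p => ((G.rot (e p.1)).1 : ℕ) = ((x : ℕ) - N * N * D * Pt * 36) / 18
  have hsub : occurrences (finF cI cP G) x ⊆ S₁ ∪ (S₂ ∪ S₃) := by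
    rintro ⟨q, s⟩ hp
    have h1 : (finF cI cP G q s).1 = x := (mem_filter.1 hp).2
    have h2 : (clN cI cP (N * N * D * Pt * 36) (toNat G) q s).1 % (3 * (N * N * D * Pt * 36)) = x :=
      congrArg Fin.val h1
    rw [Nat.mod_eq_of_lt (clN_lt hD hP cI cP G q.2 s)] at h2
    have h3 := F1d_var cI cP (N * N * D * Pt * 36) (toNat G) q s
    rw [h2] at h3
    have h4 : (((toNat G).rot ((q : ℕ) / 36 / Pt / D, cI.d ((q : ℕ) / 36 / Pt % D))).1 : ℕ) =
        (G.rot (e q)).1 := by
      have := (hom_toNat G (e q).1 (e q).2).1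
      exact congrArg Prod.fst this
    rw [h4] at h3
    simp only [S₁, S₂, S₃, mem_union, mem_filter, mem_univ, true_and]
    rcases h3 with h3 | h3 | ⟨_, h3 | h3⟩
    · exact Or.inl (Or.inl h3.symm)
    · exact Or.inl (Or.inr h3.symm)
    · exact Or.inr (Or.inl h3.symm)
    · exact Or.inr (Or.inr h3.symm)
  have hI := F1d_idx cI
  have hT : Fintype.card (Idx × (Fin (36 * Pt) × Fin 3)) ≤ D * (36 * Pt) * 3 := by
    have h1 : Fintype.card (Idx × (Fin (36 * Pt) × Fin 3)) =
        Fintype.card Idx * Fintype.card (Fin (36 * Pt) × Fin 3) := Fintype.card_prod _ _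
    have h2 : Fintype.card (Fin (36 * Pt) × Fin 3) = 36 * Pt * 3 := by
      rw [Fintype.card_prod, Fintype.card_fin, Fintype.card_fin]
    rw [h1, h2]
    calc Fintype.card Idx * (36 * Pt * 3) ≤ D * (36 * Pt * 3) := Nat.mul_le_mul_right _ hI
      _ = D * (36 * Pt) * 3 := by ring
  have hmod : ∀ q : Fin (N * N * D * Pt * 36), (q : ℕ) % (36 * Pt) < 36 * Pt := fun q =>
    Nat.mod_lt _ (by omega)
  have c1 : #S₁ ≤ 6 := by
    have h1 : #S₁ ≤ #((univ : Finset (Bool × Fin 3))) := by
      apply Finset.card_le_card_of_injOn (fun p => (decide ((p.1 : ℕ) = x), p.2))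
      · intro p _
        exact Finset.mem_coe.2 (mem_univ _)
      · rintro ⟨q, s⟩ hq ⟨q', s'⟩ hq' h
        simp only [S₁, mem_coe, mem_filter, mem_univ, true_and] at hq hq'
        simp only [Prod.mk.injEq, decide_eq_decide] at h
        have h5 : (q : ℕ) = q' := by
          obtain ⟨h6, _⟩ := h
          omega
        rw [Fin.ext h5, h.2]
    refine h1.trans (le_of_eq ?_)
    simp
  have c2 : #S₂ ≤ D * (36 * Pt) * 3 := by
    refine le_trans ?_ hT
    rw [← Finset.card_univ]
    apply Finset.card_le_card_of_injOn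
      (fun p => ((e p.1).2, (⟨(p.1 : ℕ) % (36 * Pt), hmod p.1⟩, p.2)))
    · intro p _
      exact Finset.mem_coe.2 (mem_univ _)
    · rintro ⟨q, s⟩ hq ⟨q', s'⟩ hq' h
      simp only [S₂, mem_coe, mem_filter, mem_univ, true_and] at hq hq'
      simp only [Prod.mk.injEq, Fin.mk.injEq] at h
      obtain ⟨h1, h2, h3⟩ := h
      have h4 : e q = e q' := Prod.ext (Fin.ext (hq.trans hq'.symm)) h1
      rw [he q q' h4 h2, h3]
  have c3 : #S₃ ≤ D * (36 * Pt) * 3 := by
    refine le_trans ?_ hT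
    rw [← Finset.card_univ]
    apply Finset.card_le_card_of_injOn
      (fun p => ((G.rot (e p.1)).2, (⟨(p.1 : ℕ) % (36 * Pt), hmod p.1⟩, p.2)))
    · intro p _
      exact Finset.mem_coe.2 (mem_univ _)
    · rintro ⟨q, s⟩ hq ⟨q', s'⟩ hq' h
      simp only [S₃, mem_coe, mem_filter, mem_univ, true_and] at hq hq'
      simp only [Prod.mk.injEq, Fin.mk.injEq] at h
      obtain ⟨h1, h2, h3⟩ := h
      have h4 : G.rot (e q) = G.rot (e q') := Prod.ext (Fin.ext (hq.trans hq'.symm)) h1
      have h5 : e q = e q' := by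
        rw [← hG (e q), h4, hG]
      rw [he q q' h5 h2, h3]
  calc #(occurrences (finF cI cP G) x) ≤ #(S₁ ∪ (S₂ ∪ S₃)) := Finset.card_le_card hsub
    _ ≤ #S₁ + #(S₂ ∪ S₃) := Finset.card_union_le _ _
    _ ≤ #S₁ + (#S₂ + #S₃) := Nat.add_le_add_left (Finset.card_union_le _ _) _
    _ ≤ 6 + (D * (36 * Pt) * 3 + D * (36 * Pt) * 3) := by omega
    _ = 6 + 2 * D * (36 * Pt) * 3 := by ring

end Pool.Agent.Lib.MP_0b8c1e_lc.PC
end

section

set_option autoImplicit false

namespace Pool.Agent.Lib.MP_0b8c1e_lc.PC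

open Finset DS

variable {I S : Type} {D Kc n : ℕ} (cI : Cod I D) (cR : Cod (S → S → Bool) Kc)

private theorem A1_dm {a b D : ℕ} (hb : b < D) : (a * D + b) / D = a ∧ (a * D + b) % D = b := by
  have hD : 0 < D := by omega
  constructor
  · rw [Nat.add_comm, Nat.add_mul_div_right _ _ hD, Nat.div_eq_of_lt hb, Nat.zero_add]
  · rw [Nat.add_comm, Nat.add_mul_mod_self_right, Nat.mod_eq_of_lt hb]

private theorem A1_blk {a A b D : ℕ} (ha : a < A) (hb : b < D) : a * D + b < A * D := by
  calc a * D + b < a * D + D := by omega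
    _ = (a + 1) * D := by ring
    _ ≤ A * D := Nat.mul_le_mul_right _ (by omega)

private theorem A1_dart (r : ℕ) (G : DS (Fin n) I S) (v : Fin n) (i : I) :
    arrOf cI cR r G (1 + v * D + cI.c i) =
      ent cI cR (G.rot (v, i)).1 (G.rot (v, i)).2 (G.con (v, i)) := by
  have h1 : 1 + (v : ℕ) * D + cI.c i - 1 = v * D + cI.c i := by omega
  have h2 := A1_dm (a := (v : ℕ)) (cI.lt i)
  have h3 : ∀ w : Fin n, ∀ i' : I, (w : ℕ) = v → i' = i →
      ent cI cR (G.rot (w, i')).1 (G.rot (w, i')).2 (G.con (w, i')) =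
      ent cI cR (G.rot (v, i)).1 (G.rot (v, i)).2 (G.con (v, i)) := by
    rintro w i' hw rfl
    obtain rfl : w = v := Fin.ext hw
    rfl
  unfold arrOf
  rw [if_neg (by omega)]
  rw [dif_pos (by rw [h1, h2.1]; exact v.2)]
  apply h3
  · show (1 + (v : ℕ) * D + cI.c i - 1) / D = v
    rw [h1, h2.1]
  · rw [h1, h2.2, cI.dc]

/-- TASK A1a. Reading the array of a graph. -/
theorem hom_dec (r : ℕ) (G : DS (Fin n) I S) :
    Hom (fun v : Fin n => (v : ℕ)) G (dec cI cR (arrOf cI cR r G)) := by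
  intro v i
  have h1 := A1_dart cI cR r G v i
  have h2 : ∀ x : ℕ, arrOf cI cR r G (1 + v * D + cI.c i) = x →
      (dec cI cR (arrOf cI cR r G)).rot ((v : ℕ), i) = (x / Kc / D, cI.d (x / Kc % D)) ∧
      (dec cI cR (arrOf cI cR r G)).con ((v : ℕ), i) = cR.d (x % Kc) := by
    rintro x rfl
    exact ⟨rfl, rfl⟩
  obtain ⟨h3, h4⟩ := h2 _ h1
  obtain ⟨k1, k2⟩ := A1_dm (a := ((G.rot (v, i)).1 : ℕ) * D + cI.c (G.rot (v, i)).2)
    (cR.lt (G.con (v, i)))
  obtain ⟨k3, k4⟩ := A1_dm (a := ((G.rot (v, i)).1 : ℕ)) (cI.lt (G.rot (v, i)).2)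
  constructor
  · rw [h3]
    unfold ent
    rw [k1, k3, k4, cI.dc]
  · rw [h4]
    unfold ent
    rw [k2, cR.dc]

theorem arrOf_zero (r : ℕ) (G : DS (Fin n) I S) : arrOf cI cR r G 0 = r := by
  simp [arrOf]

/-- TASK A1b. -/
theorem arrOf_eq_zero (r : ℕ) (G : DS (Fin n) I S) {j : ℕ} (h : 1 + n * D ≤ j) :
    arrOf cI cR r G j = 0 := by
  unfold arrOf
  rw [if_neg (by omega)]
  apply dif_neg
  intro h1
  rcases Nat.eq_zero_or_pos D with hD | hD
  · have hi : D = 0 := hD
    -- `D = 0` is impossible if there is a vertex: the labels have codes below `0`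
    exact absurd (cI.lt (cI.d 0)) (by omega)
  · have := (Nat.div_lt_iff_lt_mul hD).1 h1
    omega

/-- TASK A1c. An entry is less than `n * D * Kc`, except for the entry `0`. -/
theorem arrOf_le (r : ℕ) (G : DS (Fin n) I S) (j : ℕ) : arrOf cI cR r G j ≤ r + n * D * Kc := by
  unfold arrOf
  split_ifs with h1 h2
  · omega
  · have h3 := A1_blk (A1_blk (G.rot (⟨(j - 1) / D, h2⟩, cI.d ((j - 1) % D))).1.2
      (cI.lt (G.rot (⟨(j - 1) / D, h2⟩, cI.d ((j - 1) % D))).2))
      (cR.lt (G.con (⟨(j - 1) / D, h2⟩, cI.d ((j - 1) % D))))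
    unfold ent
    omega
  · omega

/-- TASK A1d. The entries are computed from any graph on `ℕ` which restricts to `G`. -/
theorem arrOf_eq (r : ℕ) {G : DS (Fin n) I S} {g : DS ℕ I S}
    (h : Hom (fun v : Fin n => (v : ℕ)) G g) {j : ℕ} (h0 : j ≠ 0) (hj : j < 1 + n * D) :
    arrOf cI cR r G j = ent cI cR (g.rot ((j - 1) / D, cI.d ((j - 1) % D))).1
      (g.rot ((j - 1) / D, cI.d ((j - 1) % D))).2 (g.con ((j - 1) / D, cI.d ((j - 1) % D))) := by
  have hD : 0 < D := by
    rcases Nat.eq_zero_or_pos D with hD | hD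
    · rw [hD, Nat.mul_zero] at hj
      omega
    · exact hD
  have h1 : (j - 1) / D < n := (Nat.div_lt_iff_lt_mul hD).2 (by omega)
  unfold arrOf
  rw [if_neg h0, dif_pos h1]
  obtain ⟨h2, h3⟩ := h ⟨(j - 1) / D, h1⟩ (cI.d ((j - 1) % D))
  simp only at h2 h3
  rw [h2, h3]

end Pool.Agent.Lib.MP_0b8c1e_lc.PC
end

section

set_option autoImplicit false

namespace Pool.Agent.Lib.MP_0b8c1e_lc.PC

open Finset Pool.Agent.Lib.MP_711ea9_lc.FH

variable {k : ℕ} {α β γ : Type}

private theorem Q1_true {k : ℕ} : Pp (fun (_ : ℕ → ℕ) (_ : Fin k → ℕ) => True) :=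
  (Pp.eq (Cp.const 0) (Cp.const 0)).iff_of (fun _ _ => ⟨fun _ => trivial, fun _ => rfl⟩)

private theorem Q1_congr {F G : (ℕ → ℕ) → (Fin k → ℕ) → α} (hF : CpF F) (h : ∀ A e, F A e = G A e) :
    CpF G := by
  have : F = G := funext fun A => funext fun e => h A e
  exact this ▸ hF

private theorem Q1_dec {p : (ℕ → ℕ) → (Fin k → ℕ) → Prop} [∀ A e, Decidable (p A e)] (hp : Pp p) :
    CpF (fun A e => decide (p A e)) := by
  refine ⟨{true, false}, fun A e => ?_, fun b _ => ?_⟩
  · by_cases h : p A e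
    · simp [h]
    · simp [h]
  · cases b
    · exact hp.not.iff_of (fun A e => by simp)
    · exact hp.iff_of (fun A e => by simp)

/-- TASK Q1a. -/
theorem CpF.const (a : α) : CpF (fun _ (_ : Fin k → ℕ) => a) := by
  refine ⟨{a}, fun _ _ => Finset.mem_singleton_self a, ?_⟩
  intro b hb
  have hb' : b = a := Finset.mem_singleton.1 hb
  subst hb'
  exact Q1_true.iff_of (fun _ _ => ⟨fun _ => rfl, fun _ => trivial⟩)

/-- TASK Q1b. Finite case distinction for numbers. Proof. Let `T` be the set of values of `F`. By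
induction on a finite set `T'` the function which is `G a A e` if `F A e = a ∈ T'` and `0` otherwise is
in `Cp` (`Cp.ite`, with the predicate `F A e = a`, which is in `Pp` for `a ∈ T`); take `T' = T`. -/
theorem Cp.bindF {F : (ℕ → ℕ) → (Fin k → ℕ) → α} {G : α → (ℕ → ℕ) → (Fin k → ℕ) → ℕ}
    (hF : CpF F) (hG : ∀ a, Cp (G a)) : Cp (fun A e => G (F A e) A e) := by
  classical
  obtain ⟨T, hT, hp⟩ := hF
  have key : ∀ T' : Finset α, T' ⊆ T → Cp (fun A e => if F A e ∈ T' then G (F A e) A e else 0) := by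
    intro T'
    induction T' using Finset.induction with
    | empty =>
      intro _
      exact Cp.congr (Cp.const 0) (fun A e => by simp)
    | insert a T' ha ih =>
      intro hsub
      have h1 := ih ((Finset.subset_insert a T').trans hsub)
      have h2 : Pp (fun A e => F A e = a) := hp a (hsub (Finset.mem_insert_self a T'))
      refine Cp.congr (Cp.ite h2 (hG a) h1) (fun A e => ?_)
      by_cases h3 : F A e = a
      · simp [h3]
      · simp [h3, Finset.mem_insert]
  exact Cp.congr (key T (Finset.Subset.refl T)) (fun A e => if_pos (hT A e))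

/-- TASK Q1c. The same for predicates. Proof. `Cp.bindF` with the functions
`if G a A e then 1 else 0` (this is the definition of `Pp`). -/
theorem Pp.bindF {F : (ℕ → ℕ) → (Fin k → ℕ) → α} {G : α → (ℕ → ℕ) → (Fin k → ℕ) → Prop}
    (hF : CpF F) (hG : ∀ a, Pp (G a)) : Pp (fun A e => G (F A e) A e) := by
  classical
  refine Cp.congr (Cp.bindF (G := fun a A e => if G a A e then 1 else 0) hF (fun a => ?_)) (fun A e => ?_)
  · refine Cp.congr (hG a) (fun A e => ?_)
    by_cases h : G a A e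
    · rw [if_pos h]
    · rw [if_neg h]
  · by_cases h : G (F A e) A e
    · rw [if_pos h]
    · rw [if_neg h]

/-- TASK Q1d. The same for functions with finitely many values. Proof. The set of values is the
union of those of `G a` for the values `a` of `F`; `Pp.bindF` for the predicates
`G a A e = b` (for `b` not in the set of values of `G a` the predicate is constantly false). -/
theorem CpF.bind {F : (ℕ → ℕ) → (Fin k → ℕ) → α} {G : α → (ℕ → ℕ) → (Fin k → ℕ) → β}
    (hF : CpF F) (hG : ∀ a, CpF (G a)) : CpF (fun A e => G (F A e) A e) := by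
  classical
  have hF' := hF
  obtain ⟨T, hT, -⟩ := hF
  choose S hS hp using hG
  refine ⟨T.biUnion S, fun A e => ?_, fun b _ => ?_⟩
  · exact Finset.mem_biUnion.2 ⟨F A e, hT A e, hS (F A e) A e⟩
  · refine Pp.bindF (G := fun a A e => G a A e = b) hF' (fun a => ?_)
    by_cases h : b ∈ S a
    · exact hp a b h
    · refine Q1_true.not.iff_of (fun A e => ⟨fun h1 => absurd trivial h1, fun h1 => ?_⟩)
      exact absurd (h1 ▸ hS a A e) h

/-- TASK Q1e. Proof. `CpF.bind` and `CpF.const`. -/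
theorem CpF.map {F : (ℕ → ℕ) → (Fin k → ℕ) → α} (f : α → β) (hF : CpF F) :
    CpF (fun A e => f (F A e)) := by
  exact CpF.bind (G := fun a _ _ => f a) hF (fun a => CpF.const (f a))

theorem CpF.map₂ {F : (ℕ → ℕ) → (Fin k → ℕ) → α} {G : (ℕ → ℕ) → (Fin k → ℕ) → β}
    (f : α → β → γ) (hF : CpF F) (hG : CpF G) : CpF (fun A e => f (F A e) (G A e)) := by
  exact CpF.bind (G := fun a A e => f a (G A e)) hF (fun a => CpF.map (f a) hG)

/-- TASK Q1f. Case distinction. -/
theorem CpF.ite {p : (ℕ → ℕ) → (Fin k → ℕ) → Prop} [∀ A e, Decidable (p A e)] (hp : Pp p)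
    {F G : (ℕ → ℕ) → (Fin k → ℕ) → α} (hF : CpF F) (hG : CpF G) :
    CpF (fun A e => if p A e then F A e else G A e) := by
  refine Q1_congr (CpF.bind (F := fun A e => decide (p A e))
    (G := fun b A e => if b = true then F A e else G A e) (Q1_dec hp) (fun b => ?_)) (fun A e => ?_)
  · cases b
    · exact Q1_congr hG (fun A e => by simp)
    · exact Q1_congr hF (fun A e => by simp)
  · by_cases h : p A e
    · simp [h]
    · simp [h]

/-- TASK Q1g. Functions on a finite type, value by value. Proof. Induction on the number of elements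
(or `Finset.induction` on a set `T ⊆ α` for the function which is `F A e a` for `a ∈ T` and a fixed
value outside), `CpF.map₂` with `Function.update`. -/
theorem CpF.pi [Finite α] {F : (ℕ → ℕ) → (Fin k → ℕ) → α → β}
    (hF : ∀ a, CpF (fun A e => F A e a)) : CpF F := by
  classical
  haveI : Fintype α := Fintype.ofFinite α
  choose T hT hp using hF
  refine ⟨Fintype.piFinset T, fun A e => Fintype.mem_piFinset.2 (fun a => hT a A e), fun f hf => ?_⟩
  have key : ∀ s : Finset α, Pp (fun A e => ∀ a ∈ s, F A e a = f a) := by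
    intro s
    induction s using Finset.induction with
    | empty => exact Q1_true.iff_of (fun A e => ⟨fun _ a ha => absurd ha (Finset.notMem_empty a), fun _ => trivial⟩)
    | insert a s _ ih =>
      refine ((hp a (f a) (Fintype.mem_piFinset.1 hf a)).and ih).iff_of (fun A e => ?_)
      constructor
      · intro h b hb
        rcases Finset.mem_insert.1 hb with h1 | h1
        · rw [h1]; exact h.1
        · exact h.2 b h1
      · intro h
        exact ⟨h a (Finset.mem_insert_self a s), fun b hb => h b (Finset.mem_insert_of_mem hb)⟩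
  refine (key Finset.univ).iff_of (fun A e => ⟨fun h => funext fun a => h a (Finset.mem_univ a), fun h a _ => ?_⟩)
  rw [h]

/-- TASK Q1h. A number below a fixed bound, decoded. Proof. The values are `d n` for `n < D`, and
`d (f % D) = a` iff `f % D = n` for one of the finitely many `n < D` with `d n = a`
(finite disjunction, `Pp.or`), or: `CpF.map d` after the case of `α = ℕ`. -/
theorem CpF.mod {f : (ℕ → ℕ) → (Fin k → ℕ) → ℕ} (hf : Cp f) {D : ℕ} (hD : 1 ≤ D) (d : ℕ → α) :
    CpF (fun A e => d (f A e % D)) := by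
  have h1 : CpF (fun A e => f A e % D) := by
    refine ⟨Finset.range D, fun A e => Finset.mem_range.2 (Nat.mod_lt _ hD), fun a _ => ?_⟩
    exact Pp.eq (Cp.mod hf (Cp.const D)) (Cp.const a)
  exact CpF.map d h1

/-- TASK Q1i. Decidable predicates as Booleans. -/
theorem CpF.decide {p : (ℕ → ℕ) → (Fin k → ℕ) → Prop} [∀ A e, Decidable (p A e)] (hp : Pp p) :
    CpF (fun A e => decide (p A e)) := by
  exact Q1_dec hp

/-- TASK Q1j. The code of a value. Proof. `Cp.bindF` and `Cp.const`. -/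
theorem Cp.code {F : (ℕ → ℕ) → (Fin k → ℕ) → α} (hF : CpF F) (c : α → ℕ) :
    Cp (fun A e => c (F A e)) := by
  exact Cp.bindF (G := fun a _ _ => c a) hF (fun a => Cp.const (c a))

end Pool.Agent.Lib.MP_0b8c1e_lc.PC
end

section

set_option autoImplicit false

namespace Pool.Agent.Lib.MP_0b8c1e_lc.PC

open Finset Pool.Agent.Lib.MP_711ea9_lc.FH

variable {I P S : Type}

/-- TASK Q2a. The graph in the array. Proof. `Cp.arr`, `Cp.add`, `Cp.mul`, `Cp.div`, `Cp.code`,
`CpF.mod`. -/
theorem cpd_dec {D Kc : ℕ} (hD : 1 ≤ D) (hK : 1 ≤ Kc) (cI : Cod I D)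
    (cR : Cod (S → S → Bool) Kc) : CpD (fun A _ => dec cI cR A) := by
  intro k n v i _ hv hi
  have hb : Cp (fun A e => A (1 + v A e * D + cI.c (i A e))) :=
    (((Cp.const 1).add (hv.mul (Cp.const D))).add (Cp.code hi cI.c)).arr
  exact ⟨(hb.div (Cp.const Kc)).div (Cp.const D), CpF.mod (hb.div (Cp.const Kc)) hD cI.d,
    CpF.mod hb hK cR.d⟩

/-- TASK Q2b. The expander. Proof. `fin_cases j`; unfold `mg`. -/
theorem cp_mg {k : ℕ} {n v : (ℕ → ℕ) → (Fin k → ℕ) → ℕ} (hn : Cp n) (hv : Cp v) (j : Fin 8) :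
    Cp (fun A e => mg (n A e) (v A e) j) := by
  have hd := hv.div hn
  have hm := hv.mod hn
  have h1 : Cp (fun (_ : ℕ → ℕ) (_ : Fin k → ℕ) => 1) := Cp.const 1
  have h2 : Cp (fun (_ : ℕ → ℕ) (_ : Fin k → ℕ) => 2) := Cp.const 2
  have a0 := (((hd.add (h2.mul hm)).mod hn).mul hn).add hm
  have a1 := ((((hd.add (h2.mul hm)).add h1).mod hn).mul hn).add hm
  have a2 := (hd.mul hn).add ((hm.add (h2.mul hd)).mod hn)
  have a3 := (hd.mul hn).add (((hm.add (h2.mul hd)).add h1).mod hn)
  have a4 := (((hd.add (h2.mul (hn.sub hm))).mod hn).mul hn).add hm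
  have a5 := ((((hd.add (h2.mul (hn.sub hm))).add (hn.sub h1)).mod hn).mul hn).add hm
  have a6 := (hd.mul hn).add ((hm.add (h2.mul (hn.sub hd))).mod hn)
  have a7 := (hd.mul hn).add (((hm.add (h2.mul (hn.sub hd))).add (hn.sub h1)).mod hn)
  fin_cases j
  · exact a0
  · exact a1
  · exact a2
  · exact a3
  · exact a4
  · exact a5
  · exact a6
  · exact a7

/-- TASK Q2c. Step 1. Proof. By `Cp.bindF`/`CpF.bind` (with the label as the finite value) it
suffices to consider a fixed label `(i, j)`: `j = 0`: the property of `g`; `1 ≤ j ≤ 8`: `cp_mg`;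
`j ≥ 9`: the vertex itself. -/
theorem cpd_ex {g : (ℕ → ℕ) → ℕ → DS ℕ I P} (hg : CpD g) :
    CpD (fun A n => exDS (g A n) (mg n)) := by
  intro k n v i hn hv hi
  have key : ∀ a : I × Fin 18,
      Cp (fun A e => ((exDS (g A (n A e)) (mg (n A e))).rot (v A e, a)).1) ∧
      CpF (fun A e => ((exDS (g A (n A e)) (mg (n A e))).rot (v A e, a)).2) ∧
      CpF (fun A e => (exDS (g A (n A e)) (mg (n A e))).con (v A e, a)) := by
    rintro ⟨i₀, j₀⟩
    obtain ⟨g1, g2, g3⟩ := hg k n v (fun _ _ => i₀) hn hv (CpF.const i₀)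
    by_cases h0 : j₀.val = 0
    · have e : ∀ A e', (exDS (g A (n A e')) (mg (n A e'))).rot (v A e', (i₀, j₀)) =
          (((g A (n A e')).rot (v A e', i₀)).1, (((g A (n A e')).rot (v A e', i₀)).2, j₀)) := by
        intro A e'
        show exRot (g A (n A e')).rot (mg (n A e')) (v A e', (i₀, j₀)) = _
        unfold exRot
        simp only [h0, if_true]
      have e2 : ∀ A e', (exDS (g A (n A e')) (mg (n A e'))).con (v A e', (i₀, j₀)) =
          (g A (n A e')).con (v A e', i₀) := by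
        intro A e'
        show exCon (g A (n A e')).con (v A e', (i₀, j₀)) = _
        unfold exCon
        simp only [h0, if_true]
      simp only [e, e2]
      exact ⟨g1, CpF.map (fun x => (x, j₀)) g2, g3⟩
    · have e2 : ∀ A e', (exDS (g A (n A e')) (mg (n A e'))).con (v A e', (i₀, j₀)) =
          fun _ _ => true := by
        intro A e'
        show exCon (g A (n A e')).con (v A e', (i₀, j₀)) = _
        unfold exCon
        simp only [h0, if_false]
      by_cases h9 : j₀.val < 9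
      · have e : ∀ A e', (exDS (g A (n A e')) (mg (n A e'))).rot (v A e', (i₀, j₀)) =
            (mg (n A e') (v A e') ⟨j₀.val - 1, by omega⟩,
              (i₀, ⟨(bk ⟨j₀.val - 1, by omega⟩).val + 1, by omega⟩)) := by
          intro A e'
          show exRot (g A (n A e')).rot (mg (n A e')) (v A e', (i₀, j₀)) = _
          unfold exRot
          simp only [h0, if_false, h9, dif_pos]
        simp only [e, e2]
        exact ⟨cp_mg hn hv _, CpF.const _, CpF.const _⟩
      · have e : ∀ A e', (exDS (g A (n A e')) (mg (n A e'))).rot (v A e', (i₀, j₀)) =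
            (v A e', (i₀, j₀)) := by
          intro A e'
          show exRot (g A (n A e')).rot (mg (n A e')) (v A e', (i₀, j₀)) = _
          unfold exRot
          simp only [h0, if_false, h9, dif_neg, not_false_eq_true]
        simp only [e, e2]
        exact ⟨hv, CpF.const _, CpF.const _⟩
  exact ⟨Cp.bindF (G := fun a A e => ((exDS (g A (n A e)) (mg (n A e))).rot (v A e, a)).1) hi
      fun a => (key a).1,
    CpF.bind (G := fun a A e => ((exDS (g A (n A e)) (mg (n A e))).rot (v A e, a)).2) hi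
      fun a => (key a).2.1,
    CpF.bind (G := fun a A e => (exDS (g A (n A e)) (mg (n A e))).con (v A e, a)) hi
      fun a => (key a).2.2⟩

/-- TASK Q2d. Walks along a fixed list. Proof. Induction on the list `l` for all `v`: the first step
leads to a vertex in `Cp` and gives a back label and a constraint in `CpF`; `CpF.map₂` for the lists. -/
theorem cp_walk {g : (ℕ → ℕ) → ℕ → DS ℕ I P} (hg : CpD g) (l : List I) {k : ℕ}
    {n v : (ℕ → ℕ) → (Fin k → ℕ) → ℕ} (hn : Cp n) (hv : Cp v) :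
    Cp (fun A e => (g A (n A e)).walk (v A e) l) ∧
      CpF (fun A e => (g A (n A e)).back (v A e) l) ∧
      CpF (fun A e => (g A (n A e)).cons (v A e) l) := by
  induction l generalizing v with
  | nil => exact ⟨hv, CpF.const _, CpF.const _⟩
  | cons a l ih =>
    obtain ⟨g1, g2, g3⟩ := hg k n v (fun _ _ => a) hn hv (CpF.const a)
    obtain ⟨w1, w2, w3⟩ := ih g1
    exact ⟨w1, CpF.map₂ (fun x y => x ++ [y]) w2 g2, CpF.map₂ (fun x y => x :: y) g3 w3⟩

/-- TASK Q2e. Step 2. Proof. For a fixed label `(ℓ, p)` the values are functions of `walk`, `back`,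
`cons` along the fixed list `p.1.take (ℓ + 1)` (`cp_walk`, `CpF.map`); for a variable label
`Cp.bindF`/`CpF.bind`. -/
theorem cpd_pow [Inhabited S] {g : (ℕ → ℕ) → ℕ → DS ℕ I S} (hg : CpD g) (M : ℕ) :
    CpD (fun A n => powDS (g A n) M) := by
  intro k n v i hn hv hi
  have key : ∀ a : PLab I M,
      Cp (fun A e => ((powDS (g A (n A e)) M).rot (v A e, a)).1) ∧
      CpF (fun A e => ((powDS (g A (n A e)) M).rot (v A e, a)).2) ∧
      CpF (fun A e => (powDS (g A (n A e)) M).con (v A e, a)) := by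
    rintro ⟨ℓ, p⟩
    obtain ⟨w1, w2, w3⟩ := cp_walk hg (p.1.take (ℓ + 1)) hn hv
    refine ⟨w1, ?_, ?_⟩
    · exact CpF.map (fun q : List I => ((ℓ, ⟨if (q ++ p.1.drop (ℓ + 1)).length = 2 * M - 1 then
          q ++ p.1.drop (ℓ + 1) else p.1, by
            split_ifs with h
            · exact h
            · exact p.2⟩) : PLab I M)) w2
    · exact CpF.map₂ (fun (q : List I) (ks : List (S → S → Bool)) =>
        powCon M ℓ (p.1.take (ℓ + 1)) q ks) w2 w3
  exact ⟨Cp.bindF (G := fun a A e => ((powDS (g A (n A e)) M).rot (v A e, a)).1) hi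
      fun a => (key a).1,
    CpF.bind (G := fun a A e => ((powDS (g A (n A e)) M).rot (v A e, a)).2) hi
      fun a => (key a).2.1,
    CpF.bind (G := fun a A e => (powDS (g A (n A e)) M).con (v A e, a)) hi
      fun a => (key a).2.2⟩

end Pool.Agent.Lib.MP_0b8c1e_lc.PC
end

section

set_option autoImplicit false

namespace Pool.Agent.Lib.MP_0b8c1e_lc.PC

open Finset DS

private theorem I1a_dm {a b D : ℕ} (hb : b < D) : (a * D + b) / D = a ∧ (a * D + b) % D = b := by
  have hm : 0 < D := by omega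
  constructor
  · rw [Nat.add_comm, Nat.add_mul_div_right _ _ hm, Nat.div_eq_of_lt hb, Nat.zero_add]
  · rw [Nat.add_comm, Nat.add_mul_mod_self_right, Nat.mod_eq_of_lt hb]

private theorem I1a_lt {a b D : ℕ} (ha : a < D) (hb : b < D) : a * D + b < D * D := by
  calc a * D + b < a * D + D := by omega
    _ = (a + 1) * D := by ring
    _ ≤ D * D := Nat.mul_le_mul_right _ ha

private theorem I1a_m1 {m y : ℕ} (hy : y < m) : ((y + 1) % m + (m - 1)) % m = y := by
  rcases Nat.lt_or_ge (y + 1) m with h | h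
  · rw [Nat.mod_eq_of_lt h, show y + 1 + (m - 1) = y + m by omega, Nat.add_mod_right,
      Nat.mod_eq_of_lt hy]
  · have h1 : y + 1 = m := by omega
    rw [h1, Nat.mod_self, Nat.zero_add, Nat.mod_eq_of_lt (by omega)]
    omega

private theorem I1a_m2 {m y : ℕ} (hy : y < m) : ((y + (m - 1)) % m + 1) % m = y := by
  rcases Nat.eq_zero_or_pos y with h | h
  · rw [h, Nat.zero_add, Nat.mod_eq_of_lt (show m - 1 < m by omega), show m - 1 + 1 = m by omega,
      Nat.mod_self]
  · rw [show y + (m - 1) = y - 1 + m by omega, Nat.add_mod_right,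
      Nat.mod_eq_of_lt (show y - 1 < m by omega), show y - 1 + 1 = y by omega,
      Nat.mod_eq_of_lt hy]

/-- TASK I1a. The torus. Proof. With `x = p.1 / m`, `y = p.1 % m` (both less than `m`) every case is
arithmetic with `(x m + y) / m = x`, `(x m + y) % m = y`;
`((y + 1) % m + (m - 1)) % m = y` for `y < m`. -/
theorem rot0_lt {m v : ℕ} (hv : v < m * m) (i : Idx) : (rot0 m (v, i)).1 < m * m := by
  have hm : 0 < m := by
    rcases Nat.eq_zero_or_pos m with h | h
    · rw [h] at hv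
      omega
    · exact h
  have hx : v / m < m := Nat.div_lt_of_lt_mul hv
  have hy : v % m < m := Nat.mod_lt _ hm
  unfold rot0
  simp only
  split_ifs
  · exact I1a_lt hx (Nat.mod_lt _ hm)
  · exact I1a_lt hx (Nat.mod_lt _ hm)
  · exact I1a_lt (Nat.mod_lt _ hm) hy
  · exact I1a_lt (Nat.mod_lt _ hm) hy
  · exact hv

theorem rot0_rot0 {m v : ℕ} (hv : v < m * m) (i : Idx) : rot0 m (rot0 m (v, i)) = (v, i) := by
  have hm : 0 < m := by
    rcases Nat.eq_zero_or_pos m with h | h
    · rw [h] at hv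
      omega
    · exact h
  have hx : v / m < m := Nat.div_lt_of_lt_mul hv
  have hy : v % m < m := Nat.mod_lt _ hm
  have hxy : v / m * m + v % m = v := by
    rw [Nat.mul_comm]
    exact Nat.div_add_mod v m
  have n1 : ¬ ((0, 1) : Idx) = (0, 0) := by simp
  have n2 : ¬ ((0, 3) : Idx) = (0, 0) := by
    intro h
    have := congrArg (fun x : Idx => x.2.val) h
    simp at this
  have n3 : ¬ ((0, 3) : Idx) = (0, 1) := by
    intro h
    have := congrArg (fun x : Idx => x.2.val) h
    simp at this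
  have n4 : ¬ ((0, 3) : Idx) = (0, 2) := by
    intro h
    have := congrArg (fun x : Idx => x.2.val) h
    simp at this
  have n5 : ¬ ((0, 2) : Idx) = (0, 0) := by
    intro h
    have := congrArg (fun x : Idx => x.2.val) h
    simp at this
  have n6 : ¬ ((0, 2) : Idx) = (0, 1) := by
    intro h
    have := congrArg (fun x : Idx => x.2.val) h
    simp at this
  by_cases h0 : i = (0, 0)
  · have e1 : rot0 m (v, i) = (v / m * m + (v % m + 1) % m, (0, 1)) := by
      unfold rot0
      simp only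
      rw [if_pos h0]
    rw [e1]
    unfold rot0
    simp only
    obtain ⟨a1, a2⟩ := I1a_dm (a := v / m) (Nat.mod_lt (v % m + 1) hm)
    rw [if_neg n1, if_pos trivial, a1, a2, I1a_m1 hy, hxy, h0]
  by_cases h1 : i = (0, 1)
  · have e1 : rot0 m (v, i) = (v / m * m + (v % m + (m - 1)) % m, (0, 0)) := by
      unfold rot0
      simp only
      rw [if_neg h0, if_pos h1]
    rw [e1]
    unfold rot0
    simp only
    obtain ⟨a1, a2⟩ := I1a_dm (a := v / m) (Nat.mod_lt (v % m + (m - 1)) hm)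
    rw [if_pos trivial, a1, a2, I1a_m2 hy, hxy, h1]
  by_cases h2 : i = (0, 2)
  · have e1 : rot0 m (v, i) = ((v / m + 1) % m * m + v % m, (0, 3)) := by
      unfold rot0
      simp only
      rw [if_neg h0, if_neg h1, if_pos h2]
    rw [e1]
    unfold rot0
    simp only
    obtain ⟨a1, a2⟩ := I1a_dm (a := (v / m + 1) % m) hy
    rw [if_neg n2, if_neg n3, if_neg n4, if_pos trivial, a1, a2, I1a_m1 hx, hxy, h2]
  by_cases h3 : i = (0, 3)
  · have e1 : rot0 m (v, i) = ((v / m + (m - 1)) % m * m + v % m, (0, 2)) := by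
      unfold rot0
      simp only
      rw [if_neg h0, if_neg h1, if_neg h2, if_pos h3]
    rw [e1]
    unfold rot0
    simp only
    obtain ⟨a1, a2⟩ := I1a_dm (a := (v / m + (m - 1)) % m) hy
    rw [if_neg n5, if_neg n6, if_pos trivial, a1, a2, I1a_m2 hx, hxy, h3]
  · have e1 : rot0 m (v, i) = (v, i) := by
      unfold rot0
      simp only
      rw [if_neg h0, if_neg h1, if_neg h2, if_neg h3]
    rw [e1, e1]

theorem hom_G0 {m : ℕ} (φ : Formula m) :
    Hom (fun v : Fin (m * m) => (v : ℕ)) (G0 φ) (g0 (code φ) m) :=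
  hom_toFin fun _ hv i => rot0_lt hv i

theorem G0_inv {m : ℕ} (φ : Formula m) : (G0 φ).Inv := by
  intro p
  have h1 := (hom_G0 φ p.1 p.2).1
  have h2 := (hom_G0 φ ((G0 φ).rot p).1 ((G0 φ).rot p).2).1
  have h3 := rot0_rot0 p.1.2 p.2
  have h4 : rot0 m ((p.1 : ℕ), p.2) = ((((G0 φ).rot p).1 : ℕ), ((G0 φ).rot p).2) := h1
  have h5 : rot0 m ((((G0 φ).rot p).1 : ℕ), ((G0 φ).rot p).2) =
    ((((G0 φ).rot ((G0 φ).rot p)).1 : ℕ), ((G0 φ).rot ((G0 φ).rot p)).2) := h2
  rw [h4, h5] at h3
  have h6 := Prod.mk.inj h3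
  exact Prod.ext (Fin.ext h6.1) h6.2

end Pool.Agent.Lib.MP_0b8c1e_lc.PC
end

section

set_option autoImplicit false

namespace Pool.Agent.Lib.MP_0b8c1e_lc.PC

open Finset Pool.Agent.Lib.MP_711ea9_lc.FH

variable {I P S K : Type}

private theorem Q3_out {μ : ℕ} {g : (ℕ → ℕ) → ℕ → DS ℕ K P} (hg : CpD g)
    {k : ℕ} {n w : (ℕ → ℕ) → (Fin k → ℕ) → ℕ} (hn : Cp n) (hw : Cp w) (x : LocA K P μ) :
    Cp (fun A e => (outA (g A (n A e)) (w A e) x).1.1.1) ∧
      CpF (fun A e => ((outA (g A (n A e)) (w A e) x).1.1.2,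
        ((outA (g A (n A e)) (w A e) x).1.2, (outA (g A (n A e)) (w A e) x).2))) := by
  obtain ⟨h1, h2, -⟩ := hg k n w (fun _ _ => x.1.1) hn hw (CpF.const _)
  rcases hx : x.1.2 with _ | _
  · have h : ∀ A e, outA (g A (n A e)) (w A e) x = (((w A e, x.1.1), x.2), 0) := fun A e => by
      unfold outA
      rw [hx]
      rfl
    simp only [h]
    exact ⟨hw, CpF.const _⟩
  · have h : ∀ A e, outA (g A (n A e)) (w A e) x =
        (((g A (n A e)).rot (w A e, x.1.1), x.2), 1) := fun A e => by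
      unfold outA
      rw [hx]
      rfl
    simp only [h]
    have m := CpF.map (fun a => (a, (x.2, (1 : Fin 18)))) h2
    exact ⟨h1, m⟩

private theorem Q3_rot [DecidableEq P] {μ : ℕ} (RA : LocA K P μ × Fin 9 → LocA K P μ × Fin 9)
    (RB : (P → P → Bool) → LocB P μ × Fin 9 → LocB P μ × Fin 9)
    {g : (ℕ → ℕ) → ℕ → DS ℕ K P} (hg : CpD g)
    {k : ℕ} {n u : (ℕ → ℕ) → (Fin k → ℕ) → ℕ} (hn : Cp n) (hu : Cp u) (a : K) (y : Rnd P × Fin μ)
    (j : Fin 18) (i : Fin 9) :
    Cp (fun A e => (tRot (g A (n A e)) RA RB (((u A e, a), y), (j, i))).1.1.1) ∧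
      CpF (fun A e => ((tRot (g A (n A e)) RA RB (((u A e, a), y), (j, i))).1.1.2,
        ((tRot (g A (n A e)) RA RB (((u A e, a), y), (j, i))).1.2,
          (tRot (g A (n A e)) RA RB (((u A e, a), y), (j, i))).2))) := by
  obtain ⟨h1, h2, h3⟩ := hg k n u (fun _ _ => a) hn hu (CpF.const _)
  by_cases j0 : j.val = 0
  · have h : ∀ A e, tRot (g A (n A e)) RA RB (((u A e, a), y), (j, i)) =
        ((outA (g A (n A e)) (u A e) (RA (((a, false), y), i)).1).1,
        ((outA (g A (n A e)) (u A e) (RA (((a, false), y), i)).1).2,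
          (RA (((a, false), y), i)).2)) := fun A e => by
      unfold tRot
      dsimp only
      rw [if_pos j0]
    simp only [h]
    obtain ⟨o1, o2⟩ := Q3_out hg hn hu (RA (((a, false), y), i)).1
    have m := CpF.map (fun z => (z.1, (z.2.1, (z.2.2, (RA (((a, false), y), i)).2)))) o2
    exact ⟨o1, m⟩
  by_cases j1 : j.val = 1
  · have h : ∀ A e, tRot (g A (n A e)) RA RB (((u A e, a), y), (j, i)) =
        ((outA (g A (n A e)) ((g A (n A e)).rot (u A e, a)).1
          (RA (((((g A (n A e)).rot (u A e, a)).2, true), y), i)).1).1,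
        ((outA (g A (n A e)) ((g A (n A e)).rot (u A e, a)).1
          (RA (((((g A (n A e)).rot (u A e, a)).2, true), y), i)).1).2,
          (RA (((((g A (n A e)).rot (u A e, a)).2, true), y), i)).2)) := fun A e => by
      unfold tRot
      dsimp only
      rw [if_neg j0, if_pos j1]
    simp only [h]
    refine ⟨Cp.bindF (G := fun b A e => (outA (g A (n A e)) ((g A (n A e)).rot (u A e, a)).1
      (RA (((b, true), y), i)).1).1.1.1) h2 fun b => (Q3_out hg hn h1 _).1,
      CpF.bind (G := fun b A e => ((outA (g A (n A e)) ((g A (n A e)).rot (u A e, a)).1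
      (RA (((b, true), y), i)).1).1.1.2, ((outA (g A (n A e)) ((g A (n A e)).rot (u A e, a)).1
      (RA (((b, true), y), i)).1).1.2, ((outA (g A (n A e)) ((g A (n A e)).rot (u A e, a)).1
      (RA (((b, true), y), i)).1).2, (RA (((b, true), y), i)).2)))) h2 fun b => ?_⟩
    have m := CpF.map (fun z => (z.1, (z.2.1, (z.2.2, (RA (((b, true), y), i)).2))))
      (Q3_out hg hn h1 (RA (((b, true), y), i)).1).2
    exact m
  · have h : ∀ A e, tRot (g A (n A e)) RA RB (((u A e, a), y), (j, i)) =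
      (((u A e, a), (RB ((g A (n A e)).con (u A e, a)) ((⟨j.val - 2, by omega⟩, y), i)).1.2),
        (⟨(RB ((g A (n A e)).con (u A e, a)) ((⟨j.val - 2, by omega⟩, y), i)).1.1.val + 2,
          by omega⟩, (RB ((g A (n A e)).con (u A e, a)) ((⟨j.val - 2, by omega⟩, y), i)).2)) :=
      fun A e => by
        unfold tRot
        dsimp only
        rw [if_neg j0, if_neg j1]
    simp only [h]
    have m := CpF.map (fun c => (a, ((RB c ((⟨j.val - 2, by omega⟩, y), i)).1.2,
      ((⟨(RB c ((⟨j.val - 2, by omega⟩, y), i)).1.1.val + 2, by omega⟩ : Fin 18),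
        (RB c ((⟨j.val - 2, by omega⟩, y), i)).2)))) h3
    exact ⟨hu, m⟩

private theorem Q3_rec [DecidableEq P] {μ D : ℕ} (E : Cod (K × (Rnd P × Fin μ)) D) (G : DS ℕ K P)
    (RA : LocA K P μ × Fin 9 → LocA K P μ × Fin 9)
    (RB : (P → P → Bool) → LocB P μ × Fin 9 → LocB P μ × Fin 9) (v : ℕ) (i : Fin 18 × Fin 9) :
    (recode E (testDS G RA RB)).rot (v, i) =
      (vc E (tRot G RA RB (((v / D, (E.d (v % D)).1), (E.d (v % D)).2), (i.1, i.2))).1,
        (tRot G RA RB (((v / D, (E.d (v % D)).1), (E.d (v % D)).2), (i.1, i.2))).2) := rfl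

/-- The constraint as a function of the finite data. -/
private noncomputable def Q3_acc (ρ : Rnd P) (j : Fin 18) (ρ' : Rnd P) (j' : Fin 18)
    (w w' : Fin 18 → ZMod 2) : Bool :=
  accept ρ w && accept ρ' w' && decide (w j = w' j')

private theorem Q3_tcon {V : Type} {μ : ℕ}
    (R : Tst V K P μ × (Fin 18 × Fin 9) → Tst V K P μ × (Fin 18 × Fin 9))
    (p : Tst V K P μ × (Fin 18 × Fin 9)) :
    tCon R p = Q3_acc p.1.2.1 p.2.1 (R p).1.2.1 (R p).2.1 := rfl

private theorem Q3_con [DecidableEq P] {μ D : ℕ} (E : Cod (K × (Rnd P × Fin μ)) D) (G : DS ℕ K P)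
    (RA : LocA K P μ × Fin 9 → LocA K P μ × Fin 9)
    (RB : (P → P → Bool) → LocB P μ × Fin 9 → LocB P μ × Fin 9) (v : ℕ) (i : Fin 18 × Fin 9) :
    (recode E (testDS G RA RB)).con (v, i) =
      Q3_acc (E.d (v % D)).2.1 i.1
        (tRot G RA RB (((v / D, (E.d (v % D)).1), (E.d (v % D)).2), (i.1, i.2))).1.2.1
        (tRot G RA RB (((v / D, (E.d (v % D)).1), (E.d (v % D)).2), (i.1, i.2))).2.1 := by
  have h : (recode E (testDS G RA RB)).con (v, i) = tCon (tRot G RA RB)
    (((v / D, (E.d (v % D)).1), (E.d (v % D)).2), (i.1, i.2)) := rfl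
  rw [h, Q3_tcon]

/-- TASK Q3a. Steps 3 and 4, in the numbering by natural numbers.

Proof. Let `g' = testDS (g A n) RA RB` and let `v`, `i` be the vertex (a number) and the label
`(j, i')`. `vd E v = ((v / D, k), y)` with `(k, y) = E.d (v % D)`, which is in `CpF` (`CpF.mod`). By
`Cp.bindF`, `CpF.bind` we may assume that `(k, y)` and the label `(j, i')` are fixed. Cases:
`j = 0`: let `x = RA (((k, false), y), i')` (fixed); if `x.1.1.2` is false then the end is
`((v / D, x.1.1.1), x.1.2)`, otherwise its first part is `g.rot (v / D, x.1.1.1)`, a vertex in `Cp`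
and a label in `CpF`. `j = 1`: first `(w, k') = g.rot (v / D, k)`; `k'` is in `CpF`, so by
`Cp.bindF`/`CpF.bind` it may be fixed, too, and we continue as before at the vertex `w`. `j ≥ 2`: the
constraint `g.con (v / D, k)` is in `CpF`, it may be fixed, and then the end is given by a fixed value
of `RB`. The number of the end is `w * D + E.c (..)` (`Cp.code`). The constraint `tCon` is a function
of the label, `y` and the end of the dart (its component `.1.2.1` and label, in `CpF`). -/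
theorem cpd_test [DecidableEq P] {μ D : ℕ} (hD : 1 ≤ D) (E : Cod (K × (Rnd P × Fin μ)) D)
    (RA : LocA K P μ × Fin 9 → LocA K P μ × Fin 9)
    (RB : (P → P → Bool) → LocB P μ × Fin 9 → LocB P μ × Fin 9)
    {g : (ℕ → ℕ) → ℕ → DS ℕ K P} (hg : CpD g) :
    CpD (fun A n => recode E (testDS (g A n) RA RB)) := by
  intro k n v i hn hv hi
  have hF : CpF (fun A e => (E.d (v A e % D), i A e)) :=
    CpF.map₂ Prod.mk (CpF.mod hv hD E.d) hi
  have hu : Cp (fun A e => v A e / D) := Cp.div hv (Cp.const D)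
  refine ⟨?_, ?_, ?_⟩
  · simp only [Q3_rec]
    refine Cp.bindF (G := fun f A e => vc E (tRot (g A (n A e)) RA RB
      (((v A e / D, f.1.1), f.1.2), (f.2.1, f.2.2))).1) hF fun f => ?_
    obtain ⟨r1, r2⟩ := Q3_rot RA RB hg hn hu f.1.1 f.1.2 f.2.1 f.2.2
    have m := Cp.add (Cp.mul r1 (Cp.const D)) (Cp.code r2 fun z => E.c (z.1, z.2.1))
    exact m
  · simp only [Q3_rec]
    refine CpF.bind (G := fun f A e => (tRot (g A (n A e)) RA RB
      (((v A e / D, f.1.1), f.1.2), (f.2.1, f.2.2))).2) hF fun f => ?_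
    obtain ⟨r1, r2⟩ := Q3_rot RA RB hg hn hu f.1.1 f.1.2 f.2.1 f.2.2
    have m := CpF.map (fun z => z.2.2) r2
    exact m
  · simp only [Q3_con]
    refine CpF.bind (G := fun f A e => Q3_acc f.1.2.1 f.2.1
      (tRot (g A (n A e)) RA RB (((v A e / D, f.1.1), f.1.2), (f.2.1, f.2.2))).1.2.1
      (tRot (g A (n A e)) RA RB (((v A e / D, f.1.1), f.1.2), (f.2.1, f.2.2))).2.1) hF fun f => ?_
    obtain ⟨r1, r2⟩ := Q3_rot RA RB hg hn hu f.1.1 f.1.2 f.2.1 f.2.2
    have m := CpF.map (fun z => Q3_acc f.1.2.1 f.2.1 z.2.1.1 z.2.2.1) r2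
    exact m

/-- TASK Q3b. One round. Proof. `cpd_ex`, `cpd_pow`, `cpd_test`. -/
theorem cpd_round [Fintype I] [Inhabited S] [DecidableEq S] (κ : Kit I S) {D : ℕ} (hD : 1 ≤ D)
    (E : Cod (TY κ) D) {g : (ℕ → ℕ) → ℕ → DS ℕ I S} (hg : CpD g) :
    CpD (fun A n => rdN κ E n (g A n)) :=
  cpd_test hD E κ.RA κ.RB (cpd_pow (cpd_ex hg) κ.M)

end Pool.Agent.Lib.MP_0b8c1e_lc.PC
end
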