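import Pool.Agent.Lib.MP_0b8c1e_lc.Mg.G002
import Pool.Agent.Lib.MP_0b8c1e_lc.Mg.G001
import Pool.Agent.Lib.MP_711ea9_lc.FH.J10
import Pool.Agent.Lib.MP_0b8c1e_lc.PtDefs
import Pool.Agent.Lib.MP_711ea9_lc.FH.J1

section

set_option autoImplicit false

namespace Pool.Agent.Lib.MP_0b8c1e_lc.PC

open Finset DS

variable {D Pt : ℕ}

private theorem f1b_zmod (a b : ZMod 2) : (decide (a = 1) = decide (b = 0)) ↔ a ≠ b := by
  revert a b
  decide

private theorem f1b_lit {M v w : ℕ} {π : Lab × Lab} {σ : ℕ → Lab} {vv : ℕ → Bool}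
    (hvv : ∀ x (t : Fin 18), vv (M + 18 * x + t.val) = decide (σ x t = 1))
    (h : ∀ t : Fin 36, vv (litN M v w π t).1 ≠ (litN M v w π t).2) : σ v = π.1 ∧ σ w = π.2 := by
  refine ⟨funext fun t => ?_, funext fun t => ?_⟩
  · have h1 := h ⟨t.val, by omega⟩
    have ht : (⟨t.val, by omega⟩ : Fin 36).val < 18 := t.2
    rw [litN, dif_pos ht] at h1
    simp only [] at h1
    rw [hvv v t] at h1
    by_contra h2
    exact h1 ((f1b_zmod _ _).2 h2)
  · have h1 := h ⟨18 + t.val, by omega⟩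
    have ht : ¬ (⟨18 + t.val, by omega⟩ : Fin 36).val < 18 := by simp
    rw [litN, dif_neg ht] at h1
    have e : (⟨18 + t.val, by omega⟩ : Fin 36).val - 18 = t.val := by simp
    have e2 : (⟨(⟨18 + t.val, by omega⟩ : Fin 36).val - 18, by simp⟩ : Fin 18) = t := by
      ext
      simp
    simp only [e] at h1
    rw [hvv w t] at h1
    by_contra h2
    exact h1 ((f1b_zmod _ _).2 h2)

private theorem f1b_ge {M v w : ℕ} {π : Lab × Lab} (t : Fin 36) : M ≤ (litN M v w π t).1 := by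
  rw [litN]
  split_ifs
  · simp only []; omega
  · simp only []; omega

/-- TASK F1b. Completeness. Proof. Let `σ` satisfy all constraints. The variable `M + 18 v + t`
(`v < N ^ 2`, `t < 18`) gets the value `σ v t = 1`. For a dart `(v, i)` leading to `w` and a pattern
`π` which is not allowed, `(σ v, σ w) ≠ π`, so for some `t < 36` the literal `litN .. t` is true. The
auxiliary variable `q = (..) * 36 + t` gets the value true iff all literals `litN .. t'` with
`t' ≤ t` are false. Then all clauses of the group are true: clause `t`: if `z_{t-1}` is true (or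
`t = 0`) and the literal `t` is false then `z_t` is true; for `t = 35` not all literals are false. In
the groups of the allowed patterns all auxiliary variables are true. -/
theorem finF_sat (hD : 1 ≤ D) (hP : 1 ≤ Pt) (cI : Cod Idx D) (cP : Cod (Lab × Lab) Pt) {N : ℕ}
    {G : DS (Fin (N * N)) Idx Lab} (h : G.Sat) : ∃ a, unsat (finF cI cP G) a = 0 := by
  classical
  obtain ⟨σ, hσ⟩ := h
  have hσ' : ∀ p, G.con p (σ p.1) (σ (G.rot p).1) = true := by
    intro p
    by_contra h1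
    have h2 : p ∈ G.bad σ := by
      simp only [DS.bad, mem_filter, mem_univ, true_and]
      simpa using h1
    rw [hσ] at h2
    simp at h2
  set M := N * N * D * Pt * 36 with hM
  let sN : ℕ → Lab := fun v => if h : v < N * N then σ ⟨v, h⟩ else fun _ => 0
  let vv : ℕ → Bool := fun x => decide (sN ((x - M) / 18) ⟨(x - M) % 18, Nat.mod_lt _ (by norm_num)⟩ = 1)
  have hvv : ∀ x (t : Fin 18), vv (M + 18 * x + t.val) = decide (sN x t = 1) := by
    intro x t
    have e1 : (M + 18 * x + t.val - M) / 18 = x := by omega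
    have e2 : (M + 18 * x + t.val - M) % 18 = t.val := by omega
    have e3 : (⟨(M + 18 * x + t.val - M) % 18, Nat.mod_lt _ (by norm_num)⟩ : Fin 18) = t := by
      ext
      exact e2
    simp only [vv]
    rw [e3, e1]
  -- the data of a group
  let gπ : ℕ → Lab × Lab := fun g => cP.d (g % Pt)
  let gi : ℕ → Idx := fun g => cI.d (g / Pt % D)
  let gv : ℕ → ℕ := fun g => g / Pt / D
  let gw : ℕ → ℕ := fun g => ((toNat G).rot (gv g, gi g)).1
  let L : ℕ → Fin 36 → Prop := fun g t =>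
    vv (litN M (gv g) (gw g) (gπ g) t).1 = (litN M (gv g) (gw g) (gπ g) t).2
  let ok : ℕ → Prop := fun g => (toNat G).con (gv g, gi g) (gπ g).1 (gπ g).2 = true
  let z : ℕ → Bool := fun q => decide (ok (q / 36) ∨ ∀ t : Fin 36, t.val ≤ q % 36 → ¬ L (q / 36) t)
  let val : ℕ → Bool := fun x => if x < M then z x else vv x
  -- some literal is true in every group of a pattern which is not allowed
  have key : ∀ g, g < N * N * D * Pt → ¬ ok g → ∃ t, L g t := by
    intro g hg hok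
    by_contra hL
    push Not at hL
    obtain ⟨h1, h2⟩ := f1b_lit hvv hL
    apply hok
    have hv : gv g < N * N := by
      have h3 : g / Pt < N * N * D := Nat.div_lt_of_lt_mul (by rw [mul_comm]; exact hg)
      exact Nat.div_lt_of_lt_mul (by rw [mul_comm]; exact h3)
    have hw : gw g = ((G.rot (⟨gv g, hv⟩, gi g)).1 : ℕ) := by
      simp only [gw, toNat, dif_pos hv]
    have hc : (toNat G).con (gv g, gi g) = G.con (⟨gv g, hv⟩, gi g) := by
      simp only [toNat, dif_pos hv]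
    have e1 : sN (gv g) = σ ⟨gv g, hv⟩ := by
      simp only [sN, dif_pos hv]
    have e2 : sN (gw g) = σ (G.rot (⟨gv g, hv⟩, gi g)).1 := by
      rw [hw]
      simp only [sN, dif_pos (G.rot (⟨gv g, hv⟩, gi g)).1.2]
    show (toNat G).con (gv g, gi g) (gπ g).1 (gπ g).2 = true
    rw [← h1, ← h2, e1, e2, hc]
    exact hσ' (⟨gv g, hv⟩, gi g)
  refine ⟨fun x => val x.val, ?_⟩
  rw [unsat, card_eq_zero, filter_eq_empty_iff]
  intro q _ hall
  have hq : q.val < M := q.2
  have hval : ∀ s : Fin 3, val (clN cI cP M (toNat G) q.val s).1 ≠ (clN cI cP M (toNat G) q.val s).2 := by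
    intro s
    have h1 := hall s
    simp only [finF] at h1
    rw [Nat.mod_eq_of_lt (clN_lt hD hP cI cP G hq s)] at h1
    exact h1
  clear hall
  have hlit : ∀ t, val (litN M (gv (q.val / 36)) (gw (q.val / 36)) (gπ (q.val / 36)) t).1
      = vv (litN M (gv (q.val / 36)) (gw (q.val / 36)) (gπ (q.val / 36)) t).1 := by
    intro t
    have h1 : ¬ (litN M (gv (q.val / 36)) (gw (q.val / 36)) (gπ (q.val / 36)) t).1 < M :=
      not_lt.2 (f1b_ge t)
    simp only [val, if_neg h1]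
  have hcl : ∀ s : Fin 3, clN cI cP M (toNat G) q.val s =
      if ok (q.val / 36) then (q.val, true)
      else if s = 1 then litN M (gv (q.val / 36)) (gw (q.val / 36)) (gπ (q.val / 36)) ⟨q.val % 36, Nat.mod_lt _ (by norm_num)⟩
      else if s = 0 then (if q.val % 36 = 0 then litN M (gv (q.val / 36)) (gw (q.val / 36)) (gπ (q.val / 36)) ⟨q.val % 36, Nat.mod_lt _ (by norm_num)⟩ else (q.val - 1, false))
      else (if q.val % 36 = 35 then litN M (gv (q.val / 36)) (gw (q.val / 36)) (gπ (q.val / 36)) ⟨q.val % 36, Nat.mod_lt _ (by norm_num)⟩ else (q.val, true)) := by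
    intro s
    rfl
  by_cases hok : ok (q.val / 36)
  · have h1 := hval 0
    rw [hcl, if_pos hok] at h1
    apply h1
    show val q.val = true
    simp only [val, if_pos hq, z]
    exact decide_eq_true (Or.inl hok)
  · have hL1 : ¬ L (q.val / 36) ⟨q.val % 36, Nat.mod_lt _ (by norm_num)⟩ := by
      have h1 := hval 1
      rw [hcl, if_neg hok, if_pos rfl, hlit] at h1
      exact h1
    have hz : ∀ q' : ℕ, q' < M → q' / 36 = q.val / 36 → (val q' = true ↔
        ∀ t : Fin 36, t.val ≤ q' % 36 → ¬ L (q.val / 36) t) := by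
      intro q' hq' he
      simp only [val, if_pos hq', z, decide_eq_true_eq, he]
      constructor
      · rintro (h1 | h1)
        · exact absurd h1 hok
        · exact h1
      · intro h1
        exact Or.inr h1
    have hprev : q.val % 36 ≠ 0 → ∀ t : Fin 36, t.val < q.val % 36 → ¬ L (q.val / 36) t := by
      intro h0
      have h1 := hval 0
      rw [hcl, if_neg hok, if_neg (by decide), if_pos rfl, if_neg h0] at h1
      have h2 : val (q.val - 1) = true := by
        simpa using h1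
      have h3 := (hz (q.val - 1) (by omega) (by omega)).1 h2
      intro t ht
      exact h3 t (by omega)
    have hall : ∀ t : Fin 36, t.val ≤ q.val % 36 → ¬ L (q.val / 36) t := by
      intro t ht
      rcases Nat.lt_or_ge t.val (q.val % 36) with h1 | h1
      · exact hprev (by omega) t h1
      · have e : t = ⟨q.val % 36, Nat.mod_lt _ (by norm_num)⟩ := by
          ext
          exact le_antisymm ht h1
        rw [e]
        exact hL1
    by_cases h35 : q.val % 36 = 35
    · obtain ⟨t, ht⟩ := key (q.val / 36) (by omega) hok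
      exact hall t (by omega) ht
    · have h1 := hval 2
      rw [hcl, if_neg hok, if_neg (by decide), if_neg (by decide), if_neg h35] at h1
      exact h1 ((hz q.val hq rfl).2 hall)

end Pool.Agent.Lib.MP_0b8c1e_lc.PC
end

section

set_option autoImplicit false

namespace Pool.Agent.Lib.MP_0b8c1e_lc.PC

open Finset DS

variable {D Pt : ℕ}

private theorem F1c_lt (hP : 1 ≤ Pt) (cI : Cod Idx 162) (cP : Cod (Lab × Lab) Pt) {N : ℕ}
    (G : DS (Fin (N * N)) Idx Lab) {q : ℕ} (hq : q < N * N * 162 * Pt * 36) (s : Fin 3) :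
    (clN cI cP (N * N * 162 * Pt * 36) (toNat G) q s).1 < 3 * (N * N * 162 * Pt * 36) :=
  clN_lt (by norm_num) hP cI cP G hq s

/-- TASK F1c. Soundness. Proof. Let `a` be an assignment of the formula, `σ v t = 1` if
`a (M + 18 v + t)`, otherwise `0`. For every dart `e = (v, i)` in `G.bad σ` consider the group of 36
clauses of `(v, i)` and the pattern `π = (σ v, σ w)`, which is not allowed: all its literals
`litN .. t` are false. If all 36 clauses were true, then all `z_t`, `t ≤ 34`, would be true by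
induction on `t`, and clause 35 would be false. So every bad dart gives a false clause
`q = ((v D + cI.c i) Pt + cP.c π) 36 + t`, different ones for different darts, and
`unsat ≥ #bad ≥ ε N ^ 2 * 162 = ε' M` with `M = N ^ 2 D Pt 36` and `D = 162` (use
`D = card Idx`: hypothesis `hD`). -/
theorem finF_gap (hD : D = 162) (hP : 1 ≤ Pt) (cI : Cod Idx D) (cP : Cod (Lab × Lab) Pt) {N : ℕ}
    {G : DS (Fin (N * N)) Idx Lab} {ε : ℝ} (h : G.Gap ε) (a : Fin (3 * (N * N * D * Pt * 36)) → Bool) :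
    ε / (36 * Pt) * ((N * N * D * Pt * 36 : ℕ) : ℝ) ≤ unsat (finF cI cP G) a := by
  classical
  subst hD
  revert a
  set M : ℕ := N * N * 162 * Pt * 36 with hM
  intro a
  -- the assignment on all numbers
  obtain ⟨av, hav⟩ : ∃ av : ℕ → Bool, ∀ (x : ℕ) (hx : x < 3 * M), a ⟨x, hx⟩ = av x :=
    ⟨fun x => if h : x < 3 * M then a ⟨x, h⟩ else false, by
      intro x hx
      change _ = dite (x < 3 * M) _ _
      rw [dif_pos hx]⟩
  have hfin : ∀ (q : Fin M) (s : Fin 3),
      a (finF cI cP G q s).1 = av (clN cI cP M (toNat G) q s).1 := by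
    intro q s
    have hlt := F1c_lt hP cI cP G q.2 s
    have : (finF cI cP G q s).1 =
        ⟨(clN cI cP M (toNat G) q s).1 % (3 * M), Nat.mod_lt _ (by have := q.2; omega)⟩ := rfl
    rw [this, hav, Nat.mod_eq_of_lt hlt]
  have hfin2 : ∀ (q : Fin M) (s : Fin 3),
      (finF cI cP G q s).2 = (clN cI cP M (toNat G) q s).2 := fun q s => rfl
  -- the labels
  obtain ⟨σ, hσ⟩ : ∃ σ : Fin (N * N) → Lab, ∀ v t, σ v t =
      if av (M + 18 * v.val + t.val) = true then 1 else 0 := ⟨fun v t => _, fun v t => rfl⟩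
  have hσ0 : ∀ v t, decide (σ v t = 0) ≠ av (M + 18 * v.val + t.val) := by
    intro v t
    rw [hσ]
    cases av (M + 18 * v.val + t.val) <;> simp
  have key : ∀ e ∈ G.bad σ, ∃ c : Fin M,
      (∀ s, a (finF cI cP G c s).1 ≠ (finF cI cP G c s).2) ∧
        c.val / 36 / Pt = e.1.val * 162 + cI.c e.2 := by
    rintro ⟨v, i⟩ he
    have hcon : G.con (v, i) (σ v) (σ (G.rot (v, i)).1) = false := (Finset.mem_filter.1 he).2
    obtain ⟨w, hw⟩ : ∃ w, w = (G.rot (v, i)).1 := ⟨_, rfl⟩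
    rw [← hw] at hcon
    have hcl := cP.lt (σ v, σ w)
    have hci := cI.lt i
    have hv := v.2
    obtain ⟨r, hr⟩ : ∃ r, r = (v.val * 162 + cI.c i) * Pt + cP.c (σ v, σ w) := ⟨_, rfl⟩
    have hrPt : r / Pt = v.val * 162 + cI.c i := by
      rw [hr, Nat.add_comm, Nat.add_mul_div_right _ _ hP, Nat.div_eq_of_lt hcl, Nat.zero_add]
    have hrmod : r % Pt = cP.c (σ v, σ w) := by
      rw [hr, Nat.add_comm, Nat.add_mul_mod_self_right, Nat.mod_eq_of_lt hcl]
    have hrD : r / Pt / 162 = v.val := by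
      rw [hrPt, Nat.add_comm, Nat.add_mul_div_right _ _ (by norm_num), Nat.div_eq_of_lt hci,
        Nat.zero_add]
    have hrDm : r / Pt % 162 = cI.c i := by
      rw [hrPt, Nat.add_comm, Nat.add_mul_mod_self_right, Nat.mod_eq_of_lt hci]
    have hrlt : r < N * N * 162 * Pt := by
      have h1 : v.val * 162 + cI.c i + 1 ≤ N * N * 162 := by
        have : (v.val + 1) * 162 ≤ N * N * 162 := Nat.mul_le_mul_right _ hv
        omega
      calc r < (v.val * 162 + cI.c i + 1) * Pt := by rw [hr, Nat.add_mul _ 1, Nat.one_mul]; omega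
        _ ≤ N * N * 162 * Pt := Nat.mul_le_mul_right _ h1
    have hqlt : ∀ t, t < 36 → r * 36 + t < M := by
      intro t ht
      have : (r + 1) * 36 ≤ N * N * 162 * Pt * 36 := Nat.mul_le_mul_right _ hrlt
      omega
    have hq1 : ∀ t, t < 36 → (r * 36 + t) % 36 = t := by
      intro t ht
      omega
    have hq2 : ∀ t, t < 36 → (r * 36 + t) / 36 = r := by
      intro t ht
      omega
    -- the shape of the clauses
    have htN : (toNat G).con (v.val, i) = G.con (v, i) := by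
      change (if h : v.val < N * N then G.con (⟨v.val, h⟩, i) else fun _ _ => true) = _
      rw [dif_pos hv]
    have htR : ((toNat G).rot (v.val, i)).1 = w.val := by
      change (if h : v.val < N * N then
        (((G.rot (⟨v.val, h⟩, i)).1 : ℕ), (G.rot (⟨v.val, h⟩, i)).2) else (v.val, i)).1 = _
      rw [dif_pos hv, hw]
    have hcl2 : ∀ (t : ℕ) (ht : t < 36) (s : Fin 3), clN cI cP M (toNat G) (r * 36 + t) s =
        if s = 1 then litN M v.val w.val (σ v, σ w) ⟨t, ht⟩
        else if s = 0 then (if t = 0 then litN M v.val w.val (σ v, σ w) ⟨t, ht⟩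
          else (r * 36 + t - 1, false))
        else (if t = 35 then litN M v.val w.val (σ v, σ w) ⟨t, ht⟩ else (r * 36 + t, true)) := by
      intro t ht s
      unfold clN
      simp only [hq1 t ht, hq2 t ht, hrmod, hrDm, hrD, cP.dc, cI.dc, htN, htR]
      rw [if_neg (by rw [hcon]; exact Bool.false_ne_true)]
    -- all literals are false
    have hlit : ∀ t : Fin 36, av (litN M v.val w.val (σ v, σ w) t).1 ≠
        (litN M v.val w.val (σ v, σ w) t).2 := by
      intro t
      unfold litN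
      by_cases h18 : t.val < 18
      · rw [dif_pos h18]
        exact (hσ0 v ⟨t.val, h18⟩).symm
      · rw [dif_neg h18]
        exact (hσ0 w ⟨t.val - 18, by omega⟩).symm
    have hex : ∃ t, ∃ ht : t < 36, ∀ s, av (clN cI cP M (toNat G) (r * 36 + t) s).1 ≠
        (clN cI cP M (toNat G) (r * 36 + t) s).2 := by
      by_contra hno
      push Not at hno
      have hz : ∀ t, t < 35 → av (r * 36 + t) = true := by
        intro t
        induction t with
        | zero =>
          intro _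
          obtain ⟨s, hs⟩ := hno 0 (by norm_num)
          rw [hcl2 0 (by norm_num) s] at hs
          by_cases h1 : s = 1
          · rw [if_pos h1] at hs
            exact absurd hs (hlit _)
          · rw [if_neg h1] at hs
            by_cases h0 : s = 0
            · rw [if_pos h0, if_pos rfl] at hs
              exact absurd hs (hlit _)
            · rw [if_neg h0, if_neg (by norm_num)] at hs
              exact hs
        | succ t ih =>
          intro ht
          obtain ⟨s, hs⟩ := hno (t + 1) (by omega)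
          rw [hcl2 (t + 1) (by omega) s] at hs
          by_cases h1 : s = 1
          · rw [if_pos h1] at hs
            exact absurd hs (hlit _)
          · rw [if_neg h1] at hs
            by_cases h0 : s = 0
            · rw [if_pos h0, if_neg (by omega)] at hs
              have hs' : av (r * 36 + (t + 1) - 1) = false := hs
              have h2 : r * 36 + (t + 1) - 1 = r * 36 + t := by omega
              rw [h2, ih (by omega)] at hs'
              exact absurd hs' (by decide)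
            · rw [if_neg h0, if_neg (by omega)] at hs
              exact hs
      obtain ⟨s, hs⟩ := hno 35 (by norm_num)
      rw [hcl2 35 (by norm_num) s] at hs
      by_cases h1 : s = 1
      · rw [if_pos h1] at hs
        exact hlit _ hs
      · rw [if_neg h1] at hs
        by_cases h0 : s = 0
        · rw [if_pos h0, if_neg (by norm_num)] at hs
          have hs' : av (r * 36 + 35 - 1) = false := hs
          have h2 : r * 36 + 35 - 1 = r * 36 + 34 := by omega
          rw [h2, hz 34 (by norm_num)] at hs'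
          exact absurd hs' (by decide)
        · rw [if_neg h0, if_pos rfl] at hs
          exact hlit _ hs
    obtain ⟨t, ht, hfalse⟩ := hex
    refine ⟨⟨r * 36 + t, hqlt t ht⟩, fun s => ?_, ?_⟩
    · rw [hfin, hfin2]
      exact hfalse s
    · change (r * 36 + t) / 36 / Pt = _
      rw [hq2 t ht, hrPt]
  -- counting
  have hcard : #(G.bad σ) ≤ unsat (finF cI cP G) a := by
    have hinj : Set.InjOn (fun e : Fin (N * N) × Idx => e.1.val * 162 + cI.c e.2)
        (G.bad σ : Set (Fin (N * N) × Idx)) := by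
      rintro ⟨v, i⟩ _ ⟨v', i'⟩ _ he
      have he' : v.val * 162 + cI.c i = v'.val * 162 + cI.c i' := he
      have h1 := cI.lt i
      have h2 := cI.lt i'
      have h3 : v.val = v'.val := by omega
      have h4 : cI.c i = cI.c i' := by omega
      have h5 : i = i' := by rw [← cI.dc i, ← cI.dc i', h4]
      rw [Fin.ext h3, h5]
    rw [← Finset.card_image_of_injOn hinj]
    refine le_trans (Finset.card_le_card (t := (univ.filter fun c : Fin M =>
      ∀ s, a (finF cI cP G c s).1 ≠ (finF cI cP G c s).2).image fun c => c.val / 36 / Pt) ?_)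
      Finset.card_image_le
    intro x hx
    obtain ⟨e, he, rfl⟩ := Finset.mem_image.1 hx
    obtain ⟨c, hc1, hc2⟩ := key e he
    exact Finset.mem_image.2 ⟨c, Finset.mem_filter.2 ⟨Finset.mem_univ _, hc1⟩, hc2⟩
  have hgap := h σ
  have hcI : Fintype.card Idx = 162 := by
    rw [Fintype.card_prod, Fintype.card_fin, Fintype.card_fin]
  rw [hcI, Fintype.card_fin] at hgap
  have hP0 : (Pt : ℝ) ≠ 0 := by
    have : 0 < Pt := hP
    exact_mod_cast this.ne'
  have hmul : ε / (36 * Pt) * ((M : ℕ) : ℝ) = ε * (((N * N : ℕ) : ℝ) * ((162 : ℕ) : ℝ)) := by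
    rw [hM]
    push_cast
    field_simp
  rw [hmul]
  refine hgap.trans ?_
  exact_mod_cast hcard

end Pool.Agent.Lib.MP_0b8c1e_lc.PC
end

section

set_option autoImplicit false

namespace Pool.Agent.Lib.MP_0b8c1e_lc.PC

open Finset Pool.Agent.Lib.MP_711ea9_lc Pool.Agent.Lib.MP_711ea9_lc.FH

private theorem P1_arr0 (N : ℕ) (A : ℕ → ℕ) : (cl N A).arr 0 = A := by
  funext j
  simp [cl]

private theorem P1_arr (N : ℕ) (A : ℕ → ℕ) (a : ℕ) (ha : 1 ≤ a) : (cl N A).arr a = fun _ => 0 := by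
  funext j
  simp [cl, show a ≠ 0 by omega]

private theorem P1_var (N : ℕ) (A : ℕ → ℕ) (x : ℕ) (hx : 1 ≤ x) : (cl N A).var x = 0 := by
  simp [cl, show x ≠ 0 by omega]

/-- TASK P1a. Proof. `prog_spec` with `k = 0`; compare the two memories (`cl`, `funext`). -/
theorem prog_cl {tn tk tq : Tm 1} {tb : Tm 3} {N n q : ℕ} {A : ℕ → ℕ}
    (hn : tn.eval A (fun _ => N) = n) (hk : tk.eval A (fun _ => N) = 0)
    (hq : tq.eval A (fun _ => N) = q) (hA : ∀ j, q ≤ j → A j = 0) :
    (prog tn tk tq tb).exec (cl N A) = cl n (fun j => if j < q then tb.eval A ![N, n, j] else 0) := by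
  rw [prog_spec (σ := cl N A) (M := N) (A := A) rfl (P1_var N A) (P1_arr0 N A) (P1_arr N A) hn hk hq
    hA]
  unfold cl
  rw [Store.mk.injEq]
  constructor
  · funext x
    by_cases h : x = 0
    · simp [h]
    · simp [h]
  · rfl

/-- TASK P1b. Proof. `prog_poly`. -/
theorem prog_cl_steps (tn tk tq : Tm 1) (tb : Tm 3) : ∃ C : ℕ, ∀ (V N n q : ℕ) (A : ℕ → ℕ),
    (∀ i, A i ≤ V) → N ≤ V → n ≤ V → q ≤ V → tn.eval A (fun _ => N) = n →
    tk.eval A (fun _ => N) = 0 → tq.eval A (fun _ => N) = q →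
    (prog tn tk tq tb).steps (cl N A) ≤ (V + 2) ^ C := by
  obtain ⟨C, hC⟩ := prog_poly tn tk tq tb
  exact ⟨C, fun V N n q A hA hN hn hq en ek eq =>
    hC V N n 0 q A (cl N A) hA hN hn (Nat.zero_le _) hq rfl (P1_var N A) (P1_arr0 N A)
      (P1_arr N A) en ek eq⟩

private theorem P1_iter {p : Cmd} {x : ℕ → Store} (h : ∀ t, p.exec (x t) = x (t + 1)) (t : ℕ) :
    (p.exec)^[t] (x 0) = x t := by
  induction t with
  | zero => rfl
  | succ t ih => rw [Function.iterate_succ_apply', ih, h]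

/-- TASK P1c. Loops. Proof. `exec` of a loop is the iterate; induction on the number of passes. -/
theorem loop_cl {p : Cmd} {e : Expr} {x : ℕ → Store} (h : ∀ t, p.exec (x t) = x (t + 1)) :
    (Cmd.loop e p).exec (x 0) = x (e.eval (x 0)) ∧
      (Cmd.loop e p).steps (x 0) =
        1 + e.size + ∑ t ∈ range (e.eval (x 0)), (1 + p.steps (x t)) := by
  constructor
  · exact P1_iter h _
  · show 1 + e.size + ∑ i ∈ range (e.eval (x 0)), (1 + p.steps ((p.exec)^[i] (x 0))) = _
    simp only [P1_iter h]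

/-- TASK P1d. -/
theorem formulaInput_eq {m : ℕ} (φ : Formula m) : formulaInput φ = cl m (code φ) := rfl

theorem cl_bdd {N V : ℕ} {A : ℕ → ℕ} (hN : N ≤ V) (hA : ∀ i, A i ≤ V) : Bdd (cl N A) V := by
  have hpos : 0 < 2 ^ V := Nat.two_pow_pos V
  constructor
  · intro x
    show (if x = 0 then N else 0) < 2 ^ V
    split_ifs
    · exact hN.trans_lt Nat.lt_two_pow_self
    · exact hpos
  · intro a i
    show (if a = 0 then A i else 0) < 2 ^ V
    split_ifs
    · exact (hA i).trans_lt Nat.lt_two_pow_self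
    · exact hpos

end Pool.Agent.Lib.MP_0b8c1e_lc.PC
end

section

set_option autoImplicit false

namespace Pool.Agent.Lib.MP_0b8c1e_lc.PC

open Finset DS Pool.Agent.Lib.MP_711ea9_lc Pool.Agent.Lib.MP_711ea9_lc.FH

variable {D Kc Pt : ℕ}

/-- The literal as a function of finitely many finite values and of numbers. -/
private def F2_cl (c : Bool) (π : Lab × Lab) (t : Fin 36) (s : Fin 3) (M v w q : ℕ) : ℕ × Bool :=
  if c = true then (q, true)
  else if s = 1 then litN M v w π t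
  else if s = 0 then (if t.val = 0 then litN M v w π t else (q - 1, false))
  else (if t.val = 35 then litN M v w π t else (q, true))

private theorem F2_eq (cI : Cod Idx D) (cP : Cod (Lab × Lab) Pt) (M : ℕ) (g : DS ℕ Idx Lab) (q : ℕ)
    (s : Fin 3) : clN cI cP M g q s =
      F2_cl (g.con (q / 36 / Pt / D, cI.d (q / 36 / Pt % D)) (cP.d (q / 36 % Pt)).1
        (cP.d (q / 36 % Pt)).2) (cP.d (q / 36 % Pt)) ⟨q % 36, Nat.mod_lt _ (by norm_num)⟩ s M
        (q / 36 / Pt / D) (g.rot (q / 36 / Pt / D, cI.d (q / 36 / Pt % D))).1 q := rfl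

private theorem F2_lit (π : Lab × Lab) (t : Fin 36) : ∃ b : Bool,
    (∃ c, ∀ M v w, litN M v w π t = (M + 18 * v + c, b)) ∨
    (∃ c, ∀ M v w, litN M v w π t = (M + 18 * w + c, b)) := by
  by_cases h : t.val < 18
  · refine ⟨decide (π.1 ⟨t.val, h⟩ = 0), Or.inl ⟨t.val, fun M v w => ?_⟩⟩
    unfold litN
    rw [dif_pos h]
  · refine ⟨decide (π.2 ⟨t.val - 18, by omega⟩ = 0), Or.inr ⟨t.val - 18, fun M v w => ?_⟩⟩
    unfold litN
    rw [dif_neg h]

private theorem F2_form (c : Bool) (π : Lab × Lab) (t : Fin 36) (s : Fin 3) : ∃ b : Bool,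
    (∀ M v w q, F2_cl c π t s M v w q = (q, b)) ∨ (∀ M v w q, F2_cl c π t s M v w q = (q - 1, b)) ∨
    (∃ k, ∀ M v w q, F2_cl c π t s M v w q = (M + 18 * v + k, b)) ∨
    (∃ k, ∀ M v w q, F2_cl c π t s M v w q = (M + 18 * w + k, b)) := by
  obtain ⟨b, hb⟩ := F2_lit π t
  have hl : ((∃ k, ∀ M v w (_ : ℕ), litN M v w π t = (M + 18 * v + k, b)) ∨
    (∃ k, ∀ M v w (_ : ℕ), litN M v w π t = (M + 18 * w + k, b))) := by
    rcases hb with ⟨k, hk⟩ | ⟨k, hk⟩
    · exact Or.inl ⟨k, fun M v w _ => hk M v w⟩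
    · exact Or.inr ⟨k, fun M v w _ => hk M v w⟩
  by_cases hc : c = true
  · exact ⟨true, Or.inl fun M v w q => by unfold F2_cl; rw [if_pos hc]⟩
  by_cases hs : s = 1
  · refine ⟨b, Or.inr (Or.inr ?_)⟩
    unfold F2_cl
    simp only [hc, hs, if_true]
    exact hl
  by_cases hs0 : s = 0
  · by_cases ht : t.val = 0
    · refine ⟨b, Or.inr (Or.inr ?_)⟩
      have h01 : ¬ ((0 : Fin 3) = 1) := by decide
      unfold F2_cl
      simp only [hc, if_false, hs0, if_true, ht, h01]
      exact hl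
    · refine ⟨false, Or.inr (Or.inl fun M v w q => ?_)⟩
      unfold F2_cl
      rw [if_neg hc, if_neg hs, if_pos hs0, if_neg ht]
  · by_cases ht : t.val = 35
    · refine ⟨b, Or.inr (Or.inr ?_)⟩
      unfold F2_cl
      simp only [hc, if_false, hs0, if_true, ht, hs]
      exact hl
    · refine ⟨true, Or.inl fun M v w q => ?_⟩
      unfold F2_cl
      rw [if_neg hc, if_neg hs, if_neg hs0, if_neg ht]

private theorem F2_congr {k : ℕ} {α : Type} {F G : (ℕ → ℕ) → (Fin k → ℕ) → α} (hF : CpF F)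
    (h : ∀ A e, F A e = G A e) : CpF G := by
  have : F = G := funext fun A => funext fun e => h A e
  exact this ▸ hF

/-- TASK F2a. Proof. The number `q % 36` is in `CpF`, so are the pattern, the label (`CpF.mod`) and the
constraint; by `Cp.bindF`/`CpF.bind` the numbers `t`, the pattern and the label may be fixed; the
condition `g.con (v, i) π.1 π.2 = true` is in `Pp` (`Pp.bindF` with the constraint fixed). -/
theorem cp_clN (hD : 1 ≤ D) (hP : 1 ≤ Pt) (cI : Cod Idx D) (cP : Cod (Lab × Lab) Pt)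
    {g : (ℕ → ℕ) → ℕ → DS ℕ Idx Lab} (hg : CpD g) {k : ℕ}
    {n M q : (ℕ → ℕ) → (Fin k → ℕ) → ℕ} (hn : Cp n) (hM : Cp M) (hq : Cp q) (s : Fin 3) :
    Cp (fun A e => (clN cI cP (M A e) (g A (n A e)) (q A e) s).1) ∧
      CpF (fun A e => (clN cI cP (M A e) (g A (n A e)) (q A e) s).2) := by
  have hv : Cp (fun A e => q A e / 36 / Pt / D) :=
    Cp.div (Cp.div (Cp.div hq (Cp.const 36)) (Cp.const Pt)) (Cp.const D)
  have hi : CpF (fun A e => cI.d (q A e / 36 / Pt % D)) :=
    CpF.mod (Cp.div (Cp.div hq (Cp.const 36)) (Cp.const Pt)) hD cI.d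
  have hπ : CpF (fun A e => cP.d (q A e / 36 % Pt)) :=
    CpF.mod (Cp.div hq (Cp.const 36)) hP cP.d
  have ht : CpF (fun A e => (⟨q A e % 36 % 36, Nat.mod_lt _ (by norm_num)⟩ : Fin 36)) :=
    CpF.mod hq (by norm_num : 1 ≤ 36) (fun m => (⟨m % 36, Nat.mod_lt _ (by norm_num)⟩ : Fin 36))
  obtain ⟨hw, -, hc⟩ := hg k n (fun A e => q A e / 36 / Pt / D) (fun A e => cI.d (q A e / 36 / Pt % D)) hn hv hi
  have hc' := CpF.map₂ (fun (r : Lab → Lab → Bool) (π : Lab × Lab) => (r π.1 π.2, π)) hc hπ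
  have hF := CpF.map₂ (fun (x : Bool × (Lab × Lab)) (t : Fin 36) => (x, t)) hc' ht
  have heq : ∀ A e, clN cI cP (M A e) (g A (n A e)) (q A e) s =
      F2_cl ((g A (n A e)).con (q A e / 36 / Pt / D, cI.d (q A e / 36 / Pt % D))
        (cP.d (q A e / 36 % Pt)).1 (cP.d (q A e / 36 % Pt)).2) (cP.d (q A e / 36 % Pt))
        ⟨q A e % 36 % 36, Nat.mod_lt _ (by norm_num)⟩ s (M A e) (q A e / 36 / Pt / D)
        ((g A (n A e)).rot (q A e / 36 / Pt / D, cI.d (q A e / 36 / Pt % D))).1 (q A e) := by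
    intro A e
    have h36 : (⟨q A e % 36 % 36, Nat.mod_lt _ (by norm_num)⟩ : Fin 36) =
      ⟨q A e % 36, Nat.mod_lt _ (by norm_num)⟩ := Fin.ext (Nat.mod_mod _ _)
    rw [h36]
    rfl
  constructor
  · refine Cp.congr (Cp.bindF (G := fun a A e => (F2_cl a.1.1 a.1.2 a.2 s (M A e)
      (q A e / 36 / Pt / D)
      ((g A (n A e)).rot (q A e / 36 / Pt / D, cI.d (q A e / 36 / Pt % D))).1 (q A e)).1) hF
      (fun a => ?_)) (fun A e => ?_)
    · obtain ⟨b, h | h | ⟨c, h⟩ | ⟨c, h⟩⟩ := F2_form a.1.1 a.1.2 a.2 s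
      · exact Cp.congr hq (fun A e => by rw [h])
      · exact Cp.congr (Cp.sub hq (Cp.const 1)) (fun A e => by rw [h])
      · exact Cp.congr (Cp.add (Cp.add hM (Cp.mul (Cp.const 18) hv)) (Cp.const c))
          (fun A e => by rw [h])
      · exact Cp.congr (Cp.add (Cp.add hM (Cp.mul (Cp.const 18) hw)) (Cp.const c))
          (fun A e => by rw [h])
    · rw [heq A e]
  · have h1 : CpF (fun A e => (F2_cl ((g A (n A e)).con (q A e / 36 / Pt / D, cI.d (q A e / 36 / Pt % D))
        (cP.d (q A e / 36 % Pt)).1 (cP.d (q A e / 36 % Pt)).2) (cP.d (q A e / 36 % Pt))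
        ⟨q A e % 36 % 36, Nat.mod_lt _ (by norm_num)⟩ s (M A e) (q A e / 36 / Pt / D)
        ((g A (n A e)).rot (q A e / 36 / Pt / D, cI.d (q A e / 36 / Pt % D))).1 (q A e)).2) := by
      refine CpF.bind (G := fun a A e => (F2_cl a.1.1 a.1.2 a.2 s (M A e)
        (q A e / 36 / Pt / D)
        ((g A (n A e)).rot (q A e / 36 / Pt / D, cI.d (q A e / 36 / Pt % D))).1 (q A e)).2) hF
        (fun a => ?_)
      obtain ⟨b, h | h | ⟨c, h⟩ | ⟨c, h⟩⟩ := F2_form a.1.1 a.1.2 a.2 s
      · exact F2_congr (CpF.const b) (fun A e => by rw [h])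
      · exact F2_congr (CpF.const b) (fun A e => by rw [h])
      · exact F2_congr (CpF.const b) (fun A e => by rw [h])
      · exact F2_congr (CpF.const b) (fun A e => by rw [h])
    exact F2_congr h1 (fun A e => by rw [heq A e])

/-- TASK F2b. The clauses depend only on the graph on `Fin (N * N)`. -/
theorem clN_congr (hD : 1 ≤ D) (hP : 1 ≤ Pt) (cI : Cod Idx D) (cP : Cod (Lab × Lab) Pt) {N M : ℕ}
    {G : DS (Fin (N * N)) Idx Lab} {g : DS ℕ Idx Lab}
    (h : Hom (fun v : Fin (N * N) => (v : ℕ)) G g) {q : ℕ} (hq : q < N * N * D * Pt * 36)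
    (s : Fin 3) : clN cI cP M g q s = clN cI cP M (toNat G) q s := by
  have hv : q / 36 / Pt / D < N * N := by
    rw [Nat.div_div_eq_div_mul, Nat.div_div_eq_div_mul]
    rw [Nat.div_lt_iff_lt_mul (by positivity)]
    calc q < N * N * D * Pt * 36 := hq
      _ = N * N * (36 * (Pt * D)) := by ring
  obtain ⟨h1, h2⟩ := h ⟨q / 36 / Pt / D, hv⟩ (cI.d (q / 36 / Pt % D))
  obtain ⟨h3, h4⟩ := hom_toNat G ⟨q / 36 / Pt / D, hv⟩ (cI.d (q / 36 / Pt % D))
  rw [F2_eq, F2_eq]
  have e1 : g.con (q / 36 / Pt / D, cI.d (q / 36 / Pt % D)) =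
      (toNat G).con (q / 36 / Pt / D, cI.d (q / 36 / Pt % D)) := h2.trans h4.symm
  have e2 : g.rot (q / 36 / Pt / D, cI.d (q / 36 / Pt % D)) =
      (toNat G).rot (q / 36 / Pt / D, cI.d (q / 36 / Pt % D)) := h1.trans h3.symm
  rw [e1, e2]

/-- TASK F2c. The program for the last formula.

Proof. `prog` with terms for `n = M = N * N * D * Pt * 36` (`N = e 0`), `0`, `q = 3 M` and the entry
`j = e 2`, with `M = e 1`: the code `2 x + sign` of the literal number `j % 3` of the clause `j / 3`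
(`cp_clN` for `cpd_dec`, a finite case distinction for `j % 3`). `prog_cl` (the array is zero from
`1 + N N D ≤ 3 M` on), `clN_congr` with `hom_dec`, `clN_lt`, the definition of `code`. Steps:
`prog_cl_steps` with `V = r + N N D Kc + 3 M + N`. -/
theorem final_prog (hD : 1 ≤ D) (hK : 1 ≤ Kc) (hP : 1 ≤ Pt) (cI : Cod Idx D)
    (cR : Cod (Lab → Lab → Bool) Kc) (cP : Cod (Lab × Lab) Pt) :
    ∃ (p : Cmd) (C : ℕ), ∀ (N r : ℕ) (G : DS (Fin (N * N)) Idx Lab), 1 ≤ N →
      p.exec (cl N (arrOf cI cR r G)) = formulaInput (finF cI cP G) ∧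
      p.steps (cl N (arrOf cI cR r G)) ≤ (N + r + 2) ^ C := by
  classical
  obtain ⟨tn, htn⟩ : Cp (fun (_ : ℕ → ℕ) (e : Fin 1 → ℕ) => e 0 * e 0 * D * Pt * 36) :=
    Cp.mul (Cp.mul (Cp.mul (Cp.mul (Cp.var 0) (Cp.var 0)) (Cp.const D)) (Cp.const Pt)) (Cp.const 36)
  obtain ⟨tk, htk⟩ : Cp (fun (_ : ℕ → ℕ) (_ : Fin 1 → ℕ) => 0) := Cp.const 0
  obtain ⟨tq, htq⟩ : Cp (fun (_ : ℕ → ℕ) (e : Fin 1 → ℕ) => 3 * (e 0 * e 0 * D * Pt * 36)) :=
    Cp.mul (Cp.const 3)
      (Cp.mul (Cp.mul (Cp.mul (Cp.mul (Cp.var 0) (Cp.var 0)) (Cp.const D)) (Cp.const Pt)) (Cp.const 36))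
  have hcp : ∀ s : Fin 3, Cp (fun A (e : Fin 3 → ℕ) =>
      2 * (clN cI cP (e 1) (dec cI cR A) (e 2 / 3) s).1 +
        (if (clN cI cP (e 1) (dec cI cR A) (e 2 / 3) s).2 = true then 1 else 0)) := by
    intro s
    obtain ⟨h1, h2⟩ := cp_clN hD hP cI cP (cpd_dec hD hK cI cR) (k := 3) (n := fun _ _ => 0)
      (M := fun _ e => e 1) (q := fun _ e => e 2 / 3) (Cp.const 0) (Cp.var 1)
      (Cp.div (Cp.var 2) (Cp.const 3)) s
    exact Cp.add (Cp.mul (Cp.const 2) h1) (Cp.code h2 (fun b => if b = true then 1 else 0))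
  obtain ⟨tb, htb⟩ : Cp (fun A (e : Fin 3 → ℕ) =>
      2 * (clN cI cP (e 1) (dec cI cR A) (e 2 / 3) ⟨e 2 % 3, Nat.mod_lt _ (by norm_num)⟩).1 +
        (if (clN cI cP (e 1) (dec cI cR A) (e 2 / 3) ⟨e 2 % 3, Nat.mod_lt _ (by norm_num)⟩).2 = true
          then 1 else 0)) := by
    have h3 : CpF (fun (_ : ℕ → ℕ) (e : Fin 3 → ℕ) =>
        (⟨e 2 % 3 % 3, Nat.mod_lt _ (by norm_num)⟩ : Fin 3)) :=
      CpF.mod (Cp.var 2) (by norm_num : 1 ≤ 3) (fun m => (⟨m % 3, Nat.mod_lt _ (by norm_num)⟩ : Fin 3))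
    refine Cp.congr (Cp.bindF h3 hcp) (fun A e => ?_)
    have h33 : (⟨e 2 % 3 % 3, Nat.mod_lt _ (by norm_num)⟩ : Fin 3) =
      ⟨e 2 % 3, Nat.mod_lt _ (by norm_num)⟩ := Fin.ext (Nat.mod_mod _ _)
    simp only [h33]
  obtain ⟨C, hC⟩ := prog_cl_steps tn tk tq tb
  refine ⟨prog tn tk tq tb, (D * Kc + 108 * (D * Pt) + 3) * C, fun N r G hN => ?_⟩
  have hDP : 1 ≤ N * N * D * Pt := Nat.mul_pos (Nat.mul_pos (Nat.mul_pos hN hN) hD) hP
  have hND : N * N * D ≤ N * N * D * Pt := Nat.le_mul_of_pos_right _ hP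
  have hn : tn.eval (arrOf cI cR r G) (fun _ => N) = N * N * D * Pt * 36 := htn _ _
  have hk : tk.eval (arrOf cI cR r G) (fun _ => N) = 0 := htk _ _
  have hq : tq.eval (arrOf cI cR r G) (fun _ => N) = 3 * (N * N * D * Pt * 36) := htq _ _
  constructor
  · rw [prog_cl (tb := tb) hn hk hq (fun j hj => arrOf_eq_zero cI cR r G (by omega)), formulaInput_eq]
    congr 1
    funext j
    unfold code
    by_cases hj : j < 3 * (N * N * D * Pt * 36)
    · rw [if_pos hj, dif_pos hj, htb]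
      have hj3 : j / 3 < N * N * D * Pt * 36 := by omega
      show 2 * (clN cI cP (N * N * D * Pt * 36) (dec cI cR (arrOf cI cR r G)) (j / 3)
        ⟨j % 3, Nat.mod_lt _ (by norm_num)⟩).1 +
        (if (clN cI cP (N * N * D * Pt * 36) (dec cI cR (arrOf cI cR r G)) (j / 3)
        ⟨j % 3, Nat.mod_lt _ (by norm_num)⟩).2 = true then 1 else 0) =
        2 * ((clN cI cP (N * N * D * Pt * 36) (toNat G) (j / 3)
          ⟨j % 3, Nat.mod_lt _ (by norm_num)⟩).1 % (3 * (N * N * D * Pt * 36))) +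
        (if (clN cI cP (N * N * D * Pt * 36) (toNat G) (j / 3)
          ⟨j % 3, Nat.mod_lt _ (by norm_num)⟩).2 = true then 1 else 0)
      rw [clN_congr hD hP cI cP (hom_dec cI cR r G) hj3,
        Nat.mod_eq_of_lt (clN_lt hD hP cI cP G hj3 _)]
    · rw [if_neg hj, dif_neg hj]
  · have hst := hC (r + N * N * D * Kc + 3 * (N * N * D * Pt * 36) + N) N (N * N * D * Pt * 36)
      (3 * (N * N * D * Pt * 36)) (arrOf cI cR r G)
      (fun i => (arrOf_le cI cR r G i).trans (by omega)) (by omega) (by omega) (by omega) hn hk hq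
    refine hst.trans ?_
    rw [pow_mul]
    refine Nat.pow_le_pow_left ?_ C
    obtain ⟨K, hK'⟩ : ∃ K, K = D * Kc + 108 * (D * Pt) := ⟨_, rfl⟩
    obtain ⟨X, hX⟩ : ∃ X, X = N + r + 2 := ⟨_, rfl⟩
    rw [← hK', ← hX]
    have hX2 : 2 ≤ X := by omega
    have hXX : X ≤ X * X := Nat.le_mul_of_pos_left _ (by omega)
    have hNX : N * N ≤ X * X := Nat.mul_le_mul (by omega) (by omega)
    have hKp : K + 1 ≤ X ^ (K + 1) := Nat.lt_two_pow_self.le.trans (Nat.pow_le_pow_left hX2 _)
    calc r + N * N * D * Kc + 3 * (N * N * D * Pt * 36) + N + 2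
        = X + N * N * K := by rw [hX, hK']; ring
      _ ≤ X * X + X * X * K := Nat.add_le_add hXX (Nat.mul_le_mul_right _ hNX)
      _ = (K + 1) * (X * X) := by ring
      _ ≤ X ^ (K + 1) * (X * X) := Nat.mul_le_mul_right _ hKp
      _ = X ^ (K + 3) := by ring

end Pool.Agent.Lib.MP_0b8c1e_lc.PC
end

section

set_option autoImplicit false

/-!
# Dense Graph Partition: numbering the vertices of the graph of a formula
-/

namespace Pool.Agent.Lib.MP_0b8c1e_lc

open Finset

/-- The number of a position on a cycle. -/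
def pos {B : ℕ} (p : Fin B × Bool) : ℕ := 2 * p.1 + (if p.2 then 1 else 0)

/-- The number of a vertex. -/
def enc {m B : ℕ} : Vtx (Fin (3 * m)) m B → ℕ
  | .core k x p => k * (6 * B * m) + (x * (2 * B) + pos p)
  | .tip k x p => 18 * B * m + (k * (6 * B * m) + (x * (2 * B) + pos p))
  | .cls k c s => 2 * (18 * B * m) + (k * (2 * m) + (2 * c + (if s then 1 else 0)))

/-- The kind of the vertex with number `u`. -/
def kd (S u : ℕ) : ℕ := if u < S then 0 else if u < 2 * S then 1 else 2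

/-- The number of a vertex among those of its kind. -/
def lc (S u : ℕ) : ℕ := if u < S then u else if u < 2 * S then u - S else u - 2 * S

/-- The rank of a slot, from the array of codes. -/
def rankN (A : ℕ → ℕ) (t : ℕ) : ℕ := ∑ s ∈ range t, if A s / 2 = A t / 2 then 1 else 0

/-- Slot `t` holds the literal and has the rank which belong to the number `r` of a tip. -/
def clI (A : ℕ → ℕ) (E t r : ℕ) : Prop := A t = 2 * (r / E) + r % E % 2 ∧ rankN A t = r % E / 2

/-- The relation `satRel` in terms of the numbers of the vertices. -/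
def relN (A : ℕ → ℕ) (B m u v : ℕ) : Prop :=
  (kd (18 * B * m) u = 0 ∧ kd (18 * B * m) v = 0 ∧
    lc (18 * B * m) u / (6 * B * m) = lc (18 * B * m) v / (6 * B * m) ∧
    lc (18 * B * m) u % (6 * B * m) / (2 * B) = lc (18 * B * m) v % (6 * B * m) / (2 * B) ∧
    lc (18 * B * m) v % (6 * B * m) % (2 * B) =
      (lc (18 * B * m) u % (6 * B * m) % (2 * B) + 1) % (2 * B)) ∨
  (kd (18 * B * m) u = 0 ∧ kd (18 * B * m) v = 1 ∧
    lc (18 * B * m) u / (6 * B * m) = lc (18 * B * m) v / (6 * B * m) ∧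
    lc (18 * B * m) u % (6 * B * m) / (2 * B) = lc (18 * B * m) v % (6 * B * m) / (2 * B) ∧
    (lc (18 * B * m) u % (6 * B * m) % (2 * B) = lc (18 * B * m) v % (6 * B * m) % (2 * B) ∨
      lc (18 * B * m) u % (6 * B * m) % (2 * B) =
        (lc (18 * B * m) v % (6 * B * m) % (2 * B) + 1) % (2 * B))) ∨
  (kd (18 * B * m) u = 1 ∧ kd (18 * B * m) v = 1 ∧
    lc (18 * B * m) u / (6 * B * m) ≠ lc (18 * B * m) v / (6 * B * m) ∧
    lc (18 * B * m) u % (6 * B * m) = lc (18 * B * m) v % (6 * B * m)) ∨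
  (kd (18 * B * m) u = 2 ∧ kd (18 * B * m) v = 2 ∧
    lc (18 * B * m) u / (2 * m) = lc (18 * B * m) v / (2 * m) ∧
    lc (18 * B * m) u % (2 * m) / 2 = lc (18 * B * m) v % (2 * m) / 2 ∧
    lc (18 * B * m) u % (2 * m) % 2 ≠ lc (18 * B * m) v % (2 * m) % 2) ∨
  (kd (18 * B * m) u = 2 ∧ kd (18 * B * m) v = 1 ∧
    lc (18 * B * m) u / (2 * m) = lc (18 * B * m) v / (6 * B * m) ∧
    (clI A (2 * B) (3 * (lc (18 * B * m) u % (2 * m) / 2)) (lc (18 * B * m) v % (6 * B * m)) ∨
      clI A (2 * B) (3 * (lc (18 * B * m) u % (2 * m) / 2) + 1)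
        (lc (18 * B * m) v % (6 * B * m)) ∨
      clI A (2 * B) (3 * (lc (18 * B * m) u % (2 * m) / 2) + 2)
        (lc (18 * B * m) v % (6 * B * m))))

/-- The adjacency of vertices in terms of their numbers. -/
def adjN (A : ℕ → ℕ) (B m u v : ℕ) : Prop := u ≠ v ∧ (relN A B m u v ∨ relN A B m v u)

theorem dm {a b D : ℕ} (hb : b < D) : (a * D + b) / D = a ∧ (a * D + b) % D = b := by
  have hm : 0 < D := by omega
  constructor
  · rw [Nat.add_comm, Nat.add_mul_div_right _ _ hm, Nat.div_eq_of_lt hb, Nat.zero_add]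
  · rw [Nat.add_comm, Nat.add_mul_mod_self_right, Nat.mod_eq_of_lt hb]

theorem lt_blk {a A b D : ℕ} (ha : a < A) (hb : b < D) : a * D + b < A * D := by
  calc a * D + b < a * D + D := by omega
    _ = (a + 1) * D := by ring
    _ ≤ A * D := Nat.mul_le_mul_right _ ha

section pos

variable {B : ℕ}

theorem pos_lt (p : Fin B × Bool) : pos p < 2 * B := by
  have := p.1.isLt
  unfold pos
  split_ifs <;> omega

theorem pos_div (p : Fin B × Bool) : pos p / 2 = p.1 := by
  unfold pos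
  split_ifs <;> omega

theorem pos_mod (p : Fin B × Bool) : pos p % 2 = if p.2 then 1 else 0 := by
  unfold pos
  split_ifs <;> omega

theorem pos_inj {p q : Fin B × Bool} : pos p = pos q ↔ p = q := by
  constructor
  · intro h
    have h1 : (p.1 : ℕ) = q.1 := by rw [← pos_div, ← pos_div, h]
    have h2 : (if p.2 then 1 else 0 : ℕ) = if q.2 then 1 else 0 := by
      rw [← pos_mod, ← pos_mod, h]
    refine Prod.ext (Fin.ext h1) ?_
    cases hp : p.2 <;> cases hq : q.2 <;> simp [hp, hq] at h2 ⊢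
  · rintro rfl
    rfl

theorem pos_nxt [NeZero B] (p : Fin B × Bool) : pos (nxt p) = (pos p + 1) % (2 * B) := by
  obtain ⟨a, b⟩ := p
  have ha := a.isLt
  cases b
  · have h1 : (2 * (a : ℕ) + 1) % (2 * B) = 2 * a + 1 := Nat.mod_eq_of_lt (by omega)
    simp [nxt, pos, h1]
  · have h1 : (2 * (a : ℕ) + 1 + 1) % (2 * B) = 2 * ((a + 1) % B) := by
      rw [← Nat.mul_mod_mul_left]
      ring_nf
    have h2 : ((a + 1 : Fin B) : ℕ) = (a + 1) % B := by
      rw [Fin.val_add, Fin.val_one', Nat.add_mod_mod]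
    simp [nxt, pos, h1, h2]

end pos

section enc

variable {m B : ℕ} (k : Fin 3) (x : Fin (3 * m)) (p : Fin B × Bool) (c : Fin m) (s : Bool)

theorem body_lt : (x : ℕ) * (2 * B) + pos p < 6 * B * m := by
  have h1 := lt_blk x.isLt (pos_lt p)
  have h2 : 3 * m * (2 * B) = 6 * B * m := by ring
  omega

theorem copy_lt : (k : ℕ) * (6 * B * m) + ((x : ℕ) * (2 * B) + pos p) < 18 * B * m := by
  have h1 := lt_blk k.isLt (body_lt x p)
  have h2 : 3 * (6 * B * m) = 18 * B * m := by ring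
  omega

theorem cbody_lt : 2 * (c : ℕ) + (if s then 1 else 0) < 2 * m := by
  have := c.isLt
  split_ifs <;> omega

theorem ccopy_lt : (k : ℕ) * (2 * m) + (2 * (c : ℕ) + (if s then 1 else 0)) < 6 * m := by
  have h1 := lt_blk k.isLt (cbody_lt c s)
  omega

theorem enc_lt (v : Vtx (Fin (3 * m)) m B) : enc v < 6 * m * (6 * B + 1) := by
  have h0 : 6 * m * (6 * B + 1) = 2 * (18 * B * m) + 6 * m := by ring
  rw [h0]
  cases v with
  | core k x p =>
    have := copy_lt k x p
    simp only [enc]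
    omega
  | tip k x p =>
    have := copy_lt k x p
    simp only [enc]
    omega
  | cls k c s =>
    have := ccopy_lt k c s
    simp only [enc]
    omega

theorem kd_core : kd (18 * B * m) (enc (.core k x p : Vtx (Fin (3 * m)) m B)) = 0 := by
  have := copy_lt k x p
  simp only [enc, kd]
  rw [if_pos this]

theorem kd_tip : kd (18 * B * m) (enc (.tip k x p : Vtx (Fin (3 * m)) m B)) = 1 := by
  have := copy_lt k x p
  simp only [enc, kd]
  rw [if_neg (by omega), if_pos (by omega)]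

theorem kd_cls : kd (18 * B * m) (enc (.cls k c s : Vtx (Fin (3 * m)) m B)) = 2 := by
  simp only [enc, kd]
  rw [if_neg (by omega), if_neg (by omega)]

theorem lc_core : lc (18 * B * m) (enc (.core k x p : Vtx (Fin (3 * m)) m B)) =
    k * (6 * B * m) + (x * (2 * B) + pos p) := by
  have := copy_lt k x p
  simp only [enc, lc]
  rw [if_pos this]

theorem lc_tip : lc (18 * B * m) (enc (.tip k x p : Vtx (Fin (3 * m)) m B)) =
    k * (6 * B * m) + (x * (2 * B) + pos p) := by
  have := copy_lt k x p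
  simp only [enc, lc]
  rw [if_neg (by omega), if_pos (by omega)]
  omega

theorem lc_cls : lc (18 * B * m) (enc (.cls k c s : Vtx (Fin (3 * m)) m B)) =
    k * (2 * m) + (2 * c + (if s then 1 else 0)) := by
  simp only [enc, lc]
  rw [if_neg (by omega), if_neg (by omega)]
  omega

theorem cb_div : (2 * (c : ℕ) + (if s then 1 else 0)) / 2 = c := by split_ifs <;> omega

theorem cb_mod : (2 * (c : ℕ) + (if s then 1 else 0)) % 2 = if s then 1 else 0 := by
  split_ifs <;> omega

end enc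

theorem code_slot {m : ℕ} (φ : Formula m) (c : Fin m) (i : Fin 3) :
    code φ (3 * (c : ℕ) + (i : ℕ)) =
      2 * ((φ c i).1 : ℕ) + (if (φ c i).2 = true then 1 else 0) := by
  have hc := c.isLt
  have hi := i.isLt
  have h : 3 * (c : ℕ) + (i : ℕ) < 3 * m := by omega
  have e1 : (3 * (c : ℕ) + (i : ℕ)) / 3 = c := by omega
  have e2 : (3 * (c : ℕ) + (i : ℕ)) % 3 = i := by omega
  have f1 : (⟨(3 * (c : ℕ) + (i : ℕ)) / 3, by omega⟩ : Fin m) = c := Fin.ext e1
  have f2 : (⟨(3 * (c : ℕ) + (i : ℕ)) % 3, by omega⟩ : Fin 3) = i := Fin.ext e2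
  unfold code
  rw [dif_pos h, f1, f2]

theorem code_div {m : ℕ} (φ : Formula m) (c : Fin m) (i : Fin 3) :
    code φ (3 * (c : ℕ) + (i : ℕ)) / 2 = ((φ c i).1 : ℕ) := by
  rw [code_slot]
  split_ifs <;> omega

theorem rank_code {m : ℕ} (φ : Formula m) (c : Fin m) (i : Fin 3) :
    rankN (code φ) (3 * (c : ℕ) + (i : ℕ)) = rank φ (c, i) := by
  have hc := c.isLt
  have hi := i.isLt
  unfold rankN rank
  rw [← card_filter]
  symm
  apply card_bij (fun (q : Fin m × Fin 3) _ => 3 * (q.1 : ℕ) + (q.2 : ℕ))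
  · rintro ⟨c', i'⟩ hq
    simp only [mem_filter, mem_univ, true_and] at hq
    simp only [mem_filter, mem_range]
    refine ⟨hq.1, ?_⟩
    rw [code_div, code_div, hq.2]
  · rintro ⟨c', i'⟩ _ ⟨c'', i''⟩ _ h
    simp only at h
    have h1 := i'.isLt
    have h2 := i''.isLt
    exact Prod.ext (Fin.ext (by simp only; omega)) (Fin.ext (by simp only; omega))
  · intro t ht
    simp only [mem_filter, mem_range] at ht
    have h3 : t / 3 < m := by omega
    refine ⟨(⟨t / 3, h3⟩, ⟨t % 3, by omega⟩), ?_, by simp only; omega⟩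
    simp only [mem_filter, mem_univ, true_and]
    have h4 : 3 * (t / 3) + t % 3 = t := by omega
    refine ⟨by omega, ?_⟩
    have h5 := code_div φ ⟨t / 3, h3⟩ ⟨t % 3, by omega⟩
    simp only at h5
    rw [h4, ht.2, code_div] at h5
    exact Fin.ext h5.symm

theorem clI_iff {m B : ℕ} (φ : Formula m) (c : Fin m) (i : Fin 3) (x : Fin (3 * m))
    (p : Fin B × Bool) : clI (code φ) (2 * B) (3 * (c : ℕ) + (i : ℕ)) (x * (2 * B) + pos p) ↔
      φ c i = (x, p.2) ∧ rank φ (c, i) = p.1.val := by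
  obtain ⟨d1, d2⟩ := dm (a := (x : ℕ)) (pos_lt p)
  unfold clI
  rw [rank_code, d1, d2, pos_mod, pos_div, code_slot]
  refine and_congr ?_ Iff.rfl
  constructor
  · intro h
    have h1 : ((φ c i).1 : ℕ) = x := by split_ifs at h <;> omega
    have h2 : (φ c i).2 = p.2 := by
      cases hb : (φ c i).2 <;> cases hp : p.2 <;> simp [hb, hp] at h ⊢ <;> omega
    exact Prod.ext (Fin.ext h1) h2
  · intro h
    rw [h]

theorem rel_enc {m B : ℕ} [NeZero B] (φ : Formula m) (v w : Vtx (Fin (3 * m)) m B) :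
    relN (code φ) B m (enc v) (enc w) ↔ satRel φ v w := by
  unfold relN
  cases v with
  | core k x p =>
    obtain ⟨a1, a2⟩ := dm (a := (k : ℕ)) (body_lt x p)
    obtain ⟨a3, a4⟩ := dm (a := (x : ℕ)) (pos_lt p)
    cases w with
    | core k' x' p' =>
      obtain ⟨b1, b2⟩ := dm (a := (k' : ℕ)) (body_lt x' p')
      obtain ⟨b3, b4⟩ := dm (a := (x' : ℕ)) (pos_lt p')
      rw [kd_core, kd_core, lc_core, lc_core, a1, a2, a3, a4, b1, b2, b3, b4, ← pos_nxt, pos_inj]
      simp [satRel, Fin.ext_iff]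
    | tip k' x' p' =>
      obtain ⟨b1, b2⟩ := dm (a := (k' : ℕ)) (body_lt x' p')
      obtain ⟨b3, b4⟩ := dm (a := (x' : ℕ)) (pos_lt p')
      rw [kd_core, kd_tip, lc_core, lc_tip, a1, a2, a3, a4, b1, b2, b3, b4, ← pos_nxt p', pos_inj,
        pos_inj]
      simp [satRel, Fin.ext_iff]
    | cls k' c' s' =>
      rw [kd_core, kd_cls]
      simp [satRel]
  | tip k x p =>
    obtain ⟨a1, a2⟩ := dm (a := (k : ℕ)) (body_lt x p)
    obtain ⟨a3, a4⟩ := dm (a := (x : ℕ)) (pos_lt p)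
    cases w with
    | core k' x' p' =>
      rw [kd_core, kd_tip]
      simp [satRel]
    | tip k' x' p' =>
      obtain ⟨b1, b2⟩ := dm (a := (k' : ℕ)) (body_lt x' p')
      obtain ⟨b3, b4⟩ := dm (a := (x' : ℕ)) (pos_lt p')
      rw [kd_tip, kd_tip, lc_tip, lc_tip, a1, a2, b1, b2]
      have h1 : ((x : ℕ) * (2 * B) + pos p = x' * (2 * B) + pos p') ↔ x = x' ∧ p = p' := by
        constructor
        · intro h
          refine ⟨Fin.ext (by rw [← a3, ← b3, h]), pos_inj.1 (by rw [← a4, ← b4, h])⟩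
        · rintro ⟨rfl, rfl⟩
          rfl
      rw [h1]
      simp [satRel, Fin.ext_iff]
    | cls k' c' s' =>
      rw [kd_tip, kd_cls]
      simp [satRel]
  | cls k c s =>
    obtain ⟨a1, a2⟩ := dm (a := (k : ℕ)) (cbody_lt c s)
    cases w with
    | core k' x' p' =>
      rw [kd_core, kd_cls]
      simp [satRel]
    | tip k' x' p' =>
      obtain ⟨b1, b2⟩ := dm (a := (k' : ℕ)) (body_lt x' p')
      have h0 := clI_iff φ c 0 x' p'
      have h1 := clI_iff φ c 1 x' p'
      have h2 := clI_iff φ c 2 x' p'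
      simp only [Fin.val_zero, Fin.val_one, Fin.val_two, Nat.add_zero] at h0 h1 h2
      rw [kd_tip, kd_cls, lc_tip, lc_cls, a1, a2, b1, b2, cb_div, h0, h1, h2]
      simp only [satRel, Fin.exists_fin_succ, Fin.ext_iff]
      simp
    | cls k' c' s' =>
      obtain ⟨b1, b2⟩ := dm (a := (k' : ℕ)) (cbody_lt c' s')
      rw [kd_cls, kd_cls, lc_cls, lc_cls, a1, a2, b1, b2, cb_div, cb_div, cb_mod, cb_mod]
      cases s <;> cases s' <;> simp [satRel, Fin.ext_iff]

theorem enc_injective {m B : ℕ} : Function.Injective (enc : Vtx (Fin (3 * m)) m B → ℕ) := by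
  have key : ∀ v w : Vtx (Fin (3 * m)) m B, enc v = enc w →
      kd (18 * B * m) (enc v) = kd (18 * B * m) (enc w) ∧
      lc (18 * B * m) (enc v) = lc (18 * B * m) (enc w) := by
    intro v w h
    rw [h]
    exact ⟨rfl, rfl⟩
  intro v w h
  obtain ⟨h1, h2⟩ := key v w h
  have body : ∀ (k k' : Fin 3) (x x' : Fin (3 * m)) (p p' : Fin B × Bool),
      (k : ℕ) * (6 * B * m) + ((x : ℕ) * (2 * B) + pos p) =
        k' * (6 * B * m) + (x' * (2 * B) + pos p') → k = k' ∧ x = x' ∧ p = p' := by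
    intro k k' x x' p p' h
    obtain ⟨a1, a2⟩ := dm (a := (k : ℕ)) (body_lt x p)
    obtain ⟨a3, a4⟩ := dm (a := (x : ℕ)) (pos_lt p)
    obtain ⟨b1, b2⟩ := dm (a := (k' : ℕ)) (body_lt x' p')
    obtain ⟨b3, b4⟩ := dm (a := (x' : ℕ)) (pos_lt p')
    have e : (x : ℕ) * (2 * B) + pos p = x' * (2 * B) + pos p' := by rw [← a2, ← b2, h]
    exact ⟨Fin.ext (by rw [← a1, ← b1, h]), Fin.ext (by rw [← a3, ← b3, e]),
      pos_inj.1 (by rw [← a4, ← b4, e])⟩
  cases v with
  | core k x p =>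
    cases w with
    | core k' x' p' =>
      rw [lc_core, lc_core] at h2
      obtain ⟨rfl, rfl, rfl⟩ := body _ _ _ _ _ _ h2
      rfl
    | tip k' x' p' => rw [kd_core, kd_tip] at h1; omega
    | cls k' c' s' => rw [kd_core, kd_cls] at h1; omega
  | tip k x p =>
    cases w with
    | core k' x' p' => rw [kd_core, kd_tip] at h1; omega
    | tip k' x' p' =>
      rw [lc_tip, lc_tip] at h2
      obtain ⟨rfl, rfl, rfl⟩ := body _ _ _ _ _ _ h2
      rfl
    | cls k' c' s' => rw [kd_tip, kd_cls] at h1; omega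
  | cls k c s =>
    cases w with
    | core k' x' p' => rw [kd_core, kd_cls] at h1; omega
    | tip k' x' p' => rw [kd_tip, kd_cls] at h1; omega
    | cls k' c' s' =>
      rw [lc_cls, lc_cls] at h2
      obtain ⟨a1, a2⟩ := dm (a := (k : ℕ)) (cbody_lt c s)
      obtain ⟨b1, b2⟩ := dm (a := (k' : ℕ)) (cbody_lt c' s')
      have e1 : k = k' := Fin.ext (by rw [← a1, ← b1, h2])
      have e : 2 * (c : ℕ) + (if s then 1 else 0) = 2 * (c' : ℕ) + (if s' then 1 else 0) := by
        rw [← a2, ← b2, h2]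
      have e2 : c = c' := Fin.ext (by rw [← cb_div c s, ← cb_div c' s', e])
      have e3 : s = s' := by
        cases s <;> cases s' <;> simp at e ⊢ <;> omega
      rw [e1, e2, e3]

/-- The numbering of the vertices. -/
noncomputable def encE (m B : ℕ) : Vtx (Fin (3 * m)) m B ≃ Fin (6 * m * (6 * B + 1)) :=
  Equiv.ofBijective (fun v => ⟨enc v, enc_lt v⟩) (by
    rw [Fintype.bijective_iff_injective_and_card]
    refine ⟨fun v w h => enc_injective (by simpa using h), ?_⟩
    rw [card_vtx, Fintype.card_fin, Fintype.card_fin]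
    ring)

theorem encE_val {m B : ℕ} (v : Vtx (Fin (3 * m)) m B) : ((encE m B v : Fin _) : ℕ) = enc v := rfl

/-- The graph of a formula, on the vertex set `{0, …, 6 m (6 B + 1) - 1}`. -/
noncomputable def numGraph {m : ℕ} (B : ℕ) [NeZero B] (φ : Formula m) :
    SimpleGraph (Fin (6 * m * (6 * B + 1))) :=
  (satGraph B φ).comap (encE m B).symm

theorem numGraph_adj {m B : ℕ} [NeZero B] (φ : Formula m) (u v : Fin (6 * m * (6 * B + 1))) :
    (numGraph B φ).Adj u v ↔ adjN (code φ) B m u v := by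
  obtain ⟨a, rfl⟩ := (encE m B).surjective u
  obtain ⟨b, rfl⟩ := (encE m B).surjective v
  rw [encE_val, encE_val]
  unfold numGraph adjN
  rw [SimpleGraph.comap_adj, Equiv.symm_apply_apply, Equiv.symm_apply_apply, rel_enc, rel_enc,
    satGraph, SimpleGraph.fromRel_adj]
  exact and_congr (enc_injective.ne_iff).symm Iff.rfl

end Pool.Agent.Lib.MP_0b8c1e_lc
end

section

set_option autoImplicit false

namespace Pool.Agent.Lib.MP_0b8c1e_lc.PC

open Finset DS

open scoped Classical in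
/-- The value of the variable of the slot `t`. -/
private noncomputable def I1b_val {m : ℕ} (φ : Formula m) (a : Fin (3 * m) → Bool) (t : ℕ) : ZMod 2 :=
  if ∃ x : Fin (3 * m), (x : ℕ) = code φ t / 2 ∧ a x = true then 1 else 0

private theorem I1b_slot {m : ℕ} (φ : Formula m) (a : Fin (3 * m) → Bool) (c : Fin m) (i : Fin 3) :
    I1b_val φ a (3 * (c : ℕ) + (i : ℕ)) = if a (φ c i).1 = true then 1 else 0 := by
  unfold I1b_val
  rw [code_div]
  by_cases h : a (φ c i).1 = true
  · rw [if_pos h, if_pos ⟨_, rfl, h⟩]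
  · rw [if_neg h, if_neg]
    rintro ⟨x, hx, hx'⟩
    rw [Fin.ext hx] at hx'
    exact h hx'

private theorem I1b_sat {m : ℕ} (φ : Formula m) (a : Fin (3 * m) → Bool) (h : unsat φ a = 0) {n : ℕ}
    (hn : n < m) : ∃ s : Fin 3, (I1b_val φ a (3 * n + (s : ℕ))).val = code φ (3 * n + (s : ℕ)) % 2 := by
  have h1 : ∃ i, a (φ ⟨n, hn⟩ i).1 = (φ ⟨n, hn⟩ i).2 := by
    by_contra h2
    push Not at h2
    unfold unsat at h
    rw [Finset.card_eq_zero, Finset.filter_eq_empty_iff] at h
    exact h (Finset.mem_univ (⟨n, hn⟩ : Fin m)) h2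
  obtain ⟨i, hi⟩ := h1
  refine ⟨i, ?_⟩
  have h2 := I1b_slot φ a ⟨n, hn⟩ i
  have h3 := code_slot φ ⟨n, hn⟩ i
  simp only at h2 h3
  rw [h2, h3, hi]
  cases (φ ⟨n, hn⟩ i).2 with
  | true =>
    simp only [if_true]
    rw [show (1 : ZMod 2).val = 1 from rfl]
    omega
  | false =>
    simp only [Bool.false_eq_true, if_false]
    rw [show (0 : ZMod 2).val = 0 from rfl]
    omega

/-- The label of the vertex with number `v`. -/
private noncomputable def I1b_lab {m : ℕ} (φ : Formula m) (a : Fin (3 * m) → Bool) (v : ℕ) : Lab := fun j =>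
  if j.val < 3 then I1b_val φ a (3 * (v / m) + j.val)
  else if j.val < 6 then I1b_val φ a (3 * (v % m) + (j.val - 3)) else 0

private theorem I1b_lo {m : ℕ} (φ : Formula m) (a : Fin (3 * m) → Bool) (v : ℕ) (s : Fin 3) :
    I1b_lab φ a v ⟨s, by omega⟩ = I1b_val φ a (3 * (v / m) + (s : ℕ)) := by
  unfold I1b_lab
  simp only
  rw [if_pos s.isLt]

private theorem I1b_hi {m : ℕ} (φ : Formula m) (a : Fin (3 * m) → Bool) (v : ℕ) (s : Fin 3) :
    I1b_lab φ a v ⟨3 + s, by omega⟩ = I1b_val φ a (3 * (v % m) + (s : ℕ)) := by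
  unfold I1b_lab
  simp only
  have hs := s.isLt
  rw [if_neg (by omega), if_pos (by omega), show 3 + (s : ℕ) - 3 = s by omega]

private theorem I1b_dm {a b D : ℕ} (hb : b < D) : (a * D + b) / D = a ∧ (a * D + b) % D = b := dm hb

/-- TASK I1b. Completeness. Proof. Let `a` satisfy all clauses. The label of the vertex
`v = (c₁, c₂)`: bit `s < 3` is the value (as an element of `ZMod 2`) of the variable
`code φ (3 c₁ + s) / 2`, bit `3 + s` the one of `code φ (3 c₂ + s) / 2`, the others are 0. The code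
of a literal is `2 x + sign` (`code_slot` in `PtNum.lean`, you may import it), and the literal is
true if the value is `sign`. -/
theorem G0_sat {m : ℕ} (φ : Formula m) (h : ∃ a, unsat φ a = 0) : (G0 φ).Sat := by
  obtain ⟨a, ha⟩ := h
  refine ⟨fun v => I1b_lab φ a (v : ℕ), ?_⟩
  unfold DS.bad
  rw [Finset.filter_eq_empty_iff]
  rintro ⟨v, i⟩ _ hbad
  have hv := v.isLt
  have hm : 0 < m := by
    rcases Nat.eq_zero_or_pos m with h | h
    · subst h
      exact absurd hv (by simp)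
    · exact h
  have hx : (v : ℕ) / m < m := Nat.div_lt_of_lt_mul hv
  have hy : (v : ℕ) % m < m := Nat.mod_lt _ hm
  have hr : rot0 m ((v : ℕ), i) = ((((G0 φ).rot (v, i)).1 : ℕ), ((G0 φ).rot (v, i)).2) := (hom_G0 φ v i).1
  obtain ⟨w, hw⟩ : ∃ w : ℕ, w = (((G0 φ).rot (v, i)).1 : ℕ) := ⟨_, rfl⟩
  have hw' : (rot0 m ((v : ℕ), i)).1 = w := by rw [hr, hw]
  have hcon : (G0 φ).con (v, i) (I1b_lab φ a (v : ℕ)) (I1b_lab φ a w) = true := by
    show (unC (code φ) ((v : ℕ) / m) ((v : ℕ) % m) (I1b_lab φ a (v : ℕ)) &&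
      decide ((i = (0, 0) ∨ i = (0, 1) → ∀ s : Fin 3, I1b_lab φ a (v : ℕ) ⟨s, by omega⟩ = I1b_lab φ a w ⟨s, by omega⟩) ∧
      (i = (0, 2) ∨ i = (0, 3) → ∀ s : Fin 3, I1b_lab φ a (v : ℕ) ⟨3 + s, by omega⟩ = I1b_lab φ a w ⟨3 + s, by omega⟩))) = true
    rw [Bool.and_eq_true, decide_eq_true_iff]
    refine ⟨?_, ?_, ?_⟩
    · unfold unC
      rw [decide_eq_true_iff]
      refine ⟨?_, ?_, ?_⟩
      · obtain ⟨s, hs⟩ := I1b_sat φ a ha hx
        exact ⟨s, by rw [I1b_lo]; exact hs⟩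
      · obtain ⟨s, hs⟩ := I1b_sat φ a ha hy
        exact ⟨s, by rw [I1b_hi]; exact hs⟩
      · intro s t hst
        rw [I1b_lo, I1b_hi]
        unfold I1b_val
        rw [hst]
    · intro hi s
      rw [I1b_lo, I1b_lo]
      have hq : w / m = (v : ℕ) / m := by
        rw [← hw']
        unfold rot0
        simp only
        by_cases h0 : i = (0, 0)
        · rw [if_pos h0]
          exact (I1b_dm (Nat.mod_lt _ hm)).1
        · rw [if_neg h0, if_pos (hi.resolve_left h0)]
          exact (I1b_dm (Nat.mod_lt _ hm)).1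
      rw [hq]
    · intro hi s
      rw [I1b_hi, I1b_hi]
      have n2 : ¬ ((0, 3) : Idx) = (0, 0) := by
        intro h
        have := congrArg (fun x : Idx => x.2.val) h
        simp at this
      have n3 : ¬ ((0, 3) : Idx) = (0, 1) := by
        intro h
        have := congrArg (fun x : Idx => x.2.val) h
        simp at this
      have n4 : ¬ ((0, 3) : Idx) = (0, 2) := by
        intro h
        have := congrArg (fun x : Idx => x.2.val) h
        simp at this
      have n5 : ¬ ((0, 2) : Idx) = (0, 0) := by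
        intro h
        have := congrArg (fun x : Idx => x.2.val) h
        simp at this
      have n6 : ¬ ((0, 2) : Idx) = (0, 1) := by
        intro h
        have := congrArg (fun x : Idx => x.2.val) h
        simp at this
      have hq : w % m = (v : ℕ) % m := by
        rw [← hw']
        unfold rot0
        simp only
        rcases hi with hi | hi
        · rw [hi, if_neg n5, if_neg n6, if_pos rfl]
          exact (I1b_dm hy).2
        · rw [hi, if_neg n2, if_neg n3, if_neg n4, if_pos rfl]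
          exact (I1b_dm hy).2
      rw [hq]
  rw [hw] at hcon
  simp only at hbad
  rw [hcon] at hbad
  exact absurd hbad (by simp)

end Pool.Agent.Lib.MP_0b8c1e_lc.PC
end

section

set_option autoImplicit false

/-!
# Dense Graph Partition: the terms of the reduction and of the final test
-/

namespace Pool.Agent.Lib.MP_0b8c1e_lc

open Finset Pool.Agent.Lib.MP_711ea9_lc Pool.Agent.Lib.MP_711ea9_lc.FH

variable {k : ℕ} {fm fu fv ft fr : (ℕ → ℕ) → (Fin k → ℕ) → ℕ}

theorem cp_kd (hm : Cp fm) (hu : Cp fu) : Cp (fun A e => kd (fm A e) (fu A e)) :=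
  (Cp.ite (Pp.lt hu hm) (Cp.const 0) (Cp.ite (Pp.lt hu ((Cp.const 2).mul hm)) (Cp.const 1)
    (Cp.const 2)))

theorem cp_lc (hm : Cp fm) (hu : Cp fu) : Cp (fun A e => lc (fm A e) (fu A e)) :=
  (Cp.ite (Pp.lt hu hm) hu (Cp.ite (Pp.lt hu ((Cp.const 2).mul hm)) (hu.sub hm)
    (hu.sub ((Cp.const 2).mul hm))))

theorem cp_rank (ht : Cp ft) : Cp (fun A e => rankN A (ft A e)) :=
  Cp.sum ht (Cp.ite (Pp.eq ((Cp.arr (Cp.var (Fin.last k))).div (Cp.const 2))
    ((Cp.arr ht.weak).div (Cp.const 2))) (Cp.const 1) (Cp.const 0))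

theorem pp_clI (hm : Cp fm) (ht : Cp ft) (hr : Cp fr) :
    Pp (fun A e => clI A (fm A e) (ft A e) (fr A e)) :=
  (Pp.eq ht.arr (((Cp.const 2).mul (hr.div hm)).add ((hr.mod hm).mod (Cp.const 2)))).and
    (Pp.eq (cp_rank ht) ((hr.mod hm).div (Cp.const 2)))

theorem pp_rel (B : ℕ) (hm : Cp fm) (hu : Cp fu) (hv : Cp fv) :
    Pp (fun A e => relN A B (fm A e) (fu A e) (fv A e)) := by
  have hS : Cp (fun A e => 18 * B * fm A e) := (Cp.const (18 * B)).mul hm
  have hD : Cp (fun A e => 6 * B * fm A e) := (Cp.const (6 * B)).mul hm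
  have hE : Cp (fun (_ : ℕ → ℕ) (_ : Fin k → ℕ) => 2 * B) := Cp.const (2 * B)
  have h2 : Cp (fun A e => 2 * fm A e) := (Cp.const 2).mul hm
  have c0 : Cp (fun (_ : ℕ → ℕ) (_ : Fin k → ℕ) => 0) := Cp.const 0
  have c1 : Cp (fun (_ : ℕ → ℕ) (_ : Fin k → ℕ) => 1) := Cp.const 1
  have c2 : Cp (fun (_ : ℕ → ℕ) (_ : Fin k → ℕ) => 2) := Cp.const 2
  have c3 : Cp (fun (_ : ℕ → ℕ) (_ : Fin k → ℕ) => 3) := Cp.const 3
  have ku := cp_kd hS hu
  have kv := cp_kd hS hv
  have lu := cp_lc hS hu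
  have lv := cp_lc hS hv
  have luE := (lu.mod hD).mod hE
  have lvE := (lv.mod hD).mod hE
  have cu := c3.mul ((lu.mod h2).div c2)
  exact ((Pp.eq ku c0).and ((Pp.eq kv c0).and ((Pp.eq (lu.div hD) (lv.div hD)).and
      ((Pp.eq ((lu.mod hD).div hE) ((lv.mod hD).div hE)).and
        (Pp.eq lvE ((luE.add c1).mod hE)))))).or
    (((Pp.eq ku c0).and ((Pp.eq kv c1).and ((Pp.eq (lu.div hD) (lv.div hD)).and
      ((Pp.eq ((lu.mod hD).div hE) ((lv.mod hD).div hE)).and
        ((Pp.eq luE lvE).or (Pp.eq luE ((lvE.add c1).mod hE))))))).or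
    (((Pp.eq ku c1).and ((Pp.eq kv c1).and ((Pp.ne (lu.div hD) (lv.div hD)).and
      (Pp.eq (lu.mod hD) (lv.mod hD))))).or
    (((Pp.eq ku c2).and ((Pp.eq kv c2).and ((Pp.eq (lu.div h2) (lv.div h2)).and
      ((Pp.eq ((lu.mod h2).div c2) ((lv.mod h2).div c2)).and
        (Pp.ne ((lu.mod h2).mod c2) ((lv.mod h2).mod c2)))))).or
    ((Pp.eq ku c2).and ((Pp.eq kv c1).and ((Pp.eq (lu.div h2) (lv.div hD)).and
      ((pp_clI hE cu (lv.mod hD)).or ((pp_clI hE (cu.add c1) (lv.mod hD)).or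
        (pp_clI hE (cu.add c2) (lv.mod hD))))))))))

theorem pp_adj (B : ℕ) (hm : Cp fm) (hu : Cp fu) (hv : Cp fv) :
    Pp (fun A e => adjN A B (fm A e) (fu A e) (fv A e)) :=
  (Pp.ne hu hv).and ((pp_rel B hm hu hv).or (pp_rel B hm hv hu))

open scoped Classical in
/-- The terms of the reduction. -/
theorem red_terms (B : ℕ) : ∃ (tn tk tq : Tm 1) (tb : Tm 3),
    (∀ A e, tn.eval A e = 6 * e 0 * (6 * B + 1)) ∧
    (∀ A e, tk.eval A e = 0) ∧
    (∀ A e, tq.eval A e = (6 * e 0 * (6 * B + 1)) * (6 * e 0 * (6 * B + 1))) ∧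
    (∀ A e, tb.eval A e = if adjN A B (e 0) (e 2 / e 1) (e 2 % e 1) then 1 else 0) := by
  have hn : Cp (fun _ (e : Fin 1 → ℕ) => 6 * e 0 * (6 * B + 1)) :=
    ((Cp.const 6).mul (Cp.var 0)).mul (Cp.const (6 * B + 1))
  have hk : Cp (fun _ (_ : Fin 1 → ℕ) => 0) := Cp.const 0
  have hu : Cp (fun _ (e : Fin 3 → ℕ) => e 2 / e 1) := (Cp.var 2).div (Cp.var 1)
  have hv : Cp (fun _ (e : Fin 3 → ℕ) => e 2 % e 1) := (Cp.var 2).mod (Cp.var 1)
  have hm : Cp (fun _ (e : Fin 3 → ℕ) => e 0) := Cp.var 0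
  have hq := hn.mul hn
  obtain ⟨tn, h1⟩ := hn
  obtain ⟨tk, h2⟩ := hk
  obtain ⟨tq, h3⟩ := hq
  obtain ⟨tb, h4⟩ := pp_adj B hm hu hv
  exact ⟨tn, tk, tq, tb, h1, h2, h3, h4⟩

/-- The size of the class of `v`, if the labels are stored from `n * n` on. -/
def szN (A : ℕ → ℕ) (n v : ℕ) : ℕ :=
  ∑ w ∈ range n, if A (n * n + w) = A (n * n + v) then 1 else 0

/-- The number of neighbours of `v` in its class. -/
def dgN (A : ℕ → ℕ) (n v : ℕ) : ℕ :=
  ∑ w ∈ range n, if A (n * n + w) = A (n * n + v) ∧ A (v * n + w) ≠ 0 then 1 else 0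

/-- The sum of the rounded contributions of the vertices to the density. -/
def totN (Q : ℕ) (A : ℕ → ℕ) (n : ℕ) : ℕ := ∑ v ∈ range n, Q * dgN A n v / (2 * szN A n v)

/-- The term of the final test. -/
theorem test_term (Q K : ℕ) : ∃ t : Tm 1, ∀ A e,
    t.eval A e = if K * e 0 < 3 * totN Q A (e 0) then 1 else 0 := by
  have hn1 : Cp (fun _ (e : Fin 1 → ℕ) => e 0) := Cp.var 0
  have hn2 : Cp (fun _ (e : Fin 2 → ℕ) => e 0) := Cp.var 0
  have hn3 : Cp (fun _ (e : Fin 3 → ℕ) => e 0) := Cp.var 0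
  have hv2 : Cp (fun _ (e : Fin 2 → ℕ) => e 1) := Cp.var 1
  have hv3 : Cp (fun _ (e : Fin 3 → ℕ) => e 1) := Cp.var 1
  have hw3 : Cp (fun _ (e : Fin 3 → ℕ) => e 2) := Cp.var 2
  have hq := hn3.mul hn3
  have heq := Pp.eq (hq.add hw3).arr (hq.add hv3).arr
  have hsz : Cp (fun A (e : Fin 2 → ℕ) => szN A (e 0) (e 1)) :=
    Cp.sum hn2 (Cp.ite heq (Cp.const 1) (Cp.const 0))
  have hdg : Cp (fun A (e : Fin 2 → ℕ) => dgN A (e 0) (e 1)) :=
    Cp.sum hn2 (Cp.ite (heq.and (Pp.ne ((hv3.mul hn3).add hw3).arr (Cp.const 0))) (Cp.const 1)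
      (Cp.const 0))
  have htot : Cp (fun A (e : Fin 1 → ℕ) => totN Q A (e 0)) :=
    Cp.sum hn1 (((Cp.const Q).mul hdg).div ((Cp.const 2).mul hsz))
  obtain ⟨t, ht⟩ := Pp.lt ((Cp.const K).mul hn1) ((Cp.const 3).mul htot)
  refine ⟨t, fun A e => (ht A e).trans ?_⟩
  beta_reduce
  by_cases h : K * e 0 < 3 * totN Q A (e 0)
  · rw [if_pos h, if_pos h]
  · rw [if_neg h, if_neg h]

end Pool.Agent.Lib.MP_0b8c1e_lc
end

section

set_option autoImplicit false

/-!
# Dense Graph Partition: the program of the reduction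
-/

namespace Pool.Agent.Lib.MP_0b8c1e_lc

open Finset Pool.Agent.Lib.MP_711ea9_lc Pool.Agent.Lib.MP_711ea9_lc.FH

/-- Polynomially bounded functions. -/
def Pb (f : ℕ → ℕ) : Prop := ∃ k : ℕ, ∀ m, f m ≤ (m + 2) ^ k

namespace Pb

variable {f g : ℕ → ℕ}

theorem mono (hg : Pb g) (h : ∀ m, f m ≤ g m) : Pb f := by
  obtain ⟨k, hk⟩ := hg
  exact ⟨k, fun m => (h m).trans (hk m)⟩

theorem const (c : ℕ) : Pb fun _ => c :=
  ⟨c, fun m => (Nat.lt_two_pow_self).le.trans (Nat.pow_le_pow_left (by omega) c)⟩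

theorem id : Pb fun m => m := ⟨1, fun m => by simp⟩

theorem add (hf : Pb f) (hg : Pb g) : Pb fun m => f m + g m := by
  obtain ⟨a, ha⟩ := hf
  obtain ⟨b, hb⟩ := hg
  refine ⟨a + b + 1, fun m => ?_⟩
  have h1 : (m + 2) ^ a ≤ (m + 2) ^ (a + b) := Nat.pow_le_pow_right (by omega) (by omega)
  have h2 : (m + 2) ^ b ≤ (m + 2) ^ (a + b) := Nat.pow_le_pow_right (by omega) (by omega)
  have h3 : (m + 2) ^ (a + b) * 2 ≤ (m + 2) ^ (a + b) * (m + 2) :=
    Nat.mul_le_mul_left _ (by omega)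
  have h4 := ha m
  have h5 := hb m
  rw [pow_succ]
  beta_reduce
  omega

theorem mul (hf : Pb f) (hg : Pb g) : Pb fun m => f m * g m := by
  obtain ⟨a, ha⟩ := hf
  obtain ⟨b, hb⟩ := hg
  refine ⟨a + b, fun m => ?_⟩
  rw [pow_add]
  exact Nat.mul_le_mul (ha m) (hb m)

theorem pow (hf : Pb f) (c : ℕ) : Pb fun m => f m ^ c := by
  obtain ⟨a, ha⟩ := hf
  refine ⟨a * c, fun m => ?_⟩
  rw [pow_mul]
  exact Nat.pow_le_pow_left (ha m) c

end Pb

theorem code_le {m : ℕ} (φ : Formula m) (j : ℕ) :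
    code φ j ≤ 6 * m ∧ (3 * m ≤ j → code φ j = 0) := by
  unfold code
  constructor
  · split_ifs with h1 h2
    · have h3 := (φ ⟨j / 3, by omega⟩ ⟨j % 3, by omega⟩).1.isLt
      omega
    · have h3 := (φ ⟨j / 3, by omega⟩ ⟨j % 3, by omega⟩).1.isLt
      omega
    · omega
  · intro h
    rw [dif_neg (by omega)]

theorem div_mod_pos {i n a b : ℕ} (ha : a < n) (hb : b < n) (h : i = a * n + b) :
    i < n * n ∧ i / n = a ∧ i % n = b := by
  subst h
  exact ⟨lt_blk ha hb, (dm hb).1, (dm hb).2⟩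

open scoped Classical in
/-- The entries of the adjacency matrix. -/
theorem matrix_gen {n : ℕ} (G : SimpleGraph (Fin n)) (P : ℕ → ℕ → Prop)
    (hP : ∀ u v : Fin n, G.Adj u v ↔ P u v) (i : ℕ) :
    (if i < n * n then (if P (i / n) (i % n) then 1 else 0) else 0) =
      (if ∃ u v : Fin n, G.Adj u v ∧ i = u * n + v then 1 else 0) := by
  have key : (∃ u v : Fin n, G.Adj u v ∧ i = u * n + v) ↔ (i < n * n ∧ P (i / n) (i % n)) := by
    constructor
    · rintro ⟨u, v, hadj, hi⟩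
      obtain ⟨h1, h2, h3⟩ := div_mod_pos u.isLt v.isLt hi
      rw [h2, h3]
      exact ⟨h1, (hP u v).1 hadj⟩
    · rintro ⟨h1, h2⟩
      have hn0 : 0 < n := by
        rcases Nat.eq_zero_or_pos n with h | h
        · subst h
          omega
        · exact h
      refine ⟨⟨i / n, Nat.div_lt_of_lt_mul h1⟩, ⟨i % n, Nat.mod_lt _ hn0⟩, (hP _ _).2 h2, ?_⟩
      show i = i / n * n + i % n
      rw [Nat.mul_comm]
      exact (Nat.div_add_mod i n).symm
  by_cases h1 : i < n * n
  · rw [if_pos h1]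
    by_cases h2 : P (i / n) (i % n)
    · rw [if_pos h2, if_pos (key.2 ⟨h1, h2⟩)]
    · rw [if_neg h2, if_neg (fun h => h2 (key.1 h).2)]
  · rw [if_neg h1, if_neg (fun h => h1 (key.1 h).1)]

open scoped Classical in
/-- The program of the reduction. -/
theorem red_exists (B : ℕ) [NeZero B] : ∃ (red : Cmd) (C : ℕ), ∀ (m : ℕ) (φ : Formula m), 1 ≤ m →
    red.exec (formulaInput φ) = graphInput (numGraph B φ) ∧
    red.cost (formulaInput φ) ≤ (m + 2) ^ C := by
  obtain ⟨tn, tk, tq, tb, htn, htk, htq, htb⟩ := red_terms B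
  obtain ⟨c, hc⟩ := prog_cost tn tk tq tb
  obtain ⟨C, hC⟩ : Pb fun m =>
      ((6 * m * (6 * B + 1)) * (6 * m * (6 * B + 1)) + 6 * m + 2) ^ c := by
    have h1 : Pb fun m => 6 * m * (6 * B + 1) := ((Pb.const 6).mul Pb.id).mul (Pb.const _)
    exact (((h1.mul h1).add ((Pb.const 6).mul Pb.id)).add (Pb.const 2)).pow c
  refine ⟨prog tn tk tq tb, C, ?_⟩
  intro m φ hm
  have e0 : (formulaInput φ).var 0 = m := rfl
  have e1 : ∀ x, 1 ≤ x → (formulaInput φ).var x = 0 := by
    intro x hx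
    simp [formulaInput, show x ≠ 0 by omega]
  have e2 : (formulaInput φ).arr 0 = code φ := by
    funext j
    simp [formulaInput]
  have e3 : ∀ a, 1 ≤ a → (formulaInput φ).arr a = fun _ => 0 := by
    intro a ha
    funext j
    simp [formulaInput, show a ≠ 0 by omega]
  have en : tn.eval (code φ) (fun _ => m) = 6 * m * (6 * B + 1) := htn _ _
  have ek : tk.eval (code φ) (fun _ => m) = 0 := htk _ _
  have eq : tq.eval (code φ) (fun _ => m) =
    (6 * m * (6 * B + 1)) * (6 * m * (6 * B + 1)) := htq _ _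
  have hadj := numGraph_adj φ (B := B)
  have hn6 : 6 * m ≤ 6 * m * (6 * B + 1) := Nat.le_mul_of_pos_right _ (by omega)
  have hC' := hC m
  beta_reduce at hC'
  generalize numGraph B φ = G at hadj ⊢
  generalize 6 * m * (6 * B + 1) = n at en eq G hadj hn6 hC' ⊢
  have hn1 : 1 ≤ n := by omega
  have hq : n ≤ n * n := Nat.le_mul_of_pos_left _ hn1
  constructor
  · rw [prog_spec e0 e1 e2 e3 en ek eq (fun j hj => (code_le φ j).2 (by omega))]
    unfold graphInput
    simp only [Store.mk.injEq]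
    constructor
    · funext x
      by_cases hx : x = 0
      · simp [hx]
      · simp [hx]
    · funext a i
      have h0 : (![m, n, i] : Fin 3 → ℕ) 0 = m := rfl
      have h1 : (![m, n, i] : Fin 3 → ℕ) 1 = n := rfl
      have h2 : (![m, n, i] : Fin 3 → ℕ) 2 = i := rfl
      have h3 := matrix_gen G (adjN (code φ) B m) hadj i
      rw [htb, h0, h1, h2]
      by_cases ha : a = 0
      · rw [if_pos ha, h3]
        simp [ha]
      · rw [if_neg ha]
        simp [ha]
  · refine (hc (n * n + 6 * m) m n 0 (n * n) (code φ) (formulaInput φ)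
      (fun i => (code_le φ i).1.trans (by omega)) (by omega) (by omega) (by omega) (by omega)
      e0 e1 e2 e3 en ek eq).trans hC'

end Pool.Agent.Lib.MP_0b8c1e_lc
end

section

set_option autoImplicit false

namespace Pool.Agent.Lib.MP_0b8c1e_lc.PC

open Finset DS Pool.Agent.Lib.MP_711ea9_lc Pool.Agent.Lib.MP_711ea9_lc.FH

/-- The unary constraint as a function of the remainders and the equalities. -/
private def I2_U (r₁ r₂ : Fin 3 → ℕ) (E : Fin 3 × Fin 3 → Bool) (a : Lab) : Bool :=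
  decide ((∃ s : Fin 3, (a ⟨s, by omega⟩).val = r₁ s) ∧
    (∃ s : Fin 3, (a ⟨3 + s, by omega⟩).val = r₂ s) ∧
    ∀ s t : Fin 3, E (s, t) = true → a ⟨s, by omega⟩ = a ⟨3 + t, by omega⟩)

private theorem I2_unC (C : ℕ → ℕ) (c₁ c₂ : ℕ) :
    unC C c₁ c₂ = I2_U (fun s => C (3 * c₁ + s) % 2) (fun s => C (3 * c₂ + s) % 2)
      (fun p => decide (C (3 * c₁ + p.1) / 2 = C (3 * c₂ + p.2) / 2)) := by
  funext a
  unfold unC I2_U
  simp only [decide_eq_true_eq]

private theorem I2_cp_unC {k : ℕ} {c₁ c₂ : (ℕ → ℕ) → (Fin k → ℕ) → ℕ} (h₁ : Cp c₁) (h₂ : Cp c₂) :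
    CpF (fun A e => unC A (c₁ A e) (c₂ A e)) := by
  have e0 : (fun (A : ℕ → ℕ) (e : Fin k → ℕ) => unC A (c₁ A e) (c₂ A e)) =
      (fun A e => I2_U (fun s => A (3 * c₁ A e + s) % 2) (fun s => A (3 * c₂ A e + s) % 2)
        (fun p => decide (A (3 * c₁ A e + p.1) / 2 = A (3 * c₂ A e + p.2) / 2))) := by
    funext A e
    exact I2_unC A _ _
  rw [e0]
  have f1 : ∀ {c : (ℕ → ℕ) → (Fin k → ℕ) → ℕ}, Cp c → ∀ s : ℕ, Cp (fun A e => A (3 * c A e + s)) := by
    intro c hc s
    exact Cp.arr (Cp.add (Cp.mul (Cp.const 3) hc) (Cp.const s))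
  have g1 : ∀ {c : (ℕ → ℕ) → (Fin k → ℕ) → ℕ}, Cp c →
      CpF (fun A e => (fun s : Fin 3 => A (3 * c A e + s) % 2)) := by
    intro c hc
    apply CpF.pi
    intro s
    exact CpF.mod (f1 hc (s : ℕ)) (by norm_num) (fun n => n)
  have g2 : CpF (fun A e => (fun p : Fin 3 × Fin 3 =>
      decide (A (3 * c₁ A e + p.1) / 2 = A (3 * c₂ A e + p.2) / 2))) := by
    apply CpF.pi
    intro p
    exact CpF.decide (Pp.eq (Cp.div (f1 h₁ (p.1 : ℕ)) (Cp.const 2)) (Cp.div (f1 h₂ (p.2 : ℕ)) (Cp.const 2)))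
  have g3 := CpF.map₂ (fun (x y : Fin 3 → ℕ) => (x, y)) (g1 h₁) (g1 h₂)
  exact CpF.map₂ (fun (x : (Fin 3 → ℕ) × (Fin 3 → ℕ)) (E : Fin 3 × Fin 3 → Bool) => I2_U x.1 x.2 E) g3 g2

private theorem I2_rot_snd (m v : ℕ) (i : Idx) : (rot0 m (v, i)).2 = (rot0 0 (0, i)).2 := by
  unfold rot0
  dsimp only
  split_ifs <;> rfl

/-- TASK I2a. Proof. The rotation map: case distinction on the label (`Cp.bindF`/`CpF.bind`, it may be
fixed). The constraint: `unC A c₁ c₂` (as a function on `Lab`) is a function of the six remainders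
`A (3 c₁ + s) % 2`, `A (3 c₂ + s) % 2` (each in `CpF`, `CpF.mod`) and of the nine truth values
`A (3 c₁ + s) / 2 = A (3 c₂ + t) / 2` (`CpF.decide`); collect them in functions on `Fin 3` and
`Fin 3 × Fin 3` (`CpF.pi`) and use `CpF.map₂`. -/
theorem cpd_g0 : CpD (fun A n => g0 A n) := by
  intro k n v i hn hv hi
  refine ⟨?_, ?_, ?_⟩
  · show Cp (fun A e => (rot0 (n A e) (v A e, i A e)).1)
    refine Cp.bindF (G := fun a A e => (rot0 (n A e) (v A e, a)).1) hi ?_
    intro a
    show Cp (fun A e => (rot0 (n A e) (v A e, a)).1)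
    have hd : Cp (fun A e => v A e / n A e) := Cp.div hv hn
    have hm : Cp (fun A e => v A e % n A e) := Cp.mod hv hn
    have h1 : Cp (fun A e => n A e - 1) := Cp.sub hn (Cp.const 1)
    unfold rot0
    dsimp only
    by_cases a0 : a = (0, 0)
    · simp only [if_pos a0]
      exact Cp.add (Cp.mul hd hn) (Cp.mod (Cp.add hm (Cp.const 1)) hn)
    · simp only [if_neg a0]
      by_cases a1 : a = (0, 1)
      · simp only [if_pos a1]
        exact Cp.add (Cp.mul hd hn) (Cp.mod (Cp.add hm h1) hn)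
      · simp only [if_neg a1]
        by_cases a2 : a = (0, 2)
        · simp only [if_pos a2]
          exact Cp.add (Cp.mul (Cp.mod (Cp.add hd (Cp.const 1)) hn) hn) hm
        · simp only [if_neg a2]
          by_cases a3 : a = (0, 3)
          · simp only [if_pos a3]
            exact Cp.add (Cp.mul (Cp.mod (Cp.add hd h1) hn) hn) hm
          · simp only [if_neg a3]
            exact hv
  · have e0 : (fun (A : ℕ → ℕ) (e : Fin k → ℕ) => ((g0 A (n A e)).rot (v A e, i A e)).2) =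
        (fun A e => (rot0 0 (0, i A e)).2) := by
      funext A e
      exact I2_rot_snd _ _ _
    rw [e0]
    exact CpF.map (fun a => (rot0 0 (0, a)).2) hi
  · exact CpF.map₂ (fun (u : Lab → Bool) (j : Idx) => fun (a b : Lab) => u a &&
      decide ((j = (0, 0) ∨ j = (0, 1) → ∀ s : Fin 3, a ⟨s, by omega⟩ = b ⟨s, by omega⟩) ∧
      (j = (0, 2) ∨ j = (0, 3) → ∀ s : Fin 3, a ⟨3 + s, by omega⟩ = b ⟨3 + s, by omega⟩)))
      (I2_cp_unC (Cp.div hv hn) (Cp.mod hv hn)) hi

/-- TASK I2b. The program for the first graph.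

Proof. `prog` with terms for `n = m` (the value `e 0`), `0`, `q = 1 + m * m * D` and, for the entry
`j = e 2`: `162 * m * m` for `j = 0` and otherwise `ent` of the graph `g0 A m` at
`((j - 1) / D, cI.d ((j - 1) % D))`; the closure properties and `cpd_g0` as in `step_terms`.
`prog_cl` (`D ≥ 3`, so `code φ j = 0` for `j ≥ q ≥ 3 m`), `arrOf_eq` with `hom_G0`. Steps:
`prog_cl_steps`, `code φ j ≤ 6 m + 1` (`code_le` in `PtRed.lean`). -/
theorem init_prog {D Kc : ℕ} (hD : 3 ≤ D) (hK : 1 ≤ Kc) (cI : Cod Idx D)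
    (cR : Cod (Lab → Lab → Bool) Kc) :
    ∃ (p : Cmd) (C : ℕ), ∀ (m : ℕ) (φ : Formula m), 1 ≤ m →
      p.exec (formulaInput φ) = cl m (arrOf cI cR (162 * m * m) (G0 φ)) ∧
      p.steps (formulaInput φ) ≤ (m + 2) ^ C := by
  -- the term of an entry
  have hv : Cp (fun _ (e : Fin 3 → ℕ) => (e 2 - 1) / D) :=
    Cp.div (Cp.sub (Cp.var 2) (Cp.const 1)) (Cp.const D)
  have hi : CpF (fun _ (e : Fin 3 → ℕ) => cI.d ((e 2 - 1) % D)) :=
    CpF.mod (Cp.sub (Cp.var 2) (Cp.const 1)) (by omega) cI.d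
  obtain ⟨c1, c2, c3⟩ := cpd_g0 3 (fun _ e => e 0) (fun _ e => (e 2 - 1) / D)
    (fun _ e => cI.d ((e 2 - 1) % D)) (Cp.var 0) hv hi
  have hent : Cp (fun A (e : Fin 3 → ℕ) =>
      (((g0 A (e 0)).rot ((e 2 - 1) / D, cI.d ((e 2 - 1) % D))).1 * D +
        cI.c ((g0 A (e 0)).rot ((e 2 - 1) / D, cI.d ((e 2 - 1) % D))).2) * Kc +
        cR.c ((g0 A (e 0)).con ((e 2 - 1) / D, cI.d ((e 2 - 1) % D)))) :=
    Cp.add (Cp.mul (Cp.add (Cp.mul c1 (Cp.const D)) (Cp.code c2 cI.c)) (Cp.const Kc))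
      (Cp.code c3 cR.c)
  have htb : Cp (fun A (e : Fin 3 → ℕ) => if e 2 = 0 then 162 * e 0 * e 0 else
      (((g0 A (e 0)).rot ((e 2 - 1) / D, cI.d ((e 2 - 1) % D))).1 * D +
        cI.c ((g0 A (e 0)).rot ((e 2 - 1) / D, cI.d ((e 2 - 1) % D))).2) * Kc +
        cR.c ((g0 A (e 0)).con ((e 2 - 1) / D, cI.d ((e 2 - 1) % D)))) :=
    Cp.ite (Pp.eq (Cp.var 2) (Cp.const 0))
      (Cp.mul (Cp.mul (Cp.const 162) (Cp.var 0)) (Cp.var 0)) hent
  have htq : Cp (fun _ (e : Fin 1 → ℕ) => 1 + e 0 * e 0 * D) :=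
    Cp.add (Cp.const 1) (Cp.mul (Cp.mul (Cp.var 0) (Cp.var 0)) (Cp.const D))
  obtain ⟨tb, htb⟩ := htb
  obtain ⟨tq, htq⟩ := htq
  obtain ⟨C, hC⟩ := prog_cl_steps (.var 0) (.const 0) tq tb
  have hPb : Pb (fun m => (6 * m + m * m * D + 1) + 2) :=
    Pb.add (Pb.add (Pb.add (Pb.mul (Pb.const 6) Pb.id) (Pb.mul (Pb.mul Pb.id Pb.id) (Pb.const D)))
      (Pb.const 1)) (Pb.const 2)
  obtain ⟨C', hC'⟩ := Pb.pow hPb C
  refine ⟨prog (.var 0) (.const 0) tq tb, C', ?_⟩
  intro m φ hm
  rw [formulaInput_eq]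
  have hq : tq.eval (code φ) (fun _ => m) = 1 + m * m * D := htq _ _
  have h3 : 3 * m ≤ m * m * D := by
    calc 3 * m = m * 1 * 3 := by ring
      _ ≤ m * m * D := Nat.mul_le_mul (Nat.mul_le_mul_left _ hm) hD
  constructor
  · rw [prog_cl (n := m) (q := 1 + m * m * D) rfl rfl hq
      (fun j hj => (code_le φ j).2 (by omega))]
    congr 1
    funext j
    by_cases hj : j < 1 + m * m * D
    · rw [if_pos hj, htb]
      by_cases h0 : j = 0
      · subst h0
        rw [arrOf_zero]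
        simp
      · rw [arrOf_eq cI cR _ (hom_G0 φ) h0 hj]
        have h2 : (![m, m, j] : Fin 3 → ℕ) 2 = j := rfl
        have h4 : (![m, m, j] : Fin 3 → ℕ) 0 = m := rfl
        beta_reduce
        rw [h2, h4, if_neg h0]
        rfl
    · rw [if_neg hj, arrOf_eq_zero cI cR _ _ (by omega)]
  · refine (hC (6 * m + m * m * D + 1) m m (1 + m * m * D) (code φ)
      (fun i => ?_) (by omega) (by omega) (by omega) rfl rfl hq).trans (hC' m)
    have := (code_le φ i).1
    omega

end Pool.Agent.Lib.MP_0b8c1e_lc.PC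
end
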