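import Pool.Agent.Lib.MP_0b8c1e_lc.Mg.G001

section

set_option autoImplicit false

namespace Pool.Agent.Lib.MP_0b8c1e_lc.PC

open Finset

private lemma T2a_dot_add {Z : Type*} [Fintype Z] (ℓ u v : Z → ZMod 2) :
    dot ℓ (u + v) = dot ℓ u + dot ℓ v := by
  simp only [dot, Pi.add_apply, add_mul, sum_add_distrib]

private lemma T2a_dot_single {Z : Type*} [Fintype Z] [DecidableEq Z] (ℓ : Z → ZMod 2) (z : Z) :
    dot ℓ (Pi.single z 1) = ℓ z := by
  simp [dot, Pi.single_apply]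

private lemma T2a_two : ∀ x : ZMod 2, x = 0 ∨ x = 1 := by decide

private lemma T2a_flip : ∀ a x : ZMod 2, a + 1 ≠ x ↔ ¬ (a ≠ x) := by decide

/-- TASK T2a. An additive function on `Z → ZMod 2` is a linear form. Proof.
`ℓ z = g (Pi.single z 1)`; `u = ∑_z Pi.single z (u z)`, `g 0 = 0`, and `g (Pi.single z x) = x * ℓ z`
for the two values `x = 0, 1`. -/
theorem exists_dot {Z : Type*} [Fintype Z] [DecidableEq Z] {g : (Z → ZMod 2) → ZMod 2}
    (hg : ∀ u v, g (u + v) = g u + g v) : ∃ ℓ : Z → ZMod 2, ∀ u, g u = dot ℓ u := by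
  refine ⟨fun z => g (Pi.single z 1), fun u => ?_⟩
  have h0 : g 0 = 0 := by
    have h := hg 0 0
    rw [add_zero] at h
    exact left_eq_add.mp h
  have hsum : ∀ s : Finset Z, g (∑ z ∈ s, Pi.single z (u z)) = ∑ z ∈ s, g (Pi.single z (u z)) := by
    intro s
    induction s using Finset.induction_on with
    | empty => simpa using h0
    | insert a s ha ih => rw [sum_insert ha, sum_insert ha, hg, ih]
  have h1 := hsum univ
  rw [Finset.univ_sum_single u] at h1
  rw [h1, dot]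
  refine sum_congr rfl fun z _ => ?_
  rcases T2a_two (u z) with h | h
  · rw [h, Pi.single_zero, h0, zero_mul]
  · rw [h, one_mul]

/-- TASK T2c. Random subsums. Proof. Choose `z` with `ℓ z ≠ 0`; the bijection `u ↦ u + Pi.single z 1`
exchanges the two values of `dot ℓ u` (so both have probability `1/2`): `pr_equiv` with
`Equiv.addRight`, `pr_not`. -/
theorem pr_dot_ne_zero {Z : Type*} [Fintype Z] [DecidableEq Z] {ℓ : Z → ZMod 2} (h : ℓ ≠ 0)
    (x : ZMod 2) : pr (fun u => dot ℓ u ≠ x) = 1 / 2 := by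
  obtain ⟨z, hz⟩ : ∃ z, ℓ z ≠ 0 := by
    by_contra hc
    push Not at hc
    exact h (funext hc)
  have hz1 : ℓ z = 1 := (T2a_two (ℓ z)).resolve_left hz
  have e1 := pr_equiv (Equiv.addRight (Pi.single z (1 : ZMod 2) : Z → ZMod 2)) fun u => dot ℓ u ≠ x
  have e2 : pr (fun u => dot ℓ (Equiv.addRight (Pi.single z (1 : ZMod 2) : Z → ZMod 2) u) ≠ x) =
      pr (fun u => ¬ (dot ℓ u ≠ x)) := by
    refine pr_congr fun u => ?_
    have e3 : dot ℓ (Equiv.addRight (Pi.single z (1 : ZMod 2) : Z → ZMod 2) u) = dot ℓ u + 1 := by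
      rw [Equiv.coe_addRight, T2a_dot_add, T2a_dot_single, hz1]
    rw [e3]
    exact T2a_flip _ _
  have e4 := pr_not (fun u => dot ℓ u ≠ x)
  have e5 : pr (fun u => dot ℓ u ≠ x) = 1 - pr (fun u => dot ℓ u ≠ x) :=
    (e1.symm.trans e2).trans e4
  generalize pr (fun u => dot ℓ u ≠ x) = t at e5 ⊢
  linarith

/-- TASK T2d. Proof. If `m ≠ 0` choose `z` with the row `m (z, ·) ≠ 0`. The bilinear form is
`∑_w b w * r_a w` with the row `r_a w = ∑_z a z * m (z, w)`. Some `w` has `m (z, w) ≠ 0`, so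
`r_a w ≠ 0` with probability `1/2` over `a` (T2c for the column `w`), and if `r_a ≠ 0` then the form
is nonzero with probability `1/2` over `b` (T2c). So the probability is at least `1/4`. -/
theorem pr_bilin {Z : Type*} [Fintype Z] [DecidableEq Z] {m : Z × Z → ZMod 2} (h : m ≠ 0) :
    1 / 4 ≤ pr (fun w : (Z → ZMod 2) × (Z → ZMod 2) =>
      dot m (fun z : Z × Z => w.1 z.1 * w.2 z.2) ≠ 0) := by
  obtain ⟨⟨z, w⟩, hzw⟩ : ∃ z, m z ≠ 0 := by
    by_contra hc
    push Not at hc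
    exact h (funext hc)
  set r : (Z → ZMod 2) → Z → ZMod 2 := fun a w => dot (fun z => m (z, w)) a with hr
  have hform : ∀ a b : Z → ZMod 2, dot m (fun z : Z × Z => a z.1 * b z.2) = dot (r a) b := by
    intro a b
    rw [hr]
    simp only [dot]
    rw [Fintype.sum_prod_type, sum_comm]
    refine sum_congr rfl fun w _ => ?_
    rw [mul_sum]
    refine sum_congr rfl fun z _ => ?_
    ring
  have h1 : pr (fun a : Z → ZMod 2 => r a ≠ 0) ≥ 1 / 2 := by
    have h2 : (fun z => m (z, w)) ≠ 0 := fun hc => hzw (congrFun hc z)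
    rw [← pr_dot_ne_zero h2 0]
    refine pr_mono fun a ha hc => ha ?_
    exact congrFun hc w
  rw [pr_prod]
  have h3 : ∀ a : Z → ZMod 2, 1 / 2 * (if r a ≠ 0 then (1 : ℝ) else 0) ≤
      pr fun b : Z → ZMod 2 => dot m (fun z : Z × Z => a z.1 * b z.2) ≠ 0 := by
    intro a
    split_ifs with ha
    · have h4 := pr_dot_ne_zero ha 0
      have h4' : (pr fun b : Z → ZMod 2 => dot m (fun z : Z × Z => a z.1 * b z.2) ≠ 0) =
          pr fun b : Z → ZMod 2 => dot (r a) b ≠ 0 :=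
        pr_congr fun b => by rw [hform a b]
      rw [h4', h4, mul_one]
    · rw [mul_zero]
      exact pr_nonneg _
  have h5 : pr (fun a : Z → ZMod 2 => r a ≠ 0) =
      (∑ a : Z → ZMod 2, (if r a ≠ 0 then (1 : ℝ) else 0)) / Fintype.card (Z → ZMod 2) := by
    rw [pr_eq, sum_boole]
  have h6 := sum_le_sum fun (a : Z → ZMod 2) (_ : a ∈ univ) => h3 a
  rw [← mul_sum] at h6
  have hc : (0 : ℝ) < Fintype.card (Z → ZMod 2) := by
    have := Fintype.card_pos (α := Z → ZMod 2)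
    exact_mod_cast this
  have h7 := div_le_div_of_nonneg_right h6 hc.le
  rw [mul_div_assoc, ← h5] at h7
  refine le_trans ?_ h7
  linarith

end Pool.Agent.Lib.MP_0b8c1e_lc.PC
end

section

set_option autoImplicit false

namespace Pool.Agent.Lib.MP_0b8c1e_lc.PC

open Finset

variable {P : Type*} [Fintype P] [DecidableEq P]

/-- TASK T4c. The decoding is unique. Proof. If `x ≠ y` then `pr [r x ≠ r y] = 1/2`
(`pr_dot_ne_zero` for `ℓ = Pi.single x 1 + Pi.single y 1`), but it is less than `1/8 + 1/8`. -/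
theorem decode_unique {A : (P → ZMod 2) → ZMod 2} {x y : P} (hx : pr (fun r => A r ≠ r x) < 1 / 8)
    (hy : pr (fun r => A r ≠ r y) < 1 / 8) : x = y := by
  by_contra hne
  have hl : (Pi.single x 1 + Pi.single y 1 : P → ZMod 2) ≠ 0 := by
    intro h0
    have h1 := congrFun h0 x
    simp only [Pi.add_apply, Pi.single_eq_same, Pi.zero_apply, Pi.single_eq_of_ne hne,
      add_zero] at h1
    exact one_ne_zero h1
  have hd : ∀ u : P → ZMod 2, dot (Pi.single x 1 + Pi.single y 1 : P → ZMod 2) u = u x + u y := by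
    intro u
    unfold dot
    simp only [Pi.add_apply, mul_add, Finset.sum_add_distrib, Pi.single_apply, mul_ite, mul_one,
      mul_zero, Finset.sum_ite_eq', Finset.mem_univ, if_true]
  have h1 := pr_dot_ne_zero hl 0
  have h2 : pr (fun u => dot (Pi.single x 1 + Pi.single y 1 : P → ZMod 2) u ≠ 0) ≤
      pr (fun r : P → ZMod 2 => A r ≠ r x ∨ A r ≠ r y) := by
    apply pr_mono
    intro u hu
    by_contra hc
    rw [not_or, not_not, not_not] at hc
    apply hu
    rw [hd, ← hc.1, ← hc.2]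
    exact CharTwo.add_self_eq_zero _
  have h3 := pr_or_le (fun r : P → ZMod 2 => A r ≠ r x) (fun r : P → ZMod 2 => A r ≠ r y)
  linarith

/-- TASK T4d. Completeness. Proof. Unfold `accept`, `answers`, `qx`: `u₁ z₀ + u₂ z₀ = (u₁ + u₂) z₀`
and so on; for the last part `lin c α α₀ (z₀, z₀) = α₀ + 0` as `c x y = true`. -/
theorem tester_complete (c : P → P → Bool) {x y : P} (h : c x y = true) (ρ : Rnd P) :
    accept ρ (answers c ρ (fun r => r x) (fun r => r y)
      (Sum.elim (fun u => u (x, y)) fun U => U ((x, y), (x, y)))) = true := by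
  have e0 : answers c ρ (fun r => r x) (fun r => r y)
      (Sum.elim (fun u => u (x, y)) fun U => U ((x, y), (x, y))) =
      fun j : Fin 18 => ![ρ.2.2.1.1 x, ρ.2.2.2.1.1 y, ρ.1.1 (x, y), ρ.1.2 (x, y),
        ρ.1.1 (x, y) + ρ.1.2 (x, y), ρ.2.1.1 ((x, y), (x, y)), ρ.2.1.2 ((x, y), (x, y)),
        ρ.2.1.1 ((x, y), (x, y)) + ρ.2.1.2 ((x, y), (x, y)),
        ρ.2.2.1.1 x + ρ.2.2.1.2 (x, y), ρ.2.2.1.2 (x, y),
        ρ.2.2.2.1.1 y + ρ.2.2.2.1.2 (x, y), ρ.2.2.2.1.2 (x, y),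
        ρ.2.2.2.2.1.1 (x, y) * ρ.2.2.2.2.1.2.1 (x, y) + ρ.2.2.2.2.1.2.2 ((x, y), (x, y)),
        ρ.2.2.2.2.1.2.2 ((x, y), (x, y)), ρ.2.2.2.2.1.1 (x, y), ρ.2.2.2.2.1.2.1 (x, y),
        lin c ρ.2.2.2.2.2.1 ρ.2.2.2.2.2.2.1 ((x, y), (x, y)) + ρ.2.2.2.2.2.2.2 ((x, y), (x, y)),
        ρ.2.2.2.2.2.2.2 ((x, y), (x, y))] j := by
    funext j
    fin_cases j <;> rfl
  have e1 : lin c ρ.2.2.2.2.2.1 ρ.2.2.2.2.2.2.1 ((x, y), (x, y)) = ρ.2.2.2.2.2.2.1 := by
    unfold lin
    rw [if_pos rfl]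
    change ρ.2.2.2.2.2.2.1 + (if c x y = true then 0 else _) = _
    rw [if_pos h, add_zero]
  rw [e0, e1]
  unfold accept
  rw [decide_eq_true_eq]
  refine ⟨rfl, rfl, ?_, ?_, ?_, ?_⟩
  · exact (add_sub_cancel_right _ _).symm
  · exact (add_sub_cancel_right _ _).symm
  · exact add_sub_cancel_right _ _
  · exact add_sub_cancel_right _ _

end Pool.Agent.Lib.MP_0b8c1e_lc.PC
end

section

set_option autoImplicit false

namespace Pool.Agent.Lib.MP_0b8c1e_lc.PC

open Finset DS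

variable {V K P : Type*} [DecidableEq P] [Fintype K] [Fintype P] [Fintype V] {μ : ℕ}
  {G : DS V K P} {RA : LocA K P μ × Fin 9 → LocA K P μ × Fin 9}
  {RB : (P → P → Bool) → LocB P μ × Fin 9 → LocB P μ × Fin 9}

/-- TASK C2a. Proof. `funext j`, cases `j = 0`, `j = 1`, `j ≥ 2`: unfold `gloc`, `answers`
(`Fin.cons`). -/
theorem ans_eq (G : DS V K P) (T : (V × (P → ZMod 2)) ⊕ ((V × K) × Aux P) → ZMod 2)
    (τ : Tst V K P μ) : ans G T τ = answers (G.con τ.1) τ.2.1 (fun r => T (.inl (τ.1.1, r)))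
      (fun r => T (.inl ((G.rot τ.1).1, r))) (fun z => T (.inr (τ.1, z))) := by
  funext j
  unfold ans answers
  refine Fin.cases ?_ (fun j => Fin.cases ?_ (fun j => ?_) j) j
  · rw [Fin.cons_zero]
    rfl
  · rw [Fin.cons_succ, Fin.cons_zero]
    rfl
  · rw [Fin.cons_succ, Fin.cons_succ]
    rfl

/-- TASK C2b. Completeness. Proof. Let `σ` satisfy all constraints of `G`; the table
`T (inl (v, r)) = r (σ v)`, `T (inr (e, inl u)) = u (x, y)`, `T (inr (e, inr U)) = U ((x, y), (x, y))`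
with `x = σ e.1`, `y = σ (rot e).1`. Every test accepts `ans G T τ` (`ans_eq`, `tester_complete`), and
the two answers at the ends of an edge agree, since they are at the same position (`gloc_tRot`). So
all constraints `tCon` hold for `τ ↦ ans G T τ`. -/
theorem testDS_sat (hG : G.Inv) (hA : ∀ p, keyA (RA p).1 = keyA p.1)
    (hB : ∀ c p, keyB c (RB c p).1 = keyB c p.1) (h : G.Sat) : (testDS G RA RB).Sat := by
  classical
  obtain ⟨σ, hσ⟩ := h
  have hcon : ∀ e : V × K, G.con e (σ e.1) (σ (G.rot e).1) = true := by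
    intro e
    by_contra hne
    have hf : G.con e (σ e.1) (σ (G.rot e).1) = false := by
      simpa using hne
    have hm : e ∈ G.bad σ := Finset.mem_filter.2 ⟨Finset.mem_univ _, hf⟩
    rw [hσ] at hm
    exact absurd hm (Finset.notMem_empty _)
  let T : (V × (P → ZMod 2)) ⊕ ((V × K) × Aux P) → ZMod 2 :=
    Sum.elim (fun x => x.2 (σ x.1)) fun x =>
      Sum.elim (fun u => u (σ x.1.1, σ (G.rot x.1).1))
        (fun U => U ((σ x.1.1, σ (G.rot x.1).1), (σ x.1.1, σ (G.rot x.1).1))) x.2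
  have hacc : ∀ τ : Tst V K P μ, accept τ.2.1 (ans G T τ) = true := by
    intro τ
    rw [ans_eq]
    exact tester_complete (G.con τ.1) (hcon τ.1) τ.2.1
  refine ⟨fun τ => ans G T τ, ?_⟩
  rw [DS.bad, Finset.filter_eq_empty_iff]
  intro p _
  have e3 : ans G T p.1 p.2.1 =
      ans G T (tRot G RA RB p).1 (tRot G RA RB p).2.1 := by
    show T (gloc G p.1 p.2.1) = T (gloc G (tRot G RA RB p).1 (tRot G RA RB p).2.1)
    rw [gloc_tRot hG hA hB p]
  have e4 : (testDS G RA RB).con p (ans G T p.1) (ans G T ((testDS G RA RB).rot p).1) = true := by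
    show (accept p.1.2.1 (ans G T p.1) && accept (tRot G RA RB p).1.2.1
      (ans G T (tRot G RA RB p).1) && decide (ans G T p.1 p.2.1 =
        ans G T (tRot G RA RB p).1 (tRot G RA RB p).2.1)) = true
    rw [hacc, hacc, decide_eq_true e3]
    rfl
  intro hf
  have hf' : (testDS G RA RB).con p (ans G T p.1) (ans G T ((testDS G RA RB).rot p).1) = false := hf
  rw [e4] at hf'
  exact Bool.noConfusion hf'

end Pool.Agent.Lib.MP_0b8c1e_lc.PC
end

section

set_option autoImplicit false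

namespace Pool.Agent.Lib.MP_0b8c1e_lc.PC

open Finset

private theorem T2b_z1 : ∀ a b c d e : ZMod 2, a + d = e → b + c = e → a + c = b + d := by decide

private theorem T2b_z2 : ∀ x y z g g' g'' : ZMod 2, y + x = g → z + y = g' → z + x = g'' →
    g'' = g + g' := by decide

private theorem T2b_z3 : ∀ x g a b : ZMod 2, x ≠ g → a + b = g → x + b ≠ a := by decide

private theorem T2b_z4 : ∀ x y g : ZMod 2, x ≠ g → y = g → x ≠ y := by decide

private theorem T2b_z5 : ∀ x : ZMod 2, ¬ x = 1 → x = 0 := by decide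

/-- The majority value. -/
private theorem T2b_maj {A : Type*} [Fintype A] [Nonempty A] (d : A → ZMod 2) :
    ∃ g : ZMod 2, 1 / 2 ≤ pr (fun v => d v = g) := by
  by_cases h : 1 / 2 ≤ pr (fun v => d v = 1)
  · exact ⟨1, h⟩
  · refine ⟨0, ?_⟩
    have h1 := pr_not (fun v => d v = 1)
    have h2 : pr (fun v => ¬ d v = 1) ≤ pr (fun v => d v = 0) := pr_mono fun v hv => T2b_z5 _ hv
    push Not at h
    linarith

/-- TASK T2b. The linearity test.

Proof. Let `η` be the probability, `6 η < 1`. As `x + x = 0` in `ZMod 2`, differences are sums.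
For `u` let `g u` be the more frequent value of `f (u + v) + f v` (over `v`).
(1) For every `u`: `pr_{v, w} [f (u + v) + f v ≠ f (u + w) + f w] ≤ 2 η`: indeed
`f (u + v) + f w = f (u + v + w)` except with probability `η` (the pair `(u + v, w)` is uniform,
`pr_equiv`), and `f (u + w) + f v = f (u + w + v)` except with probability `η`; if both hold, then
`f (u + v) + f w = f (u + w) + f v`.
(2) If `q` is the probability (over `v`) that `f (u + v) + f v = g u` then `q ≥ 1/2` and, by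
independence, the probability in (1) is `2 q (1 - q) ≤ 2 η`, so `1 - q ≤ 2 η`
(`1 - q ≤ 2 q (1 - q)`).
(3) `g` is additive: for given `u, u'` the three events `f (u + v) + f v = g u`,
`f (u' + (u + v)) + f (u + v) = g u'`, `f (u + u' + v) + f v = g (u + u')` fail with probability at
most `2 η` each, `6 η < 1`, so there is a `v` for which all hold, and then
`g u + g u' = g (u + u')`. By T2a `g = dot ℓ`.
(4) If `f u ≠ g u` then `f (u + v) + f v ≠ f u` for at least half of the `v` (as `g u` is the more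
frequent value), so `η ≥ 1/2 pr [f u ≠ g u]` (`pr_prod`). -/
theorem blr {Z : Type*} [Fintype Z] [DecidableEq Z] (f : (Z → ZMod 2) → ZMod 2)
    (h : 6 * pr (fun w : (Z → ZMod 2) × (Z → ZMod 2) => f w.1 + f w.2 ≠ f (w.1 + w.2)) < 1) :
    ∃ ℓ : Z → ZMod 2, pr (fun u => f u ≠ dot ℓ u) ≤
      2 * pr (fun w : (Z → ZMod 2) × (Z → ZMod 2) => f w.1 + f w.2 ≠ f (w.1 + w.2)) := by
  classical
  set η : ℝ := pr (fun w : (Z → ZMod 2) × (Z → ZMod 2) => f w.1 + f w.2 ≠ f (w.1 + w.2)) with hη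
  choose g hg using fun u : Z → ZMod 2 => T2b_maj (fun v : Z → ZMod 2 => f (u + v) + f v)
  -- (1)
  have h1 : ∀ u : Z → ZMod 2, pr (fun w : (Z → ZMod 2) × (Z → ZMod 2) =>
      f (u + w.1) + f w.1 ≠ f (u + w.2) + f w.2) ≤ 2 * η := by
    intro u
    have e1 : pr (fun w : (Z → ZMod 2) × (Z → ZMod 2) =>
        f (u + w.1) + f w.2 ≠ f ((u + w.1) + w.2)) = η :=
      pr_equiv ((Equiv.addLeft u).prodCongr (Equiv.refl (Z → ZMod 2)))
        (fun w : (Z → ZMod 2) × (Z → ZMod 2) => f w.1 + f w.2 ≠ f (w.1 + w.2))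
    have e2 : pr (fun w : (Z → ZMod 2) × (Z → ZMod 2) =>
        f (u + w.2) + f w.1 ≠ f ((u + w.2) + w.1)) = η :=
      pr_equiv ((Equiv.prodComm (Z → ZMod 2) (Z → ZMod 2)).trans
        ((Equiv.addLeft u).prodCongr (Equiv.refl (Z → ZMod 2))))
        (fun w : (Z → ZMod 2) × (Z → ZMod 2) => f w.1 + f w.2 ≠ f (w.1 + w.2))
    have e3 : pr (fun w : (Z → ZMod 2) × (Z → ZMod 2) =>
        f (u + w.1) + f w.1 ≠ f (u + w.2) + f w.2) ≤
        pr (fun w : (Z → ZMod 2) × (Z → ZMod 2) =>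
          (f (u + w.1) + f w.2 ≠ f ((u + w.1) + w.2)) ∨
          (f (u + w.2) + f w.1 ≠ f ((u + w.2) + w.1))) := by
      refine pr_mono fun w hw => ?_
      by_contra hcon
      push Not at hcon
      obtain ⟨c1, c2⟩ := hcon
      apply hw
      have c3 : (u + w.2) + w.1 = (u + w.1) + w.2 := by abel
      rw [c3] at c2
      exact T2b_z1 _ _ _ _ _ c1 c2
    have e4 := pr_or_le (fun w : (Z → ZMod 2) × (Z → ZMod 2) =>
          f (u + w.1) + f w.2 ≠ f ((u + w.1) + w.2))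
          (fun w : (Z → ZMod 2) × (Z → ZMod 2) => f (u + w.2) + f w.1 ≠ f ((u + w.2) + w.1))
    linarith
  -- (2)
  have h2 : ∀ u : Z → ZMod 2, pr (fun v : Z → ZMod 2 => f (u + v) + f v ≠ g u) ≤ 2 * η := by
    intro u
    refine le_trans ?_ (h1 u)
    have hn := pr_not (fun v : Z → ZMod 2 => f (u + v) + f v = g u)
    refine pr_prod_ge fun v => ?_
    by_cases hv : f (u + v) + f v = g u
    · refine pr_mono fun w hw => ?_
      rw [hv]
      exact fun e => hw e.symm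
    · have c1 : pr (fun w : Z → ZMod 2 => f (u + w) + f w = g u) ≤
          pr (fun w : Z → ZMod 2 => f (u + v) + f v ≠ f (u + w) + f w) :=
        pr_mono fun w hw => T2b_z4 _ _ _ hv hw
      have c2 := hg u
      have c3 : pr (fun v : Z → ZMod 2 => f (u + v) + f v ≠ g u) =
          pr (fun v : Z → ZMod 2 => ¬ (f (u + v) + f v = g u)) := rfl
      rw [c3]
      linarith
  -- (3)
  have h3 : ∀ u u' : Z → ZMod 2, g (u + u') = g u + g u' := by
    intro u u'
    have a1 := h2 u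
    have a2 : pr (fun v : Z → ZMod 2 => f (u' + (u + v)) + f (u + v) ≠ g u') ≤ 2 * η := by
      have := pr_equiv (Equiv.addLeft u) (fun v : Z → ZMod 2 => f (u' + v) + f v ≠ g u')
      exact le_trans (le_of_eq this) (h2 u')
    have a3 := h2 (u + u')
    have b1 := pr_or_le (fun v : Z → ZMod 2 => f (u + v) + f v ≠ g u)
      (fun v : Z → ZMod 2 => f (u' + (u + v)) + f (u + v) ≠ g u')
    have b2 := pr_or_le (fun v : Z → ZMod 2 => (f (u + v) + f v ≠ g u) ∨
      (f (u' + (u + v)) + f (u + v) ≠ g u'))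
      (fun v : Z → ZMod 2 => f (u + u' + v) + f v ≠ g (u + u'))
    obtain ⟨v, hv⟩ := exists_of_pr_lt_one (p := fun v : Z → ZMod 2 =>
      ((f (u + v) + f v ≠ g u) ∨ (f (u' + (u + v)) + f (u + v) ≠ g u')) ∨
        (f (u + u' + v) + f v ≠ g (u + u'))) (by linarith) ⟨0⟩
    push Not at hv
    obtain ⟨⟨c1, c2⟩, c3⟩ := hv
    have c4 : u' + (u + v) = u + u' + v := by abel
    rw [c4] at c2
    exact T2b_z2 _ _ _ _ _ _ c1 c2 c3
  obtain ⟨ℓ, hℓ⟩ := exists_dot h3
  refine ⟨ℓ, ?_⟩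
  -- (4)
  have h4 : pr (fun u : Z → ZMod 2 => f u ≠ g u) ≤ 2 * η := by
    have e1 := pr_prod (fun w : (Z → ZMod 2) × (Z → ZMod 2) => f w.1 + f w.2 ≠ f (w.1 + w.2))
    rw [← hη] at e1
    have hcard : (0 : ℝ) < Fintype.card (Z → ZMod 2) := by
      exact_mod_cast Fintype.card_pos
    have e2 : ∑ u : Z → ZMod 2, (if f u ≠ g u then (1 / 2 : ℝ) else 0) ≤
        ∑ u : Z → ZMod 2, pr (fun v : Z → ZMod 2 => f u + f v ≠ f (u + v)) := by
      refine Finset.sum_le_sum fun u _ => ?_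
      by_cases hu : f u ≠ g u
      · rw [if_pos hu]
        refine le_trans (hg u) (pr_mono fun v hv => ?_)
        exact T2b_z3 _ _ _ _ hu hv
      · rw [if_neg hu]
        exact pr_nonneg _
    have e3 : pr (fun u : Z → ZMod 2 => f u ≠ g u) =
        2 * ((∑ u : Z → ZMod 2, (if f u ≠ g u then (1 / 2 : ℝ) else 0)) /
          Fintype.card (Z → ZMod 2)) := by
      rw [pr_eq, ← Finset.sum_filter, Finset.sum_const, nsmul_eq_mul]
      ring
    rw [e3, e1]
    have e4 : (∑ u : Z → ZMod 2, (if f u ≠ g u then (1 / 2 : ℝ) else 0)) /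
          Fintype.card (Z → ZMod 2) ≤
        (∑ u : Z → ZMod 2, pr (fun v : Z → ZMod 2 => f u + f v ≠ f (u + v))) /
          Fintype.card (Z → ZMod 2) :=
      div_le_div_of_nonneg_right e2 hcard.le
    linarith
  refine le_trans (le_of_eq (pr_congr fun u => ?_)) h4
  rw [hℓ u]

end Pool.Agent.Lib.MP_0b8c1e_lc.PC
end

section

set_option autoImplicit false

namespace Pool.Agent.Lib.MP_0b8c1e_lc.PC

open Finset

variable {P : Type*} [Fintype P] [DecidableEq P]

private theorem T3_six {A₁ A₂ A₃ A₄ A₅ A₆ : Type*} [Fintype A₁] [Fintype A₂] [Fintype A₃]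
    [Fintype A₄] [Fintype A₅] [Fintype A₆] [Nonempty A₁] [Nonempty A₂] [Nonempty A₃] [Nonempty A₄]
    [Nonempty A₅] [Nonempty A₆] (i : Fintype (A₁ × A₂ × A₃ × A₄ × A₅ × A₆))
    (R : A₁ × A₂ × A₃ × A₄ × A₅ × A₆ → Prop)
    (p₁ : A₁ → Prop) (p₂ : A₂ → Prop) (p₃ : A₃ → Prop) (p₄ : A₄ → Prop) (p₅ : A₅ → Prop)
    (p₆ : A₆ → Prop) (h : ∀ w, (p₁ w.1 ∨ p₂ w.2.1 ∨ p₃ w.2.2.1 ∨ p₄ w.2.2.2.1 ∨ p₅ w.2.2.2.2.1 ∨
      p₆ w.2.2.2.2.2) → R w) :
    pr p₁ ≤ @pr _ i R ∧ pr p₂ ≤ @pr _ i R ∧ pr p₃ ≤ @pr _ i R ∧ pr p₄ ≤ @pr _ i R ∧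
      pr p₅ ≤ @pr _ i R ∧ pr p₆ ≤ @pr _ i R := by
  obtain rfl : i = instFintypeProd A₁ (A₂ × A₃ × A₄ × A₅ × A₆) := Subsingleton.elim _ _
  refine ⟨?_, ?_, ?_, ?_, ?_, ?_⟩
  · rw [← pr_fst (Ω' := A₂ × A₃ × A₄ × A₅ × A₆) p₁]
    exact pr_mono fun w hw => h w (Or.inl hw)
  · rw [← pr_fst (Ω' := A₃ × A₄ × A₅ × A₆) p₂, ← pr_snd (Ω' := A₁) (fun w : A₂ × A₃ × A₄ × A₅ × A₆ => p₂ w.1)]
    exact pr_mono fun w hw => h w (Or.inr (Or.inl hw))
  · rw [← pr_fst (Ω' := A₄ × A₅ × A₆) p₃, ← pr_snd (Ω' := A₂) (fun w : A₃ × A₄ × A₅ × A₆ => p₃ w.1),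
      ← pr_snd (Ω' := A₁) (fun w : A₂ × A₃ × A₄ × A₅ × A₆ => p₃ w.2.1)]
    exact pr_mono fun w hw => h w (Or.inr (Or.inr (Or.inl hw)))
  · rw [← pr_fst (Ω' := A₅ × A₆) p₄, ← pr_snd (Ω' := A₃) (fun w : A₄ × A₅ × A₆ => p₄ w.1),
      ← pr_snd (Ω' := A₂) (fun w : A₃ × A₄ × A₅ × A₆ => p₄ w.2.1),
      ← pr_snd (Ω' := A₁) (fun w : A₂ × A₃ × A₄ × A₅ × A₆ => p₄ w.2.2.1)]
    exact pr_mono fun w hw => h w (Or.inr (Or.inr (Or.inr (Or.inl hw))))
  · rw [← pr_fst (Ω' := A₆) p₅, ← pr_snd (Ω' := A₄) (fun w : A₅ × A₆ => p₅ w.1),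
      ← pr_snd (Ω' := A₃) (fun w : A₄ × A₅ × A₆ => p₅ w.2.1),
      ← pr_snd (Ω' := A₂) (fun w : A₃ × A₄ × A₅ × A₆ => p₅ w.2.2.1),
      ← pr_snd (Ω' := A₁) (fun w : A₂ × A₃ × A₄ × A₅ × A₆ => p₅ w.2.2.2.1)]
    exact pr_mono fun w hw => h w (Or.inr (Or.inr (Or.inr (Or.inr (Or.inl hw)))))
  · rw [← pr_snd (Ω' := A₅) p₆, ← pr_snd (Ω' := A₄) (fun w : A₅ × A₆ => p₆ w.2),
      ← pr_snd (Ω' := A₃) (fun w : A₄ × A₅ × A₆ => p₆ w.2.2),
      ← pr_snd (Ω' := A₂) (fun w : A₃ × A₄ × A₅ × A₆ => p₆ w.2.2.2),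
      ← pr_snd (Ω' := A₁) (fun w : A₂ × A₃ × A₄ × A₅ × A₆ => p₆ w.2.2.2.2)]
    exact pr_mono fun w hw => h w (Or.inr (Or.inr (Or.inr (Or.inr (Or.inr hw)))))

/-- TASK T3a. Every part of the test rejects with probability at most the one of the whole test. -/
theorem fails_of_reject (c : P → P → Bool) (A B : (P → ZMod 2) → ZMod 2) (F : Aux P → ZMod 2) :
    Fails c A B F (pr fun ρ : Rnd P => accept ρ (answers c ρ A B F) = false) := by
  have key := T3_six (A₁ := (P × P → ZMod 2) × (P × P → ZMod 2))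
    (A₂ := ((P × P) × (P × P) → ZMod 2) × ((P × P) × (P × P) → ZMod 2))
    (A₃ := (P → ZMod 2) × (P × P → ZMod 2)) (A₄ := (P → ZMod 2) × (P × P → ZMod 2))
    (A₅ := (P × P → ZMod 2) × (P × P → ZMod 2) × ((P × P) × (P × P) → ZMod 2))
    (A₆ := ((P × P) × (P × P) → ZMod 2) × ZMod 2 × ((P × P) × (P × P) → ZMod 2))
    (show Fintype (Rnd P) from inferInstance)
    (fun ρ => accept (P := P) ρ (answers c ρ A B F) = false)
    (fun w => F (.inl w.1) + F (.inl w.2) ≠ F (.inl (w.1 + w.2)))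
    (fun w => F (.inr w.1) + F (.inr w.2) ≠ F (.inr (w.1 + w.2)))
    (fun w => A w.1 ≠ F (.inl ((fun z => w.1 z.1) + w.2)) - F (.inl w.2))
    (fun w => B w.1 ≠ F (.inl ((fun z => w.1 z.2) + w.2)) - F (.inl w.2))
    (fun w => F (.inr ((fun z => w.1 z.1 * w.2.1 z.2) + w.2.2)) - F (.inr w.2.2) ≠
      F (.inl w.1) * F (.inl w.2.1))
    (fun w => F (.inr (lin c w.1 w.2.1 + w.2.2)) - F (.inr w.2.2) ≠ w.2.1)
    (by
      intro ρ hρ
      by_contra hacc
      rw [Bool.not_eq_false] at hacc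
      unfold accept at hacc
      rw [decide_eq_true_eq] at hacc
      obtain ⟨e1, e2, e3, e4, e5, e6⟩ := hacc
      rcases hρ with h | h | h | h | h | h
      · exact h e1
      · exact h e2
      · exact h e3
      · exact h e4
      · exact h e5
      · exact h e6)
  obtain ⟨h1, h2, h3, h4, h5, h6⟩ := key
  exact ⟨h1, h2, h3, h4, h5, h6⟩

end Pool.Agent.Lib.MP_0b8c1e_lc.PC
end

section

set_option autoImplicit false

namespace Pool.Agent.Lib.MP_0b8c1e_lc.PC

open Finset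

variable {P : Type*} [Fintype P] [DecidableEq P]

private theorem T4a_two (x : ZMod 2) : x = 0 ∨ x = 1 := by
  revert x
  decide

private theorem T4a_sq (x : ZMod 2) : x * x = x := by
  revert x
  decide

private theorem T4a_lin_add (c : P → P → Bool) (α β : (P × P) × (P × P) → ZMod 2) (α₀ β₀ : ZMod 2) :
    lin c (α + β) (α₀ + β₀) = fun z => lin c α α₀ z + lin c β β₀ z := by
  funext z
  unfold lin
  by_cases h1 : z.1 = z.2
  · by_cases h2 : c z.1.1 z.1.2 = true
    · simp only [h1, if_true]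
      rw [← h1]
      simp only [h2, if_true]
      ring
    · simp only [h1, if_true]
      rw [← h1]
      simp only [h2, if_false, Pi.add_apply, Bool.false_eq_true]
      ring
  · simp only [h1, if_false, Pi.add_apply]

private theorem T4a_dot_add {Z : Type*} [Fintype Z] (q u v : Z → ZMod 2) :
    dot q (fun z => u z + v z) = dot q u + dot q v := by
  unfold dot
  rw [← Finset.sum_add_distrib]
  exact Finset.sum_congr rfl fun z _ => add_mul _ _ _

private theorem T4a_flip : ∀ a b d e : ZMod 2, ¬ (b = e) → (a + b ≠ d + e ↔ ¬ (a ≠ d)) := by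
  decide

/-- the linear form is zero -/
private theorem T4a_zero (c : P → P → Bool) (q : (P × P) × (P × P) → ZMod 2)
    (h : pr (fun w : ((P × P) × (P × P) → ZMod 2) × ZMod 2 => dot q (lin c w.1 w.2) ≠ w.2) < 1 / 2)
    (α : (P × P) × (P × P) → ZMod 2) (α₀ : ZMod 2) : dot q (lin c α α₀) = α₀ := by
  by_contra hcon
  have key : ∀ w : ((P × P) × (P × P) → ZMod 2) × ZMod 2,
      (dot q (lin c (w + (α, α₀)).1 (w + (α, α₀)).2) ≠ (w + (α, α₀)).2) ↔
        ¬ (dot q (lin c w.1 w.2) ≠ w.2) := by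
    intro w
    have e1 : dot q (lin c (w + (α, α₀)).1 (w + (α, α₀)).2)
        = dot q (lin c w.1 w.2) + dot q (lin c α α₀) := by
      show dot q (lin c (w.1 + α) (w.2 + α₀)) = _
      rw [T4a_lin_add, T4a_dot_add]
    have e2 : (w + (α, α₀)).2 = w.2 + α₀ := rfl
    rw [e1, e2]
    exact T4a_flip _ _ _ _ hcon
  have h1 := pr_equiv (Equiv.addRight ((α, α₀) : ((P × P) × (P × P) → ZMod 2) × ZMod 2))
    (fun w : ((P × P) × (P × P) → ZMod 2) × ZMod 2 => dot q (lin c w.1 w.2) ≠ w.2)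
  have h2 : pr (fun w : ((P × P) × (P × P) → ZMod 2) × ZMod 2 =>
      ¬ (dot q (lin c w.1 w.2) ≠ w.2)) = pr (fun w : ((P × P) × (P × P) → ZMod 2) × ZMod 2 =>
      dot q (lin c w.1 w.2) ≠ w.2) := by
    rw [← h1]
    exact (pr_congr fun w => key w).symm
  have h3 := pr_not (fun w : ((P × P) × (P × P) → ZMod 2) × ZMod 2 => dot q (lin c w.1 w.2) ≠ w.2)
  rw [h2] at h3
  linarith

/-- TASK T4a. The linear form of the last part of the test.

Proof. `dot q (lin c α α₀)` with `q (z, w) = ℓ z * ℓ w` is (use `ℓ z * ℓ z = ℓ z`)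
`α₀ * ∑ ℓ + ∑_z [¬ c z] ℓ z α (z, z) + ∑_{z ≠ w} ℓ z ℓ w α (z, w)`. If the conclusion fails, then
the linear form `(α, α₀) ↦ dot q (lin c α α₀) - α₀` is not zero: either `∑ ℓ ≠ 1` (coefficient of
`α₀`), or there is a `z` with `ℓ z = 1` and `¬ c z` (coefficient of `α (z, z)`), or there are
`z ≠ w` with `ℓ z ℓ w = 1` (coefficient of `α (z, w)`). A nonzero linear form is nonzero with
probability `1/2` (as in `pr_dot_ne_zero`: adding `1` to the variable with a nonzero coefficient is a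
bijection which changes the value). If `∑ ℓ = 1` and no two different `z, w` have `ℓ z = ℓ w = 1`,
then exactly one `z₀` has `ℓ z₀ = 1`. -/
theorem lin_test (c : P → P → Bool) (ℓ : P × P → ZMod 2)
    (h : pr (fun w : ((P × P) × (P × P) → ZMod 2) × ZMod 2 =>
      dot (fun z : (P × P) × (P × P) => ℓ z.1 * ℓ z.2) (lin c w.1 w.2) ≠ w.2) < 1 / 2) :
    ∃ z₀, c z₀.1 z₀.2 = true ∧ ∀ u, dot ℓ u = u z₀ := by
  have H := T4a_zero c _ h
  -- the sum of the entries
  have hsum : ∑ a, ℓ a = 1 := by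
    have h1 := H 0 1
    unfold dot at h1
    have h2 : ∀ z : (P × P) × (P × P), lin c 0 1 z * (ℓ z.1 * ℓ z.2)
        = if z.1 = z.2 then ℓ z.1 else 0 := by
      intro z
      unfold lin
      by_cases hz : z.1 = z.2
      · simp only [hz, if_true, Pi.zero_apply, ite_self, add_zero, one_mul]
        exact T4a_sq _
      · simp only [hz, if_false, Pi.zero_apply, zero_mul]
    rw [Finset.sum_congr rfl fun z _ => h2 z, Fintype.sum_prod_type] at h1
    simpa using h1
  have hc : ∀ z : P × P, c z.1 z.2 = false → ℓ z = 0 := by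
    intro z hz
    have h1 := H (Pi.single (z, z) 1) 0
    unfold dot at h1
    rw [Finset.sum_eq_single (z, z)] at h1
    · unfold lin at h1
      simp only [hz, if_true, Pi.single_eq_same, zero_add, one_mul, Bool.false_eq_true, if_false] at h1
      rwa [T4a_sq] at h1
    · intro w _ hw
      unfold lin
      by_cases h2 : w.1 = w.2
      · by_cases h3 : c w.1.1 w.1.2 = true
        · simp only [h2, if_true]
          rw [← h2]
          simp only [h3, if_true, add_zero, zero_mul]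
        · simp only [h2, if_true]
          rw [← h2]
          simp only [h3, if_false, Bool.false_eq_true, Pi.single_eq_of_ne hw, add_zero, zero_mul]
      · simp only [h2, if_false, Pi.single_eq_of_ne hw, zero_mul]
    · intro h2
      exact absurd (Finset.mem_univ _) h2
  have hne : ∀ z w : P × P, z ≠ w → ℓ z * ℓ w = 0 := by
    intro z w hzw
    have h1 := H (Pi.single (z, w) 1) 0
    unfold dot at h1
    rw [Finset.sum_eq_single (z, w)] at h1
    · unfold lin at h1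
      simp only [hzw, if_false, Pi.single_eq_same, one_mul] at h1
      exact h1
    · intro v _ hv
      unfold lin
      by_cases h2 : v.1 = v.2
      · by_cases h3 : c v.1.1 v.1.2 = true
        · simp only [h2, if_true]
          rw [← h2]
          simp only [h3, if_true, add_zero, zero_mul]
        · simp only [h2, if_true]
          rw [← h2]
          simp only [h3, if_false, Bool.false_eq_true, Pi.single_eq_of_ne hv, add_zero, zero_mul]
      · simp only [h2, if_false, Pi.single_eq_of_ne hv, zero_mul]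
    · intro h2
      exact absurd (Finset.mem_univ _) h2
  obtain ⟨z₀, -, hz₀⟩ : ∃ z₀ ∈ (Finset.univ : Finset (P × P)), ℓ z₀ ≠ 0 := by
    apply Finset.exists_ne_zero_of_sum_ne_zero
    rw [hsum]
    exact one_ne_zero
  have h1 : ℓ z₀ = 1 := (T4a_two _).resolve_left hz₀
  refine ⟨z₀, ?_, ?_⟩
  · by_contra h2
    exact hz₀ (hc z₀ (by simpa using h2))
  · intro u
    unfold dot
    rw [Finset.sum_eq_single z₀]
    · rw [h1, mul_one]
    · intro w _ hw
      have h2 := hne z₀ w (Ne.symm hw)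
      rw [h1, one_mul] at h2
      rw [h2, mul_zero]
    · intro h2
      exact absurd (Finset.mem_univ _) h2

end Pool.Agent.Lib.MP_0b8c1e_lc.PC
end

section

set_option autoImplicit false

namespace Pool.Agent.Lib.MP_0b8c1e_lc.PC

open Finset

variable {P : Type*} [Fintype P] [DecidableEq P]

section

variable {Ω : Type*} [Fintype Ω]

private theorem T4b_un3 {p q1 q2 q3 : Ω → Prop} (h : ∀ ω, p ω → q1 ω ∨ q2 ω ∨ q3 ω) :
    pr p ≤ pr q1 + pr q2 + pr q3 := by
  have h1 : pr p ≤ pr (fun ω => q1 ω ∨ (q2 ω ∨ q3 ω)) := pr_mono h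
  have h2 := pr_or_le q1 (fun ω => q2 ω ∨ q3 ω)
  have h3 := pr_or_le q2 q3
  linarith

private theorem T4b_un5 {p q1 q2 q3 q4 q5 : Ω → Prop}
    (h : ∀ ω, p ω → q1 ω ∨ q2 ω ∨ q3 ω ∨ q4 ω ∨ q5 ω) :
    pr p ≤ pr q1 + pr q2 + pr q3 + pr q4 + pr q5 := by
  have h1 : pr p ≤ pr (fun ω => q1 ω ∨ (q2 ω ∨ q3 ω ∨ q4 ω ∨ q5 ω)) := pr_mono h
  have h2 := pr_or_le q1 (fun ω => q2 ω ∨ q3 ω ∨ q4 ω ∨ q5 ω)
  have h3 := pr_or_le q2 (fun ω => q3 ω ∨ q4 ω ∨ q5 ω)
  have h4 := pr_or_le q3 (fun ω => q4 ω ∨ q5 ω)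
  have h5 := pr_or_le q4 q5
  linarith

end

private theorem T4b_dot_add {Z : Type*} [Fintype Z] (ℓ u v : Z → ZMod 2) :
    dot ℓ (u + v) = dot ℓ u + dot ℓ v := by
  unfold dot
  rw [← Finset.sum_add_distrib]
  exact Finset.sum_congr rfl fun z _ => by rw [Pi.add_apply, add_mul]

private theorem T4b_dot_mul {Z : Type*} [Fintype Z] (ℓ a b : Z → ZMod 2) :
    dot (fun z : Z × Z => ℓ z.1 * ℓ z.2) (fun z : Z × Z => a z.1 * b z.2) = dot ℓ a * dot ℓ b := by
  unfold dot
  rw [Finset.sum_mul_sum, Fintype.sum_prod_type]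
  exact Finset.sum_congr rfl fun z _ => Finset.sum_congr rfl fun w _ => by ring

private theorem T4b_assoc {α β γ : Type*} [Fintype α] [Fintype β] [Fintype γ] (p : (α × β) × γ → Prop) :
    pr (fun w : α × β × γ => p ((w.1, w.2.1), w.2.2)) = pr p :=
  pr_equiv (Equiv.prodAssoc α β γ).symm p

/-- part with the third coordinate as a mask -/
private theorem T4b_mask {α β γ : Type*} [Fintype α] [Fintype β] [Fintype γ] [Nonempty α] [Nonempty β]
    [AddCommGroup γ] (f : α → β → γ) (p : γ → Prop) :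
    pr (fun w : α × β × γ => p (f w.1 w.2.1 + w.2.2)) = pr p := by
  rw [T4b_assoc (fun w : (α × β) × γ => p (f w.1.1 w.1.2 + w.2))]
  exact pr_add (fun w : α × β => f w.1 w.2) p

private theorem T4b_third {α β γ : Type*} [Fintype α] [Fintype β] [Fintype γ] [Nonempty α] [Nonempty β]
    (p : γ → Prop) : pr (fun w : α × β × γ => p w.2.2) = pr p := by
  rw [pr_snd (fun w : β × γ => p w.2), pr_snd p]

private theorem T4b_second {α β γ : Type*} [Fintype α] [Fintype β] [Fintype γ] [Nonempty α] [Nonempty γ]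
    (p : β → Prop) : pr (fun w : α × β × γ => p w.2.1) = pr p := by
  rw [pr_snd (fun w : β × γ => p w.1), pr_fst p]

private theorem T4b_pair {α β γ : Type*} [Fintype α] [Fintype β] [Fintype γ] [Nonempty γ]
    (p : α × β → Prop) : pr (fun w : α × β × γ => p (w.1, w.2.1)) = pr p := by
  rw [T4b_assoc (fun w : (α × β) × γ => p w.1)]
  exact pr_fst p

/-- TASK T4b. Soundness of the tester.

Proof. Let `η < 1/40` be the probability of rejection and `Fails` its six parts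
(`fails_of_reject`). `6 η < 1`, so by `blr` there are `ℓ`, `q` with
`pr [F (inl u) ≠ dot ℓ u] ≤ 2 η` and `pr [F (inr U) ≠ dot q U] ≤ 2 η`.
(1) `h5`: with `T = a ⊗ b` and uniform `Z` both `T + Z` (`pr_add`) and `Z` are uniform, `dot` is
additive, so `pr [dot q (a ⊗ b) ≠ dot ℓ a * dot ℓ b] ≤ η + 2 η + 2 η + 2 η + 2 η = 9 η < 1/4` (union
bound). Now `dot q (a ⊗ b) - dot ℓ a * dot ℓ b = dot m (a ⊗ b)` with
`m (z, w) = q (z, w) - ℓ z * ℓ w`, so `m = 0` by `pr_bilin`.
(2) `h6`: `pr [dot q (lin c α α₀) ≠ α₀] ≤ η + 4 η < 1/2`; by `lin_test` there is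
`z₀ = (x, y)` with `c x y` and `dot ℓ u = u z₀`.
(3) `h3`: `pr [A r ≠ dot ℓ (r ∘ fst)] ≤ η + 4 η < 1/8`, and `dot ℓ (r ∘ fst) = r x`; `h4` the same. -/
theorem tester_sound (c : P → P → Bool) (A B : (P → ZMod 2) → ZMod 2) (F : Aux P → ZMod 2)
    (h : pr (fun ρ : Rnd P => accept ρ (answers c ρ A B F) = false) < 1 / 40) :
    ∃ x y, c x y = true ∧ pr (fun r => A r ≠ r x) < 1 / 8 ∧ pr (fun r => B r ≠ r y) < 1 / 8 := by
  have hF := fails_of_reject c A B F
  revert hF
  generalize pr (fun ρ : Rnd P => accept ρ (answers c ρ A B F) = false) = η at h ⊢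
  intro hF
  obtain ⟨h1, h2, h3, h4, h5, h6⟩ := hF
  obtain ⟨ℓ, hℓ0⟩ := blr (fun u : P × P → ZMod 2 => F (.inl u)) (lt_of_le_of_lt (mul_le_mul_of_nonneg_left h1 (by norm_num)) (by linarith))
  obtain ⟨q, hq0⟩ := blr (fun u : (P × P) × (P × P) → ZMod 2 => F (.inr u)) (lt_of_le_of_lt (mul_le_mul_of_nonneg_left h2 (by norm_num)) (by linarith))
  have hℓ : pr (fun u : P × P → ZMod 2 => F (.inl u) ≠ dot ℓ u) ≤ 2 * η := by
    exact le_trans hℓ0 (mul_le_mul_of_nonneg_left h1 (by norm_num))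
  have hq : pr (fun u : (P × P) × (P × P) → ZMod 2 => F (.inr u) ≠ dot q u) ≤ 2 * η := by
    exact le_trans hq0 (mul_le_mul_of_nonneg_left h2 (by norm_num))
  clear hℓ0 hq0 h1 h2
  -- step 1
  have s1 : pr (fun w : (P × P → ZMod 2) × (P × P → ZMod 2) =>
      dot q (fun z : (P × P) × (P × P) => w.1 z.1 * w.2 z.2) ≠ dot ℓ w.1 * dot ℓ w.2) ≤ 9 * η := by
    rw [← T4b_pair (γ := ((P × P) × (P × P) → ZMod 2))]
    refine le_trans (T4b_un5 (q1 := fun w : (P × P → ZMod 2) × (P × P → ZMod 2) × ((P × P) × (P × P) → ZMod 2) =>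
        F (.inr ((fun z => w.1 z.1 * w.2.1 z.2) + w.2.2)) - F (.inr w.2.2) ≠ F (.inl w.1) * F (.inl w.2.1))
      (q2 := fun w => F (.inl w.1) ≠ dot ℓ w.1)
      (q3 := fun w => F (.inl w.2.1) ≠ dot ℓ w.2.1)
      (q4 := fun w => F (.inr w.2.2) ≠ dot q w.2.2)
      (q5 := fun w => F (.inr ((fun z => w.1 z.1 * w.2.1 z.2) + w.2.2)) ≠
        dot q ((fun z => w.1 z.1 * w.2.1 z.2) + w.2.2)) ?_) ?_
    · intro w hw
      by_contra hcon
      push Not at hcon
      obtain ⟨e1, e2, e3, e4, e5⟩ := hcon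
      apply hw
      rw [e2, e3, e4, e5, T4b_dot_add, add_sub_cancel_right] at e1
      exact e1
    · have e2 : pr (fun w : (P × P → ZMod 2) × (P × P → ZMod 2) × ((P × P) × (P × P) → ZMod 2) =>
          F (.inl w.1) ≠ dot ℓ w.1) ≤ 2 * η := by
        rw [pr_fst (fun u : P × P → ZMod 2 => F (.inl u) ≠ dot ℓ u)]; exact hℓ
      have e3 : pr (fun w : (P × P → ZMod 2) × (P × P → ZMod 2) × ((P × P) × (P × P) → ZMod 2) =>
          F (.inl w.2.1) ≠ dot ℓ w.2.1) ≤ 2 * η := by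
        rw [T4b_second (fun u : P × P → ZMod 2 => F (.inl u) ≠ dot ℓ u)]; exact hℓ
      have e4 : pr (fun w : (P × P → ZMod 2) × (P × P → ZMod 2) × ((P × P) × (P × P) → ZMod 2) =>
          F (.inr w.2.2) ≠ dot q w.2.2) ≤ 2 * η := by
        rw [T4b_third (fun u : (P × P) × (P × P) → ZMod 2 => F (.inr u) ≠ dot q u)]; exact hq
      have e5 : pr (fun w : (P × P → ZMod 2) × (P × P → ZMod 2) × ((P × P) × (P × P) → ZMod 2) =>
          F (.inr ((fun z => w.1 z.1 * w.2.1 z.2) + w.2.2)) ≠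
            dot q ((fun z => w.1 z.1 * w.2.1 z.2) + w.2.2)) ≤ 2 * η := by
        rw [T4b_mask (fun (a b : P × P → ZMod 2) => (fun z : (P × P) × (P × P) => a z.1 * b z.2))
          (fun u : (P × P) × (P × P) → ZMod 2 => F (.inr u) ≠ dot q u)]
        exact hq
      linarith
  have hqm : q = fun z : (P × P) × (P × P) => ℓ z.1 * ℓ z.2 := by
    by_contra hne
    have hm : (fun z : (P × P) × (P × P) => q z - ℓ z.1 * ℓ z.2) ≠ 0 := by
      intro h0
      apply hne
      funext z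
      have := congrFun h0 z
      simpa [sub_eq_zero] using this
    have hb := pr_bilin hm
    have he : pr (fun w : (P × P → ZMod 2) × (P × P → ZMod 2) =>
        dot (fun z : (P × P) × (P × P) => q z - ℓ z.1 * ℓ z.2)
          (fun z : (P × P) × (P × P) => w.1 z.1 * w.2 z.2) ≠ 0) ≤
        pr (fun w : (P × P → ZMod 2) × (P × P → ZMod 2) =>
          dot q (fun z : (P × P) × (P × P) => w.1 z.1 * w.2 z.2) ≠ dot ℓ w.1 * dot ℓ w.2) := by
      apply pr_mono
      intro w hw h0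
      apply hw
      rw [← T4b_dot_mul] at h0
      unfold dot at h0 ⊢
      simp only [mul_sub, Finset.sum_sub_distrib]
      rw [h0, sub_self]
    linarith
  -- step 2
  have s2 : pr (fun w : ((P × P) × (P × P) → ZMod 2) × ZMod 2 =>
      dot (fun z : (P × P) × (P × P) => ℓ z.1 * ℓ z.2) (lin c w.1 w.2) ≠ w.2) < 1 / 2 := by
    rw [← hqm, ← T4b_pair (γ := ((P × P) × (P × P) → ZMod 2))]
    refine lt_of_le_of_lt (T4b_un3
      (q1 := fun w : ((P × P) × (P × P) → ZMod 2) × ZMod 2 × ((P × P) × (P × P) → ZMod 2) =>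
        F (.inr (lin c w.1 w.2.1 + w.2.2)) - F (.inr w.2.2) ≠ w.2.1)
      (q2 := fun w => F (.inr w.2.2) ≠ dot q w.2.2)
      (q3 := fun w => F (.inr (lin c w.1 w.2.1 + w.2.2)) ≠ dot q (lin c w.1 w.2.1 + w.2.2)) ?_) ?_
    · intro w hw
      by_contra hcon
      push Not at hcon
      obtain ⟨e1, e2, e3⟩ := hcon
      apply hw
      rw [e2, e3, T4b_dot_add, add_sub_cancel_right] at e1
      exact e1
    · have e2 : pr (fun w : ((P × P) × (P × P) → ZMod 2) × ZMod 2 × ((P × P) × (P × P) → ZMod 2) =>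
          F (.inr w.2.2) ≠ dot q w.2.2) ≤ 2 * η := by
        rw [T4b_third (fun u : (P × P) × (P × P) → ZMod 2 => F (.inr u) ≠ dot q u)]; exact hq
      have e3 : pr (fun w : ((P × P) × (P × P) → ZMod 2) × ZMod 2 × ((P × P) × (P × P) → ZMod 2) =>
          F (.inr (lin c w.1 w.2.1 + w.2.2)) ≠ dot q (lin c w.1 w.2.1 + w.2.2)) ≤ 2 * η := by
        rw [T4b_mask (fun (a : (P × P) × (P × P) → ZMod 2) (b : ZMod 2) => lin c a b)
          (fun u : (P × P) × (P × P) → ZMod 2 => F (.inr u) ≠ dot q u)]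
        exact hq
      linarith
  obtain ⟨z₀, hz, hdot⟩ := lin_test c ℓ s2
  refine ⟨z₀.1, z₀.2, hz, ?_, ?_⟩
  · rw [← pr_fst (Ω' := (P × P → ZMod 2))]
    refine lt_of_le_of_lt (T4b_un3
      (q1 := fun w : (P → ZMod 2) × (P × P → ZMod 2) =>
        A w.1 ≠ F (.inl ((fun z => w.1 z.1) + w.2)) - F (.inl w.2))
      (q2 := fun w => F (.inl w.2) ≠ dot ℓ w.2)
      (q3 := fun w => F (.inl ((fun z => w.1 z.1) + w.2)) ≠ dot ℓ ((fun z => w.1 z.1) + w.2)) ?_) ?_
    · intro w hw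
      by_contra hcon
      push Not at hcon
      obtain ⟨e1, e2, e3⟩ := hcon
      apply hw
      rw [e2, e3, T4b_dot_add, add_sub_cancel_right, hdot] at e1
      exact e1
    · have e2 : pr (fun w : (P → ZMod 2) × (P × P → ZMod 2) => F (.inl w.2) ≠ dot ℓ w.2) ≤ 2 * η := by
        rw [pr_snd (fun u : P × P → ZMod 2 => F (.inl u) ≠ dot ℓ u)]; exact hℓ
      have e3 : pr (fun w : (P → ZMod 2) × (P × P → ZMod 2) =>
          F (.inl ((fun z => w.1 z.1) + w.2)) ≠ dot ℓ ((fun z => w.1 z.1) + w.2)) ≤ 2 * η := by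
        rw [pr_add (fun r : P → ZMod 2 => (fun z : P × P => r z.1))
          (fun u : P × P → ZMod 2 => F (.inl u) ≠ dot ℓ u)]
        exact hℓ
      linarith
  · rw [← pr_fst (Ω' := (P × P → ZMod 2))]
    refine lt_of_le_of_lt (T4b_un3
      (q1 := fun w : (P → ZMod 2) × (P × P → ZMod 2) =>
        B w.1 ≠ F (.inl ((fun z => w.1 z.2) + w.2)) - F (.inl w.2))
      (q2 := fun w => F (.inl w.2) ≠ dot ℓ w.2)
      (q3 := fun w => F (.inl ((fun z => w.1 z.2) + w.2)) ≠ dot ℓ ((fun z => w.1 z.2) + w.2)) ?_) ?_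
    · intro w hw
      by_contra hcon
      push Not at hcon
      obtain ⟨e1, e2, e3⟩ := hcon
      apply hw
      rw [e2, e3, T4b_dot_add, add_sub_cancel_right, hdot] at e1
      exact e1
    · have e2 : pr (fun w : (P → ZMod 2) × (P × P → ZMod 2) => F (.inl w.2) ≠ dot ℓ w.2) ≤ 2 * η := by
        rw [pr_snd (fun u : P × P → ZMod 2 => F (.inl u) ≠ dot ℓ u)]; exact hℓ
      have e3 : pr (fun w : (P → ZMod 2) × (P × P → ZMod 2) =>
          F (.inl ((fun z => w.1 z.2) + w.2)) ≠ dot ℓ ((fun z => w.1 z.2) + w.2)) ≤ 2 * η := by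
        rw [pr_add (fun r : P → ZMod 2 => (fun z : P × P => r z.2))
          (fun u : P × P → ZMod 2 => F (.inl u) ≠ dot ℓ u)]
        exact hℓ
      linarith

end Pool.Agent.Lib.MP_0b8c1e_lc.PC
end
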