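import Pool.Agent.Lib.MP_0b8c1e_lc.Mg.G001
import Pool.Agent.Lib.MP_0b8c1e_lc.Mg.G007

section

set_option autoImplicit false

namespace Pool.Agent.Lib.MP_0b8c1e_lc.PC

open Finset

variable {N : ℕ} [NeZero N]

omit [NeZero N] in
/-- TASK X2a. Proof. `Lt z w` and `Lt w z` exclude each other. -/
theorem gam_mul (z w : ZMod N × ZMod N) : gam z w * gam w z = 1 := by
  unfold gam
  by_cases h1 : Lt w z
  · have h2 : ¬ Lt z w := by
      rintro ⟨h3, h4, h5⟩
      obtain ⟨h6, h7, h8⟩ := h1
      omega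
    rw [if_pos h1, if_neg h2, if_pos h1]
    norm_num
  · by_cases h2 : Lt z w
    · rw [if_neg h1, if_pos h2, if_pos h2]
      norm_num
    · rw [if_neg h1, if_neg h2, if_neg h2, if_neg h1]
      norm_num

omit [NeZero N] in
theorem gam_pos (z w : ZMod N × ZMod N) : 0 < gam z w := by
  unfold gam
  split_ifs <;> norm_num

omit [NeZero N] in
theorem gam_le (z w : ZMod N × ZMod N) : gam z w ≤ 5 / 4 := by
  unfold gam
  split_ifs <;> norm_num

/-- The absolute value of the class of an integer. -/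
private theorem ab_int (t : ℤ) (ht : t.natAbs ≤ N) :
    ab ((t : ℤ) : ZMod N) = min t.natAbs (N - t.natAbs) := by
  unfold ab
  set m : ℤ := ((t : ℤ) : ZMod N).valMinAbs with hm
  have h1 : m * 2 ∈ Set.Ioc (-(N : ℤ)) N := ZMod.valMinAbs_mem_Ioc _
  have h2 : ((m : ℤ) : ZMod N) = ((t : ℤ) : ZMod N) := ZMod.coe_valMinAbs _
  have h3 : (N : ℤ) ∣ t - m := (ZMod.intCast_eq_intCast_iff_dvd_sub m t N).mp h2
  obtain ⟨k, hk⟩ := h3
  obtain ⟨h4, h5⟩ := h1
  have hN : 0 < (N : ℤ) := by
    have := NeZero.pos N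
    exact_mod_cast this
  have hk1 : k < 2 := by
    by_contra h
    push Not at h
    have : (N : ℤ) * 2 ≤ N * k := mul_le_mul_of_nonneg_left h hN.le
    omega
  have hk2 : -2 < k := by
    by_contra h
    push Not at h
    have : (N : ℤ) * k ≤ N * (-2) := mul_le_mul_of_nonneg_left h hN.le
    omega
  have hk3 : k = -1 ∨ k = 0 ∨ k = 1 := by omega
  rcases hk3 with rfl | rfl | rfl <;> omega

/-- The comparison of one coordinate. -/
private noncomputable def GG (m n : ℕ) : ℝ := if n < m then 5 / 4 else if m < n then 4 / 5 else 1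

private theorem GG_lt {m n : ℕ} (h : m < n) : GG m n = 4 / 5 := by
  unfold GG
  rw [if_neg (by omega), if_pos h]

private theorem GG_eq {m n : ℕ} (h : m = n) : GG m n = 1 := by
  unfold GG
  rw [if_neg (by omega), if_neg (by omega)]

private theorem GG_le (m n : ℕ) : GG m n ≤ 5 / 4 := by
  unfold GG
  split_ifs <;> norm_num

omit [NeZero N] in
private theorem gam_snd (a b c : ZMod N) : gam (a, b) (a, c) = GG (ab b) (ab c) := by
  have h1 : Lt (a, c) (a, b) ↔ ab c < ab b := by
    unfold Lt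
    simp only
    omega
  have h2 : Lt (a, b) (a, c) ↔ ab b < ab c := by
    unfold Lt
    simp only
    omega
  unfold gam GG
  simp only [h1, h2]

omit [NeZero N] in
private theorem gam_fst (a b c : ZMod N) : gam (a, b) (c, b) = GG (ab a) (ab c) := by
  have h1 : Lt (c, b) (a, b) ↔ ab c < ab a := by
    unfold Lt
    simp only
    omega
  have h2 : Lt (a, b) (c, b) ↔ ab a < ab c := by
    unfold Lt
    simp only
    omega
  unfold gam GG
  simp only [h1, h2]

private theorem f_lt {m t n : ℕ} (h1 : m < t) (h2 : t + m < n) : m < min t (n - t) :=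
  lt_min h1 (by omega)

private theorem f_eq {m t n : ℕ} (h1 : m = t) (h2 : 2 * m ≤ n) : m = min t (n - t) := by
  subst h1
  exact (min_eq_left (by omega)).symm

private theorem na_ge (α β : ℤ) : 2 * α.natAbs ≤ (β - 2 * α).natAbs + β.natAbs := by omega

private theorem na_ge' (α β : ℤ) : 2 * α.natAbs ≤ (β + 2 * α).natAbs + β.natAbs := by omega

private theorem na_le (α β : ℤ) : (β - 2 * α).natAbs ≤ β.natAbs + 2 * α.natAbs := by omega

private theorem na_le' (α β : ℤ) : (β + 2 * α).natAbs ≤ β.natAbs + 2 * α.natAbs := by omega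

private theorem na_one (α β : ℤ) : (β - 2 * α).natAbs = β.natAbs + 2 * α.natAbs ∨
    (β + 2 * α).natAbs = β.natAbs + 2 * α.natAbs := by omega

/-- The inequality in terms of the representatives. -/
private theorem sum_int (α β : ℤ) (n : ℕ) (h0 : ¬ (α = 0 ∧ β = 0))
    (h : 2 * (α.natAbs + β.natAbs) < n) :
    GG β.natAbs (min (β - 2 * α).natAbs (n - (β - 2 * α).natAbs)) +
      GG β.natAbs (min (β + 2 * α).natAbs (n - (β + 2 * α).natAbs)) +
      GG α.natAbs (min (α - 2 * β).natAbs (n - (α - 2 * β).natAbs)) +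
      GG α.natAbs (min (α + 2 * β).natAbs (n - (α + 2 * β).natAbs)) ≤ 3.65 := by
  have a1 := na_ge α β
  have a2 := na_ge' α β
  have a3 := na_le α β
  have a4 := na_le' α β
  have b1 := na_ge β α
  have b2 := na_ge' β α
  have b3 := na_le β α
  have b4 := na_le' β α
  have c1 := na_one α β
  have c2 := na_one β α
  have g1 := GG_le β.natAbs (min (β - 2 * α).natAbs (n - (β - 2 * α).natAbs))
  have g2 := GG_le β.natAbs (min (β + 2 * α).natAbs (n - (β + 2 * α).natAbs))
  have g3 := GG_le α.natAbs (min (α - 2 * β).natAbs (n - (α - 2 * β).natAbs))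
  have g4 := GG_le α.natAbs (min (α + 2 * β).natAbs (n - (α + 2 * β).natAbs))
  by_cases hβ : β = 0
  · subst hβ
    have hα : α.natAbs ≠ 0 := by
      intro h1
      exact h0 ⟨Int.natAbs_eq_zero.mp h1, rfl⟩
    rw [Int.natAbs_zero] at *
    have e1 : 0 < (0 - 2 * α).natAbs := by omega
    have e2 : 0 < (0 + 2 * α).natAbs := by omega
    have e3 : α.natAbs = (α - 2 * 0).natAbs := by rw [mul_zero, sub_zero]
    have e4 : α.natAbs = (α + 2 * 0).natAbs := by rw [mul_zero, add_zero]
    rw [GG_lt (f_lt e1 (by omega)), GG_lt (f_lt e2 (by omega)), GG_eq (f_eq e3 (by omega)),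
      GG_eq (f_eq e4 (by omega))]
    norm_num
  by_cases hα : α = 0
  · subst hα
    have hβ' : β.natAbs ≠ 0 := by
      intro h1
      exact hβ (Int.natAbs_eq_zero.mp h1)
    rw [Int.natAbs_zero] at *
    have e1 : β.natAbs = (β - 2 * 0).natAbs := by rw [mul_zero, sub_zero]
    have e2 : β.natAbs = (β + 2 * 0).natAbs := by rw [mul_zero, add_zero]
    have e3 : 0 < (0 - 2 * β).natAbs := by omega
    have e4 : 0 < (0 + 2 * β).natAbs := by omega
    rw [GG_eq (f_eq e1 (by omega)), GG_eq (f_eq e2 (by omega)), GG_lt (f_lt e3 (by omega)),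
      GG_lt (f_lt e4 (by omega))]
    norm_num
  have hα' : 0 < α.natAbs := Int.natAbs_pos.mpr hα
  have hβ' : 0 < β.natAbs := Int.natAbs_pos.mpr hβ
  rcases lt_trichotomy α.natAbs β.natAbs with hlt | heq | hgt
  · have e3 := GG_lt (f_lt (n := n) (show α.natAbs < (α - 2 * β).natAbs by omega) (by omega))
    have e4 := GG_lt (f_lt (n := n) (show α.natAbs < (α + 2 * β).natAbs by omega) (by omega))
    rcases c1 with c1 | c1
    · have e1 := GG_lt (f_lt (n := n) (show β.natAbs < (β - 2 * α).natAbs by omega) (by omega))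
      norm_num
      linarith
    · have e2 := GG_lt (f_lt (n := n) (show β.natAbs < (β + 2 * α).natAbs by omega) (by omega))
      norm_num
      linarith
  · rcases Int.natAbs_eq_natAbs_iff.mp heq with h1 | h1
    · subst h1
      have t1 : (α - 2 * α).natAbs = α.natAbs := by
        rw [show α - 2 * α = -α by ring, Int.natAbs_neg]
      have t2 : (α + 2 * α).natAbs = 3 * α.natAbs := by
        rw [show α + 2 * α = 3 * α by ring, Int.natAbs_mul]
        rfl
      have e1 := GG_eq (f_eq (n := n) t1.symm (by omega))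
      have e2 := GG_lt (f_lt (n := n) (show α.natAbs < (α + 2 * α).natAbs by omega) (by omega))
      norm_num
      linarith
    · have h2 : β = -α := by rw [h1, neg_neg]
      subst h2
      have t1 : (-α - 2 * α).natAbs = 3 * α.natAbs := by
        rw [show -α - 2 * α = -(3 * α) by ring, Int.natAbs_neg, Int.natAbs_mul]
        rfl
      have t2 : (-α + 2 * α).natAbs = α.natAbs := by
        rw [show -α + 2 * α = α by ring]
      have t3 : (α - 2 * -α).natAbs = 3 * α.natAbs := by
        rw [show α - 2 * -α = 3 * α by ring, Int.natAbs_mul]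
        rfl
      have t4 : (α + 2 * -α).natAbs = α.natAbs := by
        rw [show α + 2 * -α = -α by ring, Int.natAbs_neg]
      rw [Int.natAbs_neg] at *
      have e1 := GG_lt (f_lt (n := n) (show α.natAbs < (-α - 2 * α).natAbs by omega) (by omega))
      have e2 := GG_eq (f_eq (n := n) t2.symm (by omega))
      have e3 := GG_lt (f_lt (n := n) (show α.natAbs < (α - 2 * -α).natAbs by omega) (by omega))
      have e4 := GG_eq (f_eq (n := n) t4.symm (by omega))
      rw [e1, e2, e3, e4]
      norm_num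
  · have e1 := GG_lt (f_lt (n := n) (show β.natAbs < (β - 2 * α).natAbs by omega) (by omega))
    have e2 := GG_lt (f_lt (n := n) (show β.natAbs < (β + 2 * α).natAbs by omega) (by omega))
    rcases c2 with c2 | c2
    · have e3 := GG_lt (f_lt (n := n) (show α.natAbs < (α - 2 * β).natAbs by omega) (by omega))
      norm_num
      linarith
    · have e4 := GG_lt (f_lt (n := n) (show α.natAbs < (α + 2 * β).natAbs by omega) (by omega))
      norm_num
      linarith

/-- TASK X2b. The sum of the weights of the four neighbours of `(a, b) ≠ (0, 0)` if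
`ab a + ab b < N / 2`.

Proof. Let `α, β` be the integers `a.valMinAbs`, `b.valMinAbs`, so `2 |α| + 2 |β| < N`. For an
integer `t` the number `ab (t : ZMod N)` is `|t|` if `2 |t| ≤ N` (`ZMod.valMinAbs_spec` or
`ZMod.natAbs_valMinAbs_le` ..., uniqueness of the representative: `(ZMod.valMinAbs_spec x y)`),
and `N - |t|` if `N ≤ 2 |t| ≤ 2 N`. So for an integer `t` with `|t| ≤ 2 |α| + |β|` and `|t| > |β|`
we get `ab t > |β|` (in the second case `N - |t| ≥ N - 2 |α| - |β| > |β|`).
* `|α| > |β| > 0`: `b - 2 a` and `b + 2 a`: the integers `β ∓ 2 α` have absolute value between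
  `2 |α| - |β| > |β|` and `2 |α| + |β|`, so both neighbours `(a, b ∓ 2 a)` are larger than `(a, b)`;
  the integers `α ∓ 2 β` have the absolute values `|α| + 2 |β|` (that neighbour is larger, same
  argument with the roles exchanged) and `||α| - 2 |β|| < |α|` (that neighbour is smaller). The sum
  is `3 * 4/5 + 5/4 = 3.65`.
* `|β| > |α| > 0`: the same with the coordinates exchanged.
* `|α| = |β| > 0`: for each coordinate one neighbour is larger (absolute value `3 |α|`, which is
  between `|α|` and `2 |α| + |β|`), the other one has the same absolute values: `2 * 4/5 + 2 = 3.6`.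
* `β = 0`, `α ≠ 0`: the neighbours `(a ∓ 2 b, b)` are `(a, b)`: weight 1 each; the neighbours
  `(a, ∓ 2 a)` are larger, as `2 a ≠ 0` in `ZMod N` (`0 < 2 |α| < N`). The case `α = 0` is symmetric.
It may help to prove the first statement with `ab` replaced by integers and `omega`. -/
theorem gam_sum {a b : ZMod N} (hz : (a, b) ≠ (0, 0)) (h : 2 * (ab a + ab b) < N) :
    gam (a, b) (a, b - 2 * a) + gam (a, b) (a, b + 2 * a) + gam (a, b) (a - 2 * b, b) +
      gam (a, b) (a + 2 * b, b) ≤ 3.65 := by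
  rw [gam_snd, gam_snd, gam_fst, gam_fst]
  have ha : ((a.valMinAbs : ℤ) : ZMod N) = a := ZMod.coe_valMinAbs a
  have hb : ((b.valMinAbs : ℤ) : ZMod N) = b := ZMod.coe_valMinAbs b
  have e1 : b - 2 * a = ((b.valMinAbs - 2 * a.valMinAbs : ℤ) : ZMod N) := by
    push_cast
    rfl
  have e2 : b + 2 * a = ((b.valMinAbs + 2 * a.valMinAbs : ℤ) : ZMod N) := by
    push_cast
    rfl
  have e3 : a - 2 * b = ((a.valMinAbs - 2 * b.valMinAbs : ℤ) : ZMod N) := by
    push_cast
    rfl
  have e4 : a + 2 * b = ((a.valMinAbs + 2 * b.valMinAbs : ℤ) : ZMod N) := by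
    push_cast
    rfl
  have hA : ab a = a.valMinAbs.natAbs := rfl
  have hB : ab b = b.valMinAbs.natAbs := rfl
  rw [hA, hB] at h
  rw [e1, e2, e3, e4, ab_int _ (by omega), ab_int _ (by omega), ab_int _ (by omega),
    ab_int _ (by omega), hA, hB]
  refine sum_int a.valMinAbs b.valMinAbs N ?_ h
  rintro ⟨h1, h2⟩
  apply hz
  rw [← ha, ← hb, h1, h2]
  simp

end Pool.Agent.Lib.MP_0b8c1e_lc.PC
end

section

set_option autoImplicit false

namespace Pool.Agent.Lib.MP_0b8c1e_lc.PC

open Finset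

variable {N : ℕ} [NeZero N]

omit [NeZero N] in
private theorem X3b_cs_nonneg (a : ZMod N) : 0 ≤ cs a := abs_nonneg _

omit [NeZero N] in
private theorem X3b_cs_le (a : ZMod N) : cs a ≤ 1 := Real.abs_cos_le_one _

private theorem X3b_amgm {g g' x y : ℝ} (hg : 0 < g) (h : g * g' = 1) :
    2 * x * y ≤ g * x ^ 2 + g' * y ^ 2 := by
  have h1 : 0 ≤ (g * x - y) ^ 2 := sq_nonneg _
  have h2 : g * (g * x ^ 2 + g' * y ^ 2 - 2 * x * y) = (g * x - y) ^ 2 := by
    have h3 : g * (g' * y ^ 2) = y ^ 2 := by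
      rw [← mul_assoc, h, one_mul]
    ring_nf
    ring_nf at h3
    linarith
  have h4 : 0 ≤ g * (g * x ^ 2 + g' * y ^ 2 - 2 * x * y) := by
    rw [h2]
    exact h1
  have h5 := nonneg_of_mul_nonneg_right h4 hg
  linarith

private def X3b_S : (ZMod N × ZMod N) ≃ (ZMod N × ZMod N) where
  toFun z := (z.1, z.2 - 2 * z.1)
  invFun z := (z.1, z.2 + 2 * z.1)
  left_inv z := by
    ext
    · rfl
    · simp
  right_inv z := by
    ext
    · rfl
    · simp

private def X3b_T : (ZMod N × ZMod N) ≃ (ZMod N × ZMod N) where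
  toFun z := (z.1 - 2 * z.2, z.2)
  invFun z := (z.1 + 2 * z.2, z.2)
  left_inv z := by
    ext
    · simp
    · rfl
  right_inv z := by
    ext
    · simp
    · rfl

private theorem X3b_part (G : ZMod N × ZMod N → ℝ) (E : (ZMod N × ZMod N) ≃ (ZMod N × ZMod N))
    (c : ZMod N × ZMod N → ℝ) (hc : ∀ z, 0 ≤ c z) (hcE : ∀ z, c (E z) = c z) :
    ∑ z : ZMod N × ZMod N, 2 * c z * G z * G (E z) ≤
      ∑ z : ZMod N × ZMod N, G z ^ 2 * (c z * (gam z (E z) + gam z (E.symm z))) := by
  have h1 : ∀ z, 2 * c z * G z * G (E z) ≤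
      c z * (gam z (E z) * G z ^ 2) + c (E z) * (gam (E z) (E.symm (E z)) * G (E z) ^ 2) := by
    intro z
    rw [hcE, E.symm_apply_apply]
    have h2 := X3b_amgm (x := G z) (y := G (E z)) (gam_pos z (E z)) (gam_mul z (E z))
    have h3 := mul_le_mul_of_nonneg_left h2 (hc z)
    nlinarith
  refine (Finset.sum_le_sum fun z _ => h1 z).trans (le_of_eq ?_)
  rw [Finset.sum_add_distrib,
    Equiv.sum_comp E (fun z => c z * (gam z (E.symm z) * G z ^ 2)), ← Finset.sum_add_distrib]
  refine Finset.sum_congr rfl fun z _ => ?_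
  ring

private theorem X3b_K (a b : ZMod N) (hz : (a, b) ≠ (0, 0)) :
    cs a * (gam (a, b) (a, b - 2 * a) + gam (a, b) (a, b + 2 * a)) +
      cs b * (gam (a, b) (a - 2 * b, b) + gam (a, b) (a + 2 * b, b)) ≤ 3.65 := by
  have p1 := gam_pos (a, b) (a, b - 2 * a)
  have p2 := gam_pos (a, b) (a, b + 2 * a)
  have p3 := gam_pos (a, b) (a - 2 * b, b)
  have p4 := gam_pos (a, b) (a + 2 * b, b)
  have q1 := gam_le (a, b) (a, b - 2 * a)
  have q2 := gam_le (a, b) (a, b + 2 * a)
  have q3 := gam_le (a, b) (a - 2 * b, b)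
  have q4 := gam_le (a, b) (a + 2 * b, b)
  have ca := X3b_cs_nonneg a
  have cb := X3b_cs_nonneg b
  have ca1 := X3b_cs_le a
  have cb1 := X3b_cs_le b
  by_cases h : 2 * (ab a + ab b) < N
  · have h1 := gam_sum hz h
    have h2 : cs a * (gam (a, b) (a, b - 2 * a) + gam (a, b) (a, b + 2 * a)) ≤
        1 * (gam (a, b) (a, b - 2 * a) + gam (a, b) (a, b + 2 * a)) :=
      mul_le_mul_of_nonneg_right ca1 (by linarith)
    have h3 : cs b * (gam (a, b) (a - 2 * b, b) + gam (a, b) (a + 2 * b, b)) ≤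
        1 * (gam (a, b) (a - 2 * b, b) + gam (a, b) (a + 2 * b, b)) :=
      mul_le_mul_of_nonneg_right cb1 (by linarith)
    linarith
  · have h1 := cs_add_le (a := a) (b := b) (not_lt.1 h)
    have h2 : cs a * (gam (a, b) (a, b - 2 * a) + gam (a, b) (a, b + 2 * a)) ≤ cs a * (5 / 2) :=
      mul_le_mul_of_nonneg_left (by linarith) ca
    have h3 : cs b * (gam (a, b) (a - 2 * b, b) + gam (a, b) (a + 2 * b, b)) ≤ cs b * (5 / 2) :=
      mul_le_mul_of_nonneg_left (by linarith) cb
    have h4 : Real.sqrt 2 ≤ 1.46 := by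
      rw [Real.sqrt_le_left (by norm_num)]
      norm_num
    norm_num at h4 ⊢
    linarith

/-- TASK X3b. For every nonnegative function `G` with `G 0 = 0`.

Proof. For all `z, w`: `2 G z G w ≤ gam z w * G z ^ 2 + gam w z * G w ^ 2` (as
`gam z w * gam w z = 1`, both positive). So with `S (a, b) = (a, b - 2 a)` (a bijection, its
inverse is `(a, b) ↦ (a, b + 2 a)`, and `cs` of the first coordinate does not change)
`∑_z 2 cs z.1 G z G (S z) ≤ ∑_z cs z.1 (gam z (S z) G z ^ 2 + gam (S z) z G (S z) ^ 2)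
= ∑_z cs z.1 G z ^ 2 (gam z (S z) + gam z (S⁻¹ z))` by the substitution `z = S⁻¹ z'` in the second
sum. The same for `T (a, b) = (a - 2 b, b)` and the second coordinate. So the left side is at most
`∑_z G z ^ 2 * K z` with `K z = cs a (gam z (S z) + gam z (S⁻¹ z)) + cs b (gam z (T z) + gam z (T⁻¹ z))`,
and `K z ≤ 3.65` for `z ≠ 0`: if `ab a + ab b < N / 2` then `cs ≤ 1` and `gam_sum`; otherwise
`gam ≤ 5/4` and `cs a + cs b ≤ √2 ≤ 1.42`, so `K z ≤ 2.5 * 1.42 = 3.55`. For `z = 0` the summand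
is `0`. -/
theorem gam_ineq (G : ZMod N × ZMod N → ℝ) (h0 : ∀ z, 0 ≤ G z) (hG : G (0, 0) = 0) :
    ∑ z : ZMod N × ZMod N, (2 * cs z.1 * G z * G (z.1, z.2 - 2 * z.1) +
      2 * cs z.2 * G z * G (z.1 - 2 * z.2, z.2)) ≤ 3.65 * ∑ z, G z ^ 2 := by
  have hS := X3b_part G X3b_S (fun z => cs z.1) (fun z => X3b_cs_nonneg z.1) (fun _ => rfl)
  have hT := X3b_part G X3b_T (fun z => cs z.2) (fun z => X3b_cs_nonneg z.2) (fun _ => rfl)
  rw [Finset.sum_add_distrib]
  have h1 : ∑ z : ZMod N × ZMod N, 2 * cs z.1 * G z * G (z.1, z.2 - 2 * z.1) =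
      ∑ z : ZMod N × ZMod N, 2 * cs z.1 * G z * G (X3b_S z) := rfl
  have h2 : ∑ z : ZMod N × ZMod N, 2 * cs z.2 * G z * G (z.1 - 2 * z.2, z.2) =
      ∑ z : ZMod N × ZMod N, 2 * cs z.2 * G z * G (X3b_T z) := rfl
  rw [h1, h2]
  refine (add_le_add hS hT).trans ?_
  rw [← Finset.sum_add_distrib, Finset.mul_sum]
  refine Finset.sum_le_sum fun z _ => ?_
  obtain ⟨a, b⟩ := z
  by_cases hz : (a, b) = ((0, 0) : ZMod N × ZMod N)
  · rw [hz, hG]
    norm_num
  · have h3 := mul_le_mul_of_nonneg_left (X3b_K a b hz) (sq_nonneg (G (a, b)))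
    have e1 : (X3b_S : (ZMod N × ZMod N) ≃ _) (a, b) = (a, b - 2 * a) := rfl
    have e2 : (X3b_S : (ZMod N × ZMod N) ≃ _).symm (a, b) = (a, b + 2 * a) := rfl
    have e3 : (X3b_T : (ZMod N × ZMod N) ≃ _) (a, b) = (a - 2 * b, b) := rfl
    have e4 : (X3b_T : (ZMod N × ZMod N) ≃ _).symm (a, b) = (a + 2 * b, b) := rfl
    rw [e1, e2, e3, e4]
    refine (le_of_eq ?_).trans (h3.trans (le_of_eq ?_))
    · ring
    · ring

end Pool.Agent.Lib.MP_0b8c1e_lc.PC
end

section

set_option autoImplicit false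

namespace Pool.Agent.Lib.MP_0b8c1e_lc.PC

open Finset

variable {N : ℕ} [NeZero N]

/-- TASK X4a. Proof. `fin_cases k`; `bk k = k + 4` modulo 8; `ring_nf` in each case. -/
theorem mgg_inv (v : ZMod N × ZMod N) (k : Fin 8) : mgg (mgg v k) (bk k) = v := by
  obtain ⟨x, y⟩ := v
  fin_cases k
  · change ((x + 2 * y) - 2 * y, y) = (x, y)
    exact Prod.ext (by ring) rfl
  · change ((x + 2 * y + 1) - 2 * y - 1, y) = (x, y)
    exact Prod.ext (by ring) rfl
  · change (x, (y + 2 * x) - 2 * x) = (x, y)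
    exact Prod.ext rfl (by ring)
  · change (x, (y + 2 * x + 1) - 2 * x - 1) = (x, y)
    exact Prod.ext rfl (by ring)
  · change ((x - 2 * y) + 2 * y, y) = (x, y)
    exact Prod.ext (by ring) rfl
  · change ((x - 2 * y - 1) + 2 * y + 1, y) = (x, y)
    exact Prod.ext (by ring) rfl
  · change (x, (y - 2 * x) + 2 * x) = (x, y)
    exact Prod.ext rfl (by ring)
  · change (x, (y - 2 * x - 1) + 2 * x + 1) = (x, y)
    exact Prod.ext rfl (by ring)

/-- The step with label `k` as a bijection. -/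
private def X4_e (k k' : Fin 8) (h : bk k = k') (h' : bk k' = k) :
    (ZMod N × ZMod N) ≃ (ZMod N × ZMod N) where
  toFun v := mgg v k
  invFun v := mgg v k'
  left_inv v := by
    have := mgg_inv v k
    rw [h] at this
    exact this
  right_inv v := by
    have := mgg_inv v k'
    rw [h'] at this
    exact this

private theorem X4_swap (f : ZMod N × ZMod N → ℝ) (k k' : Fin 8) (h : bk k = k') (h' : bk k' = k) :
    ∑ v, f v * f (mgg v k') = ∑ v, f v * f (mgg v k) := by
  rw [← (X4_e (N := N) k k' h h').sum_comp (fun v => f v * f (mgg v k'))]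
  refine Finset.sum_congr rfl fun v _ => ?_
  change f (mgg v k) * f (mgg (mgg v k) k') = f v * f (mgg v k)
  have := mgg_inv v k
  rw [h] at this
  rw [this, mul_comm]

/-- The inequality for one coordinate. -/
private theorem X4_one (f : ZMod N × ZMod N → ℝ) (m0 m1 : ZMod N × ZMod N → ZMod N × ZMod N)
    (S : ZMod N × ZMod N → ZMod N × ZMod N) (κ : ZMod N × ZMod N → ZMod N)
    (h0 : ∀ z, ft (fun w => (f (m0 w) : ℂ)) z = ft (fun w => (f w : ℂ)) (S z))
    (h1 : ∀ z, ft (fun w => (f (m1 w) : ℂ)) z =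
      ZMod.stdAddChar (κ z) * ft (fun w => (f w : ℂ)) (S z)) :
    (N : ℝ) ^ 2 * (∑ v, f v * f (m0 v) + ∑ v, f v * f (m1 v)) ≤
      ∑ z, 2 * cs (κ z) * ‖ft (fun w => (f w : ℂ)) z‖ * ‖ft (fun w => (f w : ℂ)) (S z)‖ := by
  set F : ZMod N × ZMod N → ℂ := fun w => (f w : ℂ) with hF
  have e0 := ft_parseval F (fun w => (f (m0 w) : ℂ))
  have e1 := ft_parseval F (fun w => (f (m1 w) : ℂ))
  have e2 : ((((N : ℝ) ^ 2 * (∑ v, f v * f (m0 v) + ∑ v, f v * f (m1 v)) : ℝ)) : ℂ) =
      ∑ z, ft F z * (starRingEnd ℂ) ((1 + ZMod.stdAddChar (κ z)) * ft F (S z)) := by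
    have e3 : ∀ z, ft F z * (starRingEnd ℂ) ((1 + ZMod.stdAddChar (κ z)) * ft F (S z)) =
        ft F z * (starRingEnd ℂ) (ft (fun w => (f (m0 w) : ℂ)) z) +
          ft F z * (starRingEnd ℂ) (ft (fun w => (f (m1 w) : ℂ)) z) := by
      intro z
      rw [h0, h1, ← mul_add, ← map_add]
      congr 2
      ring
    rw [Finset.sum_congr rfl fun z _ => e3 z, Finset.sum_add_distrib, e0, e1]
    push_cast
    simp only [hF, Complex.conj_ofReal]
    ring
  have e4 : (N : ℝ) ^ 2 * (∑ v, f v * f (m0 v) + ∑ v, f v * f (m1 v)) ≤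
      ‖∑ z, ft F z * (starRingEnd ℂ) ((1 + ZMod.stdAddChar (κ z)) * ft F (S z))‖ := by
    rw [← e2, Complex.norm_real]
    exact Real.le_norm_self _
  refine e4.trans ((norm_sum_le _ _).trans (Finset.sum_le_sum fun z _ => ?_))
  rw [norm_mul, RCLike.norm_conj, norm_mul, norm_one_add_char]
  apply le_of_eq
  unfold cs
  ring

/-- TASK X4b. The spectral inequality.

Proof. The maps with the labels `k` and `k + 4` are inverse to each other, so
`∑_v f v f (mgg v (k + 4)) = ∑_v f (mgg v k) f v`, and the left side is twice the sum `Σ'` over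
`k = 0, 1, 2, 3`. Let `F` be `f` as a complex function and `G z = ‖ft F z‖`; `G (0, 0) = ‖∑ f‖ = 0`.
By `ft_parseval` (with `ft_shear_left` for `t = 0` and `t = 1`)
`N² ∑_v f v (f (mgg v 0) + f (mgg v 1)) = Re ∑_z conj (ft F z) (1 + χ(z.1)) ft F (z.1, z.2 - 2 z.1)
≤ ∑_z 2 cs z.1 * G z * G (z.1, z.2 - 2 z.1)` by `norm_one_add_char`. The same for the labels 2, 3
with the other coordinate. With `gam_ineq` and Parseval for `∑ G z ^ 2 = N² ∑ f ^ 2`:
`N² Σ' ≤ 3.65 N² ∑ f ^ 2`. Here `gam_ineq` gives exactly the sum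
`∑_z (2 cs z.1 G z G (..) + 2 cs z.2 G z G (..)) ≤ 3.65 ∑ G ^ 2`. -/
theorem mgg_spec (f : ZMod N × ZMod N → ℝ) (hf : ∑ v, f v = 0) :
    ∑ v, ∑ k, f v * f (mgg v k) ≤ 7.3 * ∑ v, f v ^ 2 := by
  set F : ZMod N × ZMod N → ℂ := fun w => (f w : ℂ) with hF
  have hG0 : ‖ft F (0, 0)‖ = 0 := by
    rw [norm_eq_zero]
    unfold ft
    simp only [zero_mul, add_zero, neg_zero, AddChar.map_zero_eq_one, mul_one, hF]
    exact_mod_cast hf
  have hpar : ∑ z, ‖ft F z‖ ^ 2 = (N : ℝ) ^ 2 * ∑ v, f v ^ 2 := by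
    have e := ft_parseval F F
    have e1 : ∀ z, ft F z * (starRingEnd ℂ) (ft F z) = ((‖ft F z‖ ^ 2 : ℝ) : ℂ) := by
      intro z
      rw [Complex.mul_conj, Complex.normSq_eq_norm_sq]
    have e2 : ∀ w, F w * (starRingEnd ℂ) (F w) = ((f w ^ 2 : ℝ) : ℂ) := by
      intro w
      simp only [hF, Complex.conj_ofReal]
      push_cast
      ring
    rw [Finset.sum_congr rfl fun z _ => e1 z, Finset.sum_congr rfl fun z _ => e2 z] at e
    exact_mod_cast e
  have hL := X4_one f (fun v => mgg v 0) (fun v => mgg v 1) (fun z => (z.1, z.2 - 2 * z.1))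
    (fun z => z.1)
    (fun z => by
      have := ft_shear_left F 0 z.1 z.2
      rw [mul_zero, AddChar.map_zero_eq_one, one_mul] at this
      rw [← this]
      refine congrArg (fun g => ft g z) (funext fun w => ?_)
      simp only [hF, add_zero]
      rfl)
    (fun z => by
      have := ft_shear_left F 1 z.1 z.2
      rw [mul_one] at this
      rw [← this]
      rfl)
  have hR := X4_one f (fun v => mgg v 2) (fun v => mgg v 3) (fun z => (z.1 - 2 * z.2, z.2))
    (fun z => z.2)
    (fun z => by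
      have := ft_shear_right F 0 z.1 z.2
      rw [mul_zero, AddChar.map_zero_eq_one, one_mul] at this
      rw [← this]
      refine congrArg (fun g => ft g z) (funext fun w => ?_)
      simp only [hF, add_zero]
      rfl)
    (fun z => by
      have := ft_shear_right F 1 z.1 z.2
      rw [mul_one] at this
      rw [← this]
      rfl)
  have hgam := gam_ineq (fun z => ‖ft F z‖) (fun z => norm_nonneg _) hG0
  rw [Finset.sum_add_distrib] at hgam
  have hN : (0 : ℝ) < (N : ℝ) ^ 2 := by
    have : (N : ℝ) ≠ 0 := by exact_mod_cast NeZero.ne N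
    positivity
  have hsum : ∑ v, ∑ k, f v * f (mgg v k) =
      2 * ((∑ v, f v * f (mgg v 0) + ∑ v, f v * f (mgg v 1)) +
        (∑ v, f v * f (mgg v 2) + ∑ v, f v * f (mgg v 3))) := by
    rw [Finset.sum_comm]
    rw [Fin.sum_univ_eight]
    rw [X4_swap f 0 4 rfl rfl, X4_swap f 1 5 rfl rfl, X4_swap f 2 6 rfl rfl,
      X4_swap f 3 7 rfl rfl]
    ring
  rw [hsum]
  rw [hpar] at hgam
  have hfin : (N : ℝ) ^ 2 * ((∑ v, f v * f (mgg v 0) + ∑ v, f v * f (mgg v 1)) +
      (∑ v, f v * f (mgg v 2) + ∑ v, f v * f (mgg v 3))) ≤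
      (N : ℝ) ^ 2 * (3.65 * ∑ v, f v ^ 2) := by
    rw [mul_add]
    refine (add_le_add hL hR).trans (hgam.trans (le_of_eq ?_))
    ring
  have := le_of_mul_le_mul_left hfin hN
  linarith

theorem mgg_xexp : XExp (mgg (N := N)) := ⟨mgg_inv, mgg_spec⟩

end Pool.Agent.Lib.MP_0b8c1e_lc.PC
end

section

set_option autoImplicit false

namespace Pool.Agent.Lib.MP_0b8c1e_lc.PC

open Finset DS

variable {V K P : Type*} [DecidableEq P] [Fintype K] [Fintype P] [Fintype V] {μ : ℕ}
  {G : DS V K P} {RA : LocA K P μ × Fin 9 → LocA K P μ × Fin 9}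
  {RB : (P → P → Bool) → LocB P μ × Fin 9 → LocB P μ × Fin 9}

open scoped Classical in
/-- TASK C3d. The number of inconsistent answers.

Proof. The set on the left is the disjoint union over the positions `x` of the sets
`A x = {y | gloc y = x, β y ≠ T x}`, which have at most half of the elements of the fibre of `x`. By
`expand_inl`/`expand_inr` `#(A x) ≤ 6 #(∂ (A x))`, where `∂ (A x)` is the set of darts `p` from
`A x` to its complement; the other end `y'` has the same position `x` (`gloc_tRot`), so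
`β y' = T x ≠ β y`, and the dart is bad: `tCon` asks for `β y = β y'`. The sets `∂ (A x)` are
disjoint for different `x` (the position of the start is `x`). Sum over `x`
(`Finset.card_eq_sum_card_fiberwise`; all types are finite). -/
theorem inconsistent_le (hG : G.Inv) (hA : FibExp keyA RA)
    (hB : ∀ c, FibExp (keyB c) (RB c)) (β : Tst V K P μ → Fin 18 → ZMod 2)
    (T : (V × (P → ZMod 2)) ⊕ ((V × K) × Aux P) → ZMod 2)
    (hT : ∀ x, 2 * #((univ : Finset (Tst V K P μ × Fin 18)).filter fun y =>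
        gloc G y.1 y.2 = x ∧ β y.1 y.2 ≠ T x) ≤
      #((univ : Finset (Tst V K P μ × Fin 18)).filter fun y => gloc G y.1 y.2 = x)) :
    #((univ : Finset (Tst V K P μ × Fin 18)).filter fun y => β y.1 y.2 ≠ T (gloc G y.1 y.2)) ≤
      6 * #((testDS G RA RB).bad β) := by
  have hexp : ∀ (x : (V × (P → ZMod 2)) ⊕ ((V × K) × Aux P))
      (A : Finset (Tst V K P μ × Fin 18)), (∀ y ∈ A, gloc G y.1 y.2 = x) →
      2 * #A ≤ #((univ : Finset (Tst V K P μ × Fin 18)).filter fun y => gloc G y.1 y.2 = x) →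
      #A ≤ 6 * #((univ : Finset (Tst V K P μ × (Fin 18 × Fin 9))).filter fun p =>
        (p.1, p.2.1) ∈ A ∧ ((tRot G RA RB p).1, (tRot G RA RB p).2.1) ∉ A) := by
    rintro (⟨v, r⟩ | ⟨e, z⟩) A h h2
    · exact expand_inl hG hA v r A h h2
    · exact expand_inr hG e (hB (G.con e)) z A h h2
  have h1 : #((univ : Finset (Tst V K P μ × Fin 18)).filter fun y =>
      β y.1 y.2 ≠ T (gloc G y.1 y.2)) =
      ∑ x, #((univ : Finset (Tst V K P μ × Fin 18)).filter fun y =>
        gloc G y.1 y.2 = x ∧ β y.1 y.2 ≠ T x) := by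
    rw [Finset.card_eq_sum_card_fiberwise (f := fun y : Tst V K P μ × Fin 18 => gloc G y.1 y.2)
      (t := univ) (fun _ _ => Finset.mem_coe.2 (Finset.mem_univ _))]
    refine Finset.sum_congr rfl fun x _ => congrArg Finset.card ?_
    ext y
    simp only [Finset.mem_filter, Finset.mem_univ, true_and]
    constructor
    · rintro ⟨ha, hb⟩
      exact ⟨hb, by rw [hb] at ha; exact ha⟩
    · rintro ⟨ha, hb⟩
      exact ⟨by rw [ha]; exact hb, ha⟩
  have h2 : #((testDS G RA RB).bad β) =
      ∑ x, #(((testDS G RA RB).bad β).filter fun p => gloc G p.1 p.2.1 = x) :=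
    Finset.card_eq_sum_card_fiberwise
      (f := fun p : Tst V K P μ × (Fin 18 × Fin 9) => gloc G p.1 p.2.1)
      (t := univ) (fun _ _ => Finset.mem_coe.2 (Finset.mem_univ _))
  rw [h1, h2, Finset.mul_sum]
  refine Finset.sum_le_sum fun x _ => ?_
  refine (hexp x _ (fun y hy => (Finset.mem_filter.1 hy).2.1) (hT x)).trans
    (Nat.mul_le_mul_left 6 (Finset.card_le_card ?_))
  intro p hp
  simp only [Finset.mem_filter, Finset.mem_univ, true_and] at hp
  obtain ⟨⟨hg, hβ⟩, hp2⟩ := hp
  have hg2 := gloc_tRot (RA := RA) (RB := RB) hG hA.pres (fun c => (hB c).pres) p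
  have hβ2 : β (tRot G RA RB p).1 (tRot G RA RB p).2.1 = T x := by
    by_contra hne
    exact hp2 ⟨hg2.trans hg, hne⟩
  refine Finset.mem_filter.2 ⟨Finset.mem_filter.2 ⟨Finset.mem_univ _, ?_⟩, hg⟩
  change (accept p.1.2.1 (β p.1) && accept (tRot G RA RB p).1.2.1 (β (tRot G RA RB p).1) &&
    decide (β p.1 p.2.1 = β (tRot G RA RB p).1 (tRot G RA RB p).2.1)) = false
  rw [hβ2, decide_eq_false hβ, Bool.and_false]

end Pool.Agent.Lib.MP_0b8c1e_lc.PC
end

section

set_option autoImplicit false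

namespace Pool.Agent.Lib.MP_0b8c1e_lc.PC

open Finset DS

variable {V K P : Type*} [DecidableEq P] [Fintype K] [Fintype P] [Fintype V] {μ : ℕ}
  {G : DS V K P} {RA : LocA K P μ × Fin 9 → LocA K P μ × Fin 9}
  {RB : (P → P → Bool) → LocB P μ × Fin 9 → LocB P μ × Fin 9}

/-- TASK C3e. The number of tests which reject the answers of the table.

Proof. If the test `τ` rejects `ans G T τ`, then either `accept` rejects `β τ`, or
`β τ j ≠ T (gloc τ j)` for some `j`. In the first case all the `18 * 9` darts at `τ` are bad, so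
there are at most `#bad` such tests; by `inconsistent_le` there are at most `6 #bad` tests of the
second kind (project the pairs `(τ, j)` to `τ`). -/
theorem reject_le (hG : G.Inv) (hA : FibExp keyA RA) (hB : ∀ c, FibExp (keyB c) (RB c))
    (β : Tst V K P μ → Fin 18 → ZMod 2) :
    ∃ T : (V × (P → ZMod 2)) ⊕ ((V × K) × Aux P) → ZMod 2,
      #((univ : Finset (Tst V K P μ)).filter fun τ => accept τ.2.1 (ans G T τ) = false) ≤
        7 * #((testDS G RA RB).bad β) := by
  classical
  obtain ⟨T, hT⟩ := exists_majority G β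
  refine ⟨T, ?_⟩
  have h2 := inconsistent_le hG hA hB β T hT
  have h1 : #((univ : Finset (Tst V K P μ)).filter fun τ => accept τ.2.1 (β τ) = false) ≤
      #((testDS G RA RB).bad β) := by
    apply Finset.card_le_card_of_injOn (fun τ => (τ, ((0, 0) : Fin 18 × Fin 9)))
    · intro τ hτ
      have hτ' := (Finset.mem_filter.1 (Finset.mem_coe.1 hτ)).2
      apply Finset.mem_coe.2
      unfold DS.bad
      rw [Finset.mem_filter]
      refine ⟨Finset.mem_univ _, ?_⟩
      show (accept τ.2.1 (β τ) && accept _ _ && decide _) = false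
      rw [hτ', Bool.false_and, Bool.false_and]
    · intro a _ b _ hab
      exact congrArg Prod.fst hab
  have h3 : #((univ : Finset (Tst V K P μ)).filter fun τ => accept τ.2.1 (ans G T τ) = false) ≤
      #((univ : Finset (Tst V K P μ)).filter fun τ => accept τ.2.1 (β τ) = false) +
      #((univ : Finset (Tst V K P μ × Fin 18)).filter fun y => β y.1 y.2 ≠ T (gloc G y.1 y.2)) := by
    refine le_trans (Finset.card_le_card (t :=
      ((univ : Finset (Tst V K P μ)).filter fun τ => accept τ.2.1 (β τ) = false) ∪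
      (((univ : Finset (Tst V K P μ × Fin 18)).filter fun y =>
        β y.1 y.2 ≠ T (gloc G y.1 y.2)).image Prod.fst)) ?_) ?_
    · intro τ hτ
      have hτ' := (Finset.mem_filter.1 hτ).2
      rw [Finset.mem_union]
      by_cases hj : ∃ j, β τ j ≠ T (gloc G τ j)
      · obtain ⟨j, hj⟩ := hj
        right
        rw [Finset.mem_image]
        exact ⟨(τ, j), Finset.mem_filter.2 ⟨Finset.mem_univ _, hj⟩, rfl⟩
      · left
        have he : ans G T τ = β τ := by
          funext j
          by_contra hne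
          exact hj ⟨j, fun h => hne h.symm⟩
        rw [he] at hτ'
        exact Finset.mem_filter.2 ⟨Finset.mem_univ _, hτ'⟩
    · refine le_trans (Finset.card_union_le _ _) ?_
      exact Nat.add_le_add_left Finset.card_image_le _
  have h4 : #((univ : Finset (Tst V K P μ × Fin 18)).filter fun y => β y.1 y.2 ≠ T (gloc G y.1 y.2)) ≤
      6 * #((testDS G RA RB).bad β) := by
    rw [show ((univ : Finset (Tst V K P μ × Fin 18)).filter fun y =>
      β y.1 y.2 ≠ T (gloc G y.1 y.2)) = _ from Finset.filter_congr_decidable _ _ _] at h2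
    exact h2
  omega

end Pool.Agent.Lib.MP_0b8c1e_lc.PC
end

section

set_option autoImplicit false

namespace Pool.Agent.Lib.MP_0b8c1e_lc.PC

open Finset DS

variable {V K P : Type*} [DecidableEq P] [Fintype K] [Fintype P] [Fintype V] {μ : ℕ}
  {G : DS V K P} {RA : LocA K P μ × Fin 9 → LocA K P μ × Fin 9}
  {RB : (P → P → Bool) → LocB P μ × Fin 9 → LocB P μ × Fin 9}

/-- TASK C4a. The number of rejecting tests is large.

Proof. Decode: let `σ v = x` if `pr [T (inl (v, r)) ≠ r x] < 1/8` for some `x` (unique by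
`decode_unique`), and `σ v` arbitrary otherwise. For a dart `e ∈ G.bad σ` the probability (over
`ρ : Rnd P`) that `accept ρ (answers (G.con e) ρ A B F) = false` with the tables of `ans_eq` is at
least `1/40`: otherwise `tester_sound` gives `x, y` with `G.con e x y = true` and
`σ e.1 = x`, `σ (rot e).1 = y`, so `e` would not be bad. So for every `e ∈ G.bad σ` at least
`card (Rnd P) μ / 40` of the tests `(e, (ρ, m))` reject. Sum over `e` (`pr_eq`,
`Fintype.card (Rnd P × Fin μ) = card (Rnd P) * μ`). -/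
theorem reject_ge [Nonempty P] {ε : ℝ} (h : G.Gap ε)
    (T : (V × (P → ZMod 2)) ⊕ ((V × K) × Aux P) → ZMod 2) :
    ε * (Fintype.card V * Fintype.card K) * (Fintype.card (Rnd P) * μ) / 40 ≤
      #((univ : Finset (Tst V K P μ)).filter fun τ => accept τ.2.1 (ans G T τ) = false) := by
  classical
  have hσ : ∃ σ : V → P, ∀ v x, pr (fun r => T (.inl (v, r)) ≠ r x) < 1 / 8 → σ v = x := by
    have : ∀ v, ∃ y : P, ∀ x, pr (fun r => T (.inl (v, r)) ≠ r x) < 1 / 8 → y = x := by
      intro v
      by_cases h : ∃ y : P, pr (fun r => T (.inl (v, r)) ≠ r y) < 1 / 8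
      · obtain ⟨y, hy⟩ := h
        exact ⟨y, fun x hx => decode_unique hy hx⟩
      · push Not at h
        obtain ⟨y⟩ := (inferInstance : Nonempty P)
        exact ⟨y, fun x hx => absurd hx (not_lt.2 (h x))⟩
    choose σ hσ using this
    exact ⟨σ, hσ⟩
  obtain ⟨σ, hσ⟩ := hσ
  set Fe : V × K → Finset (Rnd P) := fun e => (univ : Finset (Rnd P)).filter fun ρ =>
    accept ρ (answers (G.con e) ρ (fun r => T (.inl (e.1, r)))
      (fun r => T (.inl ((G.rot e).1, r))) (fun z => T (.inr (e, z)))) = false with hFe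
  have hbad : ∀ e ∈ G.bad σ, (Fintype.card (Rnd P) : ℝ) / 40 ≤ #(Fe e) := by
    intro e he
    have h1 : (1 : ℝ) / 40 ≤ pr (fun ρ : Rnd P => accept ρ (answers (G.con e) ρ
        (fun r => T (.inl (e.1, r))) (fun r => T (.inl ((G.rot e).1, r)))
        (fun z => T (.inr (e, z)))) = false) := by
      by_contra hlt
      push Not at hlt
      obtain ⟨x, y, hc, hx, hy⟩ := tester_sound (G.con e) _ _ _ hlt
      have e1 : σ e.1 = x := hσ _ _ hx
      have e2 : σ (G.rot e).1 = y := hσ _ _ hy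
      have e3 := (Finset.mem_filter.1 he).2
      rw [e1, e2, hc] at e3
      exact Bool.noConfusion e3
    rw [pr_eq] at h1
    have hpos : (0 : ℝ) < Fintype.card (Rnd P) := by
      rcases Nat.eq_zero_or_pos (Fintype.card (Rnd P)) with h0 | h0
      · rw [h0, Nat.cast_zero, div_zero] at h1
        norm_num at h1
      · exact_mod_cast h0
    rw [le_div_iff₀ hpos] at h1
    have h2 : (Fintype.card (Rnd P) : ℝ) / 40 = 1 / 40 * (Fintype.card (Rnd P) : ℝ) := by ring
    rw [h2]
    exact h1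
  have hcard : #((G.bad σ).sigma fun e => Fe e ×ˢ (univ : Finset (Fin μ))) ≤
      #((univ : Finset (Tst V K P μ)).filter fun τ => accept τ.2.1 (ans G T τ) = false) := by
    apply Finset.card_le_card_of_injOn (fun q : Σ _ : V × K, Rnd P × Fin μ =>
      ((q.1, q.2) : Tst V K P μ))
    · rintro ⟨e, ρ, m⟩ hq
      rw [Finset.mem_coe, Finset.mem_sigma, Finset.mem_product] at hq
      rw [Finset.mem_coe, Finset.mem_filter]
      refine ⟨Finset.mem_univ _, ?_⟩
      rw [ans_eq]
      exact (Finset.mem_filter.1 hq.2.1).2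
    · rintro ⟨e, q⟩ _ ⟨e', q'⟩ _ heq
      simp only [Prod.mk.injEq] at heq
      obtain ⟨rfl, rfl⟩ := heq
      rfl
  rw [Finset.card_sigma] at hcard
  have hsum : (#(G.bad σ) : ℝ) * ((Fintype.card (Rnd P) : ℝ) * μ / 40) ≤
      ((∑ e ∈ G.bad σ, #(Fe e ×ˢ (univ : Finset (Fin μ))) : ℕ) : ℝ) := by
    push_cast
    rw [← nsmul_eq_mul, ← Finset.sum_const]
    apply Finset.sum_le_sum
    intro e he
    rw [Finset.card_product, Finset.card_univ, Fintype.card_fin, Nat.cast_mul]
    have := mul_le_mul_of_nonneg_right (hbad e he) (Nat.cast_nonneg (α := ℝ) μ)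
    calc (Fintype.card (Rnd P) : ℝ) * μ / 40 = (Fintype.card (Rnd P) : ℝ) / 40 * μ := by ring
      _ ≤ _ := this
  have hgap := h σ
  calc ε * (Fintype.card V * Fintype.card K) * (Fintype.card (Rnd P) * μ) / 40 =
        ε * (Fintype.card V * Fintype.card K) * ((Fintype.card (Rnd P) : ℝ) * μ / 40) := by ring
    _ ≤ (#(G.bad σ) : ℝ) * ((Fintype.card (Rnd P) : ℝ) * μ / 40) :=
        mul_le_mul_of_nonneg_right hgap (by positivity)
    _ ≤ ((∑ e ∈ G.bad σ, #(Fe e ×ˢ (univ : Finset (Fin μ))) : ℕ) : ℝ) := hsum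
    _ ≤ _ := by exact_mod_cast hcard

end Pool.Agent.Lib.MP_0b8c1e_lc.PC
end

section

set_option autoImplicit false

namespace Pool.Agent.Lib.MP_0b8c1e_lc.PC

open Finset DS

variable {V K P : Type*} [DecidableEq P] [Fintype K] [Fintype P] [Fintype V] {μ : ℕ}
  {G : DS V K P} {RA : LocA K P μ × Fin 9 → LocA K P μ × Fin 9}
  {RB : (P → P → Bool) → LocB P μ × Fin 9 → LocB P μ × Fin 9}

/-- TASK C4b. Soundness of the composition. Proof. `reject_ge` and `reject_le`:
`7 #bad ≥ ε Θ / 40` with the number `Θ = card V * card K * card (Rnd P) * μ` of tests, and there are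
`162 Θ` darts; `7 * 40 * 162 = 45360`. -/
theorem testDS_gap [Nonempty P] (hG : G.Inv) (hA : FibExp keyA RA)
    (hB : ∀ c, FibExp (keyB c) (RB c)) {ε : ℝ} (h : G.Gap ε) :
    (testDS G RA RB).Gap (ε / 45360) := by
  intro β
  obtain ⟨T, hT⟩ := reject_le hG hA hB β
  have h1 := reject_ge (μ := μ) h T
  have h2 : ((#((univ : Finset (Tst V K P μ)).filter fun τ => accept τ.2.1 (ans G T τ) = false) : ℕ) : ℝ) ≤
      7 * (#((testDS G RA RB).bad β) : ℝ) := by exact_mod_cast hT
  have h3 := h1.trans h2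
  have hc1 : Fintype.card (Tst V K P μ) =
      (Fintype.card V * Fintype.card K) * (Fintype.card (Rnd P) * μ) := by
    rw [Fintype.card_prod, Fintype.card_prod, Fintype.card_prod, Fintype.card_fin]
  have hc2 : Fintype.card (Fin 18 × Fin 9) = 162 := by
    rw [Fintype.card_prod, Fintype.card_fin, Fintype.card_fin]
  rw [hc1, hc2]
  push_cast
  linarith

end Pool.Agent.Lib.MP_0b8c1e_lc.PC
end
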