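import Pool.Agent.Lib.MP_0b8c1e_lc.Mg.G001

section

set_option autoImplicit false

namespace Pool.Agent.Lib.MP_0b8c1e_lc.PC

open Finset DS

section

variable {V I P : Type*} [Fintype V] [Fintype I]

/-- The average over the neighbours. -/
noncomputable def DS.av (G : DS V I P) (f : V → ℝ) (v : V) : ℝ := G.nb f v / Fintype.card I

open scoped Classical in
/-- The number of steps of the walk which are darts in `F`. -/
noncomputable def DS.cnt (G : DS V I P) (F : Finset (V × I)) : V → List I → ℝ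
  | _, [] => 0
  | v, i :: l => (if (v, i) ∈ F then 1 else 0) + G.cnt F (G.rot (v, i)).1 l

end

section

variable {V I S : Type*} [Fintype V] [Fintype I] [Inhabited S] {M : ℕ}

open scoped Classical in
/-- The number of walks of length `k` from `u` whose end has the opinion `a` about `u`. -/
noncomputable def opn (G : DS V I S) (τ : V → Opin I S M) (k : ℕ) (u : V) (a : S) : ℝ :=
  sumL k fun l => if (τ (G.walk u l)).at (G.back u l) = a then 1 else 0

/-- Step `i` of the walk from `v` along `l` is a dart in `F`, the start of the walk has the opinion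
`σ` about the start of the step, and the end of the walk has the opinion `σ` about the end of the
step. -/
def Hit (G : DS V I S) (τ : V → Opin I S M) (σ : V → S) (F : Finset (V × I)) (v : V) (l : List I)
    (i : ℕ) : Prop :=
  ∃ a, l[i]? = some a ∧ (G.walk v (l.take i), a) ∈ F ∧
    (τ v).at (l.take i) = σ (G.walk v (l.take i)) ∧
    (τ (G.walk v l)).at ((G.back v l).take (l.length - (i + 1))) = σ (G.walk v (l.take (i + 1)))

open scoped Classical in
/-- The number of hits in the middle range. -/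
noncomputable def hits (G : DS V I S) (τ : V → Opin I S M) (σ : V → S) (F : Finset (V × I)) (v : V)
    (l : List I) : ℝ :=
  ∑ i ∈ range l.length, if i < M ∧ l.length - (i + 1) < M ∧ Hit G τ σ F v l i then 1 else 0

end

end Pool.Agent.Lib.MP_0b8c1e_lc.PC
end

section

set_option autoImplicit false

namespace Pool.Agent.Lib.MP_0b8c1e_lc.PC

open Finset DS

variable {V I P : Type*} [Fintype V] [Fintype I] {G : DS V I P}

private theorem W6_nb_symm (hG : G.Inv) (f g : V → ℝ) :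
    ∑ v, f v * G.nb g v = ∑ v, G.nb f v * g v := by
  unfold DS.nb
  have h1 : ∑ v, f v * ∑ i, g (G.rot (v, i)).1 = ∑ p : V × I, f p.1 * g (G.rot p).1 := by
    rw [Fintype.sum_prod_type]
    exact Finset.sum_congr rfl fun v _ => Finset.mul_sum _ _ _
  have h2 : ∑ v, (∑ i, f (G.rot (v, i)).1) * g v = ∑ p : V × I, f (G.rot p).1 * g p.1 := by
    rw [Fintype.sum_prod_type]
    exact Finset.sum_congr rfl fun v _ => Finset.sum_mul _ _ _
  rw [h1, h2]
  let e : V × I ≃ V × I := ⟨G.rot, G.rot, hG, hG⟩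
  rw [← Equiv.sum_comp e]
  exact Finset.sum_congr rfl fun p _ => by
    show f (G.rot p).1 * g (G.rot (G.rot p)).1 = _
    rw [hG p]

/-- TASK W6a. Proof. `∑_v g v * nb f v = ∑_{(v, i)} g v f (rot (v, i)).1`; substitute the involution
`rot` (`Equiv.sum_comp`). -/
theorem av_symm (hG : G.Inv) (f g : V → ℝ) : ∑ v, f v * G.av g v = ∑ v, G.av f v * g v := by
  unfold DS.av
  have h1 : ∀ v, f v * (G.nb g v / Fintype.card I) = (f v * G.nb g v) / Fintype.card I :=
    fun v => by ring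
  have h2 : ∀ v, (G.nb f v / Fintype.card I) * g v = (G.nb f v * g v) / Fintype.card I :=
    fun v => by ring
  simp only [h1, h2]
  rw [← Finset.sum_div, ← Finset.sum_div, W6_nb_symm hG]

private theorem W6_av_lin (f g : V → ℝ) (t : ℝ) (v : V) :
    G.av (fun v => f v + t * g v) v = G.av f v + t * G.av g v := by
  unfold DS.av DS.nb
  rw [Finset.sum_add_distrib, ← Finset.mul_sum]
  ring

private theorem W6_card [Nonempty I] : (0 : ℝ) < Fintype.card I := by
  exact_mod_cast Fintype.card_pos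

private theorem W6_av_const [Nonempty I] (c : ℝ) (v : V) : G.av (fun _ => c) v = c := by
  unfold DS.av DS.nb
  rw [Finset.sum_const, Finset.card_univ, nsmul_eq_mul]
  have := W6_card (I := I)
  field_simp

/-- TASK W6b. Proof. `av_symm` with the constant function 1, whose average is 1 (`card I > 0`). -/
theorem sum_av [Nonempty I] (hG : G.Inv) (f : V → ℝ) : ∑ v, G.av f v = ∑ v, f v := by
  have h := av_symm hG f (fun _ => 1)
  simp only [W6_av_const, mul_one] at h
  exact h.symm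

private theorem W6_psd [Nonempty I] (hs : G.Spec) (f : V → ℝ) : 0 ≤ ∑ v, f v * G.av f v := by
  have h := hs.psd f
  have h1 : ∑ v, f v * G.av f v = (∑ v, f v * G.nb f v) / Fintype.card I := by
    rw [Finset.sum_div]
    exact Finset.sum_congr rfl fun v _ => by unfold DS.av; ring
  rw [h1]
  exact div_nonneg h W6_card.le

private theorem W6_gap [Nonempty I] (hs : G.Spec) (f : V → ℝ) (hf : ∑ v, f v = 0) :
    ∑ v, f v * G.av f v ≤ 17.3 / 18 * ∑ v, f v ^ 2 := by
  have h := hs.gap f hf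
  have h1 : ∑ v, f v * G.av f v = (∑ v, f v * G.nb f v) / Fintype.card I := by
    rw [Finset.sum_div]
    exact Finset.sum_congr rfl fun v _ => by unfold DS.av; ring
  rw [h1, div_le_iff₀ W6_card]
  calc _ ≤ _ := h
    _ = _ := by ring

/-- TASK W6c. Proof. Let `q f g = ∑_v f v * av g v`: a symmetric (`av_symm`) bilinear form with
`q f f ≥ 0` (`Spec.psd`), so `q f g ^ 2 ≤ q f f * q g g` (Cauchy-Schwarz: the discriminant of
`t ↦ q (f + t g) (f + t g) ≥ 0`, `discrim_le_zero`). For `g = av f`: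
`q f g = ∑ (av f) ^ 2 =: a`, so `a ^ 2 ≤ q f f * q (av f) (av f)`. As `∑ f = 0` and `∑ av f = 0`,
`Spec.gap` gives `q f f ≤ λ ∑ f ^ 2` and `q (av f) (av f) ≤ λ a`, `λ = 17.3 / 18`. So
`a ^ 2 ≤ λ ^ 2 a ∑ f ^ 2`. -/
theorem av_norm [Nonempty I] (hG : G.Inv) (hs : G.Spec) {f : V → ℝ} (hf : ∑ v, f v = 0) :
    ∑ v, G.av f v ^ 2 ≤ (17.3 / 18) ^ 2 * ∑ v, f v ^ 2 := by
  obtain ⟨g, hg⟩ : ∃ g, g = G.av f := ⟨_, rfl⟩
  have hsum : ∑ v, g v = 0 := by rw [hg, sum_av hG, hf]
  have ha : ∑ v, f v * G.av g v = ∑ v, g v ^ 2 := by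
    rw [av_symm hG, ← hg]
    exact Finset.sum_congr rfl fun v _ => (sq _).symm
  have ha' : ∑ v, g v * G.av f v = ∑ v, g v ^ 2 := by
    rw [← hg]
    exact Finset.sum_congr rfl fun v _ => (sq _).symm
  rw [← hg]
  have hff := W6_gap hs f hf
  have hgg := W6_gap hs g hsum
  have pff := W6_psd hs f
  have pgg := W6_psd hs g
  have hq : ∀ t : ℝ, 0 ≤ (∑ v, g v * G.av g v) * (t * t) + (2 * ∑ v, g v ^ 2) * t +
      ∑ v, f v * G.av f v := by
    intro t
    have h := W6_psd hs (fun v => f v + t * g v)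
    have h2 : ∑ v, (f v + t * g v) * G.av (fun v => f v + t * g v) v =
        (∑ v, g v * G.av g v) * (t * t) + (2 * ∑ v, g v ^ 2) * t + ∑ v, f v * G.av f v := by
      have h3 : ∀ v, (f v + t * g v) * G.av (fun v => f v + t * g v) v =
          (t * t) * (g v * G.av g v) + t * (f v * G.av g v) + t * (g v * G.av f v) +
            f v * G.av f v := fun v => by rw [W6_av_lin]; ring
      simp only [h3]
      rw [Finset.sum_add_distrib, Finset.sum_add_distrib, Finset.sum_add_distrib,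
        ← Finset.mul_sum, ← Finset.mul_sum, ← Finset.mul_sum, ha, ha']
      ring
    rw [← h2]
    exact h
  have hd := discrim_le_zero hq
  unfold discrim at hd
  have hA : 0 ≤ ∑ v, g v ^ 2 := Finset.sum_nonneg fun v _ => sq_nonneg _
  have hB : 0 ≤ ∑ v, f v ^ 2 := Finset.sum_nonneg fun v _ => sq_nonneg _
  generalize (∑ v, g v ^ 2 : ℝ) = a at *
  generalize (∑ v, f v ^ 2 : ℝ) = b at *
  generalize (∑ v, f v * G.av f v : ℝ) = x at *
  generalize (∑ v, g v * G.av g v : ℝ) = y at *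
  have h1 : a * a ≤ (17.3 / 18) ^ 2 * b * a := by
    have h2 : a ^ 2 ≤ x * y := by nlinarith
    have h3 : x * y ≤ (17.3 / 18 * b) * (17.3 / 18 * a) :=
      mul_le_mul hff hgg pgg (by positivity)
    nlinarith
  rcases hA.eq_or_lt with h | h
  · rw [← h]
    positivity
  · exact le_of_mul_le_mul_right h1 h

private theorem W6_it [Nonempty I] (c : ℝ) (f : V → ℝ) (t : ℕ) :
    G.av^[t] (fun v => c + f v) = fun v => c + (G.av^[t] f) v := by
  induction t with
  | zero => rfl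
  | succ t ih =>
    rw [Function.iterate_succ_apply', Function.iterate_succ_apply', ih]
    funext v
    have h := W6_av_lin (G := G) (fun _ => c) (G.av^[t] f) 1 v
    simp only [one_mul] at h
    rw [h, W6_av_const]

private theorem W6_pow [Nonempty I] (hG : G.Inv) (hs : G.Spec) {f : V → ℝ} (hf : ∑ v, f v = 0)
    (t : ℕ) : ∑ v, (G.av^[t] f) v = 0 ∧
      ∑ v, (G.av^[t] f) v ^ 2 ≤ ((17.3 / 18) ^ t) ^ 2 * ∑ v, f v ^ 2 := by
  induction t with
  | zero => exact ⟨hf, by simp⟩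
  | succ t ih =>
    simp only [Function.iterate_succ_apply']
    refine ⟨by rw [sum_av hG]; exact ih.1, ?_⟩
    calc _ ≤ _ := av_norm hG hs ih.1
      _ ≤ (17.3 / 18) ^ 2 * (((17.3 / 18) ^ t) ^ 2 * ∑ v, f v ^ 2) :=
        mul_le_mul_of_nonneg_left ih.2 (by positivity)
      _ = _ := by ring

private theorem W6_var {n φ : ℝ} {g : V → ℝ} (g0 : ∀ v, 0 ≤ g v) (g1 : ∀ v, g v ≤ 1)
    (hn : n = Fintype.card V) (hg : ∑ v, g v = n * φ) : ∑ v, (g v - φ) ^ 2 ≤ ∑ v, g v := by
  have h1 : ∀ v, (g v - φ) ^ 2 = g v ^ 2 - 2 * φ * g v + φ ^ 2 := fun v => by ring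
  simp only [h1]
  rw [Finset.sum_add_distrib, Finset.sum_sub_distrib, ← Finset.mul_sum, Finset.sum_const,
    Finset.card_univ, nsmul_eq_mul, ← hn]
  have h2 : ∑ v, g v ^ 2 ≤ ∑ v, g v := Finset.sum_le_sum fun v _ => by
    have := g0 v
    have := g1 v
    nlinarith
  have h3 : 0 ≤ n := by rw [hn]; positivity
  have h4 : 0 ≤ n * φ ^ 2 := by positivity
  rw [hg] at h2 ⊢
  nlinarith

/-- TASK W6d. Correlations. Proof. Let `n = card V`, `φ = (∑ g) / n = (∑ h) / n`,
`h = φ + h₀`, `g = φ + g₀` with `∑ g₀ = ∑ h₀ = 0`. `av^[t] h = φ + av^[t] h₀` (`av` is linear and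
preserves constants), `∑ av^[t] h₀ = 0`, so
`∑ g * av^[t] h = n φ ^ 2 + ∑ g₀ * av^[t] h₀`. By Cauchy-Schwarz (`Finset.inner_mul_le_norm_mul_norm` or
`Finset.sum_mul_sq_le_sq_mul_sq`) and `av_norm` (induction on `t`) the last sum is at most
`λ ^ t √(∑ g₀ ^ 2 ∑ h₀ ^ 2)`, and `∑ g₀ ^ 2 ≤ ∑ g ^ 2 ≤ ∑ g = n φ`, the same for `h`.
(`n = 0` is trivial.) -/
theorem av_corr [Nonempty I] (hG : G.Inv) (hs : G.Spec) {g h : V → ℝ} (g0 : ∀ v, 0 ≤ g v)
    (g1 : ∀ v, g v ≤ 1) (h0 : ∀ v, 0 ≤ h v) (h1 : ∀ v, h v ≤ 1) (hgh : ∑ v, g v = ∑ v, h v)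
    (t : ℕ) : ∑ v, g v * (G.av^[t] h) v ≤
      (∑ v, h v) ^ 2 / Fintype.card V + (17.3 / 18) ^ t * ∑ v, h v := by
  rcases isEmpty_or_nonempty V with hV | hV
  · simp
  obtain ⟨n, hn⟩ : ∃ n : ℝ, n = Fintype.card V := ⟨_, rfl⟩
  have hn0 : 0 < n := by rw [hn]; exact_mod_cast Fintype.card_pos
  obtain ⟨φ, hφ⟩ : ∃ φ : ℝ, φ = (∑ v, h v) / n := ⟨_, rfl⟩
  have hSh : ∑ v, h v = n * φ := by rw [hφ]; field_simp
  have hSg : ∑ v, g v = n * φ := hgh.trans hSh
  have z1 : ∑ v, (h v - φ) = 0 := by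
    rw [Finset.sum_sub_distrib, Finset.sum_const, Finset.card_univ, nsmul_eq_mul, ← hn, hSh,
      sub_self]
  have z2 : ∑ v, (g v - φ) = 0 := by
    rw [Finset.sum_sub_distrib, Finset.sum_const, Finset.card_univ, nsmul_eq_mul, ← hn, hSg,
      sub_self]
  obtain ⟨k, hk⟩ : ∃ k, k = G.av^[t] (fun v => h v - φ) := ⟨_, rfl⟩
  obtain ⟨w1, w2⟩ := W6_pow hG hs z1 t
  rw [← hk] at w1 w2
  have e1 : G.av^[t] h = fun v => φ + k v := by
    rw [hk, ← W6_it]
    congr 1
    funext v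
    ring
  have e2 : ∑ v, g v * (G.av^[t] h) v = n * φ ^ 2 + ∑ v, (g v - φ) * k v := by
    rw [e1]
    have h3 : ∀ v, g v * (φ + k v) = φ * g v + φ * k v + (g v - φ) * k v := fun v => by ring
    simp only [h3]
    rw [Finset.sum_add_distrib, Finset.sum_add_distrib, ← Finset.mul_sum, ← Finset.mul_sum, w1, hSg]
    ring
  have v1 := W6_var g0 g1 hn hSg
  have v2 := W6_var h0 h1 hn hSh
  have hS0 : 0 ≤ ∑ v, h v := Finset.sum_nonneg fun v _ => h0 v
  have cs : (∑ v, (g v - φ) * k v) ^ 2 ≤ (∑ v, (g v - φ) ^ 2) * ∑ v, k v ^ 2 :=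
    Finset.sum_mul_sq_le_sq_mul_sq _ _ _
  have hk2 : 0 ≤ ∑ v, k v ^ 2 := Finset.sum_nonneg fun v _ => sq_nonneg _
  rw [hgh] at v1
  have fin : ∑ v, (g v - φ) * k v ≤ (17.3 / 18) ^ t * ∑ v, h v := by
    apply le_of_sq_le_sq _ (by positivity)
    calc _ ≤ _ := cs
      _ ≤ (∑ v, h v) * (((17.3 / 18) ^ t) ^ 2 * ∑ v, h v) := by
        apply mul_le_mul v1 _ hk2 hS0
        exact w2.trans (mul_le_mul_of_nonneg_left v2 (by positivity))
      _ = _ := by ring
  rw [e2, ← hn]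
  have e3 : (∑ v, h v) ^ 2 / n = n * φ ^ 2 := by
    rw [hSh]
    field_simp
  rw [e3]
  linarith

end Pool.Agent.Lib.MP_0b8c1e_lc.PC
end

section

set_option autoImplicit false

namespace Pool.Agent.Lib.MP_0b8c1e_lc.PC

open Finset DS

variable {V I P : Type*} {G : DS V I P} {X : V → Fin 8 → V}

/-- TASK W9a. Proof. Case distinction on the label `(i, k)`: `k = 0`, `1 ≤ k ≤ 8`, `k ≥ 9`; `bk` is
an involution (`decide`), and the back label of an expander edge has again `1 ≤ k ≤ 8`. -/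
theorem exDS_inv (hG : G.Inv) (hX : ∀ v k, X (X v k) (bk k) = v) : (exDS G X).Inv := by
  rintro ⟨v, i, k⟩
  show exRot G.rot X (exRot G.rot X (v, (i, k))) = (v, (i, k))
  by_cases h0 : k.val = 0
  · have h1 : ∀ (a : V) (b : I), exRot G.rot X (a, (b, k)) =
        ((G.rot (a, b)).1, ((G.rot (a, b)).2, k)) := by
      intro a b
      simp only [exRot]
      rw [if_pos h0]
    rw [h1, h1]
    have h2 : G.rot ((G.rot (v, i)).1, (G.rot (v, i)).2) = (v, i) := hG (v, i)
    rw [h2]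
  · by_cases h9 : k.val < 9
    · have hbb : ∀ j : Fin 8, bk (bk j) = j := by decide
      have key : ∀ (a : V) (b : I) (j : Fin 8) (hj : j.val + 1 < 18),
          exRot G.rot X (a, (b, ⟨j.val + 1, hj⟩)) =
            (X a j, (b, ⟨(bk j).val + 1, by have := (bk j).isLt; omega⟩)) := by
        intro a b j hj
        simp only [exRot]
        rw [if_neg (Nat.succ_ne_zero _), dif_pos (by have := j.isLt; omega)]
        rfl
      obtain ⟨j, hj⟩ : ∃ j : Fin 8, k = ⟨j.val + 1, by have := j.isLt; omega⟩ :=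
        ⟨⟨k.val - 1, by omega⟩, Fin.ext (by simp only []; omega)⟩
      rw [hj, key, key, hX]
      simp only [hbb]
    · have h1 : exRot G.rot X (v, (i, k)) = (v, (i, k)) := by
        simp only [exRot]
        rw [if_neg h0, dif_neg h9]
      rw [h1, h1]

variable [Fintype V] [Fintype I]

/-- TASK W9b. Proof. The same assignment. -/
theorem exDS_sat (h : G.Sat) : (exDS G X).Sat := by
  obtain ⟨σ, hσ⟩ := h
  refine ⟨σ, ?_⟩
  rw [Finset.eq_empty_iff_forall_notMem]
  rintro ⟨v, i, k⟩ hp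
  rw [DS.bad, Finset.mem_filter] at hp
  have h1 : exCon G.con (v, (i, k)) (σ v) (σ (exRot G.rot X (v, (i, k))).1) = false := hp.2
  by_cases h0 : k.val = 0
  · simp only [exCon, exRot] at h1
    rw [if_pos h0, if_pos h0] at h1
    have : (v, i) ∈ G.bad σ := by
      rw [DS.bad, Finset.mem_filter]
      exact ⟨Finset.mem_univ _, h1⟩
    rw [hσ] at this
    exact absurd this (Finset.notMem_empty _)
  · simp only [exCon] at h1
    rw [if_neg h0] at h1
    exact Bool.noConfusion h1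

/-- TASK W9c. Proof. The bad darts of `exDS G X` for `σ` are the darts `(v, (i, 0))` with
`(v, i) ∈ G.bad σ`: their number is the same, and the number of all darts is `18` times as large. -/
theorem exDS_gap {ε : ℝ} (h : G.Gap ε) : (exDS G X).Gap (ε / 18) := by
  intro σ
  have h1 : #(G.bad σ) ≤ #((exDS G X).bad σ) := by
    refine Finset.card_le_card_of_injOn (fun p : V × I => (p.1, (p.2, (0 : Fin 18)))) ?_ ?_
    · rintro ⟨v, i⟩ hp
      have hp' := Finset.mem_coe.1 hp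
      rw [DS.bad, Finset.mem_filter] at hp'
      refine Finset.mem_coe.2 ?_
      rw [DS.bad, Finset.mem_filter]
      refine ⟨Finset.mem_univ _, ?_⟩
      show exCon G.con (v, (i, (0 : Fin 18))) (σ v) (σ (exRot G.rot X (v, (i, (0 : Fin 18)))).1) = false
      simp only [exCon, exRot]
      rw [if_pos (show (0 : Fin 18).val = 0 from rfl), if_pos (show (0 : Fin 18).val = 0 from rfl)]
      exact hp'.2
    · rintro ⟨v, i⟩ _ ⟨w, j⟩ _ hvw
      have h2 := (Prod.mk.inj hvw)
      exact Prod.ext h2.1 (Prod.mk.inj h2.2).1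
  have h2 : (#(G.bad σ) : ℝ) ≤ #((exDS G X).bad σ) := by exact_mod_cast h1
  refine le_trans (le_of_eq ?_) ((h σ).trans h2)
  rw [Fintype.card_prod, Fintype.card_fin]
  push_cast
  ring

end Pool.Agent.Lib.MP_0b8c1e_lc.PC
end

section

set_option autoImplicit false

namespace Pool.Agent.Lib.MP_0b8c1e_lc.PC

open Finset DS

variable {V I P : Type*} {G : DS V I P} {X : V → Fin 8 → V}

variable [Fintype V] [Fintype I]

omit [Fintype V] [Fintype I] in
private theorem W9b_sum18 (f : V → ℝ) (v : V) (i : I) :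
    ∑ k : Fin 18, f (exRot G.rot X (v, (i, k))).1 =
      f (G.rot (v, i)).1 + ∑ k : Fin 8, f (X v k) + 9 * f v := by
  have h1 : ∀ g : Fin 18 → ℝ, ∑ k, g k = g 0 + ∑ k : Fin 8, g ⟨k.val + 1, by omega⟩ +
      ∑ k : Fin 9, g ⟨9 + k.val, by omega⟩ := by
    intro g
    have h2 := Fin.sum_univ_add (a := 9) (b := 9) g
    refine h2.trans ?_
    rw [Fin.sum_univ_succ]
    rfl
  rw [h1]
  have e0 : (exRot G.rot X (v, (i, (0 : Fin 18)))).1 = (G.rot (v, i)).1 := by
    simp [exRot]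
  have e1 : ∀ k : Fin 8, (exRot G.rot X (v, (i, (⟨k.val + 1, by omega⟩ : Fin 18)))).1 = X v k := by
    intro k
    have hk : k.val + 1 < 9 := by omega
    have hk0 : ¬ k.val + 1 = 0 := by omega
    unfold exRot
    dsimp only
    rw [if_neg hk0, dif_pos hk]
    rfl
  have e2 : ∀ k : Fin 9, (exRot G.rot X (v, (i, (⟨9 + k.val, by omega⟩ : Fin 18)))).1 = v := by
    intro k
    simp [exRot]
  rw [e0, Finset.sum_congr rfl fun k _ => congrArg f (e1 k),
    Finset.sum_congr rfl fun k _ => congrArg f (e2 k), Finset.sum_const, Finset.card_univ,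
    Fintype.card_fin, nsmul_eq_mul]
  norm_num

private theorem W9b_form (f : V → ℝ) :
    ∑ v, f v * (exDS G X).nb f v = ∑ v, ∑ i, f v * f (G.rot (v, i)).1 +
      Fintype.card I * ∑ v, ∑ k, f v * f (X v k) + 9 * (Fintype.card I * ∑ v, f v ^ 2) := by
  have h1 : ∀ v, f v * (exDS G X).nb f v = ∑ i, f v * f (G.rot (v, i)).1 +
      Fintype.card I * ∑ k, f v * f (X v k) + 9 * (Fintype.card I * f v ^ 2) := by
    intro v
    have h2 : (exDS G X).nb f v =
        ∑ i, (f (G.rot (v, i)).1 + ∑ k : Fin 8, f (X v k) + 9 * f v) := by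
      rw [DS.nb, Fintype.sum_prod_type]
      exact Finset.sum_congr rfl fun i _ => W9b_sum18 f v i
    rw [h2, Finset.sum_add_distrib, Finset.sum_add_distrib, Finset.sum_const, Finset.sum_const,
      Finset.card_univ, nsmul_eq_mul, nsmul_eq_mul, ← Finset.mul_sum, ← Finset.mul_sum]
    ring
  rw [Finset.sum_congr rfl fun v _ => h1 v, Finset.sum_add_distrib, Finset.sum_add_distrib,
    ← Finset.mul_sum, ← Finset.mul_sum, ← Finset.mul_sum]

omit [Fintype V] [Fintype I] in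
private theorem W9b_abs (x y : ℝ) : |x * y| ≤ (x ^ 2 + y ^ 2) / 2 := by
  rw [abs_le]
  constructor
  · nlinarith [sq_nonneg (x + y)]
  · nlinarith [sq_nonneg (x - y)]

private theorem W9b_A (hG : G.Inv) (f : V → ℝ) :
    |∑ v, ∑ i, f v * f (G.rot (v, i)).1| ≤ Fintype.card I * ∑ v, f v ^ 2 := by
  let e : V × I ≃ V × I := ⟨G.rot, G.rot, hG, hG⟩
  have h0 : ∑ p : V × I, f p.1 ^ 2 = Fintype.card I * ∑ v, f v ^ 2 := by
    rw [Fintype.sum_prod_type]
    simp only [Finset.sum_const, Finset.card_univ, nsmul_eq_mul, ← Finset.mul_sum]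
  have h1 : ∑ p : V × I, f (G.rot p).1 ^ 2 = Fintype.card I * ∑ v, f v ^ 2 := by
    rw [← h0]
    exact Equiv.sum_comp e fun p : V × I => f p.1 ^ 2
  have h2 : ∑ v, ∑ i, f v * f (G.rot (v, i)).1 = ∑ p : V × I, f p.1 * f (G.rot p).1 := by
    rw [Fintype.sum_prod_type]
  rw [h2]
  calc |∑ p : V × I, f p.1 * f (G.rot p).1| ≤ ∑ p : V × I, |f p.1 * f (G.rot p).1| :=
        Finset.abs_sum_le_sum_abs _ _
    _ ≤ ∑ p : V × I, (f p.1 ^ 2 + f (G.rot p).1 ^ 2) / 2 :=
        Finset.sum_le_sum fun p _ => W9b_abs _ _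
    _ = Fintype.card I * ∑ v, f v ^ 2 := by
        rw [← Finset.sum_div, Finset.sum_add_distrib, h0, h1]
        ring

omit [Fintype I] in
private theorem W9b_B (hX : XExp X) (f : V → ℝ) :
    |∑ v, ∑ k, f v * f (X v k)| ≤ 8 * ∑ v, f v ^ 2 := by
  have hbk : ∀ k, bk (bk k) = k := by decide
  have h1 : ∀ k : Fin 8, ∑ v, f (X v k) ^ 2 = ∑ v, f v ^ 2 := by
    intro k
    let e : V ≃ V := ⟨fun v => X v k, fun v => X v (bk k), fun v => hX.inv v k, fun v => by
      have := hX.inv v (bk k)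
      rwa [hbk] at this⟩
    exact Equiv.sum_comp e fun v : V => f v ^ 2
  rw [Finset.sum_comm]
  calc |∑ k, ∑ v, f v * f (X v k)| ≤ ∑ k, |∑ v, f v * f (X v k)| :=
        Finset.abs_sum_le_sum_abs _ _
    _ ≤ ∑ k, ∑ v, |f v * f (X v k)| :=
        Finset.sum_le_sum fun k _ => Finset.abs_sum_le_sum_abs _ _
    _ ≤ ∑ k, ∑ v, (f v ^ 2 + f (X v k) ^ 2) / 2 :=
        Finset.sum_le_sum fun k _ => Finset.sum_le_sum fun v _ => W9b_abs _ _
    _ = ∑ k : Fin 8, ∑ v, f v ^ 2 := by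
        refine Finset.sum_congr rfl fun k _ => ?_
        rw [← Finset.sum_div, Finset.sum_add_distrib, h1]
        ring
    _ = 8 * ∑ v, f v ^ 2 := by
        rw [Finset.sum_const, Finset.card_univ, Fintype.card_fin, nsmul_eq_mul]
        norm_num

/-- TASK W9d. The spectral property.

Proof. Let `d = card I`, `E = exDS G X`. For every `v`:
`E.nb f v = ∑_i f (rot (v, i)).1 + d ∑_k f (X v k) + 9 d f v`. So
`∑_v f v E.nb f v = A + d B + 9 d ∑ f ^ 2` with `A = ∑_{(v, i)} f v f (rot (v, i)).1` and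
`B = ∑_v ∑_k f v f (X v k)`. As `rot` is a bijection and `|x y| ≤ (x ^ 2 + y ^ 2) / 2`:
`|A| ≤ d ∑ f ^ 2`; as `v ↦ X v k` is a bijection for every `k` (inverse `v ↦ X v (bk k)`, and
`bk (bk k) = k`): `|B| ≤ 8 ∑ f ^ 2`. So the form is at least `(-1 - 8 + 9) d ∑ f ^ 2 = 0`. If
`∑ f = 0` then `B ≤ 7.3 ∑ f ^ 2`, and the form is at most `(1 + 7.3 + 9) d ∑ f ^ 2`, which is
`17.3 / 18 * (card (I × Fin 18) * ∑ f ^ 2)`. -/
theorem exDS_spec (hG : G.Inv) (hX : XExp X) : (exDS G X).Spec := by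
  have hd : (0 : ℝ) ≤ Fintype.card I := Nat.cast_nonneg _
  constructor
  · intro f
    rw [W9b_form]
    have hA := abs_le.1 (W9b_A hG f)
    have hB := abs_le.1 (W9b_B hX f)
    have h1 : (Fintype.card I : ℝ) * (-(8 * ∑ v, f v ^ 2)) ≤
        Fintype.card I * ∑ v, ∑ k, f v * f (X v k) := mul_le_mul_of_nonneg_left hB.1 hd
    linarith [hA.1]
  · intro f hf
    rw [W9b_form]
    have hA := abs_le.1 (W9b_A hG f)
    have hB := hX.spec f hf
    have h1 : (Fintype.card I : ℝ) * ∑ v, ∑ k, f v * f (X v k) ≤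
        Fintype.card I * (7.3 * ∑ v, f v ^ 2) := mul_le_mul_of_nonneg_left hB hd
    rw [Fintype.card_prod, Fintype.card_fin, Nat.cast_mul]
    have h2 : (17.3 : ℝ) / 18 * ((Fintype.card I : ℝ) * ((18 : ℕ) : ℝ) * ∑ v, f v ^ 2) =
        17.3 * (Fintype.card I * ∑ v, f v ^ 2) := by
      push_cast
      ring
    rw [h2]
    linarith [hA.2]

end Pool.Agent.Lib.MP_0b8c1e_lc.PC
end
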