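import Pool.Agent.Lib.MP_0b8c1e_lc.Mg.G001
import Pool.Agent.Lib.MP_0b8c1e_lc.Mg.G009

section

set_option autoImplicit false

namespace Pool.Agent.Lib.MP_0b8c1e_lc.PC

open Finset

private theorem X7a_empty {Φ : Type*} [Fintype Φ] [DecidableEq Φ] (h : Fintype.card Φ ≤ 1) :
    Exp6 (fun p : Φ × Fin 9 => p) := by
  refine ⟨fun _ => rfl, fun T hT => ?_⟩
  have : #T = 0 := by omega
  rw [this]
  exact Nat.zero_le _

private theorem X7a_succ (m : ℕ) (hm : m + 2 ≤ 3) :
    Exp6 (fun p : Fin (m + 2) × Fin 9 =>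
      if p.2 = 0 then (p.1 + 1, (1 : Fin 9)) else if p.2 = 1 then (p.1 - 1, 0) else p) := by
  constructor
  · rintro ⟨v, i⟩
    have h10 : ¬ ((1 : Fin 9) = 0) := by decide
    by_cases h0 : i = 0
    · subst h0
      simp [h10]
    · by_cases h1 : i = 1
      · subst h1
        simp [h10]
      · simp [h0, h1]
  · intro T hT
    rw [Fintype.card_fin] at hT
    have hT1 : #T ≤ 1 := by omega
    rcases Nat.eq_zero_or_pos (#T) with h | h
    · rw [h]
      exact Nat.zero_le _
    · have h1 : #T = 1 := by omega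
      obtain ⟨v, hv⟩ := Finset.card_eq_one.1 h1
      have hmem : (v, (0 : Fin 9)) ∈ ((univ : Finset (Fin (m + 2) × Fin 9)).filter fun p => p.1 ∈ T ∧
          ((fun p : Fin (m + 2) × Fin 9 =>
            if p.2 = 0 then (p.1 + 1, (1 : Fin 9)) else if p.2 = 1 then (p.1 - 1, 0) else p) p).1 ∉ T) := by
        rw [Finset.mem_filter]
        refine ⟨Finset.mem_univ _, ?_, ?_⟩
        · rw [hv]; exact Finset.mem_singleton_self v
        · rw [hv]
          simp
      have hpos := Finset.card_pos.2 ⟨_, hmem⟩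
      omega

/-- TASK X7a. At most 3 elements. Proof. On `Fin n` with `1 ≤ n ≤ 3` (for `n = 0` everything is
trivial) let `R (v, 0) = (v + 1, 1)`, `R (v, 1) = (v - 1, 0)` and `R p = p` for the other labels.
`T` has at most one element `v`, and if it has one then `n ≥ 2`, and the dart `(v, 0)` leaves `T`.
Transport to `Φ` along `Fintype.equivFin` (or prove it for `Fin n` by `decide` for every `n`). -/
theorem exp6_small {n : ℕ} (hn : n ≤ 3) : ∃ R : Fin n × Fin 9 → Fin n × Fin 9, Exp6 R := by
  rcases n with _ | _ | m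
  · exact ⟨_, X7a_empty (by simp)⟩
  · exact ⟨_, X7a_empty (by simp)⟩
  · exact ⟨_, X7a_succ m hn⟩

end Pool.Agent.Lib.MP_0b8c1e_lc.PC
end

section

set_option autoImplicit false

namespace Pool.Agent.Lib.MP_0b8c1e_lc.PC

open Finset

/-- TASK X6. Edge expansion.

Proof. Let `n = card V`, `s = #S`, `f = 1_S - s / n`; then `∑ f = 0`, `∑ f ^ 2 = s (1 - s / n)`.
For every label `k` the map `v ↦ X v k` is a bijection (its inverse is `v ↦ X v (bk k)`, `bk` is an
involution: `bk (bk k) = k` by `decide`), so `∑_v f v f (X v k) = ∑_v 1_S v 1_S (X v k) - s ^ 2 / n`.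
Summing over `k`: `∑_v ∑_k 1_S v 1_S (X v k) = 8 s - e`, where `e` is the number of darts leaving
`S`. So `8 s - e - 8 s ^ 2 / n ≤ 7.3 s (1 - s / n)`, that is `e ≥ 0.7 s (1 - s / n) ≥ 0.35 s`. -/
theorem xexp_edge {V : Type*} [Fintype V] [DecidableEq V] {X : V → Fin 8 → V} (hX : XExp X)
    (S : Finset V) (hS : 2 * #S ≤ Fintype.card V) :
    0.35 * (#S : ℝ) ≤ #((univ : Finset (V × Fin 8)).filter fun p => p.1 ∈ S ∧ X p.1 p.2 ∉ S) := by
  classical
  obtain hn | hn := Nat.eq_zero_or_pos (Fintype.card V)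
  · have h0 : #S = 0 := by omega
    rw [h0]
    simp
  set n : ℝ := (Fintype.card V : ℝ) with hndef
  have hnpos : 0 < n := by
    rw [hndef]
    exact_mod_cast hn
  set s : ℝ := (#S : ℝ) with hsdef
  set c : ℝ := s / n with hc
  have hcn : n * c = s := by
    rw [hc]
    field_simp
  have hs2 : 2 * s ≤ n := by
    rw [hsdef, hndef]
    exact_mod_cast hS
  have hs0 : 0 ≤ s := by
    rw [hsdef]
    positivity
  let g : V → ℝ := fun v => if v ∈ S then 1 else 0
  have hg : ∑ v, g v = s := by
    show ∑ v, (if v ∈ S then (1 : ℝ) else 0) = s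
    rw [Finset.sum_ite_mem, Finset.univ_inter, Finset.sum_const, nsmul_eq_mul, mul_one]
  have hone : ∑ _v : V, (1 : ℝ) = n := by
    rw [Finset.sum_const, nsmul_eq_mul, mul_one, Finset.card_univ]
  have hgg : ∀ v, g v * g v = g v := by
    intro v
    show (if v ∈ S then (1 : ℝ) else 0) * (if v ∈ S then (1 : ℝ) else 0) = if v ∈ S then (1 : ℝ) else 0
    split_ifs <;> norm_num
  -- the bijections
  have hbij : ∀ k : Fin 8, ∑ v, g (X v k) = s := by
    intro k
    have hinj : Function.Injective (fun v => X v k) := by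
      intro v w h
      have h1 : X v k = X w k := h
      rw [← hX.inv v k, h1, hX.inv w k]
    rw [← hg]
    exact Function.Bijective.sum_comp (Finite.injective_iff_bijective.1 hinj) g
  have hsum0 : ∑ v, (g v - c) = 0 := by
    rw [Finset.sum_sub_distrib, hg, Finset.sum_const, nsmul_eq_mul, Finset.card_univ, ← hndef, hcn, sub_self]
  have hsq : ∑ v, (g v - c) ^ 2 = s - c * s := by
    have e1 : ∀ v, (g v - c) ^ 2 = g v - 2 * c * g v + c ^ 2 * 1 := by
      intro v
      have := hgg v
      linear_combination this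
    rw [Finset.sum_congr rfl (fun v _ => e1 v), Finset.sum_add_distrib, Finset.sum_sub_distrib,
      ← Finset.mul_sum, ← Finset.mul_sum, hg, hone]
    linear_combination c * hcn
  have hspec := hX.spec (fun v => g v - c) hsum0
  -- the number of darts leaving the set
  have he : ((#((univ : Finset (V × Fin 8)).filter fun p => p.1 ∈ S ∧ X p.1 p.2 ∉ S) : ℕ) : ℝ) =
      ∑ v, ∑ k, (g v - g v * g (X v k)) := by
    rw [Finset.card_filter, Nat.cast_sum, Fintype.sum_prod_type]
    apply Finset.sum_congr rfl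
    intro v _
    apply Finset.sum_congr rfl
    intro k _
    show (((if v ∈ S ∧ X v k ∉ S then 1 else 0 : ℕ)) : ℝ) =
      (if v ∈ S then (1 : ℝ) else 0) - (if v ∈ S then (1 : ℝ) else 0) * (if X v k ∈ S then (1 : ℝ) else 0)
    by_cases h1 : v ∈ S <;> by_cases h2 : X v k ∈ S <;> simp [h1, h2]
  have hexp : ∑ v, ∑ k : Fin 8, (g v - c) * (g (X v k) - c) =
      ∑ v, ∑ k : Fin 8, g v * g (X v k) - 8 * c * s := by
    have e1 : ∀ v, ∀ k : Fin 8, (g v - c) * (g (X v k) - c) =
        g v * g (X v k) - c * g v - c * g (X v k) + c ^ 2 * 1 := by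
      intro v k
      ring
    have e2 : ∑ v, ∑ k : Fin 8, g (X v k) = 8 * s := by
      rw [Finset.sum_comm, Finset.sum_congr rfl (fun k _ => hbij k), Finset.sum_const,
        Finset.card_univ, Fintype.card_fin, nsmul_eq_mul]
      norm_num
    have e3 : ∑ v, ∑ _k : Fin 8, g v = 8 * s := by
      simp only [Finset.sum_const, Finset.card_univ, Fintype.card_fin, nsmul_eq_mul]
      rw [← Finset.mul_sum, hg]
      norm_num
    have e4 : ∑ _v : V, ∑ _k : Fin 8, (1 : ℝ) = 8 * n := by
      simp only [Finset.sum_const, Finset.card_univ, Fintype.card_fin, nsmul_eq_mul]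
      rw [← hndef]
      norm_num
      ring
    simp only [e1, Finset.sum_add_distrib, Finset.sum_sub_distrib, ← Finset.mul_sum]
    rw [e2, e3, e4]
    linear_combination 8 * c * hcn
  have he2 : ∑ v, ∑ k : Fin 8, (g v - g v * g (X v k)) = 8 * s - ∑ v, ∑ k : Fin 8, g v * g (X v k) := by
    simp only [Finset.sum_sub_distrib, Finset.sum_const, Finset.card_univ, Fintype.card_fin, nsmul_eq_mul]
    rw [← Finset.mul_sum, hg]
    norm_num
  rw [he, he2]
  have h1 : ∑ v, ∑ k : Fin 8, (g v - c) * (g (X v k) - c) ≤ 7.3 * (s - c * s) := by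
    rw [← hsq]
    exact hspec
  rw [hexp] at h1
  have hcs : c * s ≤ s / 2 := by
    have h2 : c ≤ 1 / 2 := by
      rw [hc, div_le_iff₀ hnpos]
      linarith
    nlinarith
  linarith

end Pool.Agent.Lib.MP_0b8c1e_lc.PC
end

section

set_option autoImplicit false

namespace Pool.Agent.Lib.MP_0b8c1e_lc.PC

open Finset

open Classical in
/-- the rotation map of the core with extra vertices -/
private noncomputable def X7b_R {C E : Type*} (X : C → Fin 8 → C) (att : E → C) :
    (C ⊕ E) × Fin 9 → (C ⊕ E) × Fin 9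
  | (Sum.inl c, k) =>
      if h : k.val < 8 then (Sum.inl (X c ⟨k.val, h⟩), ⟨(bk ⟨k.val, h⟩).val, by omega⟩)
      else if h' : ∃ e, att e = c then (Sum.inr h'.choose, 0) else (Sum.inl c, k)
  | (Sum.inr e, k) => if k = 0 then (Sum.inl (att e), 8) else (Sum.inr e, k)

private theorem X7b_inl_lt {C E : Type*} (X : C → Fin 8 → C) (att : E → C) (c : C) (k : Fin 9)
    (h : k.val < 8) : X7b_R X att (Sum.inl c, k) =
      (Sum.inl (X c ⟨k.val, h⟩), ⟨(bk ⟨k.val, h⟩).val, by omega⟩) := by
  simp only [X7b_R]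
  rw [dif_pos h]

private theorem X7b_inl_ex {C E : Type*} (X : C → Fin 8 → C) (att : E → C)
    (hatt : Function.Injective att) (e : E) :
    X7b_R X att (Sum.inl (att e), 8) = (Sum.inr e, 0) := by
  simp only [X7b_R]
  have h' : ∃ e', att e' = att e := ⟨e, rfl⟩
  have hc : h'.choose = e := hatt h'.choose_spec
  rw [dif_neg (by decide), dif_pos h', hc]

private theorem X7b_inl_nex {C E : Type*} (X : C → Fin 8 → C) (att : E → C) (c : C)
    (h : ¬ ∃ e, att e = c) : X7b_R X att (Sum.inl c, 8) = (Sum.inl c, 8) := by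
  simp only [X7b_R]
  rw [dif_neg (by decide), dif_neg h]

private theorem X7b_inr_zero {C E : Type*} (X : C → Fin 8 → C) (att : E → C) (e : E) :
    X7b_R X att (Sum.inr e, 0) = (Sum.inl (att e), 8) := by
  simp only [X7b_R, if_true]

private theorem X7b_inr_ne {C E : Type*} (X : C → Fin 8 → C) (att : E → C) (e : E) (k : Fin 9)
    (h : k ≠ 0) : X7b_R X att (Sum.inr e, k) = (Sum.inr e, k) := by
  simp only [X7b_R]
  rw [if_neg h]

private theorem X7b_bk (k : Fin 8) : bk (bk k) = k := by
  revert k; decide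

private theorem X7b_inv {C E : Type*} [Fintype C] {X : C → Fin 8 → C} (hX : XExp X) (att : E → C)
    (hatt : Function.Injective att) (p : (C ⊕ E) × Fin 9) :
    X7b_R X att (X7b_R X att p) = p := by
  obtain ⟨v, k⟩ := p
  rcases v with c | e
  · by_cases h : k.val < 8
    · rw [X7b_inl_lt X att c k h]
      have h2 : (⟨(bk ⟨k.val, h⟩).val, by omega⟩ : Fin 9).val < 8 := (bk ⟨k.val, h⟩).isLt
      rw [X7b_inl_lt X att _ _ h2]
      have e1 : (⟨(⟨(bk ⟨k.val, h⟩).val, by omega⟩ : Fin 9).val, h2⟩ : Fin 8) = bk ⟨k.val, h⟩ := by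
        apply Fin.ext; rfl
      have e2 : bk (⟨(⟨(bk ⟨k.val, h⟩).val, by omega⟩ : Fin 9).val, h2⟩ : Fin 8)
          = ⟨k.val, h⟩ := by
        rw [e1, X7b_bk]
      apply Prod.ext
      · change (Sum.inl (X (X c ⟨k.val, h⟩) ⟨(⟨(bk ⟨k.val, h⟩).val, by omega⟩ : Fin 9).val, h2⟩)
          : C ⊕ E) = Sum.inl c
        rw [e1, hX.inv]
      · apply Fin.ext
        change (bk (⟨(⟨(bk ⟨k.val, h⟩).val, by omega⟩ : Fin 9).val, h2⟩ : Fin 8)).val = k.val
        rw [e2]
    · have hk : k = 8 := by
        apply Fin.ext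
        have := k.isLt
        change k.val = 8
        omega
      subst hk
      by_cases hex : ∃ e, att e = c
      · obtain ⟨e, rfl⟩ := hex
        rw [X7b_inl_ex X att hatt, X7b_inr_zero]
      · rw [X7b_inl_nex X att c hex, X7b_inl_nex X att c hex]
  · by_cases hk : k = 0
    · subst hk
      rw [X7b_inr_zero, X7b_inl_ex X att hatt]
    · rw [X7b_inr_ne X att e k hk, X7b_inr_ne X att e k hk]

private theorem X7b_core {C E : Type*} [Fintype C] [DecidableEq C] [Fintype E] [DecidableEq E]
    {X : C → Fin 8 → C} (hX : XExp X) (att : E → C) (hatt : Function.Injective att)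
    (A : Finset (C ⊕ E)) (hA : 2 * #((univ : Finset C).filter fun c => Sum.inl c ∈ A) ≤
      Fintype.card C) :
    #A ≤ 6 * #((univ : Finset ((C ⊕ E) × Fin 9)).filter fun p =>
      p.1 ∈ A ∧ (X7b_R X att p).1 ∉ A) := by
  set A1 : Finset C := (univ : Finset C).filter fun c => Sum.inl c ∈ A with hA1
  set A2 : Finset E := (univ : Finset E).filter fun e => Sum.inr e ∈ A with hA2
  set B1 : Finset (C × Fin 8) :=
    (univ : Finset (C × Fin 8)).filter fun p => p.1 ∈ A1 ∧ X p.1 p.2 ∉ A1 with hB1
  set B2 : Finset E := A2.filter fun e => att e ∉ A1 with hB2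
  have hexp := xexp_edge hX A1 hA
  rw [← hB1] at hexp
  have hcard : #A = #A1 + #A2 := by
    have hd : A = (A1.map ⟨Sum.inl, Sum.inl_injective⟩) ∪
        (A2.map ⟨Sum.inr, Sum.inr_injective⟩) := by
      ext x
      rcases x with c | e
      · simp [hA1]
      · simp [hA2]
    have hdis : Disjoint (A1.map (⟨Sum.inl, Sum.inl_injective⟩ : C ↪ C ⊕ E))
        (A2.map ⟨Sum.inr, Sum.inr_injective⟩) := by
      rw [Finset.disjoint_left]
      intro x hx hy
      simp only [Finset.mem_map, Function.Embedding.coeFn_mk] at hx hy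
      obtain ⟨a, _, rfl⟩ := hx
      obtain ⟨b, _, hb⟩ := hy
      exact Sum.inr_ne_inl hb
    have h3 := Finset.card_union_of_disjoint hdis
    rw [← hd, Finset.card_map, Finset.card_map] at h3
    exact h3
  have hy : #A2 ≤ #A1 + #B2 := by
    have h1 : #B2 + #(A2.filter fun e => ¬ att e ∉ A1) = #A2 := by
      rw [hB2]
      exact Finset.card_filter_add_card_filter_not (s := A2) (fun e => att e ∉ A1)
    have h2 : #(A2.filter fun e => ¬ att e ∉ A1) ≤ #A1 := by
      apply Finset.card_le_card_of_injOn att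
      · intro e he
        have he' := (Finset.mem_filter.mp (Finset.mem_coe.mp he)).2
        exact Finset.mem_coe.mpr (not_not.mp he')
      · exact hatt.injOn
    omega
  have hbd : #B1 + #B2 ≤ #((univ : Finset ((C ⊕ E) × Fin 9)).filter fun p =>
      p.1 ∈ A ∧ (X7b_R X att p).1 ∉ A) := by
    let f1 : C × Fin 8 → (C ⊕ E) × Fin 9 := fun p => (Sum.inl p.1, ⟨p.2.val, by omega⟩)
    let f2 : E → (C ⊕ E) × Fin 9 := fun e => (Sum.inr e, 0)
    have i1 : Function.Injective f1 := by
      intro p q h
      have h1 := congrArg Prod.fst h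
      have h2 := congrArg Prod.snd h
      have h3 : p.1 = q.1 := Sum.inl_injective h1
      have h4 : p.2.val = q.2.val := congrArg (fun x : Fin 9 => x.val) h2
      exact Prod.ext h3 (Fin.ext h4)
    have i2 : Function.Injective f2 := by
      intro p q h
      have h1 := congrArg Prod.fst h
      exact Sum.inr_injective h1
    have hdis : Disjoint (B1.image f1) (B2.image f2) := by
      rw [Finset.disjoint_left]
      intro x hx hy
      obtain ⟨a, _, rfl⟩ := Finset.mem_image.mp hx
      obtain ⟨b, _, hb⟩ := Finset.mem_image.mp hy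
      have h1 := congrArg Prod.fst hb
      exact Sum.inr_ne_inl h1
    have hc : #(B1.image f1 ∪ B2.image f2) = #B1 + #B2 := by
      rw [Finset.card_union_of_disjoint hdis, Finset.card_image_of_injective _ i1,
        Finset.card_image_of_injective _ i2]
    rw [← hc]
    apply Finset.card_le_card
    intro x hx
    rw [Finset.mem_filter]
    refine ⟨Finset.mem_univ _, ?_⟩
    rcases Finset.mem_union.mp hx with hx | hx
    · obtain ⟨⟨c, k⟩, hck, rfl⟩ := Finset.mem_image.mp hx
      have h1 := (Finset.mem_filter.mp hck).2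
      have h2 : Sum.inl c ∈ A := (Finset.mem_filter.mp h1.1).2
      have h3 : (Sum.inl (X c k) : C ⊕ E) ∉ A := by
        intro h4
        exact h1.2 (Finset.mem_filter.mpr ⟨Finset.mem_univ _, h4⟩)
      refine ⟨h2, ?_⟩
      change (X7b_R X att (Sum.inl c, (⟨k.val, by omega⟩ : Fin 9))).1 ∉ A
      rw [X7b_inl_lt X att c _ k.isLt]
      exact h3
    · obtain ⟨e, he, rfl⟩ := Finset.mem_image.mp hx
      have h1 := Finset.mem_filter.mp he
      have h2 : Sum.inr e ∈ A := (Finset.mem_filter.mp h1.1).2
      refine ⟨h2, ?_⟩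
      change (X7b_R X att (Sum.inr e, 0)).1 ∉ A
      rw [X7b_inr_zero]
      intro h4
      exact h1.2 (Finset.mem_filter.mpr ⟨Finset.mem_univ _, h4⟩)
  have hr : (#A : ℝ) ≤ 6 * (#((univ : Finset ((C ⊕ E) × Fin 9)).filter fun p =>
      p.1 ∈ A ∧ (X7b_R X att p).1 ∉ A) : ℝ) := by
    have e1 : (#A : ℝ) = #A1 + #A2 := by exact_mod_cast hcard
    have e2 : (#A2 : ℝ) ≤ #A1 + #B2 := by exact_mod_cast hy
    have e3 : (#B1 : ℝ) + #B2 ≤ (#((univ : Finset ((C ⊕ E) × Fin 9)).filter fun p =>
      p.1 ∈ A ∧ (X7b_R X att p).1 ∉ A) : ℝ) := by exact_mod_cast hbd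
    have e4 : (0 : ℝ) ≤ #A1 := Nat.cast_nonneg _
    have e5 : (0 : ℝ) ≤ #B2 := Nat.cast_nonneg _
    linarith
  exact_mod_cast hr

/-- TASK X7b. The core with extra vertices.

Let `C` be the core with an 8-regular expander `X` and `E` the extra vertices, attached to
different vertices of the core by `att : E → C`. The rotation map `R` on `(C ⊕ E) × Fin 9`:
`R (c, k) = (X c k, bk k)` for `k < 8`, `R (inl (att e), 8) = (inr e, 0)`, `R (inr e, 0) = (att e, 8)`,
all other darts are half-loops.

Proof. `R` is an involution (`att` is injective). For `A ⊆ C ⊕ E` let `x` be the number of core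
vertices in `A` and `∂ A` the number of darts leaving `A`. Claim: if `2 x ≤ card C` then
`#A ≤ 6 ∂ A`. By `xexp_edge` the darts with labels `< 8` contribute at least `0.35 x`. Let `t` be
the number of the `e ∈ E` with `e ∈ A` and `att e ∈ A`, so `t ≤ x`, and let `y` be the number of
extra vertices in `A`; the `y - t` others have a dart `(e, 0)` leaving `A`. So
`∂ A ≥ 0.35 x + (y - t)`, and `#A = x + y ≤ 2 x + (y - t) ≤ 6 ∂ A`.
Now let `2 #T ≤ card (C ⊕ E)`. If the core part of `T` is at most half of `C`, take `A = T`.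
Otherwise take `A = Tᶜ`, whose core part is at most half of `C`; `∂ Tᶜ = ∂ T` (`R` is a bijection
between the darts leaving `T` and those leaving `Tᶜ`), and `#T ≤ #Tᶜ`. -/
theorem exp6_attach {C E : Type*} [Fintype C] [DecidableEq C] [Fintype E] [DecidableEq E]
    {X : C → Fin 8 → C} (hX : XExp X) (att : E → C) (hatt : Function.Injective att) :
    ∃ R : (C ⊕ E) × Fin 9 → (C ⊕ E) × Fin 9, Exp6 R := by
  refine ⟨X7b_R X att, X7b_inv hX att hatt, ?_⟩
  intro T hT
  by_cases hA : 2 * #((univ : Finset C).filter fun c => Sum.inl c ∈ T) ≤ Fintype.card C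
  · exact X7b_core hX att hatt T hA
  · have hA' : 2 * #((univ : Finset C).filter fun c => Sum.inl c ∈ Tᶜ) ≤ Fintype.card C := by
      have h1 := Finset.card_filter_add_card_filter_not (s := (univ : Finset C))
        (fun c => (Sum.inl c : C ⊕ E) ∈ T)
      have h2 : ((univ : Finset C).filter fun c => (Sum.inl c : C ⊕ E) ∈ Tᶜ) =
          (univ : Finset C).filter fun c => ¬ (Sum.inl c : C ⊕ E) ∈ T := by
        ext c
        simp
      rw [h2]
      rw [Finset.card_univ] at h1
      omega
    have h1 := X7b_core hX att hatt Tᶜ hA'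
    have h2 : #((univ : Finset ((C ⊕ E) × Fin 9)).filter fun p =>
        p.1 ∈ Tᶜ ∧ (X7b_R X att p).1 ∉ Tᶜ) ≤
        #((univ : Finset ((C ⊕ E) × Fin 9)).filter fun p =>
          p.1 ∈ T ∧ (X7b_R X att p).1 ∉ T) := by
      apply Finset.card_le_card_of_injOn (X7b_R X att)
      · intro p hp
        have hp' := (Finset.mem_filter.mp (Finset.mem_coe.mp hp)).2
        apply Finset.mem_coe.mpr
        rw [Finset.mem_filter]
        refine ⟨Finset.mem_univ _, ?_, ?_⟩
        · by_contra h3
          exact hp'.2 (Finset.mem_compl.mpr h3)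
        · rw [X7b_inv hX att hatt]
          exact Finset.mem_compl.mp hp'.1
      · intro p _ q _ hpq
        have := congrArg (X7b_R X att) hpq
        rwa [X7b_inv hX att hatt, X7b_inv hX att hatt] at this
    have h3 : #T ≤ #Tᶜ := by
      rw [Finset.card_compl]
      omega
    omega

end Pool.Agent.Lib.MP_0b8c1e_lc.PC
end

section

set_option autoImplicit false

namespace Pool.Agent.Lib.MP_0b8c1e_lc.PC

open Finset DS

variable {V I S : Type*} [Inhabited S] {G : DS V I S} {M : ℕ}

omit [Inhabited S] in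
private theorem W2_len (v : V) (ℓ : Fin (2 * M - 1)) (p : List I) (hp : p.length = 2 * M - 1) :
    (G.back v (p.take (ℓ + 1)) ++ p.drop (ℓ + 1)).length = 2 * M - 1 := by
  rw [List.length_append, back_length, ← List.length_append, List.take_append_drop, hp]

omit [Inhabited S] in
private theorem W2_powRot (v : V) (ℓ : Fin (2 * M - 1)) (p : List I) (hp : p.length = 2 * M - 1) :
    powRot G M (v, (ℓ, ⟨p, hp⟩)) = (G.walk v (p.take (ℓ + 1)),
      (ℓ, ⟨G.back v (p.take (ℓ + 1)) ++ p.drop (ℓ + 1), W2_len v ℓ p hp⟩)) := by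
  have h := W2_len (G := G) v ℓ p hp
  unfold powRot
  simp only [h, if_true]

/-- TASK W2a. Proof. For `(v, (ℓ, p))` let `l = p.take (ℓ + 1)` (of length `ℓ + 1`, as
`ℓ + 1 ≤ 2 M - 1 = p.length`) and `r = p.drop (ℓ + 1)`. The condition in `powRot` holds
(`back_length`), so the image is `(walk v l, (ℓ, back v l ++ r))`. `List.take_left'`,
`List.drop_left'` give the pieces of the new list; `walk_back` and `back_back` and `l ++ r = p`. -/
theorem powDS_inv (hG : G.Inv) : (powDS G M).Inv := by
  rintro ⟨v, ℓ, ⟨p, hp⟩⟩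
  change powRot G M (powRot G M (v, (ℓ, ⟨p, hp⟩))) = (v, (ℓ, ⟨p, hp⟩))
  have hl : (p.take (ℓ + 1)).length = ℓ + 1 := by
    rw [List.length_take, hp]
    have := ℓ.isLt
    omega
  have hb : (G.back v (p.take (ℓ + 1))).length = ℓ + 1 := by rw [back_length, hl]
  have h1 : (G.back v (p.take (ℓ + 1)) ++ p.drop (ℓ + 1)).take (ℓ + 1) =
      G.back v (p.take (ℓ + 1)) := List.take_left' hb
  have h2 : (G.back v (p.take (ℓ + 1)) ++ p.drop (ℓ + 1)).drop (ℓ + 1) = p.drop (ℓ + 1) :=
    List.drop_left' hb
  rw [W2_powRot, W2_powRot]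
  refine Prod.ext ?_ (Prod.ext rfl (Subtype.ext ?_))
  · simp only
    rw [h1, walk_back G hG]
  · simp only
    rw [h1, h2, back_back G hG, List.take_append_drop]

end Pool.Agent.Lib.MP_0b8c1e_lc.PC
end

section

set_option autoImplicit false

namespace Pool.Agent.Lib.MP_0b8c1e_lc.PC

open Finset DS

variable {V I S : Type*} [Inhabited S] {G : DS V I S} {M : ℕ}

private theorem W3_at (φ : List I → S) (l : List I) (hl : l.length < M) :
    Opin.at (M := M) (fun l : {l : List I // l.length < M} => φ l.1) l = φ l := by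
  unfold Opin.at
  rw [dif_pos hl]

/-- TASK W2b. Completeness. Proof. If `σ` satisfies all constraints of `G` let
`τ v l = σ (G.walk v l)`, so `(τ v).at l = σ (G.walk v l)` for `l.length < M`. Consider the dart
`(v, (ℓ, p))`, `l = p.take (ℓ + 1)`, and `i < ℓ + 1` with `i < M`, `ℓ - i < M`. Write
`l = l.take i ++ a :: l.drop (i + 1)`; the constraint of step `i` is `G.con (u, a)` with
`u = walk v (l.take i)` (`cons_getD`; `(l.take i).length = i`), the opinion of the start about
`l.take i` is `σ u`, and the opinion of the end about the list `(back v l).take (ℓ - i)` is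
`σ (walk v (l.take (i + 1)))` (`walk_back_take` for `i + 1`, as `ℓ - i = l.length - (i + 1)`), which
is `σ (rot (u, a)).1`. As no constraint of `G` is violated by `σ`, the constraint holds. -/
theorem powDS_sat [Fintype V] [Fintype I] (hG : G.Inv) (h : G.Sat) : (powDS G M).Sat := by
  obtain ⟨σ, hσ⟩ := h
  have hcon : ∀ u a, G.con (u, a) (σ u) (σ (G.rot (u, a)).1) = true := by
    intro u a
    by_contra hne
    have h1 : (u, a) ∈ G.bad σ := by
      unfold DS.bad
      rw [Finset.mem_filter]
      exact ⟨Finset.mem_univ _, by simpa using hne⟩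
    rw [hσ] at h1
    exact absurd h1 (Finset.notMem_empty _)
  refine ⟨fun v l => σ (G.walk v l.1), ?_⟩
  unfold DS.bad
  rw [Finset.filter_eq_empty_iff]
  rintro ⟨v, ℓ, q⟩ _
  have key : (powDS G M).con (v, (ℓ, q)) (fun l => σ (G.walk v l.1))
      (fun l => σ (G.walk (G.walk v (q.1.take (ℓ + 1))) l.1)) = true := by
    show powCon M ℓ (q.1.take (ℓ + 1)) (G.back v (q.1.take (ℓ + 1)))
      (G.cons v (q.1.take (ℓ + 1))) _ _ = true
    unfold powCon
    refine decide_eq_true ?_
    intro i hi hiM hjM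
    have hq : q.1.length = 2 * M - 1 := q.2
    have hℓ : (ℓ : ℕ) < 2 * M - 1 := ℓ.2
    set l := q.1.take (ℓ + 1) with hl
    have hlen : l.length = ℓ + 1 := by
      rw [hl, List.length_take, hq]
      omega
    have hi' : i < l.length := by omega
    have hdec : l = l.take i ++ l[i] :: l.drop (i + 1) := by
      rw [← List.drop_eq_getElem_cons hi', List.take_append_drop]
    have htl : (l.take i).length = i := by
      rw [List.length_take]
      omega
    have e1 : (G.cons v l).getD i (fun _ _ => true) = G.con (G.walk v (l.take i), l[i]) := by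
      have := cons_getD G v (l.take i) (l.drop (i + 1)) l[i] (fun _ _ => true)
      rw [← hdec, htl] at this
      exact this
    have e2 : Opin.at (M := M) (fun l : {l : List I // l.length < M} => σ (G.walk v l.1)) (l.take i) =
        σ (G.walk v (l.take i)) :=
      W3_at (fun l => σ (G.walk v l)) (l.take i) (by rw [htl]; exact hiM)
    have e3 : Opin.at (M := M)
        (fun l' : {l : List I // l.length < M} => σ (G.walk (G.walk v l) l'.1))
        ((G.back v l).take (ℓ - i)) = σ (G.walk (G.walk v l) ((G.back v l).take (ℓ - i))) :=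
      W3_at (fun l' => σ (G.walk (G.walk v l) l')) _ (by
        rw [List.length_take, back_length]
        omega)
    have e4 : G.walk (G.walk v l) ((G.back v l).take (ℓ - i)) = G.walk v (l.take (i + 1)) := by
      have := walk_back_take G hG v l (i + 1) (by omega)
      rw [hlen, show (ℓ : ℕ) + 1 - (i + 1) = ℓ - i by omega] at this
      exact this
    have e5 : G.walk v (l.take (i + 1)) = (G.rot (G.walk v (l.take i), l[i])).1 := by
      rw [List.take_succ_eq_append_getElem hi', walk_append]
      rfl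
    rw [e1, e2, e3, e4, e5]
    exact hcon _ _
  intro hfalse
  have h2 : (powDS G M).con (v, (ℓ, q)) (fun l => σ (G.walk v l.1))
      (fun l => σ (G.walk (G.walk v (q.1.take (ℓ + 1))) l.1)) = false := hfalse
  rw [key] at h2
  exact absurd h2 (by decide)

end Pool.Agent.Lib.MP_0b8c1e_lc.PC
end

section

set_option autoImplicit false

namespace Pool.Agent.Lib.MP_0b8c1e_lc.PC

open Finset DS

variable {V I P : Type*} [Fintype I]

/-- TASK W4a (the lemmas up to `sumL_add_length`). Induction on `k`. -/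
theorem sumL_const (k : ℕ) (x : ℝ) : sumL (I := I) k (fun _ => x) = (Fintype.card I : ℝ) ^ k * x := by
  induction k with
  | zero => simp [sumL]
  | succ k ih =>
    change ∑ _i : I, sumL k (fun _ => x) = _
    rw [ih, Finset.sum_const, Finset.card_univ, nsmul_eq_mul, pow_succ]
    ring

theorem sumL_add (k : ℕ) (f g : List I → ℝ) :
    sumL k (fun l => f l + g l) = sumL k f + sumL k g := by
  induction k generalizing f g with
  | zero => rfl
  | succ k ih =>
    change ∑ i : I, sumL k (fun l => f (i :: l) + g (i :: l)) =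
      (∑ i : I, sumL k (fun l => f (i :: l))) + ∑ i : I, sumL k (fun l => g (i :: l))
    rw [← Finset.sum_add_distrib]
    exact Finset.sum_congr rfl (fun i _ => ih _ _)

theorem sumL_mul (k : ℕ) (x : ℝ) (f : List I → ℝ) : sumL k (fun l => x * f l) = x * sumL k f := by
  induction k generalizing f with
  | zero => rfl
  | succ k ih =>
    change ∑ i : I, sumL k (fun l => x * f (i :: l)) = x * ∑ i : I, sumL k (fun l => f (i :: l))
    rw [Finset.mul_sum]
    exact Finset.sum_congr rfl (fun i _ => ih _)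

theorem sumL_sum {α : Type*} (A : Finset α) (k : ℕ) (f : α → List I → ℝ) :
    sumL k (fun l => ∑ a ∈ A, f a l) = ∑ a ∈ A, sumL k (f a) := by
  induction k generalizing f with
  | zero => rfl
  | succ k ih =>
    change ∑ i : I, sumL k (fun l => ∑ a ∈ A, f a (i :: l)) =
      ∑ a ∈ A, ∑ i : I, sumL k (fun l => f a (i :: l))
    rw [Finset.sum_comm]
    exact Finset.sum_congr rfl (fun i _ => ih (fun a l => f a (i :: l)))

/-- Only lists of length `k` matter. -/
theorem sumL_mono (k : ℕ) {f g : List I → ℝ} (h : ∀ l, l.length = k → f l ≤ g l) :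
    sumL k f ≤ sumL k g := by
  induction k generalizing f g with
  | zero => exact h [] rfl
  | succ k ih =>
    change ∑ i : I, sumL k (fun l => f (i :: l)) ≤ ∑ i : I, sumL k (fun l => g (i :: l))
    refine Finset.sum_le_sum (fun i _ => ih (fun l hl => h _ ?_))
    rw [List.length_cons, hl]

theorem sumL_congr (k : ℕ) {f g : List I → ℝ} (h : ∀ l, l.length = k → f l = g l) :
    sumL k f = sumL k g := by
  exact le_antisymm (sumL_mono k (fun l hl => (h l hl).le)) (sumL_mono k (fun l hl => (h l hl).ge))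

theorem sumL_add_length (a b : ℕ) (f : List I → ℝ) :
    sumL (a + b) f = sumL a (fun l => sumL b (fun l' => f (l ++ l'))) := by
  induction a generalizing f with
  | zero =>
    rw [Nat.zero_add]
    rfl
  | succ a ih =>
    rw [Nat.succ_add]
    change ∑ i : I, sumL (a + b) (fun l => f (i :: l)) =
      ∑ i : I, sumL a (fun l => sumL b (fun l' => f ((i :: l) ++ l')))
    refine Finset.sum_congr rfl (fun i _ => ?_)
    rw [ih]
    rfl

/-- TASK W4b. Proof. Induction on `k` for all `f`. `k = 0`: the only list is `[]`. `k + 1`: the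
bijection `I × {l // l.length = k} ≃ {l // l.length = k + 1}`, `(i, l) ↦ i :: l`
(`Fintype.sum_equiv`, `Fintype.sum_prod_type`). -/
theorem sumL_eq (k : ℕ) (f : List I → ℝ) :
    ∑ p : {l : List I // l.length = k}, f p.1 = sumL k f := by
  induction k generalizing f with
  | zero =>
    refine (Fintype.sum_eq_single (⟨[], rfl⟩ : {l : List I // l.length = 0}) ?_).trans rfl
    rintro ⟨l, hl⟩ hne
    exact absurd (Subtype.ext (List.length_eq_zero_iff.1 hl)) hne
  | succ k ih =>
    have hb : Function.Bijective (fun q : I × {l : List I // l.length = k} =>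
        (⟨q.1 :: q.2.1, by rw [List.length_cons, q.2.2]⟩ : {l : List I // l.length = k + 1})) := by
      constructor
      · rintro ⟨i, l, hl⟩ ⟨j, l', hl'⟩ h
        have h1 : i :: l = j :: l' := congrArg Subtype.val h
        rw [List.cons.injEq] at h1
        obtain ⟨rfl, rfl⟩ := h1
        rfl
      · rintro ⟨l, hl⟩
        cases l with
        | nil => exact absurd hl (by simp)
        | cons i l =>
          refine ⟨(i, ⟨l, ?_⟩), rfl⟩
          rw [List.length_cons] at hl
          omega
    rw [← Fintype.sum_bijective _ hb (fun q => f (q.1 :: q.2.1)) (fun p => f p.1) (fun q => rfl),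
      Fintype.sum_prod_type]
    change _ = ∑ i : I, sumL k (fun l => f (i :: l))
    exact Finset.sum_congr rfl (fun i _ => ih (fun l => f (i :: l)))

/-- TASK W4c. Proof. `n = a + b` for `a ≤ n`: `sumL_add_length`, and the inner function depends only
on the first list: `List.take_left'` (`sumL_congr`), `sumL_const`. -/
theorem sumL_take {a n : ℕ} (h : a ≤ n) (f : List I → ℝ) :
    sumL n (fun l => f (l.take a)) = (Fintype.card I : ℝ) ^ (n - a) * sumL a f := by
  obtain ⟨b, rfl⟩ := Nat.exists_eq_add_of_le h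
  rw [sumL_add_length, Nat.add_sub_cancel_left, ← sumL_mul]
  refine sumL_congr a (fun l hl => ?_)
  rw [← sumL_const b (f l)]
  refine sumL_congr b (fun l' _ => ?_)
  rw [List.take_left' hl]

/-- TASK W4d. The reversal of walks. Proof. Induction on `k` for all `f`. `k + 1`: the left side is
`∑_v ∑_i sumL k (fun l => f v (i :: l))`. On the right `walk v (i :: l) = walk v' l` and
`back v (i :: l) = back v' l ++ [j]` with `(v', j) = rot (v, i)`; as `rot` is an involution of
`V × I` (`Fintype.sum_equiv` or `Equiv.sum_comp` with `⟨G.rot, G.rot, hG, hG⟩`), the right side is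
`∑_v' ∑_j sumL k (fun l => f (walk v' l) (back v' l ++ [j]))`, by the induction hypothesis (for
every `j`, for the function `(v, l) ↦ f v (l ++ [j])`)
`∑_j ∑_v sumL k (fun l => f v (l ++ [j]))`, and this is `∑_v sumL (k + 1) (f v)` by
`sumL_add_length k 1` (`sumL 1 g = ∑ j, g [j]`). -/
theorem sumL_reverse [Fintype V] {G : DS V I P} (hG : G.Inv) (k : ℕ) (f : V → List I → ℝ) :
    ∑ v, sumL k (fun l => f (G.walk v l) (G.back v l)) = ∑ v, sumL k (f v) := by
  induction k generalizing f with
  | zero => rfl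
  | succ k ih =>
    change ∑ v, ∑ i : I, sumL k (fun l => f (G.walk (G.rot (v, i)).1 l)
      (G.back (G.rot (v, i)).1 l ++ [(G.rot (v, i)).2])) = ∑ v, sumL (k + 1) (f v)
    rw [← Fintype.sum_prod_type' (f := fun v i => sumL k (fun l => f (G.walk (G.rot (v, i)).1 l)
      (G.back (G.rot (v, i)).1 l ++ [(G.rot (v, i)).2])))]
    have h1 := Equiv.sum_comp (⟨G.rot, G.rot, hG, hG⟩ : V × I ≃ V × I)
      (fun p => sumL k (fun l => f (G.walk p.1 l) (G.back p.1 l ++ [p.2])))
    refine Eq.trans h1 ?_
    rw [Fintype.sum_prod_type, Finset.sum_comm]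
    have h2 : ∀ j : I, ∑ v, sumL k (fun l => f (G.walk v l) (G.back v l ++ [j])) =
        ∑ v, sumL k (fun l => f v (l ++ [j])) := fun j => ih (fun v l => f v (l ++ [j]))
    rw [Finset.sum_congr rfl (fun j _ => h2 j), Finset.sum_comm]
    refine Finset.sum_congr rfl (fun v _ => ?_)
    rw [sumL_add_length, ← sumL_sum]
    rfl

end Pool.Agent.Lib.MP_0b8c1e_lc.PC
end

section

set_option autoImplicit false

namespace Pool.Agent.Lib.MP_0b8c1e_lc.PC

open Finset DS

variable {V I S : Type*} [Fintype V] [Fintype I] [Inhabited S] {G : DS V I S} {M : ℕ}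

/-- TASK W5a. Plurality. Proof. `∑_a opn k u a = (card I) ^ k` (`sumL_sum`, `sumL_const`: for every
list exactly one `a`), so `∑_a ∑_{k < M} opn k u a / (card I) ^ k = M` (`card I > 0`), and some `a`
has at least the average; choose one for every `u`. -/
theorem plurality [Fintype S] [Nonempty I] (τ : V → Opin I S M) : ∃ σ : V → S, ∀ u,
    (M : ℝ) / Fintype.card S ≤ ∑ k ∈ range M, opn G τ k u (σ u) / (Fintype.card I : ℝ) ^ k := by
  classical
  have hI : (0 : ℝ) < Fintype.card I := by
    exact_mod_cast Fintype.card_pos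
  have hS : (0 : ℝ) < Fintype.card S := by
    have : Nonempty S := ⟨default⟩
    exact_mod_cast Fintype.card_pos
  have key : ∀ u k, ∑ a, opn G τ k u a = (Fintype.card I : ℝ) ^ k := by
    intro u k
    unfold opn
    rw [← sumL_sum]
    refine (sumL_congr k (g := fun _ => (1 : ℝ)) fun l _ => ?_).trans ?_
    · rw [Finset.sum_ite_eq]
      simp
    · rw [sumL_const, mul_one]
  have ex : ∀ u, ∃ a : S,
      (M : ℝ) / Fintype.card S ≤ ∑ k ∈ range M, opn G τ k u a / (Fintype.card I : ℝ) ^ k := by
    intro u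
    have hsum : ∑ _a : S, (M : ℝ) / Fintype.card S ≤
        ∑ a : S, ∑ k ∈ range M, opn G τ k u a / (Fintype.card I : ℝ) ^ k := by
      rw [Finset.sum_comm]
      have h2 : ∀ k ∈ range M, ∑ a : S, opn G τ k u a / (Fintype.card I : ℝ) ^ k = 1 := by
        intro k _
        rw [← Finset.sum_div, key u k, div_self (pow_ne_zero _ hI.ne')]
      rw [Finset.sum_congr rfl h2, Finset.sum_const, Finset.sum_const, Finset.card_univ,
        Finset.card_range, nsmul_eq_mul, nsmul_eq_mul, mul_one, mul_div_cancel₀ _ hS.ne']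
    obtain ⟨a, -, ha⟩ := Finset.exists_le_of_sum_le (Finset.univ_nonempty_iff.mpr ⟨default⟩) hsum
    exact ⟨a, ha⟩
  choose σ hσ using ex
  exact ⟨σ, hσ⟩

end Pool.Agent.Lib.MP_0b8c1e_lc.PC
end

section

set_option autoImplicit false

namespace Pool.Agent.Lib.MP_0b8c1e_lc.PC

open Finset DS

variable {V I S : Type*} [Fintype V] [Fintype I] [Inhabited S] {G : DS V I S} {M : ℕ}

omit [Fintype V] [Fintype I] in
/-- The hit condition for a split list. -/
private theorem W5b_hit_iff (τ : V → Opin I S M) (σ : V → S) (F : Finset (V × I)) (v : V)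
    (l₁ : List I) (a : I) (l₂ : List I) :
    Hit G τ σ F v (l₁ ++ [a] ++ l₂) l₁.length ↔
      (G.walk v l₁, a) ∈ F ∧ (τ v).at l₁ = σ (G.walk v l₁) ∧
        (τ (G.walk (G.rot (G.walk v l₁, a)).1 l₂)).at (G.back (G.rot (G.walk v l₁, a)).1 l₂) =
          σ (G.rot (G.walk v l₁, a)).1 := by
  have h1 : (l₁ ++ [a] ++ l₂).take l₁.length = l₁ := by
    rw [List.append_assoc, List.take_left']
    rfl
  have h2 : (l₁ ++ [a] ++ l₂).take (l₁.length + 1) = l₁ ++ [a] := by
    rw [List.take_left']
    simp
  have h3 : (l₁ ++ [a] ++ l₂)[l₁.length]? = some a := by simp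
  have h4 : G.walk v (l₁ ++ [a]) = (G.rot (G.walk v l₁, a)).1 := by
    rw [walk_append]
    rfl
  have h5 : (G.back v (l₁ ++ [a] ++ l₂)).take ((l₁ ++ [a] ++ l₂).length - (l₁.length + 1)) =
      G.back (G.rot (G.walk v l₁, a)).1 l₂ := by
    rw [back_take G v (l₁ ++ [a] ++ l₂) (l₁.length + 1) (by simp), h2, h4]
    congr 1
    rw [List.drop_left']
    simp
  have h6 : G.walk v (l₁ ++ [a] ++ l₂) = G.walk (G.rot (G.walk v l₁, a)).1 l₂ := by
    rw [walk_append, h4]
  unfold Hit
  rw [h1, h2, h3, h4, h5, h6]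
  constructor
  · rintro ⟨b, hb, hF, h⟩
    obtain rfl : a = b := by simpa using hb
    exact ⟨hF, h⟩
  · rintro ⟨hF, h⟩
    exact ⟨a, rfl, hF, h⟩

open scoped Classical in
/-- TASK W5b. The number of walks of length `i + 1 + j` with a hit at step `i`.

Proof. `sumL_add_length` twice: the lists are `l₁ ++ a :: l₂` with `l₁.length = i`,
`l₂.length = j`. Let `u = walk v l₁`, `w = (rot (u, a)).1`; the end of the walk is `walk w l₂`. The
condition `Hit` says `(u, a) ∈ F`, `(τ v).at l₁ = σ u`, `(τ (walk w l₂)).at (back w l₂) = σ w`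
(`back_take`/`back_append`: the first `j` labels of the reverse walk). By `sumL_reverse` (for fixed
`a`; the function is `f v l₁ = ∑_a sumL j ...`) we may replace `(v, l₁)` by
`(walk u q, back u q)`, summed over `u` and lists `q` of length `i`; then `walk v l₁ = u`
(`walk_back`), and the condition is `(τ (walk u q)).at (back u q) = σ u`, `(u, a) ∈ F` and the one
for `w`. The sum factors: `∑_u ∑_a [(u, a) ∈ F] opn i u (σ u) * opn j w (σ w)`. -/
theorem sum_hit (hG : G.Inv) (τ : V → Opin I S M) (σ : V → S) (F : Finset (V × I)) (i j : ℕ) :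
    ∑ v, sumL (i + 1 + j) (fun l => if Hit G τ σ F v l i then (1 : ℝ) else 0) =
      ∑ e ∈ F, opn G τ i e.1 (σ e.1) * opn G τ j (G.rot e).1 (σ (G.rot e).1) := by
  set g : V → ℝ := fun u => ∑ a, if (u, a) ∈ F then
    opn G τ j (G.rot (u, a)).1 (σ (G.rot (u, a)).1) else 0 with hg
  have h1 : ∀ v, sumL (i + 1 + j) (fun l => if Hit G τ σ F v l i then (1 : ℝ) else 0) =
      sumL i (fun l => (if (τ v).at l = σ (G.walk v l) then 1 else 0) * g (G.walk v l)) := by
    intro v
    rw [sumL_add_length, sumL_add_length]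
    refine sumL_congr i fun l₁ hl₁ => ?_
    have e1 : sumL 1 (fun l' => sumL j fun l'' =>
        if Hit G τ σ F v (l₁ ++ l' ++ l'') i then (1 : ℝ) else 0) =
        ∑ a, sumL j fun l'' => if Hit G τ σ F v (l₁ ++ [a] ++ l'') i then (1 : ℝ) else 0 := rfl
    rw [e1, hg]
    simp only
    rw [mul_sum]
    refine Finset.sum_congr rfl fun a _ => ?_
    subst hl₁
    simp only [W5b_hit_iff]
    by_cases hF : (G.walk v l₁, a) ∈ F
    · by_cases hs : (τ v).at l₁ = σ (G.walk v l₁)
      · simp only [hF, hs, true_and, if_true, one_mul]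
        rfl
      · simp only [hs, false_and, and_false, if_false, zero_mul]
        rw [sumL_const, mul_zero]
    · simp only [hF, false_and, if_false, mul_zero]
      rw [sumL_const, mul_zero]
  rw [Finset.sum_congr rfl fun v _ => h1 v]
  rw [← sumL_reverse hG i (fun v l => (if (τ v).at l = σ (G.walk v l) then 1 else 0) * g (G.walk v l))]
  have h2 : ∀ u, sumL i (fun l => (if (τ (G.walk u l)).at (G.back u l) =
      σ (G.walk (G.walk u l) (G.back u l)) then (1 : ℝ) else 0) * g (G.walk (G.walk u l) (G.back u l))) =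
      g u * opn G τ i u (σ u) := by
    intro u
    unfold opn
    rw [← sumL_mul]
    refine sumL_congr i fun l _ => ?_
    rw [walk_back G hG, mul_comm]
  rw [Finset.sum_congr rfl fun u _ => h2 u]
  have h3 : ∀ u, g u * opn G τ i u (σ u) = ∑ a, if (u, a) ∈ F then
      opn G τ i u (σ u) * opn G τ j (G.rot (u, a)).1 (σ (G.rot (u, a)).1) else 0 := by
    intro u
    rw [hg]
    simp only
    rw [sum_mul]
    refine Finset.sum_congr rfl fun a _ => ?_
    split_ifs
    · ring
    · ring
  rw [Finset.sum_congr rfl fun u _ => h3 u, ← Fintype.sum_prod_type', ← Finset.sum_filter]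
  refine Finset.sum_congr ?_ fun e _ => rfl
  ext e
  simp

end Pool.Agent.Lib.MP_0b8c1e_lc.PC
end
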