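import Pool.Agent.Lib.MP_0b8c1e_lc.Mg.G008
import Pool.Agent.Lib.MP_0b8c1e_lc.Mg.G009
import Pool.Agent.Lib.MP_711ea9_lc.LangLemmas

section

set_option autoImplicit false

namespace Pool.Agent.Lib.MP_0b8c1e_lc.PC

open Finset DS

variable {V I S : Type*} [Fintype V] [Fintype I] [Inhabited S] {G : DS V I S} {M : ℕ}

omit [Fintype V] in
private theorem W5c_opn_nonneg (τ : V → Opin I S M) (k : ℕ) (u : V) (a : S) :
    0 ≤ opn G τ k u a := by
  classical
  unfold opn
  have h := sumL_mono (I := I) k (f := fun _ => (0 : ℝ))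
    (g := fun l => if (τ (G.walk u l)).at (G.back u l) = a then (1 : ℝ) else 0)
    (fun l _ => by split_ifs <;> norm_num)
  rw [sumL_const, mul_zero] at h
  convert h

private theorem W5c_hits (hG : G.Inv) (τ : V → Opin I S M) (σ : V → S) (F : Finset (V × I))
    (ℓ : ℕ) :
    ∑ v, sumL (ℓ + 1) (hits G τ σ F v) =
      ∑ i ∈ range (ℓ + 1), if i < M ∧ ℓ - i < M then
        ∑ e ∈ F, opn G τ i e.1 (σ e.1) * opn G τ (ℓ - i) (G.rot e).1 (σ (G.rot e).1) else 0 := by
  classical
  have h1 : ∀ v, sumL (ℓ + 1) (hits G τ σ F v) =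
      ∑ i ∈ range (ℓ + 1), sumL (ℓ + 1) (fun l => if i < M ∧ ℓ - i < M then
        (if Hit G τ σ F v l i then (1 : ℝ) else 0) else 0) := by
    intro v
    rw [← sumL_sum]
    refine sumL_congr _ fun l hl => ?_
    unfold hits
    rw [hl]
    refine Finset.sum_congr rfl fun i hi => ?_
    have e : ℓ + 1 - (i + 1) = ℓ - i := by omega
    rw [e]
    by_cases h2 : i < M ∧ ℓ - i < M
    · by_cases h3 : Hit G τ σ F v l i
      · rw [if_pos ⟨h2.1, h2.2, h3⟩, if_pos h2, if_pos h3]
      · rw [if_neg (fun h => h3 h.2.2), if_pos h2, if_neg h3]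
    · rw [if_neg (fun h => h2 ⟨h.1, h.2.1⟩), if_neg h2]
  rw [Finset.sum_congr rfl fun v _ => h1 v, Finset.sum_comm]
  refine Finset.sum_congr rfl fun i hi => ?_
  have hi' : i < ℓ + 1 := Finset.mem_range.1 hi
  by_cases h2 : i < M ∧ ℓ - i < M
  · simp only [if_pos h2]
    rw [← sum_hit hG τ σ F i (ℓ - i)]
    have e : i + 1 + (ℓ - i) = ℓ + 1 := by omega
    rw [e]
  · simp only [if_neg h2]
    exact Finset.sum_eq_zero fun v _ => by rw [sumL_const, mul_zero]

/-- TASK W5c. The first moment.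

Proof. Let `σ` be as in `plurality`, `d = card I`, `ρ u = ∑_{k < M} opn k u (σ u) / d ^ k ≥ M / s`.
For `ℓ < 2 M - 1` the lists `l` have length `ℓ + 1` and the indices `i` in `hits` with `i < M` and
`j = ℓ - i < M` (`l.length - (i + 1) = ℓ - i`); by `sum_hit` (`ℓ + 1 = i + 1 + j`)
`(∑_v sumL (ℓ + 1) hits) / d ^ ℓ = ∑_{i ≤ ℓ, i < M, ℓ - i < M} ∑_{e ∈ F} (opn i .. / d ^ i) (opn j .. / d ^ j)`.
Summing over `ℓ < 2 M - 1` all pairs `(i, j)` with `i, j < M` appear exactly once (`ℓ = i + j`), so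
the sum is `∑_{e ∈ F} ρ e.1 * ρ (rot e).1 ≥ #F (M / s) ^ 2`. -/
theorem first_moment [Fintype S] [Nonempty I] (hG : G.Inv) (τ : V → Opin I S M) : ∃ σ : V → S,
    ∀ F : Finset (V × I), (#F : ℝ) * (M / Fintype.card S) ^ 2 ≤
      ∑ ℓ ∈ range (2 * M - 1),
        (∑ v, sumL (ℓ + 1) (hits G τ σ F v)) / (Fintype.card I : ℝ) ^ ℓ := by
  classical
  obtain ⟨σ, hσ⟩ := plurality (G := G) τ
  refine ⟨σ, fun F => ?_⟩
  have hd : (0 : ℝ) < Fintype.card I := by exact_mod_cast Fintype.card_pos
  set d : ℝ := (Fintype.card I : ℝ) with hdd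
  set A : V × I → ℕ → ℝ := fun e i => opn G τ i e.1 (σ e.1) / d ^ i with hA
  set B : V × I → ℕ → ℝ := fun e j => opn G τ j (G.rot e).1 (σ (G.rot e).1) / d ^ j with hB
  have hA0 : ∀ e i, 0 ≤ A e i := fun e i => div_nonneg (W5c_opn_nonneg _ _ _ _) (by positivity)
  have hB0 : ∀ e i, 0 ≤ B e i := fun e i => div_nonneg (W5c_opn_nonneg _ _ _ _) (by positivity)
  set g : ℕ → ℕ → ℝ := fun i j => if i < M ∧ j < M then ∑ e ∈ F, A e i * B e j else 0 with hg
  have hg0 : ∀ i j, 0 ≤ g i j := by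
    intro i j
    rw [hg]
    dsimp only
    split_ifs
    · exact Finset.sum_nonneg fun e _ => mul_nonneg (hA0 e i) (hB0 e j)
    · exact le_rfl
  have e1 : ∀ ℓ, (∑ v, sumL (ℓ + 1) (hits G τ σ F v)) / d ^ ℓ = ∑ i ∈ range (ℓ + 1), g i (ℓ - i) := by
    intro ℓ
    rw [W5c_hits hG, Finset.sum_div]
    refine Finset.sum_congr rfl fun i hi => ?_
    have hi' : i < ℓ + 1 := Finset.mem_range.1 hi
    rw [hg]
    dsimp only
    by_cases h2 : i < M ∧ ℓ - i < M
    · rw [if_pos h2, if_pos h2, Finset.sum_div]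
      refine Finset.sum_congr rfl fun e _ => ?_
      rw [hA, hB]
      dsimp only
      rw [div_mul_div_comm, ← pow_add, show i + (ℓ - i) = ℓ by omega]
    · rw [if_neg h2, if_neg h2, zero_div]
  rw [Finset.sum_congr rfl fun ℓ _ => e1 ℓ, Finset.sum_sigma' (range (2 * M - 1))
    (fun ℓ => range (ℓ + 1)) (fun ℓ i => g i (ℓ - i))]
  have e2 : ∑ p ∈ (range M ×ˢ range M).image (fun p : ℕ × ℕ => (⟨p.1 + p.2, p.1⟩ : Σ _ : ℕ, ℕ)),
      g p.2 (p.1 - p.2) = ∑ p ∈ range M ×ˢ range M, ∑ e ∈ F, A e p.1 * B e p.2 := by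
    rw [Finset.sum_image]
    · refine Finset.sum_congr rfl fun p hp => ?_
      rw [Finset.mem_product, Finset.mem_range, Finset.mem_range] at hp
      rw [hg]
      dsimp only
      rw [show p.1 + p.2 - p.1 = p.2 by omega, if_pos hp]
    · intro p _ q _ hpq
      simp only [Sigma.mk.injEq, heq_eq_eq] at hpq
      ext <;> omega
  have e3 : ∑ p ∈ (range M ×ˢ range M).image (fun p : ℕ × ℕ => (⟨p.1 + p.2, p.1⟩ : Σ _ : ℕ, ℕ)),
      g p.2 (p.1 - p.2) ≤
      ∑ p ∈ (range (2 * M - 1)).sigma fun ℓ => range (ℓ + 1), g p.2 (p.1 - p.2) := by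
    refine Finset.sum_le_sum_of_subset_of_nonneg ?_ fun p _ _ => hg0 _ _
    intro p hp
    rw [Finset.mem_image] at hp
    obtain ⟨q, hq, rfl⟩ := hp
    rw [Finset.mem_product, Finset.mem_range, Finset.mem_range] at hq
    rw [Finset.mem_sigma, Finset.mem_range, Finset.mem_range]
    dsimp only
    constructor <;> omega
  refine le_trans ?_ e3
  rw [e2, Finset.sum_comm]
  have e4 : ∀ e ∈ F, (M / Fintype.card S : ℝ) ^ 2 ≤
      ∑ p ∈ range M ×ˢ range M, A e p.1 * B e p.2 := by
    intro e _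
    rw [Finset.sum_product' (range M) (range M) (fun i j => A e i * B e j),
      ← Finset.sum_mul_sum, sq]
    have hs : (0 : ℝ) ≤ (M / Fintype.card S : ℝ) := by positivity
    exact mul_le_mul (hσ e.1) (hσ (G.rot e).1) hs (le_trans hs (hσ e.1))
  calc (#F : ℝ) * (M / Fintype.card S : ℝ) ^ 2 = ∑ _e ∈ F, (M / Fintype.card S : ℝ) ^ 2 := by
        rw [Finset.sum_const, nsmul_eq_mul]
    _ ≤ _ := Finset.sum_le_sum e4

end Pool.Agent.Lib.MP_0b8c1e_lc.PC
end

section

set_option autoImplicit false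

namespace Pool.Agent.Lib.MP_0b8c1e_lc.PC

open Finset DS

variable {V I P : Type*} [Fintype V] [Fintype I] {G : DS V I P}

omit [Fintype V] [Fintype I] in
private lemma W7_cnt_cons (F : Finset (V × I)) [DecidableEq V] [DecidableEq I] (v : V) (i : I)
    (l : List I) :
    G.cnt F v (i :: l) = (if (v, i) ∈ F then (1 : ℝ) else 0) + G.cnt F (G.rot (v, i)).1 l := by
  rw [DS.cnt]
  congr 1
  split_ifs <;> rfl

omit [Fintype V] [Fintype I] in
private lemma W7_cnt_nil (F : Finset (V × I)) (v : V) : G.cnt F v [] = 0 := by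
  rw [DS.cnt]

private lemma W7_sumL_succ (k : ℕ) (f : List I → ℝ) :
    sumL (k + 1) f = ∑ i, sumL k fun l => f (i :: l) := by
  rw [sumL]

/-- TASK W7a. The mean. Let `h v = #{i | (v, i) ∈ F} / d`. Proof. Induction on `k`:
`sumL (k + 1) cnt = ∑_i (d ^ k 1_F (v, i) + sumL k (cnt (rot (v, i)).1))
= d ^ (k + 1) (h v + av (fun v => sumL k (cnt v) / d ^ k) v)`, and
`h + av (∑_{t < k} av^[t] h) = ∑_{t < k + 1} av^[t] h` (`Function.iterate_succ_apply'`,
`Finset.sum_range_succ'`; `av` is additive). -/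
theorem sum_cnt [Nonempty I] [DecidableEq V] [DecidableEq I] (F : Finset (V × I)) (k : ℕ) (v : V) :
    sumL k (G.cnt F v) = (Fintype.card I : ℝ) ^ k * ∑ t ∈ range k,
      (G.av^[t] fun v => (#(univ.filter fun i => (v, i) ∈ F) : ℝ) / Fintype.card I) v := by
  have hd : (Fintype.card I : ℝ) ≠ 0 := by
    have := Fintype.card_pos (α := I)
    positivity
  induction k generalizing v with
  | zero =>
    simp only [sumL, range_zero, sum_empty, mul_zero]
    exact W7_cnt_nil F v
  | succ k ih =>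
    rw [W7_sumL_succ]
    have h1 : ∀ i : I, (sumL k fun l => G.cnt F v (i :: l)) =
        (Fintype.card I : ℝ) ^ k * (if (v, i) ∈ F then (1 : ℝ) else 0) +
          sumL k (G.cnt F (G.rot (v, i)).1) := by
      intro i
      have h2 : (fun l => G.cnt F v (i :: l)) =
          fun l => (if (v, i) ∈ F then (1 : ℝ) else 0) + G.cnt F (G.rot (v, i)).1 l := by
        funext l
        exact W7_cnt_cons F v i l
      rw [h2, sumL_add, sumL_const]
    rw [sum_congr rfl fun i _ => h1 i, sum_add_distrib, ← mul_sum, sum_boole,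
      sum_range_succ']
    have h3 : ∀ t ∈ range k,
        (G.av^[t + 1] fun v => (#(univ.filter fun i => (v, i) ∈ F) : ℝ) / Fintype.card I) v =
        (∑ i, (G.av^[t] fun v => (#(univ.filter fun i => (v, i) ∈ F) : ℝ) / Fintype.card I)
          (G.rot (v, i)).1) / Fintype.card I := by
      intro t _
      rw [Function.iterate_succ_apply']
      rfl
    rw [sum_congr rfl h3, ← sum_div, sum_comm]
    have h4 : ∑ i, sumL k (G.cnt F (G.rot (v, i)).1) =
        (Fintype.card I : ℝ) ^ k * ∑ i, ∑ t ∈ range k,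
          (G.av^[t] fun v => (#(univ.filter fun i => (v, i) ∈ F) : ℝ) / Fintype.card I)
            (G.rot (v, i)).1 := by
      rw [mul_sum]
      exact sum_congr rfl fun i _ => ih _
    rw [h4]
    simp only [Function.iterate_zero, id_eq]
    rw [pow_succ]
    field_simp
    ring

private lemma W7_geom (k : ℕ) :
    ∑ t ∈ range k, ((17.3 / 18 : ℝ)) ^ t ≤ 26 := by
  have h : (∑ t ∈ range k, ((17.3 / 18 : ℝ)) ^ t) * (17.3 / 18 - 1) = (17.3 / 18) ^ k - 1 :=
    geom_sum_mul _ _
  have h0 : (0 : ℝ) ≤ (17.3 / 18) ^ k := by positivity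
  nlinarith [h, h0]

private lemma W7_rot_sum (hG : G.Inv) (φ : V × I → ℝ) :
    ∑ p, φ (G.rot p) = ∑ p, φ p :=
  Equiv.sum_comp (⟨G.rot, G.rot, hG, hG⟩ : V × I ≃ V × I) φ

private lemma W7_rot_sum1 (hG : G.Inv) (φ : V → ℝ) :
    ∑ v, ∑ i, φ (G.rot (v, i)).1 = Fintype.card I * ∑ v, φ v := by
  have h := W7_rot_sum hG fun p => φ p.1
  rw [Fintype.sum_prod_type, Fintype.sum_prod_type] at h
  rw [h, mul_sum]
  refine sum_congr rfl fun v _ => ?_
  show ∑ _i : I, φ v = _
  rw [sum_const, card_univ, nsmul_eq_mul]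

private lemma W7_step [Nonempty I] [DecidableEq V] [DecidableEq I] (hG : G.Inv) (hs : G.Spec)
    (F : Finset (V × I)) (k : ℕ) (x : ℝ) (hx : x = (#F : ℝ) / Fintype.card I) :
    ∑ v, sumL (k + 1) (fun l => G.cnt F v l ^ 2) ≤
      (Fintype.card I : ℝ) ^ (k + 1) * (53 * x + 2 * k * (x ^ 2 / Fintype.card V)) +
        Fintype.card I * ∑ v, sumL k (fun l => G.cnt F v l ^ 2) := by
  have hdpos : (0 : ℝ) < Fintype.card I := by
    have := Fintype.card_pos (α := I)
    positivity
  have hd : (Fintype.card I : ℝ) ≠ 0 := hdpos.ne'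
  set d : ℝ := ((Fintype.card I : ℕ) : ℝ) with hdd
  -- expansion
  have h1 : ∀ v i, (sumL k fun l => G.cnt F v (i :: l) ^ 2) =
      d ^ k * (if (v, i) ∈ F then (1 : ℝ) else 0) +
      2 * (if (v, i) ∈ F then (1 : ℝ) else 0) * sumL k (G.cnt F (G.rot (v, i)).1) +
      sumL k (fun l => G.cnt F (G.rot (v, i)).1 l ^ 2) := by
    intro v i
    have h2 : (fun l => G.cnt F v (i :: l) ^ 2) =
        fun l => ((if (v, i) ∈ F then (1 : ℝ) else 0) +
          (2 * (if (v, i) ∈ F then (1 : ℝ) else 0)) * G.cnt F (G.rot (v, i)).1 l) +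
          G.cnt F (G.rot (v, i)).1 l ^ 2 := by
      funext l
      rw [W7_cnt_cons F v i l]
      split_ifs <;> ring
    rw [h2, sumL_add, sumL_add, sumL_const, sumL_mul]
  have h3 : ∑ v, sumL (k + 1) (fun l => G.cnt F v l ^ 2) =
      d ^ k * (∑ v, ∑ i, (if (v, i) ∈ F then (1 : ℝ) else 0)) +
      2 * (∑ v, ∑ i, (if (v, i) ∈ F then (1 : ℝ) else 0) * sumL k (G.cnt F (G.rot (v, i)).1)) +
      ∑ v, ∑ i, sumL k (fun l => G.cnt F (G.rot (v, i)).1 l ^ 2) := by
    simp only [mul_sum, ← sum_add_distrib]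
    refine sum_congr rfl fun v _ => ?_
    rw [W7_sumL_succ]
    refine sum_congr rfl fun i _ => ?_
    rw [h1 v i]
    ring
  -- the first sum
  have hF : ∑ v, ∑ i, (if (v, i) ∈ F then (1 : ℝ) else 0) = #F := by
    rw [← Fintype.sum_prod_type' (fun v i => if (v, i) ∈ F then (1 : ℝ) else 0), sum_boole]
    congr 2
    ext p
    simp
  -- the last sum
  have hlast : ∑ v, ∑ i, sumL k (fun l => G.cnt F (G.rot (v, i)).1 l ^ 2) =
      d * ∑ v, sumL k (fun l => G.cnt F v l ^ 2) :=
    W7_rot_sum1 hG fun w => sumL k (fun l => G.cnt F w l ^ 2)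
  -- the middle sum
  set h : V → ℝ := fun v => (#(univ.filter fun i => (v, i) ∈ F) : ℝ) / d with hh
  set g : V → ℝ := fun w => (#(univ.filter fun j => G.rot (w, j) ∈ F) : ℝ) / d with hg
  have hle : ∀ A : Finset I, 0 ≤ (#A : ℝ) / d ∧ (#A : ℝ) / d ≤ 1 := by
    intro A
    refine ⟨by positivity, ?_⟩
    rw [div_le_one hdpos, hdd]
    exact_mod_cast card_le_univ A
  have hsh : ∑ v, h v = x := by
    rw [hx, ← hF, sum_div]
    refine sum_congr rfl fun v _ => ?_
    rw [hh, sum_boole]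
  have hsg : ∑ v, g v = x := by
    have e : ∑ v, ∑ i, (if G.rot (v, i) ∈ F then (1 : ℝ) else 0) = #F := by
      rw [← hF, ← Fintype.sum_prod_type' (fun v i => if G.rot (v, i) ∈ F then (1 : ℝ) else 0),
        ← Fintype.sum_prod_type' (fun v i => if (v, i) ∈ F then (1 : ℝ) else 0)]
      exact W7_rot_sum hG fun p => if p ∈ F then (1 : ℝ) else 0
    rw [hx, ← e, sum_div]
    refine sum_congr rfl fun v _ => ?_
    rw [hg, sum_boole]
  have hmid : ∑ v, ∑ i, (if (v, i) ∈ F then (1 : ℝ) else 0) * sumL k (G.cnt F (G.rot (v, i)).1) =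
      d ^ (k + 1) * ∑ t ∈ range k, ∑ w, g w * (G.av^[t] h) w := by
    have e1 : ∑ v, ∑ i, (if (v, i) ∈ F then (1 : ℝ) else 0) * sumL k (G.cnt F (G.rot (v, i)).1) =
        ∑ v, ∑ i, (if G.rot (v, i) ∈ F then (1 : ℝ) else 0) * sumL k (G.cnt F v) := by
      rw [← Fintype.sum_prod_type'
          (fun v i => (if (v, i) ∈ F then (1 : ℝ) else 0) * sumL k (G.cnt F (G.rot (v, i)).1)),
        ← Fintype.sum_prod_type'
          (fun v i => (if G.rot (v, i) ∈ F then (1 : ℝ) else 0) * sumL k (G.cnt F v))]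
      have := W7_rot_sum hG fun p => (if G.rot p ∈ F then (1 : ℝ) else 0) * sumL k (G.cnt F p.1)
      rw [← this]
      refine sum_congr rfl fun p _ => ?_
      simp only [hG p]
    rw [e1, sum_comm (s := range k), mul_sum]
    refine sum_congr rfl fun w _ => ?_
    rw [← sum_mul, sum_boole, ← mul_sum, sum_cnt F k w, ← hdd, ← hh]
    have e2 : (#(univ.filter fun i => G.rot (w, i) ∈ F) : ℝ) = d * g w := by
      rw [hg]
      field_simp
    rw [e2]
    ring
  have hcorr : ∑ t ∈ range k, ∑ w, g w * (G.av^[t] h) w ≤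
      k * (x ^ 2 / Fintype.card V) + 26 * x := by
    have hx0 : 0 ≤ x := by
      rw [hx]
      positivity
    calc ∑ t ∈ range k, ∑ w, g w * (G.av^[t] h) w
        ≤ ∑ t ∈ range k, (x ^ 2 / Fintype.card V + (17.3 / 18) ^ t * x) := by
          refine sum_le_sum fun t _ => ?_
          have := av_corr hG hs (g := g) (h := h) (fun v => (hle _).1) (fun v => (hle _).2)
            (fun v => (hle _).1) (fun v => (hle _).2) (hsg.trans hsh.symm) t
          rwa [hsh] at this
      _ = k * (x ^ 2 / Fintype.card V) + (∑ t ∈ range k, ((17.3 / 18 : ℝ)) ^ t) * x := by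
          rw [sum_add_distrib, sum_const, card_range, nsmul_eq_mul, sum_mul]
      _ ≤ _ := by
          have := mul_le_mul_of_nonneg_right (W7_geom k) hx0
          linarith
  have hFx : (#F : ℝ) = d * x := by
    rw [hx]
    field_simp
  rw [h3, hF, hlast, hmid, hFx]
  have hdk : 0 < d ^ (k + 1) := by positivity
  have := mul_le_mul_of_nonneg_left hcorr hdk.le
  have e3 : d ^ k * (d * x) = d ^ (k + 1) * x := by ring
  rw [e3]
  nlinarith [this]

/-- TASK W7b. The second moment.

Proof. Let `d = card I`, `n = card V`, `h v = #{i | (v, i) ∈ F} / d`,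
`g w = #{j | rot (w, j) ∈ F} / d` (so `0 ≤ g, h ≤ 1` and `∑ g = ∑ h = #F / d`, as `rot` is a
bijection), `S k = ∑_v sumL k (cnt v ^ 2)`. Expanding the square in
`cnt v (i :: l) = 1_F (v, i) + cnt v' l`, `v' = (rot (v, i)).1`:
`S (k + 1) = d ^ k #F + 2 ∑_{(v, i) ∈ F} sumL k (cnt v') + ∑_{(v, i)} sumL k (cnt v' ^ 2)`
and by the substitution `rot` the last sum is `d * S k` and the middle one is
`2 d ∑_w g w * sumL k (cnt w) = 2 d ^ (k + 1) ∑_{t < k} ∑_w g w (av^[t] h) w` by `sum_cnt`, which is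
at most `2 d ^ (k + 1) (k (#F / d) ^ 2 / n + (#F / d) / (1 - λ))` by `av_corr` and the geometric
series. With `1 / (1 - λ) = 18 / 0.7 < 26` this gives by induction
`S k / d ^ k ≤ k (#F / d) (1 + 52) + k (k - 1) (#F / d) ^ 2 / n`, which is at most the right side. -/
theorem second_moment [Nonempty I] (hG : G.Inv) (hs : G.Spec) (F : Finset (V × I)) (L : ℕ) :
    ∑ v, sumL L (fun l => G.cnt F v l ^ 2) ≤ (Fintype.card I : ℝ) ^ L *
      (L * (#F / Fintype.card I) * (53 + L * (#F / (Fintype.card V * Fintype.card I)))) := by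
  classical
  have hdpos : (0 : ℝ) < Fintype.card I := by
    have := Fintype.card_pos (α := I)
    positivity
  obtain ⟨x, hx⟩ : ∃ x : ℝ, x = (#F : ℝ) / Fintype.card I := ⟨_, rfl⟩
  have hx0 : 0 ≤ x := by
    rw [hx]
    positivity
  have key : ∀ k : ℕ, ∑ v, sumL k (fun l => G.cnt F v l ^ 2) ≤ (Fintype.card I : ℝ) ^ k *
      (53 * (k * x) + k ^ 2 * (x ^ 2 / Fintype.card V)) := by
    intro k
    induction k with
    | zero =>
      have : ∀ v, sumL 0 (fun l => G.cnt F v l ^ 2) = 0 := by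
        intro v
        rw [sumL, W7_cnt_nil]
        norm_num
      simp [this]
    | succ k ih =>
      have h1 := W7_step hG hs F k x hx
      have h2 := mul_le_mul_of_nonneg_left ih hdpos.le
      have h3 : 0 ≤ x ^ 2 / (Fintype.card V : ℝ) := by positivity
      have h4 : 0 ≤ (Fintype.card I : ℝ) ^ (k + 1) * (x ^ 2 / (Fintype.card V : ℝ)) := by
        positivity
      push_cast
      calc ∑ v, sumL (k + 1) (fun l => G.cnt F v l ^ 2)
          ≤ (Fintype.card I : ℝ) ^ (k + 1) * (53 * x + 2 * k * (x ^ 2 / Fintype.card V)) +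
            Fintype.card I * ((Fintype.card I : ℝ) ^ k *
              (53 * (k * x) + k ^ 2 * (x ^ 2 / Fintype.card V))) := by linarith
        _ = (Fintype.card I : ℝ) ^ (k + 1) * (53 * ((k + 1) * x) +
              (k + 1) ^ 2 * (x ^ 2 / Fintype.card V)) -
              (Fintype.card I : ℝ) ^ (k + 1) * (x ^ 2 / (Fintype.card V : ℝ)) := by ring
        _ ≤ _ := by linarith
  refine (key L).trans (le_of_eq ?_)
  have e : (#F : ℝ) / (Fintype.card V * Fintype.card I) = x / Fintype.card V := by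
    rw [hx, div_div, mul_comm (Fintype.card V : ℝ)]
  rw [e, ← hx]
  ring

end Pool.Agent.Lib.MP_0b8c1e_lc.PC
end

section

set_option autoImplicit false

namespace Pool.Agent.Lib.MP_0b8c1e_lc.PC

open Finset DS

variable {V I S : Type*} [Fintype V] [Fintype I] [Inhabited S] {G : DS V I S} {M : ℕ}

open scoped Classical in
private theorem W8a_cnt (F : Finset (V × I)) (l : List I) : ∀ v : V,
    G.cnt F v l = ∑ i ∈ range l.length,
      if ∃ a, l[i]? = some a ∧ (G.walk v (l.take i), a) ∈ F then (1 : ℝ) else 0 := by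
  induction l with
  | nil => intro v; simp [DS.cnt]
  | cons i l ih =>
    intro v
    rw [List.length_cons, sum_range_succ', DS.cnt, ih, add_comm]
    congr 1
    simp [DS.walk]

/-- TASK W8a. Proof. The steps with a hit are steps in `F`:
`cnt F v l = ∑_{i < l.length} [∃ a, l[i]? = some a ∧ (walk v (l.take i), a) ∈ F]` by induction on
`l`; compare term by term. -/
theorem hits_le_cnt (τ : V → Opin I S M) (σ : V → S) (F : Finset (V × I)) (v : V) (l : List I) :
    hits G τ σ F v l ≤ G.cnt F v l := by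
  classical
  rw [W8a_cnt, hits]
  refine sum_le_sum fun i _ => ?_
  by_cases h : ∃ a, l[i]? = some a ∧ (G.walk v (l.take i), a) ∈ F
  · rw [if_pos h]
    split_ifs
    · exact le_rfl
    · exact zero_le_one
  · rw [if_neg h, if_neg]
    rintro ⟨-, -, a, h1, h2, -⟩
    exact h ⟨a, h1, h2⟩

theorem cnt_nonneg (F : Finset (V × I)) (v : V) (l : List I) : 0 ≤ G.cnt F v l := by
  induction l generalizing v with
  | nil => exact le_rfl
  | cons i l ih =>
    rw [DS.cnt]
    have h1 := ih (G.rot (v, i)).1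
    refine add_nonneg ?_ h1
    split_ifs
    · exact zero_le_one
    · exact le_rfl

/-- TASK W8b. `cnt` is monotone in the walk. Proof. Induction on `l`, `cnt_nonneg`. -/
theorem cnt_take (F : Finset (V × I)) (v : V) (l : List I) (k : ℕ) :
    G.cnt F v (l.take k) ≤ G.cnt F v l := by
  induction l generalizing v k with
  | nil => simp
  | cons i l ih =>
    cases k with
    | zero =>
      rw [List.take_zero]
      exact cnt_nonneg F v (i :: l)
    | succ k =>
      rw [List.take_succ_cons, DS.cnt, DS.cnt]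
      exact add_le_add le_rfl (ih _ k)

/-- TASK W8c. A hit is a violated constraint. Proof. Let `l = p.1.take (ℓ + 1)` (length `ℓ + 1`), and
let `i` be an index with a nonzero summand: `i < M`, `ℓ - i < M`, `Hit` with the label `a`, so
`l = l.take i ++ a :: l.drop (i + 1)`. In `powCon` the constraint of step `i` is
`G.con (walk v (l.take i), a)` (`cons_getD`), it is applied to the two opinions, which are
`σ (walk v (l.take i))` and `σ (walk v (l.take (i + 1))) = σ (rot (walk v (l.take i), a)).1`; as the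
dart is in `F ⊆ G.bad σ`, the value is `false`. -/
theorem hit_bad {τ : V → Opin I S M} {σ : V → S} {F : Finset (V × I)} (hF : F ⊆ G.bad σ)
    (x : V × PLab I M) (h : hits G τ σ F x.1 (x.2.2.1.take (x.2.1 + 1)) ≠ 0) :
    x ∈ (powDS G M).bad τ := by
  classical
  obtain ⟨v, ℓ, p⟩ := x
  dsimp only at h
  set L : List I := p.1.take (ℓ + 1) with hL
  have hlen : L.length = ℓ + 1 := by
    rw [hL, List.length_take, p.2]
    have := ℓ.2
    omega
  rw [hits] at h
  obtain ⟨i, hi, hne⟩ := exists_ne_zero_of_sum_ne_zero h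
  have hcond : i < M ∧ L.length - (i + 1) < M ∧ Hit G τ σ F v L i := by
    by_contra hc
    rw [if_neg hc] at hne
    exact hne rfl
  obtain ⟨hiM, hiM', a, ha, haF, e1, e2⟩ := hcond
  rw [mem_range, hlen] at hi
  have hbad := hF haF
  rw [DS.bad, mem_filter] at hbad
  have hb := hbad.2
  dsimp only at hb
  have hiL : i < L.length := by rw [hlen]; exact hi
  have hLa : L[i] = a := by
    rw [List.getElem?_eq_getElem hiL] at ha
    exact Option.some.inj ha
  have hsplit : L = L.take i ++ a :: L.drop (i + 1) := by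
    rw [← hLa, ← List.drop_eq_getElem_cons hiL, List.take_append_drop]
  have htl : (L.take i).length = i := by
    rw [List.length_take]
    omega
  have hw : G.walk v (L.take (i + 1)) = (G.rot (G.walk v (L.take i), a)).1 := by
    have h1 : L.take (i + 1) = L.take i ++ [a] := by
      rw [← hLa]
      exact (List.take_append_getElem hiL).symm
    rw [h1, walk_append, DS.walk, DS.walk]
  rw [DS.bad, mem_filter]
  refine ⟨mem_univ _, ?_⟩
  change powCon M ℓ L (G.back v L) (G.cons v L) (τ v) (τ (G.walk v L)) = false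
  rw [powCon, decide_eq_false_iff_not]
  intro hall
  have h3 := hall i hi hiM (by rw [hlen] at hiM'; omega)
  have h4 : (G.cons v L).getD i (fun _ _ => true) = G.con (G.walk v (L.take i), a) := by
    have h5 := cons_getD G v (L.take i) (L.drop (i + 1)) a (fun _ _ => true)
    rw [← hsplit, htl] at h5
    exact h5
  have h6 : (ℓ : ℕ) - i = L.length - (i + 1) := by
    rw [hlen]
    omega
  rw [h4, e1, h6, e2, hw, hb] at h3
  exact Bool.false_ne_true h3

end Pool.Agent.Lib.MP_0b8c1e_lc.PC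
end

section

set_option autoImplicit false

namespace Pool.Agent.Lib.MP_0b8c1e_lc.PC

open Finset DS

variable {V I S : Type*} [Fintype V] [Fintype I] [Inhabited S] {G : DS V I S} {M : ℕ}

/-- TASK W8d. Soundness of the powering.

Proof. If `V` or `I` is empty or `ε ≤ 0` everything is trivial (`0 ≤ #bad`). Let `n, d, s` be the
numbers of vertices, labels, letters, `L = 2 M - 1`. Let `τ` be an assignment for the power, `σ` the
one of `first_moment`, `F = G.bad σ`, `φ = #F / (n d) ≥ ε > 0`. For a dart `x = (v, (ℓ, p))` let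
`Z x = hits .. v (p.take (ℓ + 1))`. By `sumL_eq` and `sumL_take`
`∑_x Z x = ∑_ℓ ∑_v d ^ (L - ℓ - 1) sumL (ℓ + 1) (hits .. v) = d ^ (L - 1) ∑_ℓ (..) / d ^ ℓ
≥ d ^ (L - 1) #F (M / s) ^ 2 = d ^ L n φ M ^ 2 / s ^ 2`.
By `hits_le_cnt`, `cnt_take` and `second_moment`
`∑_x Z x ^ 2 ≤ L ∑_v sumL L (cnt v ^ 2) ≤ L * d ^ L * (L n φ (53 + L φ))`.
By Cauchy-Schwarz `(∑ Z) ^ 2 ≤ #{Z ≠ 0} ∑ Z ^ 2`, and `{Z ≠ 0} ⊆ bad τ` by `hit_bad`. So
`#bad τ ≥ d ^ L n φ M ^ 4 / (s ^ 4 L ^ 2 (53 + L φ))`. The number of darts is `n L d ^ L`, so the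
fraction is at least `φ M ^ 4 / (s ^ 4 L ^ 3 (53 + L φ)) ≥ M φ / (8 s ^ 4 (53 + L φ))` as
`L ≤ 2 M`. If `L φ ≤ 1` this is at least `M φ / (432 s ^ 4)`. Otherwise
`53 + L φ ≤ 54 L φ ≤ 108 M φ` and it is at least `1 / (864 s ^ 4) = M (1 / (2 M)) / (432 s ^ 4)`. -/
theorem powDS_gap [Fintype S] (hG : G.Inv) (hs : G.Spec) (hM : 1 ≤ M) {ε : ℝ} (h : G.Gap ε) :
    (powDS G M).Gap (M * min ε (1 / (2 * M)) / (432 * (Fintype.card S : ℝ) ^ 4)) := by
  classical
  intro τ
  have hMR : (1 : ℝ) ≤ M := by exact_mod_cast hM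
  have hM0 : (0 : ℝ) < M := by linarith
  have hs0 : (0 : ℝ) < Fintype.card S := by
    exact_mod_cast Fintype.card_pos (α := S)
  have hcardP : (Fintype.card (PLab I M) : ℝ)
      = ((2 * M - 1 : ℕ) : ℝ) * (Fintype.card I : ℝ) ^ (2 * M - 1) := by
    have h1 : (Fintype.card {l : List I // l.length = 2 * M - 1} : ℝ)
        = (Fintype.card I : ℝ) ^ (2 * M - 1) := by
      have h2 := sumL_eq (I := I) (2 * M - 1) (fun _ => (1 : ℝ))
      rw [sumL_const, mul_one] at h2
      rw [← h2]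
      simp
    have h3 : Fintype.card (PLab I M)
        = (2 * M - 1) * Fintype.card {l : List I // l.length = 2 * M - 1} := by
      rw [Fintype.card_prod, Fintype.card_fin]
    rw [h3, Nat.cast_mul, h1]
  have hL1 : 1 ≤ 2 * M - 1 := by omega
  rcases isEmpty_or_nonempty V with hV | hV
  · have : (Fintype.card V : ℝ) = 0 := by
      rw [Fintype.card_eq_zero]; simp
    rw [this]; simp
  rcases isEmpty_or_nonempty I with hI | hI
  · have : (Fintype.card (PLab I M) : ℝ) = 0 := by
      rw [hcardP]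
      have h0 : (Fintype.card I : ℝ) = 0 := by
        rw [Fintype.card_eq_zero]; simp
      rw [h0, zero_pow (by omega), mul_zero]
    rw [this]; simp
  rcases le_or_gt ε 0 with hε | hε
  · have h1 : min ε (1 / (2 * (M : ℝ))) ≤ 0 := (min_le_left _ _).trans hε
    have h2 : (M : ℝ) * min ε (1 / (2 * M)) / (432 * (Fintype.card S : ℝ) ^ 4) ≤ 0 := by
      apply div_nonpos_of_nonpos_of_nonneg
      · exact mul_nonpos_of_nonneg_of_nonpos hM0.le h1
      · positivity
    have h3 : (0 : ℝ) ≤ (Fintype.card V : ℝ) * Fintype.card (PLab I M) := by positivity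
    have h4 := mul_nonpos_of_nonpos_of_nonneg h2 h3
    exact h4.trans (Nat.cast_nonneg _)
  obtain ⟨σ, hσ⟩ := first_moment hG τ
  set F := G.bad σ with hF
  have hfirst := hσ F
  have hgap := h σ
  have hsecond := second_moment hG hs F (2 * M - 1)
  rw [← hF] at hgap
  have hn0 : (0 : ℝ) < Fintype.card V := by exact_mod_cast Fintype.card_pos (α := V)
  have hd0 : (0 : ℝ) < Fintype.card I := by exact_mod_cast Fintype.card_pos (α := I)
  -- the statistics
  set Z : V × PLab I M → ℝ :=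
    fun x => hits G τ σ F x.1 (x.2.2.1.take (x.2.1 + 1)) with hZ
  have hZ0 : ∀ x, 0 ≤ Z x := by
    intro x
    rw [hZ]
    apply Finset.sum_nonneg
    intro i _
    split_ifs <;> norm_num
  have hZbad : ∀ x, x ∉ (powDS G M).bad τ → Z x = 0 := by
    intro x hx
    by_contra hne
    exact hx (hit_bad (le_of_eq hF) x hne)
  have hsum1 : ∑ x, Z x = ∑ ℓ ∈ range (2 * M - 1),
      (Fintype.card I : ℝ) ^ (2 * M - 1 - 1) *
        ((∑ v, sumL (ℓ + 1) (hits G τ σ F v)) / (Fintype.card I : ℝ) ^ ℓ) := by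
    rw [Fintype.sum_prod_type]
    have e1 : ∀ v, ∑ y : PLab I M, Z (v, y) = ∑ ℓ ∈ range (2 * M - 1),
        (Fintype.card I : ℝ) ^ (2 * M - 1 - (ℓ + 1)) * sumL (ℓ + 1) (hits G τ σ F v) := by
      intro v
      rw [Fintype.sum_prod_type, ← Fin.sum_univ_eq_sum_range]
      apply Finset.sum_congr rfl
      intro ℓ _
      have := sumL_eq (I := I) (2 * M - 1) (fun l => hits G τ σ F v (l.take (ℓ.val + 1)))
      rw [sumL_take (by omega)] at this
      exact this
    rw [Finset.sum_congr rfl (fun v _ => e1 v), Finset.sum_comm]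
    apply Finset.sum_congr rfl
    intro ℓ hℓ
    have hℓ' : ℓ < 2 * M - 1 := Finset.mem_range.1 hℓ
    rw [← Finset.mul_sum, mul_div_assoc', eq_div_iff (by positivity)]
    have hp : (Fintype.card I : ℝ) ^ (2 * M - 1 - 1)
        = (Fintype.card I : ℝ) ^ (2 * M - 1 - (ℓ + 1)) * (Fintype.card I : ℝ) ^ ℓ := by
      rw [← pow_add]; congr 1; omega
    rw [hp]; ring
  have hsum1' : (Fintype.card I : ℝ) ^ (2 * M - 1 - 1) *
      ((#F : ℝ) * (M / Fintype.card S) ^ 2) ≤ ∑ x, Z x := by
    rw [hsum1, ← Finset.mul_sum]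
    exact mul_le_mul_of_nonneg_left hfirst (by positivity)
  have hsum2 : ∑ x, Z x ^ 2 ≤ ((2 * M - 1 : ℕ) : ℝ) *
      ∑ v, sumL (2 * M - 1) (fun l => G.cnt F v l ^ 2) := by
    rw [Fintype.sum_prod_type, Finset.mul_sum]
    apply Finset.sum_le_sum
    intro v _
    rw [Fintype.sum_prod_type]
    have e1 : ∀ ℓ : Fin (2 * M - 1), ∑ p : {l : List I // l.length = 2 * M - 1},
        Z (v, (ℓ, p)) ^ 2 ≤ sumL (2 * M - 1) (fun l => G.cnt F v l ^ 2) := by
      intro ℓ
      rw [← sumL_eq]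
      apply Finset.sum_le_sum
      intro p _
      apply pow_le_pow_left₀ (hZ0 _)
      exact (hits_le_cnt τ σ F v _).trans (cnt_take F v p.1 _)
    calc _ ≤ ∑ _ℓ : Fin (2 * M - 1), sumL (2 * M - 1) (fun l => G.cnt F v l ^ 2) :=
          Finset.sum_le_sum fun ℓ _ => e1 ℓ
      _ = _ := by rw [Finset.sum_const, Finset.card_univ, Fintype.card_fin, nsmul_eq_mul]
  have hcs : (∑ x, Z x) ^ 2 ≤ (#((powDS G M).bad τ) : ℝ) * ∑ x, Z x ^ 2 := by
    have h1 : ∑ x, Z x = ∑ x ∈ (powDS G M).bad τ, Z x :=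
      (Finset.sum_subset (Finset.subset_univ _) fun x _ hx => hZbad x hx).symm
    have h2 : ∑ x ∈ (powDS G M).bad τ, Z x ^ 2 ≤ ∑ x, Z x ^ 2 :=
      Finset.sum_le_sum_of_subset_of_nonneg (Finset.subset_univ _) fun x _ _ => sq_nonneg _
    rw [h1]
    exact sq_sum_le_card_mul_sum_sq.trans (mul_le_mul_of_nonneg_left h2 (Nat.cast_nonneg _))
  -- numbers
  have hLp : ((2 * M - 1 : ℕ) : ℝ) ≤ 2 * M := by
    have : 2 * M - 1 ≤ 2 * M := Nat.sub_le _ _
    exact_mod_cast this
  have hLpos : (0 : ℝ) < ((2 * M - 1 : ℕ) : ℝ) := by exact_mod_cast hL1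
  have hpw : (Fintype.card I : ℝ) ^ (2 * M - 1)
      = (Fintype.card I : ℝ) ^ (2 * M - 1 - 1) * Fintype.card I := by
    rw [← pow_succ]; congr 1; omega
  rw [hcardP]
  rw [hpw] at hsecond ⊢
  have hKpos : (0 : ℝ) < (Fintype.card I : ℝ) ^ (2 * M - 1 - 1) := by positivity
  have hBnn : (0 : ℝ) ≤ #((powDS G M).bad τ) := Nat.cast_nonneg _
  have hFnn : (0 : ℝ) ≤ #F := Nat.cast_nonneg _
  have hsum0 : 0 ≤ ∑ x, Z x := Finset.sum_nonneg fun x _ => hZ0 x
  generalize (∑ x, Z x) = Z1 at *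
  generalize (∑ x, Z x ^ 2) = Z2 at *
  generalize (∑ v, sumL (2 * M - 1) (fun l => G.cnt F v l ^ 2)) = C2 at *
  generalize (#((powDS G M).bad τ) : ℝ) = B at *
  generalize (#F : ℝ) = A at *
  generalize ((2 * M - 1 : ℕ) : ℝ) = L at *
  generalize (Fintype.card I : ℝ) ^ (2 * M - 1 - 1) = K at *
  generalize (Fintype.card I : ℝ) = d at *
  generalize (Fintype.card V : ℝ) = n at *
  generalize (Fintype.card S : ℝ) = s at *
  clear hfirst hsum1 hZ0 hZbad hσ
  generalize (M : ℝ) = m at *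
  -- `A = φ n d`
  obtain ⟨φ, hφ⟩ : ∃ φ, φ = A / (n * d) := ⟨_, rfl⟩
  have hA : A = φ * (n * d) := by rw [hφ]; field_simp
  have hφε : ε ≤ φ := by
    rw [hφ, le_div_iff₀ (by positivity)]; exact hgap
  have hφ0 : 0 < φ := lt_of_lt_of_le hε hφε
  set μ := min ε (1 / (2 * m)) with hμ
  have hμ0 : 0 < μ := lt_min hε (by positivity)
  have hμ1 : μ ≤ φ := (min_le_left _ _).trans hφε
  have hμ2 : μ * (2 * m) ≤ 1 := by
    have : μ ≤ 1 / (2 * m) := min_le_right _ _
    rwa [le_div_iff₀ (by positivity)] at this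
  have hkey : μ * (53 + L * φ) ≤ 54 * φ := by
    have h1 : μ * L ≤ 1 := by nlinarith
    nlinarith [mul_le_mul_of_nonneg_right h1 hφ0.le]
  have hsec2 : Z2 ≤ L * (K * d * (L * (φ * n) * (53 + L * φ))) := by
    have e1 : A / d = φ * n := by rw [hA]; field_simp
    have e2 : A / (n * d) = φ := hφ.symm
    rw [e1, e2] at hsecond
    exact hsum2.trans (mul_le_mul_of_nonneg_left hsecond hLpos.le)
  have hfst2 : K * d * n * φ * (m ^ 2 / s ^ 2) ≤ Z1 := by
    have : K * (A * (m / s) ^ 2) = K * d * n * φ * (m ^ 2 / s ^ 2) := by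
      rw [hA, div_pow]; ring
    rw [← this]; exact hsum1'
  have hmain : (K * d * n * φ * (m ^ 2 / s ^ 2)) ^ 2
      ≤ B * (L * (K * d * (L * (φ * n) * (53 + L * φ)))) := by
    calc (K * d * n * φ * (m ^ 2 / s ^ 2)) ^ 2 ≤ Z1 ^ 2 :=
          pow_le_pow_left₀ (by positivity) hfst2 2
      _ ≤ B * Z2 := hcs
      _ ≤ _ := mul_le_mul_of_nonneg_left hsec2 hBnn
  have hW : 0 < K * d * n * φ := by positivity
  have hmain2 : K * d * n * φ * (m ^ 4 / s ^ 4) ≤ B * (L ^ 2 * (53 + L * φ)) := by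
    have e1 : (K * d * n * φ * (m ^ 2 / s ^ 2)) ^ 2
        = (K * d * n * φ) * (K * d * n * φ * (m ^ 4 / s ^ 4)) := by
      field_simp
    have e2 : B * (L * (K * d * (L * (φ * n) * (53 + L * φ))))
        = (K * d * n * φ) * (B * (L ^ 2 * (53 + L * φ))) := by ring
    rw [e1, e2] at hmain
    exact le_of_mul_le_mul_left hmain hW
  have hP : 0 < L ^ 2 * (53 + L * φ) := by positivity
  have hL3 : L ^ 3 ≤ 8 * m ^ 3 := by
    have := pow_le_pow_left₀ hLpos.le hLp 3
    calc L ^ 3 ≤ (2 * m) ^ 3 := this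
      _ = 8 * m ^ 3 := by ring
  have hfin : m * μ / (432 * s ^ 4) * (n * (L * (K * d))) * (L ^ 2 * (53 + L * φ))
      ≤ K * d * n * φ * (m ^ 4 / s ^ 4) := by
    have e1 : m * μ / (432 * s ^ 4) * (n * (L * (K * d))) * (L ^ 2 * (53 + L * φ))
        = (K * d * n / s ^ 4) * (m * L ^ 3 * (μ * (53 + L * φ)) / 432) := by
      field_simp
    have e2 : K * d * n * φ * (m ^ 4 / s ^ 4)
        = (K * d * n / s ^ 4) * (m * (8 * m ^ 3) * (54 * φ) / 432) := by
      field_simp; ring
    rw [e1, e2]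
    apply mul_le_mul_of_nonneg_left _ (by positivity)
    apply div_le_div_of_nonneg_right _ (by norm_num)
    apply mul_le_mul (mul_le_mul_of_nonneg_left hL3 hM0.le) hkey (by positivity) (by positivity)
  exact le_of_mul_le_mul_right (hfin.trans hmain2) hP

end Pool.Agent.Lib.MP_0b8c1e_lc.PC
end

section

set_option autoImplicit false

/-!
# Moving a program to other registers and arrays
-/

namespace Pool.Agent.Lib.MP_711ea9_lc

/-- The number of nodes of an expression is at most its cost. -/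
theorem Expr.size_le_cost (σ : Store) (e : Expr) : e.size ≤ e.cost σ := by
  induction e with
  | const c => simp only [Expr.size, Expr.cost]; omega
  | var x => simp only [Expr.size, Expr.cost]; omega
  | get a e ih => simp only [Expr.size, Expr.cost]; omega
  | add e f ihe ihf => simp only [Expr.size, Expr.cost]; omega
  | sub e f ihe ihf => simp only [Expr.size, Expr.cost]; omega
  | div e f ihe ihf => simp only [Expr.size, Expr.cost]; omega
  | mod e f ihe ihf => simp only [Expr.size, Expr.cost]; omega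

/-- The number of steps is at most the cost. -/
theorem Cmd.steps_le_cost (c : Cmd) : ∀ σ : Store, c.steps σ ≤ c.cost σ := by
  induction c with
  | skip => intro σ; simp [Cmd.steps, Cmd.cost]
  | set x e =>
    intro σ
    have := Expr.size_le_cost σ e
    simp only [Cmd.steps, Cmd.cost]; omega
  | put a i e =>
    intro σ
    have h1 := Expr.size_le_cost σ e
    have h2 := Expr.size_le_cost σ i
    simp only [Cmd.steps, Cmd.cost]; omega
  | seq c d ihc ihd =>
    intro σ
    have h1 := ihc σ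
    have h2 := ihd (c.exec σ)
    simp only [Cmd.steps, Cmd.cost]; omega
  | ite e c d ihc ihd =>
    intro σ
    have h1 := ihc σ
    have h2 := ihd σ
    have h3 := Expr.size_le_cost σ e
    simp only [Cmd.steps, Cmd.cost]
    split_ifs <;> omega
  | loop e c ih =>
    intro σ
    have h3 := Expr.size_le_cost σ e
    simp only [Cmd.steps, Cmd.cost]
    have h4 : ∑ i ∈ Finset.range (e.eval σ), (1 + c.steps ((c.exec)^[i] σ)) ≤
        ∑ i ∈ Finset.range (e.eval σ), (1 + Nat.size (e.eval σ) + c.cost ((c.exec)^[i] σ)) := by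
      refine Finset.sum_le_sum fun i _ => ?_
      have := ih ((c.exec)^[i] σ)
      omega
    omega

/-- The expression with all registers and arrays shifted by `s`. -/
def Expr.sh (s : ℕ) : Expr → Expr
  | .const c => .const c
  | .var x => .var (x + s)
  | .get a e => .get (a + s) (e.sh s)
  | .add e f => .add (e.sh s) (f.sh s)
  | .sub e f => .sub (e.sh s) (f.sh s)
  | .div e f => .div (e.sh s) (f.sh s)
  | .mod e f => .mod (e.sh s) (f.sh s)

/-- The program with all registers and arrays shifted by `s`. -/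
def Cmd.sh (s : ℕ) : Cmd → Cmd
  | .skip => .skip
  | .set x e => .set (x + s) (e.sh s)
  | .put a i e => .put (a + s) (i.sh s) (e.sh s)
  | .seq c d => .seq (c.sh s) (d.sh s)
  | .ite e c d => .ite (e.sh s) (c.sh s) (d.sh s)
  | .loop e c => .loop (e.sh s) (c.sh s)

/-- The part of the memory from `s` on. -/
def vw (s : ℕ) (σ : Store) : Store := ⟨fun x => σ.var (x + s), fun a => σ.arr (a + s)⟩

theorem Expr.sh_eval (s : ℕ) (σ : Store) (e : Expr) : (e.sh s).eval σ = e.eval (vw s σ) := by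
  induction e with
  | const c => rfl
  | var x => rfl
  | get a e ih => simp only [Expr.sh, Expr.eval, ih, vw]
  | add e f ihe ihf => simp only [Expr.sh, Expr.eval, ihe, ihf]
  | sub e f ihe ihf => simp only [Expr.sh, Expr.eval, ihe, ihf]
  | div e f ihe ihf => simp only [Expr.sh, Expr.eval, ihe, ihf]
  | mod e f ihe ihf => simp only [Expr.sh, Expr.eval, ihe, ihf]

theorem Expr.sh_size (s : ℕ) (e : Expr) : (e.sh s).size = e.size := by
  induction e with
  | const c => rfl
  | var x => rfl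
  | get a e ih => simp only [Expr.sh, Expr.size, ih]
  | add e f ihe ihf => simp only [Expr.sh, Expr.size, ihe, ihf]
  | sub e f ihe ihf => simp only [Expr.sh, Expr.size, ihe, ihf]
  | div e f ihe ihf => simp only [Expr.sh, Expr.size, ihe, ihf]
  | mod e f ihe ihf => simp only [Expr.sh, Expr.size, ihe, ihf]

/-- The shifted program does in the memory from `s` on what the program does. -/
theorem Cmd.sh_exec (s : ℕ) (c : Cmd) : ∀ σ : Store, vw s ((c.sh s).exec σ) = c.exec (vw s σ) ∧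
    (∀ x < s, ((c.sh s).exec σ).var x = σ.var x) ∧
    (∀ a < s, ((c.sh s).exec σ).arr a = σ.arr a) := by
  induction c with
  | skip => intro σ; exact ⟨rfl, fun _ _ => rfl, fun _ _ => rfl⟩
  | set x e =>
    intro σ
    refine ⟨?_, ?_, fun _ _ => rfl⟩
    · simp only [Cmd.sh, Cmd.exec, Expr.sh_eval]
      unfold vw
      simp only [Store.mk.injEq, and_true]
      funext y
      by_cases hy : y = x
      · subst hy
        simp
      · simp [hy]
    · intro y hy
      simp only [Cmd.sh, Cmd.exec]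
      rw [Function.update_of_ne (by omega)]
  | put a i e =>
    intro σ
    refine ⟨?_, fun _ _ => rfl, ?_⟩
    · simp only [Cmd.sh, Cmd.exec, Expr.sh_eval]
      unfold vw
      simp only [Store.mk.injEq, true_and]
      funext y
      by_cases hy : y = a
      · subst hy
        simp
      · simp [hy]
    · intro y hy
      simp only [Cmd.sh, Cmd.exec]
      rw [Function.update_of_ne (by omega)]
  | seq c d ihc ihd =>
    intro σ
    obtain ⟨h1, h2, h3⟩ := ihc σ
    obtain ⟨g1, g2, g3⟩ := ihd ((c.sh s).exec σ)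
    simp only [Cmd.sh, Cmd.exec]
    refine ⟨by rw [g1, h1], fun x hx => by rw [g2 x hx, h2 x hx],
      fun a ha => by rw [g3 a ha, h3 a ha]⟩
  | ite e c d ihc ihd =>
    intro σ
    simp only [Cmd.sh, Cmd.exec, Expr.sh_eval]
    split_ifs
    · exact ihc σ
    · exact ihd σ
  | loop e c ih =>
    intro σ
    simp only [Cmd.sh, Cmd.exec, Expr.sh_eval]
    have key : ∀ k, vw s (((c.sh s).exec)^[k] σ) = (c.exec)^[k] (vw s σ) ∧
        (∀ x < s, (((c.sh s).exec)^[k] σ).var x = σ.var x) ∧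
        (∀ a < s, (((c.sh s).exec)^[k] σ).arr a = σ.arr a) := by
      intro k
      induction k with
      | zero => exact ⟨rfl, fun _ _ => rfl, fun _ _ => rfl⟩
      | succ k ihk =>
        obtain ⟨h1, h2, h3⟩ := ihk
        obtain ⟨g1, g2, g3⟩ := ih (((c.sh s).exec)^[k] σ)
        rw [Function.iterate_succ_apply', Function.iterate_succ_apply']
        refine ⟨by rw [g1, h1], fun x hx => by rw [g2 x hx, h2 x hx],
          fun a ha => by rw [g3 a ha, h3 a ha]⟩
    exact key _

theorem Cmd.sh_iter (s : ℕ) (c : Cmd) (σ : Store) (k : ℕ) :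
    vw s (((c.sh s).exec)^[k] σ) = (c.exec)^[k] (vw s σ) := by
  induction k with
  | zero => rfl
  | succ k ih => rw [Function.iterate_succ_apply', Function.iterate_succ_apply',
      (Cmd.sh_exec s c _).1, ih]

theorem Cmd.sh_steps (s : ℕ) (c : Cmd) : ∀ σ : Store, (c.sh s).steps σ = c.steps (vw s σ) := by
  induction c with
  | skip => intro σ; rfl
  | set x e => intro σ; simp only [Cmd.sh, Cmd.steps, Expr.sh_size]
  | put a i e => intro σ; simp only [Cmd.sh, Cmd.steps, Expr.sh_size]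
  | seq c d ihc ihd =>
    intro σ
    simp only [Cmd.sh, Cmd.steps, ihc, ihd, (Cmd.sh_exec s c σ).1]
  | ite e c d ihc ihd =>
    intro σ
    simp only [Cmd.sh, Cmd.steps, Expr.sh_size, Expr.sh_eval, ihc, ihd]
  | loop e c ih =>
    intro σ
    simp only [Cmd.sh, Cmd.steps, Expr.sh_size, Expr.sh_eval, ih, Cmd.sh_iter]

end Pool.Agent.Lib.MP_711ea9_lc
end
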