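import Pool.Agent.Lib.MP_0b8c1e_lc.Mg.G002
import Pool.Agent.Lib.MP_0b8c1e_lc.Mg.G005
import Pool.Agent.Lib.MP_0b8c1e_lc.Mg.G001
import Pool.Agent.Lib.MP_0b8c1e_lc.Mg.G008
import Pool.Agent.Lib.MP_0b8c1e_lc.Mg.G010
import Pool.Agent.Lib.MP_0b8c1e_lc.Mg.G009

section

set_option autoImplicit false

namespace Pool.Agent.Lib.MP_0b8c1e_lc.PC

open Finset DS

private theorem I1c_code {m : ℕ} (φ : Formula m) (c : Fin m) (s : Fin 3) :
    code φ (3 * (c : ℕ) + s) = 2 * ((φ c s).1 : ℕ) + (if (φ c s).2 = true then 1 else 0) := by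
  have hc := c.2
  have hs := s.2
  have h : 3 * (c : ℕ) + s < 3 * m := by omega
  have h1 : (⟨(3 * (c : ℕ) + s) / 3, by omega⟩ : Fin m) = c := Fin.ext (by show (3 * (c : ℕ) + s) / 3 = c; omega)
  have h2 : (⟨(3 * (c : ℕ) + s) % 3, by omega⟩ : Fin 3) = s := Fin.ext (by show (3 * (c : ℕ) + s) % 3 = s; omega)
  unfold code
  rw [dif_pos h, h1, h2]

/-- What a satisfied torus says. -/
private theorem I1c_core {m : ℕ} (hm : 1 ≤ m) (φ : Formula m) (L : ℕ → ℕ → Lab)
    (hr : ∀ x y, x < m → y < m → ∀ s : Fin 3,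
      L x y ⟨s, by omega⟩ = L x ((y + 1) % m) ⟨s, by omega⟩)
    (hk : ∀ x y, x < m → y < m → ∀ s : Fin 3,
      L x y ⟨3 + s, by omega⟩ = L ((x + 1) % m) y ⟨3 + s, by omega⟩)
    (hu : ∀ x y, x < m → y < m → unC (code φ) x y (L x y) = true) : ∃ a, unsat φ a = 0 := by
  classical
  have hrow : ∀ x, x < m → ∀ y, y < m → ∀ s : Fin 3,
      L x y ⟨s, by omega⟩ = L x 0 ⟨s, by omega⟩ := by
    intro x hx y
    induction y with
    | zero => intro _ s; rfl
    | succ y ih =>
      intro hy s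
      have h1 := hr x y hx (by omega) s
      rw [Nat.mod_eq_of_lt hy] at h1
      rw [← h1]
      exact ih (by omega) s
  have hcol : ∀ y, y < m → ∀ x, x < m → ∀ s : Fin 3,
      L x y ⟨3 + s, by omega⟩ = L 0 y ⟨3 + s, by omega⟩ := by
    intro y hy x
    induction x with
    | zero => intro _ s; rfl
    | succ x ih =>
      intro hx s
      have h1 := hk x y (by omega) hy s
      rw [Nat.mod_eq_of_lt hx] at h1
      rw [← h1]
      exact ih (by omega) s
  have hun : ∀ x y, x < m → y < m → (∃ s : Fin 3, (L x y ⟨s, by omega⟩).val = code φ (3 * x + s) % 2) ∧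
      ∀ s t : Fin 3, code φ (3 * x + s) / 2 = code φ (3 * y + t) / 2 →
      L x y ⟨s, by omega⟩ = L x y ⟨3 + t, by omega⟩ := by
    intro x y hx hy
    have h1 := hu x y hx hy
    unfold unC at h1
    have h2 := of_decide_eq_true h1
    exact ⟨h2.1, h2.2.2⟩
  have hRK : ∀ x, x < m → ∀ s : Fin 3, L x 0 ⟨s, by omega⟩ = L 0 x ⟨3 + s, by omega⟩ := by
    intro x hx s
    rw [← hrow x hx x hx s, ← hcol x hx x hx s]
    exact (hun x x hx hx).2 s s rfl
  have hRR : ∀ x y, x < m → y < m → ∀ s t : Fin 3,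
      code φ (3 * x + s) / 2 = code φ (3 * y + t) / 2 →
      L x 0 ⟨s, by omega⟩ = L y 0 ⟨t, by omega⟩ := by
    intro x y hx hy s t he
    have h1 := (hun x y hx hy).2 s t he
    rw [hrow x hx y hy s, hcol y hy x hx t, ← hRK y hy t] at h1
    exact h1
  refine ⟨fun x => decide (∃ c : ℕ, ∃ s : Fin 3, c < m ∧ code φ (3 * c + s) / 2 = (x : ℕ) ∧
    L c 0 ⟨s, by omega⟩ = 1), ?_⟩
  unfold unsat
  rw [Finset.card_eq_zero, Finset.filter_eq_empty_iff]
  intro c _ hc
  obtain ⟨s, hs⟩ := (hun c c c.2 c.2).1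
  rw [hrow c c.2 c c.2 s] at hs
  rw [I1c_code φ c s] at hs
  have hc1 := hc s
  have hdiv : code φ (3 * (c : ℕ) + s) / 2 = ((φ c s).1 : ℕ) := by
    rw [I1c_code φ c s]
    split_ifs <;> omega
  by_cases hb : (φ c s).2 = true
  · rw [if_pos hb] at hs
    apply hc1
    rw [hb, decide_eq_true_iff]
    refine ⟨c, s, c.2, hdiv, ?_⟩
    have hv : (L c 0 ⟨s, by omega⟩).val = 1 := by rw [hs]; omega
    exact Fin.ext hv
  · have hb' : (φ c s).2 = false := by
      cases h : (φ c s).2
      · rfl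
      · exact absurd h hb
    rw [if_neg hb] at hs
    apply hc1
    rw [hb', decide_eq_false_iff_not]
    rintro ⟨c', s', hc', hdiv', hL⟩
    have h3 := hRR c c' c.2 hc' s s' (by rw [hdiv, hdiv'])
    rw [hL] at h3
    rw [h3] at hs
    have h4 : (1 : ZMod 2).val = 1 := rfl
    rw [h4] at hs
    omega

/-- TASK I1c. Soundness. Proof. Assume that the assignment `σ` violates no constraint of `G0 φ`
(and `m ≥ 1`). Then the bits 0, 1, 2 are the same for all vertices of a row `c₁` (steps with the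
label `(0, 0)`: induction on `c₂`), call them `T c₁`, and the bits 3, 4, 5 are the same in every
column. At the vertex `(c, c)` the unary constraint (for `s = t`) says that the row bits and column
bits of `c` agree. At the vertex `(c₁, c₂)` it says that equal variables have equal bits. So
`a x = true` iff `T c s = 1` for some (equivalently: every) occurrence `(c, s)` of `x` defines an
assignment, and it satisfies every clause by the first part of the unary constraint. So if the
formula is not satisfiable, every assignment violates at least one constraint, and there are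
`162 m ^ 2` darts. -/
theorem G0_gap {m : ℕ} (hm : 1 ≤ m) (φ : Formula m) (h : ∀ a, unsat φ a ≠ 0) :
    (G0 φ).Gap (1 / (162 * (m : ℝ) ^ 2)) := by
  intro σ
  have hcard : (1 / (162 * (m : ℝ) ^ 2)) * ((Fintype.card (Fin (m * m)) : ℝ) * (Fintype.card Idx : ℝ)) = 1 := by
    have h1 : Fintype.card Idx = 162 := by
      rw [Fintype.card_prod, Fintype.card_fin, Fintype.card_fin]
    rw [h1, Fintype.card_fin]
    have hm0 : (m : ℝ) ≠ 0 := by
      have : (1 : ℝ) ≤ m := by exact_mod_cast hm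
      linarith
    push_cast
    field_simp
  rw [hcard]
  by_contra hlt
  have h0 : #((G0 φ).bad σ) = 0 := by
    by_contra hne
    apply hlt
    have : 1 ≤ #((G0 φ).bad σ) := Nat.one_le_iff_ne_zero.2 hne
    exact_mod_cast this
  rw [Finset.card_eq_zero] at h0
  have hall : ∀ (v : Fin (m * m)) (i : Idx),
      (G0 φ).con (v, i) (σ v) (σ ((G0 φ).rot (v, i)).1) = true := by
    intro v i
    by_contra hc
    have hmem : (v, i) ∈ (G0 φ).bad σ := by
      unfold DS.bad
      rw [Finset.mem_filter]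
      exact ⟨Finset.mem_univ _, by simpa using hc⟩
    rw [h0] at hmem
    exact absurd hmem (Finset.notMem_empty _)
  have hmm : 0 < m * m := Nat.mul_pos (by omega) (by omega)
  let τ : ℕ → Lab := fun v => if h : v < m * m then σ ⟨v, h⟩ else 0
  have hτ : ∀ v : Fin (m * m), τ (v : ℕ) = σ v := by
    intro v
    show (if h : (v : ℕ) < m * m then σ ⟨v, h⟩ else 0) = σ v
    rw [dif_pos v.2]
  have hcon : ∀ v, v < m * m → ∀ i : Idx,
      (g0 (code φ) m).con (v, i) (τ v) (τ (rot0 m (v, i)).1) = true := by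
    intro v hv i
    have h1 := hom_G0 φ ⟨v, hv⟩ i
    have h2 := hall ⟨v, hv⟩ i
    rw [← h1.2] at h2
    have h3 : (rot0 m (v, i)).1 = (((G0 φ).rot (⟨v, hv⟩, i)).1 : ℕ) :=
      congrArg Prod.fst h1.1
    rw [h3, hτ]
    have h4 : τ v = σ ⟨v, hv⟩ := hτ ⟨v, hv⟩
    rw [h4]
    exact h2
  obtain ⟨a, ha⟩ := I1c_core hm φ (fun x y => τ (x * m + y)) (by
    intro x y hx hy s
    have hv : x * m + y < m * m := by nlinarith
    have h1 := hcon (x * m + y) hv (0, 0)
    have hd : (x * m + y) / m = x := by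
      rw [Nat.mul_comm, Nat.mul_add_div (by omega), Nat.div_eq_of_lt hy, Nat.add_zero]
    have hmd : (x * m + y) % m = y := by
      rw [Nat.mul_comm, Nat.mul_add_mod, Nat.mod_eq_of_lt hy]
    have h2 : (rot0 m (x * m + y, ((0, 0) : Idx))).1 = x * m + (y + 1) % m := by
      unfold rot0
      rw [if_pos rfl]
      show (x * m + y) / m * m + ((x * m + y) % m + 1) % m = _
      rw [hd, hmd]
    rw [h2] at h1
    unfold g0 at h1
    rw [Bool.and_eq_true] at h1
    have h3 := of_decide_eq_true h1.2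
    exact h3.1 (Or.inl rfl) s) (by
    intro x y hx hy s
    have hv : x * m + y < m * m := by nlinarith
    have h1 := hcon (x * m + y) hv (0, 2)
    have hd : (x * m + y) / m = x := by
      rw [Nat.mul_comm, Nat.mul_add_div (by omega), Nat.div_eq_of_lt hy, Nat.add_zero]
    have hmd : (x * m + y) % m = y := by
      rw [Nat.mul_comm, Nat.mul_add_mod, Nat.mod_eq_of_lt hy]
    have h2 : (rot0 m (x * m + y, ((0, 2) : Idx))).1 = (x + 1) % m * m + y := by
      unfold rot0
      rw [if_neg (by show ¬ (((0, 2) : Idx) = (0, 0)); decide),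
        if_neg (by show ¬ (((0, 2) : Idx) = (0, 1)); decide), if_pos rfl]
      show ((x * m + y) / m + 1) % m * m + (x * m + y) % m = _
      rw [hd, hmd]
    rw [h2] at h1
    unfold g0 at h1
    rw [Bool.and_eq_true] at h1
    have h3 := of_decide_eq_true h1.2
    exact h3.2 (Or.inl rfl) s) (by
    intro x y hx hy
    have hv : x * m + y < m * m := by nlinarith
    have h1 := hcon (x * m + y) hv (0, 0)
    have hd : (x * m + y) / m = x := by
      rw [Nat.mul_comm, Nat.mul_add_div (by omega), Nat.div_eq_of_lt hy, Nat.add_zero]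
    have hmd : (x * m + y) % m = y := by
      rw [Nat.mul_comm, Nat.mul_add_mod, Nat.mod_eq_of_lt hy]
    unfold g0 at h1
    rw [Bool.and_eq_true] at h1
    have h3 := h1.1
    have h4 : unC (code φ) ((x * m + y) / m) ((x * m + y) % m) (τ (x * m + y)) = true := h3
    rw [hd, hmd] at h4
    exact h4)
  exact h a ha

end Pool.Agent.Lib.MP_0b8c1e_lc.PC
end

section

set_option autoImplicit false

namespace Pool.Agent.Lib.MP_0b8c1e_lc.PC

open Finset

private theorem X5_aux {N a b : ℕ} (ha : a < N) (hb : b < N) : a * N + b < N * N := by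
  calc a * N + b < a * N + N := by omega
    _ = (a + 1) * N := by ring
    _ ≤ N * N := Nat.mul_le_mul_right N ha

private theorem X5_div {N a b : ℕ} (hb : b < N) : (a * N + b) / N = a := by
  rw [mul_comm a N, Nat.mul_add_div (by omega), Nat.div_eq_of_lt hb, add_zero]

private theorem X5_mod {N a b : ℕ} (hb : b < N) : (a * N + b) % N = b := by
  rw [mul_comm a N, Nat.mul_add_mod, Nat.mod_eq_of_lt hb]

/-- TASK X5a. Proof. Every entry is of the form `a * N + b` with `a < N` and `b < N`: `a = x % N` or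
`a = v / N < N` as `v < N * N` (`Nat.div_lt_of_lt_mul`), `b = v % N` or `b = y % N`. -/
theorem mg_lt {N v : ℕ} (hN : 1 ≤ N) (hv : v < N * N) (k : Fin 8) : mg N v k < N * N := by
  have h1 : v / N < N := Nat.div_lt_of_lt_mul hv
  have h2 : ∀ x, x % N < N := fun x => Nat.mod_lt x (by omega)
  fin_cases k
  · exact X5_aux (h2 _) (h2 _)
  · exact X5_aux (h2 _) (h2 _)
  · exact X5_aux h1 (h2 _)
  · exact X5_aux h1 (h2 _)
  · exact X5_aux (h2 _) (h2 _)
  · exact X5_aux (h2 _) (h2 _)
  · exact X5_aux h1 (h2 _)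
  · exact X5_aux h1 (h2 _)

theorem mgT_val {N : ℕ} (hN : 1 ≤ N) (v : Fin (N * N)) (k : Fin 8) :
    (mgT N v k : ℕ) = mg N v k := by
  unfold mgT
  rw [dif_pos (mg_lt hN v.2 k)]

private theorem X5_pt {N a b : ℕ} (hb : b < N) {x y : ZMod N} (hx : (a : ZMod N) = x)
    (hy : (b : ZMod N) = y) :
    ((((a * N + b) / N : ℕ) : ZMod N), (((a * N + b) % N : ℕ) : ZMod N)) = (x, y) := by
  rw [X5_div hb, X5_mod hb, hx, hy]

/-- TASK X5b. Proof. Let `e : Fin (N * N) ≃ ZMod N × ZMod N`, `e v = (v / N, v % N)` (casts; the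
inverse is `(x, y) ↦ x.val * N + y.val`; `ZMod.val_natCast`, `ZMod.natCast_zmod_val`, or compose
`finProdFinEquiv.symm` with `ZMod.finEquiv`...). Then `e (mgT N v k) = mgg (e v) k`: for
`k = 4, …, 7` note that `(N - y : ℕ) = - y` and `N - 1 = -1` in `ZMod N`
(`Nat.cast_sub` for `y ≤ N`, `ZMod.natCast_self`). `XExp` is transported along `e`
(`Equiv.sum_comp`) from `mgg_xexp`. -/
theorem mgT_xexp {N : ℕ} (hN : 1 ≤ N) : XExp (mgT N) := by
  have : NeZero N := ⟨by omega⟩
  let F : Fin (N * N) → ZMod N × ZMod N := fun v =>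
    (((v.val / N : ℕ) : ZMod N), ((v.val % N : ℕ) : ZMod N))
  have hinj : Function.Injective F := by
    intro v w h
    have h1 := (Prod.mk.inj h).1
    have h2 := (Prod.mk.inj h).2
    rw [ZMod.natCast_eq_natCast_iff'] at h1 h2
    rw [Nat.mod_mod, Nat.mod_mod] at h2
    rw [Nat.mod_eq_of_lt (Nat.div_lt_of_lt_mul v.2), Nat.mod_eq_of_lt (Nat.div_lt_of_lt_mul w.2)]
      at h1
    apply Fin.ext
    rw [← Nat.div_add_mod v.val N, ← Nat.div_add_mod w.val N, h1, h2]
  have hbij : Function.Bijective F := by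
    rw [Fintype.bijective_iff_injective_and_card]
    refine ⟨hinj, ?_⟩
    rw [Fintype.card_fin, Fintype.card_prod, ZMod.card]
  have key : ∀ v k, F (mgT N v k) = mgg (F v) k := by
    intro v k
    have hb : ∀ x, x % N < N := fun x => Nat.mod_lt x (by omega)
    have e0 : F (mgT N v k) = (((mg N v k / N : ℕ) : ZMod N), ((mg N v k % N : ℕ) : ZMod N)) := by
      show ((((mgT N v k : ℕ) / N : ℕ) : ZMod N), (((mgT N v k : ℕ) % N : ℕ) : ZMod N)) = _
      rw [mgT_val hN]
    rw [e0]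
    have hs1 : v.val % N ≤ N := (hb _).le
    have hs2 : v.val / N ≤ N := (Nat.div_lt_of_lt_mul v.2).le
    fin_cases k
    · exact X5_pt (hb _) (by rw [ZMod.natCast_mod]; push_cast; rfl) rfl
    · exact X5_pt (hb _) (by rw [ZMod.natCast_mod]; push_cast; rfl) rfl
    · exact X5_pt (hb _) rfl (by rw [ZMod.natCast_mod, Nat.cast_add, Nat.cast_mul]; rfl)
    · exact X5_pt (hb _) rfl (by
        rw [ZMod.natCast_mod, Nat.cast_add, Nat.cast_add, Nat.cast_mul, Nat.cast_one]; rfl)
    · refine X5_pt (hb _) (x := ((v.val / N : ℕ) : ZMod N) - 2 * ((v.val % N : ℕ) : ZMod N)) ?_ rfl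
      rw [ZMod.natCast_mod, Nat.cast_add, Nat.cast_mul, Nat.cast_sub hs1, ZMod.natCast_self]
      push_cast
      ring
    · refine X5_pt (hb _) (x := ((v.val / N : ℕ) : ZMod N) - 2 * ((v.val % N : ℕ) : ZMod N) - 1)
        ?_ rfl
      rw [ZMod.natCast_mod, Nat.cast_add, Nat.cast_add, Nat.cast_mul, Nat.cast_sub hs1,
        Nat.cast_sub hN, ZMod.natCast_self]
      push_cast
      ring
    · refine X5_pt (hb _) (y := ((v.val % N : ℕ) : ZMod N) - 2 * ((v.val / N : ℕ) : ZMod N)) rfl ?_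
      rw [ZMod.natCast_mod, Nat.cast_add, Nat.cast_mul, Nat.cast_sub hs2, ZMod.natCast_self]
      push_cast
      ring
    · refine X5_pt (hb _) (y := ((v.val % N : ℕ) : ZMod N) - 2 * ((v.val / N : ℕ) : ZMod N) - 1)
        rfl ?_
      rw [ZMod.natCast_mod, Nat.cast_add, Nat.cast_add, Nat.cast_mul, Nat.cast_sub hs2,
        Nat.cast_sub hN, ZMod.natCast_self]
      push_cast
      ring
  have hX := mgg_xexp (N := N)
  constructor
  · intro v k
    apply hinj
    rw [key, key, hX.inv]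
  · intro f hf
    set e := Equiv.ofBijective F hbij with he
    have hev : ∀ v, e v = F v := fun v => rfl
    have hg : ∀ v, f (e.symm (F v)) = f v := by
      intro v
      rw [← hev, Equiv.symm_apply_apply]
    have h0 : ∑ w, f (e.symm w) = 0 := by
      rw [← hf]
      exact (Equiv.sum_comp e.symm f)
    have h1 := hX.spec (fun w => f (e.symm w)) h0
    have h2 : ∑ w, f (e.symm w) ^ 2 = ∑ v, f v ^ 2 := Equiv.sum_comp e.symm (fun v => f v ^ 2)
    have h3 : ∑ w, ∑ k, f (e.symm w) * f (e.symm (mgg w k)) =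
        ∑ v, ∑ k, f v * f (mgT N v k) := by
      rw [← Equiv.sum_comp e (fun w => ∑ k, f (e.symm w) * f (e.symm (mgg w k)))]
      refine Finset.sum_congr rfl fun v _ => Finset.sum_congr rfl fun k _ => ?_
      rw [hev, hg, ← key, hg]
    rw [← h2, ← h3]
    exact h1

end Pool.Agent.Lib.MP_0b8c1e_lc.PC
end

section

set_option autoImplicit false

namespace Pool.Agent.Lib.MP_0b8c1e_lc.PC

open Finset DS

private theorem N2_dm {a b D : ℕ} (hb : b < D) : (a * D + b) / D = a ∧ (a * D + b) % D = b := by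
  have hD : 0 < D := by omega
  constructor
  · rw [Nat.add_comm, Nat.add_mul_div_right _ _ hD, Nat.div_eq_of_lt hb, Nat.zero_add]
  · rw [Nat.add_comm, Nat.add_mul_mod_self_right, Nat.mod_eq_of_lt hb]

private theorem N2_blk {a A b D : ℕ} (ha : a < A) (hb : b < D) : a * D + b < A * D := by
  calc a * D + b < a * D + D := by omega
    _ = (a + 1) * D := by ring
    _ ≤ A * D := Nat.mul_le_mul_right _ (by omega)

private theorem N2_vdvc {K Y : Type} {D : ℕ} (E : Cod (K × Y) D) (w : (ℕ × K) × Y) :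
    vd E (vc E w) = w := by
  obtain ⟨⟨v, k⟩, y⟩ := w
  obtain ⟨h1, h2⟩ := N2_dm (a := v) (E.lt (k, y))
  unfold vd vc
  simp only [h1, h2, E.dc]

private theorem N2_vcvd {K Y : Type} {D : ℕ} (E : Cod (K × Y) D) (hD : 0 < D) (τ : ℕ) :
    vc E (vd E τ) = τ := by
  unfold vd vc
  simp only [Prod.mk.eta, E.cd _ (Nat.mod_lt _ hD)]
  exact Nat.div_add_mod' τ D

/-- TASK N2a. -/
theorem exists_num {K Y : Type} {c N : ℕ} (E : Cod (K × Y) (c * c)) :
    ∃ e : (Fin (N * N) × K) × Y ≃ Fin (c * N * (c * N)), ∀ w,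
      (e w : ℕ) = vc E (((w.1.1 : ℕ), w.1.2), w.2) := by
  have hNN : N * N * (c * c) = c * N * (c * N) := by ring
  have hlt : ∀ w : (Fin (N * N) × K) × Y, vc E (((w.1.1 : ℕ), w.1.2), w.2) < c * N * (c * N) := by
    intro w
    rw [← hNN]
    exact N2_blk w.1.1.2 (E.lt _)
  let f : (Fin (N * N) × K) × Y → Fin (c * N * (c * N)) := fun w =>
    ⟨vc E (((w.1.1 : ℕ), w.1.2), w.2), hlt w⟩
  have hf : Function.Bijective f := by
    constructor
    · rintro ⟨⟨v, k⟩, y⟩ ⟨⟨v', k'⟩, y'⟩ h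
      have h1 : vc E (((v : ℕ), k), y) = vc E (((v' : ℕ), k'), y') := congrArg Fin.val h
      have h2 := congrArg (vd E) h1
      rw [N2_vdvc, N2_vdvc] at h2
      simp only [Prod.mk.injEq] at h2
      obtain ⟨⟨h3, h4⟩, h5⟩ := h2
      rw [Fin.ext h3, h4, h5]
    · intro τ
      have hc : 0 < c * c := by
        rcases Nat.eq_zero_or_pos (c * c) with h | h
        · have h1 := τ.2
          have h2 : c * N * (c * N) = 0 := by rw [← hNN, h, Nat.mul_zero]
          omega
        · exact h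
      have h1 : (τ : ℕ) / (c * c) < N * N := by
        rw [Nat.div_lt_iff_lt_mul hc, hNN]
        exact τ.2
      refine ⟨((⟨(τ : ℕ) / (c * c), h1⟩, (vd E τ).1.2), (vd E τ).2), Fin.ext ?_⟩
      exact N2_vcvd E hc τ
  exact ⟨Equiv.ofBijective f hf, fun w => rfl⟩

/-- TASK N2b. Recoding. Proof. `vd E (vc E w) = w` (`Cod.lt`, `Cod.dc`). -/
theorem hom_recode {K Y I P : Type} {D : ℕ} (E : Cod (K × Y) D) (g : DS ((ℕ × K) × Y) I P) :
    Hom (vc E) g (recode E g) := by
  intro w i
  constructor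
  · show (vc E (g.rot (vd E (vc E w), i)).1, (g.rot (vd E (vc E w), i)).2) = _
    rw [N2_vdvc]
  · show g.con (vd E (vc E w), i) = _
    rw [N2_vdvc]

variable {I S : Type} [Fintype I] [Inhabited S] [DecidableEq S] {κ : Kit I S}

/-- TASK N2c. The round on `Fin (N * N)` (with the expander `mgT N`) and the round on numbers. -/
theorem hom_round {c N : ℕ} (hN : 1 ≤ N) (E : Cod (TY κ) (c * c)) {G : DS (Fin (N * N)) I S}
    {g : DS ℕ I S} (h : Hom (fun v : Fin (N * N) => (v : ℕ)) G g) :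
    Hom (fun w : Tst (Fin (N * N)) (EK I κ.M) (EP I S κ.M) κ.μ =>
      vc E (((w.1.1 : ℕ), w.1.2), w.2)) (round κ (mgT N) G) (rdN κ E N g) := by
  have h1 := hom_ex h (X := mgT N) (x := mg N) (fun v k => (mgT_val hN v k).symm)
  have h2 := hom_pow h1 κ.M
  have h3 := hom_test h2 κ.RA κ.RB
  exact hom_trans h3 (hom_recode E _)

private theorem N2_full {c N : ℕ} (hN : 1 ≤ N) (E : Cod (TY κ) (c * c))
    (G : DS (Fin (N * N)) I S) :
    ∃ e : Tst (Fin (N * N)) (EK I κ.M) (EP I S κ.M) κ.μ ≃ Fin (c * N * (c * N)),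
      (∀ w, (e w : ℕ) = vc E (((w.1.1 : ℕ), w.1.2), w.2)) ∧
      Hom e (round κ (mgT N) G) (rdT κ E N G) ∧
      Hom (fun v : Fin (c * N * (c * N)) => (v : ℕ)) (rdT κ E N G) (rdN κ E N (toNat G)) := by
  obtain ⟨e, he⟩ := exists_num (N := N) E
  have h1 := hom_round hN E (hom_toNat G)
  have h2 : ∀ v < c * N * (c * N), ∀ i, ((rdN κ E N (toNat G)).rot (v, i)).1 < c * N * (c * N) := by
    intro v hv i
    have h3 := he (e.symm ⟨v, hv⟩)
    rw [e.apply_symm_apply] at h3
    have h4 := (h1 (e.symm ⟨v, hv⟩) i).1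
    simp only at h4
    rw [← h3] at h4
    rw [h4, ← he]
    exact (e _).2
  have h5 := hom_toFin h2
  refine ⟨e, he, ?_, h5⟩
  intro w i
  have h6 := h1 w i
  simp only at h6
  have h7 := h5 (e w) i
  simp only at h7
  rw [← he w] at h6
  constructor
  · have h8 := h7.1.symm.trans h6.1
    simp only [Prod.mk.injEq] at h8
    refine Prod.ext (Fin.ext ?_) h8.2
    rw [he]
    exact h8.1
  · exact h7.2.symm.trans h6.2

/-- TASK N2d. -/
theorem rdT_equiv {c N : ℕ} (hN : 1 ≤ N) (E : Cod (TY κ) (c * c)) (G : DS (Fin (N * N)) I S) :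
    ∃ e : Tst (Fin (N * N)) (EK I κ.M) (EP I S κ.M) κ.μ ≃ Fin (c * N * (c * N)),
      Hom e (round κ (mgT N) G) (rdT κ E N G) := by
  obtain ⟨e, _, h, _⟩ := N2_full hN E G
  exact ⟨e, h⟩

/-- TASK N2e. The round on numbers computes the round on `Fin (N * N)`, whatever the graph on `ℕ`
does outside. -/
theorem hom_rdT {c N : ℕ} (hN : 1 ≤ N) (E : Cod (TY κ) (c * c)) {G : DS (Fin (N * N)) I S}
    {g : DS ℕ I S} (h : Hom (fun v : Fin (N * N) => (v : ℕ)) G g) :
    Hom (fun v : Fin (c * N * (c * N)) => (v : ℕ)) (rdT κ E N G) (rdN κ E N g) := by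
  obtain ⟨e, he, h1, h2⟩ := N2_full hN E G
  have h3 := hom_round hN E h
  have h4 := hom_round hN E (hom_toNat G)
  intro v i
  have k1 := h3 (e.symm v) i
  have k2 := h4 (e.symm v) i
  simp only at k1 k2
  rw [← he, e.apply_symm_apply] at k1 k2
  have k3 := h2 v i
  simp only at k3
  constructor
  · show (rdN κ E N g).rot ((v : ℕ), i) = _
    rw [k1.1, ← k2.1]
    exact k3.1
  · show (rdN κ E N g).con ((v : ℕ), i) = _
    rw [k1.2, ← k2.2]
    exact k3.2

end Pool.Agent.Lib.MP_0b8c1e_lc.PC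
end

section

set_option autoImplicit false

namespace Pool.Agent.Lib.MP_0b8c1e_lc.PC

open Finset

private theorem X7c_transport {Φ Ψ : Type*} [Fintype Φ] [DecidableEq Φ] [Fintype Ψ] [DecidableEq Ψ]
    (e : Φ ≃ Ψ) {R : Ψ × Fin 9 → Ψ × Fin 9} (h : Exp6 R) :
    ∃ R' : Φ × Fin 9 → Φ × Fin 9, Exp6 R' := by
  refine ⟨fun p => (e.symm (R (e p.1, p.2)).1, (R (e p.1, p.2)).2), ?_, ?_⟩
  · intro p
    simp only [Equiv.apply_symm_apply]
    rw [h.1 (e p.1, p.2)]
    simp
  · intro T hT
    have h1 := h.2 (T.map e.toEmbedding) (by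
      rw [card_map, ← Fintype.card_congr e]
      exact hT)
    rw [card_map] at h1
    refine h1.trans (Nat.mul_le_mul_left 6 ?_)
    apply Finset.card_le_card_of_injOn (fun q => (e.symm q.1, q.2))
    · intro q hq
      simp only [coe_filter, mem_univ, true_and, Set.mem_ofPred_eq, mem_map_equiv] at hq ⊢
      rw [Equiv.apply_symm_apply]
      exact hq
    · intro q _ q' _ hqq
      simp only [Prod.mk.injEq, EmbeddingLike.apply_eq_iff_eq] at hqq
      exact Prod.ext hqq.1 hqq.2

/-- TASK X7c. All sizes. Proof. `n = card Φ`. If `n ≤ 3` this is `exp6_small`. Otherwise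
`N = Nat.sqrt n ≥ 2`, `N * N ≤ n ≤ N * N + 2 N ≤ 2 N * N`; take `C = ZMod N × ZMod N` (with
`mgg_xexp`) and `E = Fin (n - N * N)`, which has at most as many elements as `C`, so there is an
injection `att` (`Function.Embedding.nonempty_of_card_le`). The type `C ⊕ E` has `n` elements;
transport along a bijection with `Φ`. -/
theorem exp6_exists (Φ : Type*) [Fintype Φ] [DecidableEq Φ] :
    ∃ R : Φ × Fin 9 → Φ × Fin 9, Exp6 R := by
  obtain ⟨n, hn⟩ : ∃ n, n = Fintype.card Φ := ⟨_, rfl⟩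
  by_cases h3 : n ≤ 3
  · obtain ⟨R, hR⟩ := exp6_small h3
    exact X7c_transport (Fintype.equivFinOfCardEq hn.symm) hR
  · obtain ⟨N, hN⟩ : ∃ N, N = Nat.sqrt n := ⟨_, rfl⟩
    have h2 : 2 ≤ N := by
      rw [hN, Nat.le_sqrt]
      omega
    have h4 : N * N ≤ n := by
      rw [hN]
      exact Nat.sqrt_le n
    have h5 : n ≤ N * N + N + N := by
      rw [hN]
      exact Nat.sqrt_le_add n
    have h6 : N + N ≤ N * N := by nlinarith
    have : NeZero N := ⟨by omega⟩
    have hC : Fintype.card (ZMod N × ZMod N) = N * N := by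
      rw [Fintype.card_prod, ZMod.card]
    obtain ⟨att⟩ : Nonempty (Fin (n - N * N) ↪ ZMod N × ZMod N) := by
      apply Function.Embedding.nonempty_of_card_le
      rw [hC, Fintype.card_fin]
      omega
    obtain ⟨R, hR⟩ := exp6_attach (mgg_xexp (N := N)) att att.injective
    refine X7c_transport (Fintype.equivOfCardEq ?_) hR
    rw [Fintype.card_sum, hC, Fintype.card_fin, ← hn]
    omega

end Pool.Agent.Lib.MP_0b8c1e_lc.PC
end

section

set_option autoImplicit false

namespace Pool.Agent.Lib.MP_0b8c1e_lc.PC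

open Finset

/-- TASK X8. Fibrewise expanders exist for every map. Proof. Use classical logic. For every `κ`
choose (`exp6_exists`) a map `R κ` on `F κ × Fin 9`, `F κ = {x // key x = κ}`, with `Exp6 (R κ)`.
Let `R (x, i) = ((R (key x) (⟨x, rfl⟩, i)).1.val, (R (key x) (⟨x, rfl⟩, i)).2)`. It preserves the
key, it is an involution (for `y` with `key y = key x`: rewrite with `subst`/`obtain` on the
equation of keys, e.g. first show `R (x.val, i) = (((R κ) (x, i)).1.val, _)` for all `x : F κ` by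
`subst`), and the expansion for a set `T` with all keys equal to `κ` is the one of `R κ` for the
set `T.subtype` (`Finset.card_bij` or `Finset.card_map` for both sides;
`Fintype.card (F κ) = #(univ.filter (key · = κ))`: `Fintype.card_subtype`). -/
theorem fibExp_exists {Φ K : Type*} [Fintype Φ] (key : Φ → K) :
    ∃ R : Φ × Fin 9 → Φ × Fin 9, FibExp key R := by
  classical
  have hex : ∀ κ, ∃ R : {x // key x = κ} × Fin 9 → {x // key x = κ} × Fin 9, Exp6 R :=
    fun κ => exp6_exists _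
  choose Q hQ using hex
  set R : Φ × Fin 9 → Φ × Fin 9 := fun p =>
    ((Q (key p.1) (⟨p.1, rfl⟩, p.2)).1.val, (Q (key p.1) (⟨p.1, rfl⟩, p.2)).2) with hRdef
  have hR : ∀ (κ : K) (x : {x // key x = κ}) (i : Fin 9),
      R (x.val, i) = ((Q κ (x, i)).1.val, (Q κ (x, i)).2) := by
    rintro κ ⟨x, rfl⟩ i
    rfl
  refine ⟨R, ?_, ?_, ?_⟩
  · rintro ⟨x, i⟩
    have h1 := hR (key x) ⟨x, rfl⟩ i
    have h2 := hR (key x) (Q (key x) (⟨x, rfl⟩, i)).1 (Q (key x) (⟨x, rfl⟩, i)).2
    have h3 : Q (key x) (Q (key x) (⟨x, rfl⟩, i)) = (⟨x, rfl⟩, i) := (hQ (key x)).1 _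
    simp only at h1
    rw [h1, h2, Prod.mk.eta, h3]
  · rintro ⟨x, i⟩
    exact (Q (key x) (⟨x, rfl⟩, i)).1.property
  · intro κ T hT hcard
    have hc1 : #(T.subtype fun x => key x = κ) = #T := by
      rw [Finset.card_subtype, Finset.filter_true_of_mem hT]
    have hc2 : Fintype.card {x // key x = κ} = #(univ.filter fun x => key x = κ) :=
      Fintype.card_subtype _
    have h1 := (hQ κ).2 (T.subtype fun x => key x = κ) (by
      rw [hc1, hc2]
      convert hcard)
    rw [hc1] at h1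
    refine h1.trans (Nat.mul_le_mul_left 6 ?_)
    refine Finset.card_le_card_of_injOn (fun p => (p.1.val, p.2)) ?_ ?_
    · rintro ⟨x, i⟩ hp
      simp only [Finset.coe_filter, Finset.mem_univ, true_and, Set.mem_ofPred_eq,
        Finset.mem_subtype] at hp ⊢
      rw [hR κ x i]
      exact hp
    · rintro ⟨x, i⟩ _ ⟨y, j⟩ _ h
      simp only [Prod.mk.injEq] at h
      exact Prod.ext (Subtype.ext h.1) h.2

end Pool.Agent.Lib.MP_0b8c1e_lc.PC
end

section

set_option autoImplicit false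

namespace Pool.Agent.Lib.MP_0b8c1e_lc.PC

open Finset DS

/-- TASK R1a. A numbering of a finite nonempty type. Proof. `Fintype.equivFin`; `d n` is an arbitrary
element for `n ≥ D`. -/
theorem exists_cod {α : Type} [Fintype α] [Nonempty α] {D : ℕ} (h : Fintype.card α = D) :
    Nonempty (Cod α D) := by
  classical
  have e : α ≃ Fin D := Fintype.equivFinOfCardEq h
  refine ⟨⟨fun x => (e x : ℕ), fun n => if h : n < D then e.symm ⟨n, h⟩ else Classical.arbitrary α,
    ?_, ?_, ?_⟩⟩
  · intro x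
    exact (e x).2
  · intro x
    simp
  · intro n hn
    simp [hn]

/-- TASK R1b. Parameters exist. Proof. `M` as required, `μ = c` the product of the cardinalities,
`RA`, `RB` by `fibExp_exists` (and choice). Then `card (TY κ) = card (EK ..) * (card (Rnd ..) * μ)
= c * c` (`Fintype.card_prod`, `Fintype.card_fin`). `c ≥ 1`: `EK` is nonempty (as
`2 M - 1 ≥ 1` and `I` is nonempty), `Rnd` is nonempty (zero functions; `EP` need not be considered). Never
unfold the numbers. -/
theorem exists_kit (I S : Type) [Fintype I] [Nonempty I] [Fintype S] [Inhabited S] :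
    ∃ (κ : Kit I S) (c : ℕ), κ.Good c ∧ 1 ≤ c ∧ Nonempty (Cod (TY κ) (c * c)) := by
  classical
  obtain ⟨M, hM⟩ : ∃ M : ℕ, M = 2 * 18 * 432 * Fintype.card S ^ 4 * 45360 := ⟨_, rfl⟩
  have hMpos : 0 < M := by
    have h1 : 0 < Fintype.card S := Fintype.card_pos
    rw [hM]
    positivity
  obtain ⟨c, hc⟩ : ∃ c : ℕ, c = Fintype.card (EK I M) * Fintype.card (Rnd (EP I S M)) := ⟨_, rfl⟩
  have hne1 : Nonempty (EK I M) := by
    have i0 : I := Classical.arbitrary I
    exact ⟨(⟨0, by omega⟩, ⟨List.replicate (2 * M - 1) (i0, 0), List.length_replicate⟩)⟩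
  have hne2 : Nonempty (Rnd (EP I S M)) := by
    unfold Rnd
    infer_instance
  have hc1 : 1 ≤ c := by
    rw [hc]
    exact Nat.mul_pos Fintype.card_pos Fintype.card_pos
  obtain ⟨RA, hRA⟩ := fibExp_exists (keyA (K := EK I M) (P := EP I S M) (μ := c))
  have hB : ∀ r : EP I S M → EP I S M → Bool, ∃ R, FibExp (keyB (μ := c) r) R := fun r =>
    fibExp_exists _
  choose RB hRB using hB
  refine ⟨⟨M, c, RA, RB⟩, c, ⟨hM, hc.symm, rfl, hRA, hRB⟩, hc1, ?_⟩
  have hne3 : Nonempty (Fin c) := Fin.pos_iff_nonempty.1 hc1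
  have hne : Nonempty (TY (⟨M, c, RA, RB⟩ : Kit I S)) :=
    ⟨(hne1.some, (hne2.some, hne3.some))⟩
  refine exists_cod ?_
  show Fintype.card (EK I M × (Rnd (EP I S M) × Fin c)) = c * c
  have e1 : Fintype.card (Rnd (EP I S M) × Fin c) = Fintype.card (Rnd (EP I S M)) * c := by
    rw [Fintype.card_prod, Fintype.card_fin]
  have e2 : Fintype.card (EK I M × (Rnd (EP I S M) × Fin c)) =
      Fintype.card (EK I M) * Fintype.card (Rnd (EP I S M) × Fin c) := Fintype.card_prod _ _
  rw [e2, e1, ← mul_assoc, ← hc]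

end Pool.Agent.Lib.MP_0b8c1e_lc.PC
end

section

set_option autoImplicit false

namespace Pool.Agent.Lib.MP_0b8c1e_lc.PC

open Finset DS

variable {I S : Type} [Fintype I] [Nonempty I] [Fintype S] [Inhabited S] [DecidableEq S]
  {κ : Kit I S} {c N : ℕ}

private theorem R2_gap {V J P : Type*} [Fintype V] [Fintype J] {G : DS V J P} {ε ε' : ℝ}
    (h : G.Gap ε) (he : ε' ≤ ε) : G.Gap ε' := by
  intro σ
  refine le_trans ?_ (h σ)
  exact mul_le_mul_of_nonneg_right he (by positivity)

private theorem R2_num {M s : ℝ} (hs : 0 < s) (hM : M = 2 * 18 * 432 * s ^ 4 * 45360) (ε : ℝ) :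
    min (2 * ε) (1 / (2 * 432 * s ^ 4 * 45360)) =
      M * min (ε / 18) (1 / (2 * M)) / (432 * s ^ 4) / 45360 := by
  have hM0 : 0 < M := by rw [hM]; positivity
  rw [mul_min_of_nonneg _ _ hM0.le, ← min_div_div_right (by positivity),
    ← min_div_div_right (by norm_num)]
  congr 1
  · rw [hM]; field_simp
  · field_simp

/-- TASK R1c. One round. -/
theorem rdT_spec (hκ : κ.Good c) (hN : 1 ≤ N) (E : Cod (TY κ) (c * c))
    {G : DS (Fin (N * N)) I S} (hG : G.Inv) : (rdT κ E N G).Inv ∧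
    (G.Sat → (rdT κ E N G).Sat) ∧ ∀ ε, G.Gap ε → (rdT κ E N G).Gap (min (2 * ε) (eps1 S)) := by
  obtain ⟨e, he⟩ := rdT_equiv hN E G
  obtain ⟨h1, h2, h3⟩ := hom_equiv e he
  have hX := mgT_xexp hN
  have i1 : (exDS G (mgT N)).Inv := exDS_inv hG hX.inv
  have i2 : (powDS (exDS G (mgT N)) κ.M).Inv := powDS_inv i1
  have hs : 0 < (Fintype.card S : ℝ) := by
    have : 0 < Fintype.card S := Fintype.card_pos
    exact_mod_cast this
  have hM1 : 1 ≤ κ.M := by
    rw [hκ.hM]
    have : 0 < Fintype.card S := Fintype.card_pos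
    exact Nat.succ_le_of_lt (by positivity)
  have hne : Nonempty (EP I S κ.M) := ⟨fun _ => default⟩
  refine ⟨h1 ?_, fun h => h2 ?_, fun ε h => h3 _ ?_⟩
  · exact testDS_inv i2 hκ.ha.inv (fun r => (hκ.hb r).inv)
  · exact testDS_sat i2 hκ.ha.pres (fun r => (hκ.hb r).pres) (powDS_sat i1 (exDS_sat h))
  · have g1 := exDS_gap (X := mgT N) h
    have g2 := powDS_gap (M := κ.M) i1 (exDS_spec hG hX) hM1 g1
    have g3 := testDS_gap i2 hκ.ha hκ.hb g2
    refine R2_gap g3 (le_of_eq ?_)
    exact R2_num hs (by rw [hκ.hM]; push_cast; ring) ε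

end Pool.Agent.Lib.MP_0b8c1e_lc.PC
end

section

set_option autoImplicit false

namespace Pool.Agent.Lib.MP_0b8c1e_lc.PC

open Finset DS

variable {κ : Kit Idx Lab} {c : ℕ}

private theorem P3a_gap {V J P : Type*} [Fintype V] [Fintype J] {G : DS V J P} {ε ε' : ℝ}
    (h : G.Gap ε) (he : ε' ≤ ε) : G.Gap ε' := by
  intro σ
  refine le_trans ?_ (h σ)
  exact mul_le_mul_of_nonneg_right he (by positivity)

private theorem P3a_size {r : ℕ} (hr : r ≠ 0) : Nat.size r = Nat.size (r / 2) + 1 := by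
  conv_lhs => rw [← Nat.bit_bodd_div2 r]
  rw [Nat.size_bit (by rwa [Nat.bit_bodd_div2]), Nat.div2_val]

private theorem P3a_eps : 0 < eps1 Lab := by
  unfold eps1
  have : 0 < Fintype.card Lab := Fintype.card_pos
  generalize Fintype.card Lab = s at this
  have h : (0 : ℝ) < s := by exact_mod_cast this
  positivity

private theorem P3a_min {x a e : ℝ} (ha : 1 ≤ a) (he : 0 < e) :
    min (a * 2 * x) e ≤ min (a * min (2 * x) e) e := by
  refine le_min ?_ (min_le_right _ _)
  rw [mul_min_of_nonneg _ _ (by linarith)]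
  refine le_min ?_ ?_
  · refine (min_le_left _ _).trans (le_of_eq (by ring))
  · exact (min_le_right _ _).trans (le_mul_of_one_le_left he.le ha)

/-- TASK P3a. Many stages. -/
theorem iterate_spec (hκ : κ.Good c) (hc : 1 ≤ c) (E : Cod (TY κ) (c * c)) (T : ℕ) : ∀ s : St,
    s.G.Inv → 1 ≤ s.N → ((St.next κ E)^[T] s).G.Inv ∧ 1 ≤ ((St.next κ E)^[T] s).N ∧
      ((St.next κ E)^[T] s).r ≤ s.r ∧ ((St.next κ E)^[T] s).N ≤ c ^ Nat.size s.r * s.N ∧
      (s.G.Sat → ((St.next κ E)^[T] s).G.Sat) ∧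
      (Nat.size s.r ≤ T → ∀ ε, s.G.Gap ε →
        ((St.next κ E)^[T] s).G.Gap (min (2 ^ Nat.size s.r * ε) (eps1 Lab))) := by
  have h0 : ∀ s : St, s.r = 0 → St.next κ E s = s := fun s hs => by
    unfold St.next
    rw [if_pos hs]
  induction T with
  | zero =>
    intro s hG hN
    refine ⟨hG, hN, le_rfl, ?_, fun h => h, ?_⟩
    · exact Nat.le_mul_of_pos_left _ (Nat.pow_pos (by omega))
    · intro hs ε h
      have hs0 : Nat.size s.r = 0 := by omega
      rw [hs0, pow_zero, one_mul]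
      exact P3a_gap h (min_le_left _ _)
  | succ T ih =>
    intro s hG hN
    rw [Function.iterate_succ_apply]
    by_cases hr : s.r = 0
    · rw [h0 s hr]
      obtain ⟨i1, i2, i3, i4, i5, i6⟩ := ih s hG hN
      exact ⟨i1, i2, i3, i4, i5, fun _ => i6 (by rw [hr]; simp)⟩
    · obtain ⟨j1, j2, j3⟩ := rdT_spec (I := Idx) (S := Lab) hκ hN E hG
      have hn : St.next κ E s = ⟨c * s.N, s.r / 2, rdT κ E s.N s.G⟩ := by
        unfold St.next
        rw [if_neg hr]
      obtain ⟨i1, i2, i3, i4, i5, i6⟩ := ih (St.next κ E s) (by rw [hn]; exact j1) (by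
        rw [hn]
        exact Nat.mul_pos (by omega) (by omega))
      have hsz := P3a_size hr
      have e1 : (St.next κ E s).r = s.r / 2 := by rw [hn]
      have e2 : (St.next κ E s).N = c * s.N := by rw [hn]
      refine ⟨i1, i2, ?_, ?_, fun h => i5 (by rw [hn]; exact j2 h), fun hs ε h => ?_⟩
      · exact i3.trans (by rw [e1]; omega)
      · refine i4.trans (le_of_eq ?_)
        rw [e1, e2, hsz, pow_succ]
        ring
      · have k1 : (St.next κ E s).G.Gap (min (2 * ε) (eps1 Lab)) := by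
          rw [hn]
          exact j3 ε h
        have k2 := i6 (by rw [e1]; omega) _ k1
        refine P3a_gap k2 ?_
        rw [e1, hsz, pow_succ]
        exact P3a_min (one_le_pow₀ (by norm_num)) P3a_eps

end Pool.Agent.Lib.MP_0b8c1e_lc.PC
end
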