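import Pool.Agent.Lib.MP_0b8c1e_lc.Mg.G002
import Pool.Agent.Lib.MP_0b8c1e_lc.Mg.G003
import Pool.Agent.Lib.MP_0b8c1e_lc.Mg.G004

section

set_option autoImplicit false

namespace Pool.Agent.Lib.MP_0b8c1e_lc.PC

open Finset DS Pool.Agent.Lib.MP_711ea9_lc Pool.Agent.Lib.MP_711ea9_lc.FH

variable {κ : Kit Idx Lab} {c D Kc : ℕ}

/-- TASK P2a. The terms of one step. Proof. The closure properties of `Cp` and `Pp` (file
`MP_711ea9_lc/FH/J1.lean`) and `cpd_round` for `cpd_dec`; the term for the entry `j = e 2` uses the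
vertex `(j - 1) / D` (in `Cp`) and the label `cI.d ((j - 1) % D)` (`CpF.mod`), and `ent` is built from
`Cp.code`. -/
theorem step_terms (hc : 1 ≤ c) (hD : 1 ≤ D) (hK : 1 ≤ Kc) (E : Cod (TY κ) (c * c))
    (cI : Cod Idx D) (cR : Cod (Lab → Lab → Bool) Kc) :
    ∃ (tn tk tq : Tm 1) (tb : Tm 3), ∀ A : ℕ → ℕ,
      (∀ e : Fin 1 → ℕ, tn.eval A e = if A 0 = 0 then e 0 else c * e 0) ∧
      (∀ e : Fin 1 → ℕ, tk.eval A e = 0) ∧
      (∀ e : Fin 1 → ℕ, tq.eval A e = 1 + (if A 0 = 0 then e 0 else c * e 0) *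
        (if A 0 = 0 then e 0 else c * e 0) * D) ∧
      (∀ e : Fin 3 → ℕ, tb.eval A e = if A 0 = 0 then A (e 2) else if e 2 = 0 then A 0 / 2 else
        ent cI cR ((rdN κ E (e 0) (dec cI cR A)).rot ((e 2 - 1) / D, cI.d ((e 2 - 1) % D))).1
          ((rdN κ E (e 0) (dec cI cR A)).rot ((e 2 - 1) / D, cI.d ((e 2 - 1) % D))).2
          ((rdN κ E (e 0) (dec cI cR A)).con ((e 2 - 1) / D, cI.d ((e 2 - 1) % D)))) := by
  classical
  have hcc : 1 ≤ c * c := Nat.one_le_iff_ne_zero.2 (Nat.mul_ne_zero (by omega) (by omega))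
  have hr := cpd_round κ hcc E (cpd_dec hD hK cI cR)
  have c1 : Cp (fun (A : ℕ → ℕ) (e : Fin 1 → ℕ) => if A 0 = 0 then e 0 else c * e 0) :=
    Cp.ite (Pp.eq (Cp.arr (Cp.const 0)) (Cp.const 0)) (Cp.var 0) (Cp.mul (Cp.const c) (Cp.var 0))
  have c2 : Cp (fun (_ : ℕ → ℕ) (_ : Fin 1 → ℕ) => 0) := Cp.const 0
  have c3 : Cp (fun (A : ℕ → ℕ) (e : Fin 1 → ℕ) => 1 + (if A 0 = 0 then e 0 else c * e 0) *
      (if A 0 = 0 then e 0 else c * e 0) * D) :=
    Cp.add (Cp.const 1) (Cp.mul (Cp.mul c1 c1) (Cp.const D))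
  have hv : Cp (fun (_ : ℕ → ℕ) (e : Fin 3 → ℕ) => (e 2 - 1) / D) :=
    Cp.div (Cp.sub (Cp.var 2) (Cp.const 1)) (Cp.const D)
  have hi : CpF (fun (_ : ℕ → ℕ) (e : Fin 3 → ℕ) => cI.d ((e 2 - 1) % D)) :=
    CpF.mod (Cp.sub (Cp.var 2) (Cp.const 1)) hD cI.d
  obtain ⟨d1, d2, d3⟩ := hr 3 (fun _ e => e 0) _ _ (Cp.var 0) hv hi
  have c4 : Cp (fun (A : ℕ → ℕ) (e : Fin 3 → ℕ) => if A 0 = 0 then A (e 2) else
      if e 2 = 0 then A 0 / 2 else
        ent cI cR ((rdN κ E (e 0) (dec cI cR A)).rot ((e 2 - 1) / D, cI.d ((e 2 - 1) % D))).1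
          ((rdN κ E (e 0) (dec cI cR A)).rot ((e 2 - 1) / D, cI.d ((e 2 - 1) % D))).2
          ((rdN κ E (e 0) (dec cI cR A)).con ((e 2 - 1) / D, cI.d ((e 2 - 1) % D)))) := by
    refine Cp.ite (Pp.eq (Cp.arr (Cp.const 0)) (Cp.const 0)) (Cp.arr (Cp.var 2)) ?_
    refine Cp.ite (Pp.eq (Cp.var 2) (Cp.const 0)) (Cp.div (Cp.arr (Cp.const 0)) (Cp.const 2)) ?_
    exact Cp.add (Cp.mul (Cp.add (Cp.mul d1 (Cp.const D)) (Cp.code d2 cI.c)) (Cp.const Kc))
      (Cp.code d3 cR.c)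
  obtain ⟨tn, h1⟩ := c1
  obtain ⟨tk, h2⟩ := c2
  obtain ⟨tq, h3⟩ := c3
  obtain ⟨tb, h4⟩ := c4
  exact ⟨tn, tk, tq, tb, fun A => ⟨h1 A, h2 A, h3 A, h4 A⟩⟩

/-- TASK P2b. The program of one step.

Proof. `prog` with the terms of `step_terms`, `prog_cl` for `A = arrOf cI cR r G` (`A 0 = r`;
entries from `1 + N * N * D` on are zero: `arrOf_eq_zero`). If `r = 0` the new array is
`j ↦ if j < 1 + N N D then A j else 0 = A j`. If `r ≠ 0` it is `arrOf` of `rdT κ E N G` by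
`arrOf_eq` with `hom_rdT` and `hom_dec` (and `arrOf_eq_zero`). Steps: `prog_cl_steps` with
`V = r + c N (c N) D Kc + c N + 1 + c N (c N) D` (`arrOf_le`), and this is at most a constant times
`(N + r + 2) ^ 2`, a constant `a` is at most `2 ^ a ≤ (N + r + 2) ^ a`. -/
theorem step_prog (hc : 1 ≤ c) (hD : 1 ≤ D) (hK : 1 ≤ Kc) (E : Cod (TY κ) (c * c))
    (cI : Cod Idx D) (cR : Cod (Lab → Lab → Bool) Kc) :
    ∃ (p : Cmd) (C : ℕ), ∀ (N r : ℕ) (G : DS (Fin (N * N)) Idx Lab), 1 ≤ N →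
      (r = 0 → p.exec (cl N (arrOf cI cR r G)) = cl N (arrOf cI cR r G)) ∧
      (r ≠ 0 → p.exec (cl N (arrOf cI cR r G)) = cl (c * N) (arrOf cI cR (r / 2) (rdT κ E N G))) ∧
      p.steps (cl N (arrOf cI cR r G)) ≤ (N + r + 2) ^ C := by
  obtain ⟨tn, tk, tq, tb, H⟩ := step_terms (κ := κ) hc hD hK E cI cR
  obtain ⟨C0, hC0⟩ := prog_cl_steps tn tk tq tb
  obtain ⟨a, ha⟩ : ∃ a, a = c * c * D * Kc + c * c * D + c + 3 := ⟨_, rfl⟩
  refine ⟨prog tn tk tq tb, (a + 2) * C0, ?_⟩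
  intro N r G hN
  obtain ⟨hn, hk, hq, hb⟩ := H (arrOf cI cR r G)
  have A0 : arrOf cI cR r G 0 = r := arrOf_zero cI cR r G
  rw [A0] at hn hq hb
  have hn1 := hn (fun _ => N)
  have hk1 := hk (fun _ => N)
  have hq1 := hq (fun _ => N)
  beta_reduce at hn1 hk1 hq1
  have hcN : N ≤ c * N := Nat.le_mul_of_pos_left N (by omega)
  have hnn : N ≤ (if r = 0 then N else c * N) := by split_ifs <;> omega
  have hnn2 : (if r = 0 then N else c * N) ≤ c * N := by split_ifs <;> omega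
  obtain ⟨n, hndef⟩ : ∃ n, n = (if r = 0 then N else c * N) := ⟨_, rfl⟩
  rw [← hndef] at hn1 hq1 hnn hnn2
  have hND : N * N * D ≤ n * n * D := Nat.mul_le_mul_right D (Nat.mul_le_mul hnn hnn)
  have hAz : ∀ j, 1 + n * n * D ≤ j → arrOf cI cR r G j = 0 := by
    intro j hj
    exact arrOf_eq_zero cI cR r G (by omega)
  have hex := prog_cl (tb := tb) hn1 hk1 hq1 hAz
  refine ⟨?_, ?_, ?_⟩
  · intro h0
    rw [hex]
    have hnN : n = N := by rw [hndef, if_pos h0]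
    subst hnN
    congr 1
    funext j
    by_cases hj : j < 1 + n * n * D
    · rw [if_pos hj, hb, if_pos h0]
      rfl
    · rw [if_neg hj, hAz j (by omega)]
  · intro h0
    rw [hex]
    have hnN : n = c * N := by rw [hndef, if_neg h0]
    rw [hnN]
    congr 1
    funext j
    by_cases hj : j < 1 + c * N * (c * N) * D
    · rw [if_pos hj, hb, if_neg h0]
      have e2 : (![N, c * N, j] : Fin 3 → ℕ) 2 = j := rfl
      have e0 : (![N, c * N, j] : Fin 3 → ℕ) 0 = N := rfl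
      rw [e2, e0]
      by_cases hj0 : j = 0
      · rw [if_pos hj0, hj0, arrOf_zero]
      · rw [if_neg hj0]
        exact (arrOf_eq cI cR (r / 2) (hom_rdT hN E (hom_dec cI cR r G)) hj0 hj).symm
    · rw [if_neg hj]
      exact (arrOf_eq_zero cI cR (r / 2) (rdT κ E N G) (by omega)).symm
  · obtain ⟨V, hV⟩ : ∃ V, V = r + c * N * (c * N) * D * Kc + c * N + 1 + c * N * (c * N) * D :=
      ⟨_, rfl⟩
    have hnD : n * n * D ≤ c * N * (c * N) * D := Nat.mul_le_mul_right D (Nat.mul_le_mul hnn2 hnn2)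
    have hN2 : N * N * D * Kc ≤ c * N * (c * N) * D * Kc :=
      Nat.mul_le_mul_right Kc (Nat.mul_le_mul_right D (Nat.mul_le_mul hcN hcN))
    have hAV : ∀ i, arrOf cI cR r G i ≤ V := by
      intro i
      have := arrOf_le cI cR r G i
      omega
    have hst := hC0 V N n (1 + n * n * D) (arrOf cI cR r G) hAV (by omega) (by omega) (by omega)
      hn1 hk1 hq1
    refine hst.trans ?_
    rw [pow_mul]
    refine Nat.pow_le_pow_left ?_ C0
    obtain ⟨X, hX⟩ : ∃ X, X = N + r + 2 := ⟨_, rfl⟩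
    rw [← hX]
    have hXN : N ≤ X := by omega
    have hX2 : 2 ≤ X := by omega
    have h1 : V + 2 ≤ a * (X * X) := by
      have hXX : X ≤ X * X := Nat.le_mul_of_pos_left X (by omega)
      have hone : 1 ≤ X * X := by nlinarith
      have u1 : c * N * (c * N) ≤ c * c * (X * X) := by
        calc c * N * (c * N) = c * c * (N * N) := by ring
          _ ≤ c * c * (X * X) := Nat.mul_le_mul_left _ (Nat.mul_le_mul hXN hXN)
      have u2 : c * N * (c * N) * D ≤ c * c * D * (X * X) := by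
        calc c * N * (c * N) * D ≤ c * c * (X * X) * D := Nat.mul_le_mul_right D u1
          _ = c * c * D * (X * X) := by ring
      have u3 : c * N * (c * N) * D * Kc ≤ c * c * D * Kc * (X * X) := by
        calc c * N * (c * N) * D * Kc ≤ c * c * D * (X * X) * Kc := Nat.mul_le_mul_right Kc u2
          _ = c * c * D * Kc * (X * X) := by ring
      have u4 : c * N ≤ c * (X * X) := Nat.mul_le_mul_left c (hXN.trans hXX)
      have u5 : r + 1 + 2 ≤ 3 * (X * X) := by omega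
      have e : a * (X * X) = c * c * D * Kc * (X * X) + c * c * D * (X * X) + c * (X * X) +
          3 * (X * X) := by rw [ha]; ring
      omega
    have h2 : a ≤ X ^ a := (Nat.lt_two_pow_self).le.trans (Nat.pow_le_pow_left hX2 a)
    calc V + 2 ≤ a * (X * X) := h1
      _ ≤ X ^ a * (X * X) := Nat.mul_le_mul_right _ h2
      _ = X ^ (a + 2) := by ring

end Pool.Agent.Lib.MP_0b8c1e_lc.PC
end

section

set_option autoImplicit false

namespace Pool.Agent.Lib.MP_0b8c1e_lc.PC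

open Finset DS Pool.Agent.Lib.MP_711ea9_lc Pool.Agent.Lib.MP_711ea9_lc.FH

variable {κ : Kit Idx Lab} {c D Kc : ℕ}

private theorem P3b_pow (c r B : ℕ) (hB : 2 * r + 1 ≤ B ^ 2) : c ^ Nat.size r ≤ B ^ (2 * c) := by
  have h1 : c ≤ 2 ^ c := Nat.lt_two_pow_self.le
  have h2 : 2 ^ Nat.size r ≤ 2 * r + 1 := by
    rcases Nat.eq_zero_or_pos r with rfl | hr
    · simp
    · have h3 : Nat.size r - 1 < Nat.size r := by
        have : 0 < Nat.size r := Nat.size_pos.2 hr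
        omega
      have h4 := Nat.lt_size.1 h3
      have h5 : Nat.size r = (Nat.size r - 1) + 1 := by omega
      rw [h5, pow_succ]
      omega
  calc c ^ Nat.size r ≤ (2 ^ c) ^ Nat.size r := Nat.pow_le_pow_left h1 _
    _ = (2 ^ Nat.size r) ^ c := by rw [← pow_mul, ← pow_mul, mul_comm]
    _ ≤ (2 * r + 1) ^ c := Nat.pow_le_pow_left h2 _
    _ ≤ (B ^ 2) ^ c := Nat.pow_le_pow_left hB _
    _ = B ^ (2 * c) := by rw [← pow_mul]

private theorem P3b_two {B k : ℕ} (hB : 2 ≤ B) : 2 * B ^ k ≤ B ^ (k + 1) := by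
  rw [pow_succ, mul_comm]
  exact Nat.mul_le_mul_left _ hB

/-- TASK P3b. The loop.

Proof. `loop_cl` for the program `p` of `step_prog`, `e = .add (.var 0) (.const C₀)` and
`x t = cl (N_t) (arrOf .. r_t G_t)`, `(N_t, r_t, G_t) = next^[t] s` (`Function.iterate_succ_apply'`).
Steps: `N_t ≤ c ^ size r * N` and `c ≤ 2 ^ c`, `2 ^ size r ≤ 2 r + 1` (`Nat.size` is the number of
binary digits; `Nat.lt_size`/`Nat.size_le`), so `c ^ size r ≤ (2 r + 1) ^ c`, and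
`N_t + r_t + 2 ≤ ((2 r + 1) ^ c + 1) * (N + r + 2) ≤ (N + r + 2) ^ (2 c + 2)` or a similar bound; the
number of passes is `N + C₀`. -/
theorem loop_prog (hκ : κ.Good c) (hc : 1 ≤ c) (hD : 1 ≤ D) (hK : 1 ≤ Kc) (E : Cod (TY κ) (c * c))
    (cI : Cod Idx D) (cR : Cod (Lab → Lab → Bool) Kc) (C₀ : ℕ) :
    ∃ (p : Cmd) (C : ℕ), ∀ s : St, s.G.Inv → 1 ≤ s.N →
      p.exec (cl s.N (arrOf cI cR s.r s.G)) =
        cl ((St.next κ E)^[s.N + C₀] s).N (arrOf cI cR ((St.next κ E)^[s.N + C₀] s).r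
          ((St.next κ E)^[s.N + C₀] s).G) ∧
      p.steps (cl s.N (arrOf cI cR s.r s.G)) ≤ (s.N + s.r + 2) ^ C ∧
      ((St.next κ E)^[s.N + C₀] s).N ≤ (s.N + s.r + 2) ^ C := by
  obtain ⟨p, C₁, hp⟩ := step_prog (κ := κ) hc hD hK E cI cR
  refine ⟨.loop (.add (.var 0) (.const C₀)) p, C₀ + (2 * c + 2) * C₁ + 4 + (2 * c + 2),
    fun s hI hN => ?_⟩
  obtain ⟨F, hF⟩ : ∃ F : St → Store, F = fun u => cl u.N (arrOf cI cR u.r u.G) := ⟨_, rfl⟩
  have hB2 : 2 ≤ s.N + s.r + 2 := by omega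
  have hBpos : 0 < s.N + s.r + 2 := by omega
  obtain ⟨B, hB⟩ : ∃ B, B = s.N + s.r + 2 := ⟨_, rfl⟩
  rw [← hB] at hB2 hBpos
  have hBr : 2 * s.r + 1 ≤ B ^ 2 := by
    have h1 : 2 * B ≤ B ^ 2 := by nlinarith
    omega
  have hspec := fun t => iterate_spec hκ hc E t s hI hN
  have hNt : ∀ t, ((St.next κ E)^[t] s).N ≤ B ^ (2 * c + 1) := by
    intro t
    have h1 := (hspec t).2.2.2.1
    have h2 := P3b_pow c s.r B hBr
    calc ((St.next κ E)^[t] s).N ≤ c ^ Nat.size s.r * s.N := h1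
      _ ≤ B ^ (2 * c) * B := Nat.mul_le_mul h2 (by omega)
      _ = B ^ (2 * c + 1) := (pow_succ _ _).symm
  have hVt : ∀ t, ((St.next κ E)^[t] s).N + ((St.next κ E)^[t] s).r + 2 ≤ B ^ (2 * c + 2) := by
    intro t
    have h1 := hNt t
    have h2 := (hspec t).2.2.1
    have h3 : B ≤ B ^ (2 * c + 1) := Nat.le_self_pow (by omega) B
    have h4 : 2 * B ^ (2 * c + 1) ≤ B ^ (2 * c + 2) := P3b_two hB2
    omega
  have hstep : ∀ t, p.exec (F ((St.next κ E)^[t] s)) = F ((St.next κ E)^[t + 1] s) := by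
    intro t
    rw [Function.iterate_succ_apply']
    have hN' := (hspec t).2.1
    generalize (St.next κ E)^[t] s = u at hN'
    obtain ⟨h1, h2, -⟩ := hp u.N u.r u.G hN'
    rw [hF]
    by_cases hr : u.r = 0
    · have e : St.next κ E u = u := by
        unfold St.next
        rw [if_pos hr]
      rw [e]
      exact h1 hr
    · have e : St.next κ E u = ⟨c * u.N, u.r / 2, rdT κ E u.N u.G⟩ := by
        unfold St.next
        rw [if_neg hr]
      rw [e]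
      exact h2 hr
  have hsteps : ∀ t, p.steps (F ((St.next κ E)^[t] s)) ≤ B ^ ((2 * c + 2) * C₁) := by
    intro t
    have hN' := (hspec t).2.1
    have hV := hVt t
    generalize (St.next κ E)^[t] s = u at hN' hV
    obtain ⟨-, -, h3⟩ := hp u.N u.r u.G hN'
    rw [hF]
    refine h3.trans ?_
    rw [pow_mul]
    exact Nat.pow_le_pow_left hV _
  obtain ⟨he, hs⟩ := loop_cl (p := p) (e := .add (.var 0) (.const C₀))
    (x := fun t => F ((St.next κ E)^[t] s)) hstep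
  have e0 : F ((St.next κ E)^[0] s) = cl s.N (arrOf cI cR s.r s.G) := by
    rw [hF]
    rfl
  have ev : Expr.eval (F ((St.next κ E)^[0] s)) (.add (.var 0) (.const C₀)) = s.N + C₀ := by
    rw [e0]
    rfl
  have hsize : Expr.size (.add (.var 0) (.const C₀)) ≤ 3 + C₀ := by
    have h1 : Nat.size C₀ ≤ C₀ := Nat.size_le.2 Nat.lt_two_pow_self
    simp only [Expr.size]
    omega
  simp only [ev] at he hs
  rw [e0] at he hs
  have hmono : ∀ {a : ℕ}, a ≤ C₀ + (2 * c + 2) * C₁ + 4 + (2 * c + 2) →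
      B ^ a ≤ B ^ (C₀ + (2 * c + 2) * C₁ + 4 + (2 * c + 2)) := fun h => Nat.pow_le_pow_right hBpos h
  refine ⟨?_, ?_, ?_⟩
  · rw [he, hF]
  · rw [hs, ← hB]
    have h1 : ∑ t ∈ range (s.N + C₀), (1 + p.steps (F ((St.next κ E)^[t] s))) ≤
        (s.N + C₀) * (1 + B ^ ((2 * c + 2) * C₁)) := by
      refine (Finset.sum_le_card_nsmul _ _ (1 + B ^ ((2 * c + 2) * C₁))
        (fun t _ => Nat.add_le_add_left (hsteps t) 1)).trans ?_
      rw [card_range, smul_eq_mul]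
    generalize (2 * c + 2) * C₁ = K at h1 hmono ⊢
    have h2 : 1 + B ^ K ≤ B ^ (K + 1) := by
      have h3 : 1 ≤ B ^ K := Nat.one_le_pow _ _ hBpos
      have h4 : 2 * B ^ K ≤ B ^ (K + 1) := P3b_two hB2
      omega
    have h5 : s.N + C₀ ≤ B ^ (C₀ + 2) := by
      have h6 : C₀ ≤ B ^ C₀ := (Nat.lt_pow_self (by omega)).le
      have h7 : B ^ C₀ ≤ B ^ (C₀ + 1) := Nat.pow_le_pow_right hBpos (by omega)
      have h8 : B ≤ B ^ (C₀ + 1) := Nat.le_self_pow (by omega) B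
      have h9 : 2 * B ^ (C₀ + 1) ≤ B ^ (C₀ + 2) := P3b_two hB2
      omega
    have h10 : (s.N + C₀) * (1 + B ^ K) ≤ B ^ (C₀ + K + 3) := by
      calc (s.N + C₀) * (1 + B ^ K) ≤ B ^ (C₀ + 2) * B ^ (K + 1) := Nat.mul_le_mul h5 h2
        _ = B ^ (C₀ + K + 3) := by
          rw [← pow_add]
          congr 1
          omega
    have h11 : B ^ (C₀ + 3) ≤ B ^ (C₀ + K + 3) := Nat.pow_le_pow_right hBpos (by omega)
    have h12 : 4 + C₀ ≤ B ^ (C₀ + 3) := by
      have g1 : C₀ ≤ B ^ C₀ := (Nat.lt_pow_self (by omega)).le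
      have g2 : B ^ C₀ ≤ B ^ (C₀ + 2) := Nat.pow_le_pow_right hBpos (by omega)
      have g3 : B ^ 2 ≤ B ^ (C₀ + 2) := Nat.pow_le_pow_right hBpos (by omega)
      have g4 : 4 ≤ B ^ 2 := by nlinarith
      have g5 : 2 * B ^ (C₀ + 2) ≤ B ^ (C₀ + 3) := P3b_two hB2
      omega
    have h13 : 2 * B ^ (C₀ + K + 3) ≤ B ^ (C₀ + K + 4) := P3b_two hB2
    have h14 : B ^ (C₀ + K + 4) ≤ B ^ (C₀ + K + 4 + (2 * c + 2)) :=
      Nat.pow_le_pow_right hBpos (by omega)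
    omega
  · rw [← hB]
    exact (hNt _).trans (hmono (by omega))

end Pool.Agent.Lib.MP_0b8c1e_lc.PC
end
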