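import Pool.Agent.Lib.MP_0b8c1e_lc.Mg.G003
import Pool.Agent.Lib.MP_0b8c1e_lc.Mg.G010
import Pool.Agent.Lib.MP_0b8c1e_lc.SatGap

section

set_option autoImplicit false

/-!
# Dense Graph Partition: the program which uses an approximation algorithm
-/

namespace Pool.Agent.Lib.MP_0b8c1e_lc

open Finset Pool.Agent.Lib.MP_711ea9_lc Pool.Agent.Lib.MP_711ea9_lc.FH

/-- Copy entry number `var 2` of array 0 into array 10. -/
def inBody : Cmd :=
  .seq (.put 10 (.var 2) (.get 0 (.var 2))) (.set 2 (.add (.var 2) (.const 1)))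

/-- Put `n` and the matrix also into register 10 and array 10, and `n * n` into register 1. -/
def copyIn : Cmd :=
  .seq ((Tm.mul (.var 0) (.var 0) : Tm 1).comp (fun _ => 0) 1)
    (.seq (.set 10 (.var 0)) (.seq (.set 2 (.const 0)) (.loop (.var 1) inBody)))

/-- Copy entry number `var 2` of array 11 into array 0, behind the matrix. -/
def outBody : Cmd :=
  .seq (.put 0 (.add (.var 1) (.var 2)) (.get 11 (.var 2))) (.set 2 (.add (.var 2) (.const 1)))

/-- Copy the labels behind the matrix. -/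
def copyOut : Cmd := .seq (.set 2 (.const 0)) (.loop (.var 0) outBody)

/-- Apply the reduction, run the approximation algorithm (in the memory from 10 on), test. -/
def decider (red p : Cmd) (t : Tm 1) : Cmd :=
  .seq red (.seq copyIn (.seq (p.sh 10) (.seq copyOut
    (.seq (t.comp (fun _ => 0) 3) (.set 0 (.var 3))))))

/-- The matrix followed by the labels. -/
def packN (n : ℕ) (M L : ℕ → ℕ) (j : ℕ) : ℕ :=
  if n * n ≤ j ∧ j < n * n + n then L (j - n * n) else M j

theorem nat_beq {a b : ℕ} (h : a ≠ b) : Nat.beq a b = false := by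
  rw [← Bool.not_eq_true]
  exact fun h' => h (Nat.eq_of_beq_eq_true h')

theorem graphInput_zero {n : ℕ} (G : SimpleGraph (Fin n)) (j : ℕ) (hj : n * n ≤ j) :
    (graphInput G).arr 0 j = 0 := by
  unfold graphInput
  dsimp only
  rw [if_neg]
  rintro ⟨-, u, v, -, h⟩
  have := (div_mod_pos u.isLt v.isLt h).1
  omega

theorem graphInput_le {n : ℕ} (G : SimpleGraph (Fin n)) (a j : ℕ) :
    (graphInput G).arr a j ≤ 1 := by
  unfold graphInput
  simp only
  split_ifs <;> omega

theorem graphInput_other {n : ℕ} (G : SimpleGraph (Fin n)) (a j : ℕ) (ha : a ≠ 0) :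
    (graphInput G).arr a j = 0 := by
  unfold graphInput
  simp [ha]

theorem graphInput_entry {n : ℕ} (G : SimpleGraph (Fin n)) (u v : Fin n) :
    (graphInput G).arr 0 (u * n + v) = adjI G u v := by
  unfold graphInput adjI
  dsimp only
  by_cases h : G.Adj u v
  · rw [if_pos ⟨rfl, u, v, h, rfl⟩, if_pos h]
  · rw [if_neg, if_neg h]
    rintro ⟨-, u', v', h', e⟩
    have e1 := div_mod_pos u.isLt v.isLt rfl
    have e2 := div_mod_pos u'.isLt v'.isLt e
    have e3 : u = u' := Fin.ext (by rw [← e1.2.1, ← e2.2.1])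
    have e4 : v = v' := Fin.ext (by rw [← e1.2.2, ← e2.2.2])
    subst e3 e4
    exact h h'

theorem copyIn_spec {n : ℕ} (G : SimpleGraph (Fin n)) :
    vw 10 (copyIn.exec (graphInput G)) = graphInput G ∧
    (copyIn.exec (graphInput G)).var 0 = n ∧
    (copyIn.exec (graphInput G)).var 1 = n * n ∧
    (copyIn.exec (graphInput G)).arr 0 = (graphInput G).arr 0 := by
  have g0 : (graphInput G).var 0 = n := rfl
  have gx : ∀ x, x ≠ 0 → (graphInput G).var x = 0 := by
    intro x hx
    simp [graphInput, hx]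
  obtain ⟨c1, c2, c3⟩ := comp_spec (Tm.mul (.var 0) (.var 0) : Tm 1) (fun _ => 0) 1
    (graphInput G) (fun _ => by omega)
  have w : (Tm.mul (.var 0) (.var 0) : Tm 1).width = 3 := rfl
  rw [w] at c2
  simp only [Tm.eval, g0] at c1
  simp only [copyIn, Cmd.exec_seq]
  generalize ((Tm.mul (.var 0) (.var 0) : Tm 1).comp (fun _ => 0) 1).exec (graphInput G) = σ1 at *
  rw [Cmd.exec_set, Cmd.exec_set]
  obtain ⟨σ2, hσ2⟩ : ∃ σ2 : Store, σ2 = ⟨Function.update (⟨Function.update σ1.var 10
    (Expr.eval σ1 (.var 0)), σ1.arr⟩ : Store).var 2 (Expr.eval ⟨Function.update σ1.var 10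
    (Expr.eval σ1 (.var 0)), σ1.arr⟩ (.const 0)),
    (⟨Function.update σ1.var 10 (Expr.eval σ1 (.var 0)), σ1.arr⟩ : Store).arr⟩ := ⟨_, rfl⟩
  rw [← hσ2]
  have v0 : σ2.var 0 = n := by
    rw [hσ2]
    simp only [Expr.eval]
    rw [Function.update_of_ne (by omega), Function.update_of_ne (by omega),
      c2 0 (Or.inl (by omega)), g0]
  have v1 : σ2.var 1 = n * n := by
    rw [hσ2]
    simp only [Expr.eval]
    rw [Function.update_of_ne (by omega), Function.update_of_ne (by omega), c1]
  have v2 : σ2.var 2 = 0 := by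
    rw [hσ2]
    simp only [Expr.eval]
    rw [Function.update_self]
  have v10 : σ2.var 10 = n := by
    rw [hσ2]
    simp only [Expr.eval]
    rw [Function.update_of_ne (by omega), Function.update_self, c2 0 (Or.inl (by omega)), g0]
  have vx : ∀ x, 11 ≤ x → σ2.var x = 0 := by
    intro x hx
    rw [hσ2]
    simp only [Expr.eval]
    rw [Function.update_of_ne (by omega), Function.update_of_ne (by omega),
      c2 x (Or.inr (by omega)), gx x (by omega)]
  have va : σ2.arr = (graphInput G).arr := by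
    rw [hσ2]
    exact c3
  have hloop := Cmd.loop_rule (e := .var 1) (c := inBody) (σ := σ2) (N := n * n) v1
    (fun i τ => τ.var 2 = i ∧ τ.arr 10 = fun j => if j < i then (graphInput G).arr 0 j else 0)
    ⟨v2, by
      rw [va]
      funext j
      simp [graphInput_other G 10 j (by omega)]⟩
    (by
      intro i _ τ h1 h2 ⟨h3, h4⟩
      have a0 : τ.arr 0 = (graphInput G).arr 0 := by
        rw [h2 0 rfl, va]
      simp only [inBody, Cmd.exec, Expr.eval]
      refine ⟨by rw [Function.update_self, h3], ?_⟩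
      rw [Function.update_self, h3, h4, a0]
      funext j
      by_cases hj : j = i
      · subst hj
        simp
      · rw [Function.update_of_ne hj]
        have : j < i + 1 ↔ j < i := by omega
        simp [this])
  have fv := Cmd.frame_var (.loop (.var 1) inBody) σ2
  have fa := Cmd.frame_arr (.loop (.var 1) inBody) σ2
  have wv : ∀ x, x ≠ 2 → (Cmd.loop (.var 1) inBody).wv x = false := by
    intro x hx
    simp [Cmd.wv, inBody, nat_beq (Ne.symm hx)]
  have wa : ∀ a, a ≠ 10 → (Cmd.loop (.var 1) inBody).wa a = false := by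
    intro a ha
    simp [Cmd.wa, inBody, nat_beq (Ne.symm ha)]
  generalize (Cmd.loop (.var 1) inBody).exec σ2 = σ3 at *
  obtain ⟨l1, l2⟩ := hloop
  refine ⟨?_, ?_, ?_, ?_⟩
  · have e1 : (vw 10 σ3).var = (graphInput G).var := by
      funext x
      simp only [vw]
      rw [fv _ (wv _ (by omega))]
      by_cases hx : x = 0
      · subst hx
        rw [g0]
        exact v10
      · rw [vx _ (by omega), gx x hx]
    have e2 : (vw 10 σ3).arr = (graphInput G).arr := by
      funext a
      simp only [vw]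
      by_cases ha : a = 0
      · subst ha
        rw [show 0 + 10 = 10 from rfl, l2]
        funext j
        by_cases hj : j < n * n
        · rw [if_pos hj]
        · rw [if_neg hj, graphInput_zero G j (by omega)]
      · rw [fa _ (wa _ (by omega)), va]
        funext j
        rw [graphInput_other G _ j (by omega), graphInput_other G a j ha]
    cases hh : vw 10 σ3 with
    | mk a b =>
      rw [hh] at e1 e2
      simp only at e1 e2
      rw [e1, e2]
  · rw [fv _ (wv _ (by omega)), v0]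
  · rw [fv _ (wv _ (by omega)), v1]
  · rw [fa _ (wa _ (by omega)), va]

theorem copyOut_spec {n : ℕ} {M L : ℕ → ℕ} {σ : Store} (h0 : σ.var 0 = n) (h1 : σ.var 1 = n * n)
    (hM : σ.arr 0 = M) (hL : σ.arr 11 = L) :
    (copyOut.exec σ).var 0 = n ∧ (copyOut.exec σ).arr 0 = packN n M L := by
  simp only [copyOut, Cmd.exec_seq]
  rw [Cmd.exec_set]
  obtain ⟨σ2, hσ2⟩ : ∃ σ2 : Store, σ2 = ⟨Function.update σ.var 2 (Expr.eval σ (.const 0)),
    σ.arr⟩ := ⟨_, rfl⟩
  rw [← hσ2]
  have v0 : σ2.var 0 = n := by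
    rw [hσ2]
    simp only
    rw [Function.update_of_ne (by omega), h0]
  have v1 : σ2.var 1 = n * n := by
    rw [hσ2]
    simp only
    rw [Function.update_of_ne (by omega), h1]
  have v2 : σ2.var 2 = 0 := by
    rw [hσ2]
    simp only [Expr.eval]
    rw [Function.update_self]
  have va : σ2.arr = σ.arr := by rw [hσ2]
  have hloop := Cmd.loop_rule (e := .var 0) (c := outBody) (σ := σ2) (N := n) v0
    (fun i τ => τ.var 2 = i ∧
      τ.arr 0 = fun j => if n * n ≤ j ∧ j < n * n + i then L (j - n * n) else M j)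
    ⟨v2, by
      rw [va, hM]
      funext j
      rw [if_neg (by omega)]⟩
    (by
      intro i _ τ h1' h2' ⟨h3, h4⟩
      have a11 : τ.arr 11 = L := by
        rw [h2' 11 rfl, va, hL]
      have t1 : τ.var 1 = n * n := by
        rw [h1' 1 rfl, v1]
      simp only [outBody, Cmd.exec, Expr.eval]
      refine ⟨by rw [Function.update_self, h3], ?_⟩
      rw [Function.update_self, h3, h4, a11, t1]
      funext j
      by_cases hj : j = n * n + i
      · subst hj
        rw [Function.update_self, if_pos (by omega), Nat.add_sub_cancel_left]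
      · rw [Function.update_of_ne hj]
        have : (n * n ≤ j ∧ j < n * n + (i + 1)) ↔ (n * n ≤ j ∧ j < n * n + i) := by omega
        simp only [this])
  have fv := Cmd.frame_var (.loop (.var 0) outBody) σ2
  have wv : ∀ x, x ≠ 2 → (Cmd.loop (.var 0) outBody).wv x = false := by
    intro x hx
    simp [Cmd.wv, outBody, nat_beq (Ne.symm hx)]
  generalize (Cmd.loop (.var 0) outBody).exec σ2 = σ3 at *
  exact ⟨by rw [fv _ (wv _ (by omega)), v0], hloop.2⟩

/-- The result of the program. -/
theorem decider_spec {n : ℕ} (G : SimpleGraph (Fin n)) {red p : Cmd} {t : Tm 1} {σ : Store}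
    (h : red.exec σ = graphInput G) :
    ((decider red p t).exec σ).var 0 =
      t.eval (packN n ((graphInput G).arr 0) ((p.exec (graphInput G)).arr 1)) (fun _ => n) := by
  simp only [decider, Cmd.exec_seq]
  rw [h]
  obtain ⟨a1, a2, a3, a4⟩ := copyIn_spec G
  generalize copyIn.exec (graphInput G) = σ1 at *
  obtain ⟨b1, b2, b3⟩ := Cmd.sh_exec 10 p σ1
  rw [a1] at b1
  generalize (p.sh 10).exec σ1 = σ2 at *
  have c1 : σ2.arr 11 = (p.exec (graphInput G)).arr 1 := by
    rw [← b1]
    rfl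
  obtain ⟨d1, d2⟩ := copyOut_spec (n := n) (by rw [b2 0 (by omega), a2])
    (by rw [b2 1 (by omega), a3]) (by rw [b3 0 (by omega), a4]) c1
  generalize copyOut.exec σ2 = σ3 at *
  obtain ⟨e1, -, -⟩ := comp_spec t (fun _ => 0) 3 σ3 (fun _ => by omega)
  rw [Cmd.exec_set]
  simp only [Expr.eval]
  rw [Function.update_self, e1, d2]
  simp only [d1]

end Pool.Agent.Lib.MP_0b8c1e_lc
end

section

set_option autoImplicit false

/-!
# Dense Graph Partition: the final test, and the gap for the numbered graph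
-/

namespace Pool.Agent.Lib.MP_0b8c1e_lc

open Finset Pool.Agent.Lib.MP_711ea9_lc

section test

variable {n : ℕ} (G : SimpleGraph (Fin n)) (L : ℕ → ℕ)

theorem packN_label (v : Fin n) : packN n ((graphInput G).arr 0) L (n * n + v) = L v := by
  unfold packN
  rw [if_pos ⟨by omega, by have := v.isLt; omega⟩, Nat.add_sub_cancel_left]

theorem packN_entry (v w : Fin n) :
    packN n ((graphInput G).arr 0) L (v * n + w) = adjI G v w := by
  unfold packN
  have := lt_blk v.isLt w.isLt
  rw [if_neg (by omega), graphInput_entry]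

theorem szN_eq (v : Fin n) : szN (packN n ((graphInput G).arr 0) L) n v =
    #(univ.filter fun w : Fin n => L w = L v) := by
  unfold szN
  rw [Finset.sum_range, card_filter]
  refine sum_congr rfl fun w _ => ?_
  rw [packN_label, packN_label]

theorem dgN_eq (v : Fin n) : dgN (packN n ((graphInput G).arr 0) L) n v =
    ∑ w ∈ univ.filter (fun w : Fin n => L w = L v), adjI G v w := by
  unfold dgN
  rw [Finset.sum_range, sum_filter]
  refine sum_congr rfl fun w _ => ?_
  rw [packN_label, packN_label, packN_entry]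
  by_cases h : L w = L v
  · rw [if_pos h]
    by_cases h' : G.Adj v w
    · rw [adjI_eq_one h']
      simp [h]
    · rw [adjI_eq_zero h']
      simp
  · rw [if_neg h, if_neg (fun h' => h h'.1)]

theorem totN_bounds (Q : ℕ) :
    (totN Q (packN n ((graphInput G).arr 0) L) n : ℝ) ≤
      Q * density G (labelPartition fun v : Fin n => L v) ∧
    (Q : ℝ) * density G (labelPartition fun v : Fin n => L v) ≤
      totN Q (packN n ((graphInput G).arr 0) L) n + n := by
  rw [density_labelPartition]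
  unfold totN dens
  rw [Finset.sum_range, mul_sum]
  push_cast
  have hpos : ∀ v : Fin n, 0 < #(univ.filter fun w : Fin n => L w = L v) := fun v =>
    card_pos.2 ⟨v, by simp⟩
  have hterm : ∀ v : Fin n, ((Q * dgN (packN n ((graphInput G).arr 0) L) n v /
      (2 * szN (packN n ((graphInput G).arr 0) L) n v) : ℕ) : ℝ) ≤
      Q * (((∑ w ∈ univ.filter (fun w : Fin n => L w = L v), adjI G v w : ℕ) : ℝ) /
        (2 * (#(univ.filter fun w : Fin n => L w = L v) : ℝ))) ∧
      Q * (((∑ w ∈ univ.filter (fun w : Fin n => L w = L v), adjI G v w : ℕ) : ℝ) /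
        (2 * (#(univ.filter fun w : Fin n => L w = L v) : ℝ))) ≤
      ((Q * dgN (packN n ((graphInput G).arr 0) L) n v /
      (2 * szN (packN n ((graphInput G).arr 0) L) n v) : ℕ) : ℝ) + 1 := by
    intro v
    rw [dgN_eq, szN_eq]
    have h0 := hpos v
    generalize (∑ w ∈ univ.filter (fun w : Fin n => L w = L v), adjI G v w : ℕ) = d
    generalize #(univ.filter fun w : Fin n => L w = L v) = z at h0
    have h1 : (Q : ℝ) * ((d : ℝ) / (2 * (z : ℝ))) = ((Q * d : ℕ) : ℝ) / ((2 * z : ℕ) : ℝ) := by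
      push_cast
      ring
    rw [h1]
    refine ⟨Nat.cast_div_le, ?_⟩
    have h2 := Nat.lt_mul_div_succ (Q * d) (b := 2 * z) (by omega)
    have h3 : (0 : ℝ) < ((2 * z : ℕ) : ℝ) := by
      have : 0 < 2 * z := by omega
      exact_mod_cast this
    rw [div_le_iff₀ h3]
    have h4 : ((Q * d : ℕ) : ℝ) ≤ ((2 * z * (Q * d / (2 * z) + 1) : ℕ) : ℝ) := by
      exact_mod_cast h2.le
    refine h4.trans (le_of_eq ?_)
    push_cast
    ring
  constructor
  · refine sum_le_sum fun v _ => ?_
    have := (hterm v).1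
    push_cast at this ⊢
    exact this
  · have h5 : (∑ v : Fin n, ((1 : ℝ))) = n := by simp
    conv_rhs => rw [← h5]
    rw [← sum_add_distrib]
    refine sum_le_sum fun v _ => ?_
    have := (hterm v).2
    push_cast at this ⊢
    exact this

end test

/-- The constants of the test. -/
theorem exists_QK {s δ : ℝ} (h1 : δ < s) (h2 : s ≤ 1) : ∃ Q K : ℕ,
    (Q : ℝ) * (1 - s) ≤ K ∧ (K : ℝ) < Q * (1 - δ) - 3 := by
  have h3 : 0 < s - δ := by linarith
  obtain ⟨Q, hQ⟩ := exists_nat_ge (4 / (s - δ))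
  refine ⟨Q, ⌈(Q : ℝ) * (1 - s)⌉₊, Nat.le_ceil _, ?_⟩
  have h4 : 0 ≤ (Q : ℝ) * (1 - s) := mul_nonneg (Nat.cast_nonneg _) (by linarith)
  have h5 := Nat.ceil_lt_add_one h4
  rw [div_le_iff₀ h3] at hQ
  nlinarith

section gap

variable {m B : ℕ} [NeZero B] (φ : Formula m)

omit [NeZero B] in
theorem card_third : (Fintype.card (Vtx (Fin (3 * m)) m B) : ℝ) / 3 = 2 * m * (6 * B + 1) := by
  rw [card_vtx, Fintype.card_fin]
  push_cast
  ring

theorem numGraph_colorable : (numGraph B φ).Colorable 3 :=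
  (satGraph_colorable φ).of_hom (SimpleGraph.Iso.comap (encE m B).symm (satGraph B φ)).toHom

theorem numGraph_degree (hB : ∀ x, #(occurrences φ x) ≤ B) (v : Fin (6 * m * (6 * B + 1))) :
    ((numGraph B φ).neighborSet v).ncard ≤ 6 := by
  have h1 : (numGraph B φ).neighborSet v =
      (encE m B) '' ((satGraph B φ).neighborSet ((encE m B).symm v)) := by
    ext w
    simp only [numGraph, SimpleGraph.mem_neighborSet, SimpleGraph.comap_adj, Set.mem_image]
    constructor
    · intro h
      exact ⟨(encE m B).symm w, h, by simp⟩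
    · rintro ⟨u, hu, rfl⟩
      simpa using hu
  rw [h1, Set.ncard_image_of_injective _ (encE m B).injective]
  exact satGraph_degree_le φ hB _

theorem numGraph_complete (hB : ∀ x, #(occurrences φ x) ≤ B) (a : Fin (3 * m) → Bool) :
    2 * (m : ℝ) * (6 * B + 1) - OPT (numGraph B φ) ≤ 2 * unsat φ a := by
  have h := sat_complete φ hB a
  rw [card_third] at h
  unfold numGraph
  rw [OPT_comap]
  exact h

theorem numGraph_sound (hB : ∀ x, #(occurrences φ x) ≤ B)
    (P : Finpartition (univ : Finset (Fin (6 * m * (6 * B + 1))))) :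
    ∃ a : Fin (3 * m) → Bool, (unsat φ a : ℝ) ≤
      144 * B * (2 * (m : ℝ) * (6 * B + 1) - density (numGraph B φ) P) := by
  obtain ⟨P', hP'⟩ := density_comap (satGraph B φ) (encE m B).symm P
  obtain ⟨a, ha⟩ := sat_sound φ hB P'
  rw [card_third, hP'] at ha
  exact ⟨a, ha⟩

/-- The gap. -/
theorem numGraph_gap (hm : 1 ≤ m) (hB : ∀ x, #(occurrences φ x) ≤ B) {ε : ℝ} (hε : 0 < ε)
    (P : Finpartition (univ : Finset (Fin (6 * m * (6 * B + 1))))) :
    ((∃ a, unsat φ a = 0) → OPT (numGraph B φ) = 2 * (m : ℝ) * (6 * B + 1)) ∧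
    ((∀ a, ε * m ≤ unsat φ a) → density (numGraph B φ) P ≤
      (1 - ε / (2016 * B ^ 2)) * (2 * (m : ℝ) * (6 * B + 1))) := by
  have hB1 : (1 : ℝ) ≤ B := by
    have : 1 ≤ B := NeZero.one_le
    exact_mod_cast this
  have hB0 : (0 : ℝ) < B := by linarith
  have hm1 : (1 : ℝ) ≤ m := by exact_mod_cast hm
  constructor
  · rintro ⟨a, ha⟩
    have h1 := numGraph_complete φ hB a
    rw [ha] at h1
    obtain ⟨P', hP'⟩ := exists_density_eq_OPT (numGraph B φ)
    obtain ⟨a', ha'⟩ := numGraph_sound φ hB P'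
    rw [hP'] at ha'
    have h2 : 0 ≤ 144 * (B : ℝ) * (2 * (m : ℝ) * (6 * B + 1) - OPT (numGraph B φ)) :=
      le_trans (Nat.cast_nonneg _) ha'
    have h3 : 0 ≤ 2 * (m : ℝ) * (6 * B + 1) - OPT (numGraph B φ) :=
      nonneg_of_mul_nonneg_right h2 (by positivity)
    push_cast at h1
    linarith
  · intro h
    obtain ⟨a, ha⟩ := numGraph_sound φ hB P
    have h1 := (h a).trans ha
    have h3 : ε / (2016 * (B : ℝ) ^ 2) * (2 * (m : ℝ) * (6 * B + 1)) ≤ ε * m / (144 * B) := by
      rw [div_mul_eq_mul_div, div_le_div_iff₀ (by positivity) (by positivity)]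
      have h4 : 2 * (m : ℝ) * (6 * B + 1) ≤ 14 * B * m := by nlinarith
      have h5 : ε * (2 * (m : ℝ) * (6 * B + 1)) ≤ ε * (14 * B * m) :=
        mul_le_mul_of_nonneg_left h4 hε.le
      have h6 := mul_le_mul_of_nonneg_right h5 (by positivity : (0 : ℝ) ≤ 144 * B)
      calc ε * (2 * (m : ℝ) * (6 * B + 1)) * (144 * B) ≤ ε * (14 * B * m) * (144 * B) := h6
        _ = ε * m * (2016 * (B : ℝ) ^ 2) := by ring
    have h6 : ε * m / (144 * B) ≤ 2 * (m : ℝ) * (6 * B + 1) - density (numGraph B φ) P := by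
      rw [div_le_iff₀ (by positivity)]
      linarith
    linarith

end gap

end Pool.Agent.Lib.MP_0b8c1e_lc
end

section

set_option autoImplicit false

/-!
# Dense Graph Partition: the running time of the program
-/

namespace Pool.Agent.Lib.MP_0b8c1e_lc

open Finset Pool.Agent.Lib.MP_711ea9_lc Pool.Agent.Lib.MP_711ea9_lc.FH

theorem size_one : Nat.size 1 = 1 := by decide

theorem inBody_steps (σ : Store) : inBody.steps σ = 9 := by
  simp only [inBody, Cmd.steps, Expr.size, size_one]

theorem outBody_steps (σ : Store) : outBody.steps σ = 11 := by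
  simp only [outBody, Cmd.steps, Expr.size, size_one]

theorem copyIn_steps {n : ℕ} (G : SimpleGraph (Fin n)) :
    copyIn.steps (graphInput G) ≤ 50 + 5 * n + 10 * (n * n) := by
  have g0 : (graphInput G).var 0 = n := rfl
  obtain ⟨c1, c2, c3⟩ := comp_spec (Tm.mul (.var 0) (.var 0) : Tm 1) (fun _ => 0) 1
    (graphInput G) (fun _ => by omega)
  have c4 := comp_steps (Tm.mul (.var 0) (.var 0) : Tm 1) (fun _ => 0) 1
    (graphInput G) (fun _ => by omega)
  simp only [Tm.stp, Tm.eval, g0] at c1 c4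
  simp only [copyIn, Cmd.steps, Expr.size, inBody_steps]
  generalize ((Tm.mul (.var 0) (.var 0) : Tm 1).comp (fun _ => 0) 1).exec (graphInput G) = σ1 at *
  rw [Cmd.exec_set, Cmd.exec_set]
  simp only [Expr.eval]
  rw [Function.update_of_ne (by omega), Function.update_of_ne (by omega), c1, sum_const,
    card_range, smul_eq_mul, Nat.size_zero]
  omega

theorem copyOut_steps {n : ℕ} {σ : Store} (h0 : σ.var 0 = n) :
    copyOut.steps σ ≤ 10 + 12 * n := by
  simp only [copyOut, Cmd.steps, Expr.size, outBody_steps]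
  rw [Cmd.exec_set]
  simp only [Expr.eval]
  rw [Function.update_of_ne (by omega), h0, sum_const, card_range, smul_eq_mul, Nat.size_zero]
  omega

/-- The number of steps of the program. -/
theorem decider_steps {n : ℕ} (G : SimpleGraph (Fin n)) {red p : Cmd} {t : Tm 1} {σ : Store}
    (h : red.exec σ = graphInput G) :
    (decider red p t).steps σ ≤ red.cost σ + p.cost (graphInput G) +
      t.stp (packN n ((graphInput G).arr 0) ((p.exec (graphInput G)).arr 1)) (fun _ => n) +
      (100 + 17 * n + 10 * (n * n)) := by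
  have r1 := Cmd.steps_le_cost red σ
  have r2 := Cmd.steps_le_cost p (graphInput G)
  have r3 := copyIn_steps G
  simp only [decider, Cmd.steps]
  rw [h]
  obtain ⟨a1, a2, a3, a4⟩ := copyIn_spec G
  generalize copyIn.exec (graphInput G) = σ1 at *
  obtain ⟨b1, b2, b3⟩ := Cmd.sh_exec 10 p σ1
  have r4 := Cmd.sh_steps 10 p σ1
  rw [a1] at b1 r4
  generalize (p.sh 10).exec σ1 = σ2 at *
  have c1 : σ2.arr 11 = (p.exec (graphInput G)).arr 1 := by
    rw [← b1]
    rfl
  have c2 : σ2.var 0 = n := by rw [b2 0 (by omega), a2]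
  have r5 := copyOut_steps c2
  obtain ⟨d1, d2⟩ := copyOut_spec (n := n) c2
    (by rw [b2 1 (by omega), a3]) (by rw [b3 0 (by omega), a4]) c1
  generalize copyOut.exec σ2 = σ3 at *
  have r6 := comp_steps t (fun _ => 0) 3 σ3 (fun _ => by omega)
  rw [d2] at r6
  simp only [d1] at r6
  simp only [Expr.size]
  omega

theorem packN_le {n : ℕ} (G : SimpleGraph (Fin n)) {L : ℕ → ℕ} (hL : ∀ v : Fin n, L v < n)
    (j : ℕ) : packN n ((graphInput G).arr 0) L j ≤ n + 1 := by
  unfold packN
  split_ifs with h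
  · have := hL ⟨j - n * n, by omega⟩
    simp only at this
    omega
  · have := graphInput_le G 0 j
    omega

/-- The running time of the program is polynomial. -/
theorem decider_cost (t : Tm 1) (C k : ℕ) (N : ℕ → ℕ) (hN : Pb N) : ∃ K : ℕ,
    ∀ (m n : ℕ) (G : SimpleGraph (Fin n)) (red p : Cmd) (φ : Formula m), n = N m →
      red.exec (formulaInput φ) = graphInput G → red.cost (formulaInput φ) ≤ (m + 2) ^ C →
      p.cost (graphInput G) ≤ (n + 2) ^ k →
      (∀ v : Fin n, (p.exec (graphInput G)).arr 1 v < n) →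
      (decider red p t).cost (formulaInput φ) ≤ (m + 2) ^ K := by
  obtain ⟨c, hc⟩ := Tm.poly t
  have hS : Pb fun m => (m + 2) ^ C + (N m + 2) ^ k + (N m + 1 + 2) ^ c +
      (100 + 17 * N m + 10 * (N m * N m)) :=
    ((((Pb.id.add (Pb.const 2)).pow C).add ((hN.add (Pb.const 2)).pow k)).add
      (((hN.add (Pb.const 1)).add (Pb.const 2)).pow c)).add
      (((Pb.const 100).add ((Pb.const 17).mul hN)).add ((Pb.const 10).mul (hN.mul hN)))
  obtain ⟨K, hK⟩ := hS.mul (((Pb.const 6).mul Pb.id).add (hS.add (Pb.const 1)))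
  refine ⟨K, ?_⟩
  intro m n G red p φ hn h1 h2 h3 h4
  refine le_trans ?_ (hK m)
  beta_reduce
  have hs := decider_steps G h1 (p := p) (t := t)
  have ht := (hc (n + 1) (packN n ((graphInput G).arr 0) ((p.exec (graphInput G)).arr 1))
    (fun _ => n) (packN_le G h4) (fun _ => by omega)).2
  subst hn
  have hs' : (decider red p t).steps (formulaInput φ) ≤ (m + 2) ^ C + (N m + 2) ^ k +
      (N m + 1 + 2) ^ c + (100 + 17 * N m + 10 * (N m * N m)) := by omega
  have hB : Bdd (formulaInput φ) (6 * m) := by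
    constructor
    · intro x
      simp only [formulaInput]
      split_ifs
      · exact lt_of_le_of_lt (by omega) (Nat.lt_two_pow_self (n := 6 * m))
      · positivity
    · intro a i
      simp only [formulaInput]
      split_ifs
      · exact lt_of_le_of_lt (code_le φ i).1 (Nat.lt_two_pow_self (n := 6 * m))
      · positivity
  have hb := (Cmd.bound (decider red p t) hB).2
  refine hb.trans (Nat.mul_le_mul hs' ?_)
  omega

end Pool.Agent.Lib.MP_0b8c1e_lc
end

section

set_option autoImplicit false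

/-!
# Dense Graph Partition: an approximation scheme decides the gap version of 3SAT
-/

namespace Pool.Agent.Lib.MP_0b8c1e_lc

open Finset Pool.Agent.Lib.MP_711ea9_lc Pool.Agent.Lib.MP_711ea9_lc.FH

theorem DecidesGap.mono {q : Cmd} {B : ℕ} {ε ε' : ℝ} (h : DecidesGap q B ε) (hε : ε ≤ ε') :
    DecidesGap q B ε' := by
  obtain ⟨k, hk⟩ := h
  refine ⟨k, fun m φ hm hφ => ?_⟩
  obtain ⟨h1, h2, h3⟩ := hk m φ hm hφ
  exact ⟨h1, h2, fun h => h3 fun a => (mul_le_mul_of_nonneg_right hε (Nat.cast_nonneg _)).trans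
    (h a)⟩

theorem DecidesGap.mono_left {q : Cmd} {B B' : ℕ} {ε : ℝ} (h : DecidesGap q B' ε) (hB : B ≤ B') :
    DecidesGap q B ε := by
  obtain ⟨k, hk⟩ := h
  exact ⟨k, fun m φ hm hφ => hk m φ hm fun x => (hφ x).trans hB⟩

theorem Approximates.mono {p : Cmd} {𝒢 𝒢' : ∀ n : ℕ, SimpleGraph (Fin n) → Prop} {δ : ℝ}
    (h : Approximates p 𝒢' δ) (h' : ∀ n G, 𝒢 n G → 𝒢' n G) : Approximates p 𝒢 δ := by
  obtain ⟨k, hk⟩ := h
  exact ⟨k, fun n G hG => hk n G (h' n G hG)⟩

/-- An approximation algorithm decides the gap problem (for `ε ≤ 1`). -/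
theorem decides_of_approximates_aux {B : ℕ} [NeZero B] {ε δ : ℝ} (hε : 0 < ε) (hε1 : ε ≤ 1)
    (hδ : δ < ε / (2016 * B ^ 2)) {p : Cmd} (hp : Approximates p Sparse δ) :
    ∃ q : Cmd, DecidesGap q B ε := by
  classical
  have hB1 : (1 : ℝ) ≤ B := by
    have : 1 ≤ B := NeZero.one_le
    exact_mod_cast this
  have hs1 : ε / (2016 * (B : ℝ) ^ 2) ≤ 1 := by
    rw [div_le_one (by positivity)]
    nlinarith
  obtain ⟨Q, K, hK1, hK2⟩ := exists_QK hδ hs1
  obtain ⟨t, ht⟩ := test_term Q K
  obtain ⟨red, C, hred⟩ := red_exists B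
  obtain ⟨k, hk⟩ := hp
  obtain ⟨K', hK'⟩ := decider_cost t C k (fun m => 6 * m * (6 * B + 1))
    (((Pb.const 6).mul Pb.id).mul (Pb.const _))
  refine ⟨decider red p t, K', ?_⟩
  intro m φ hm hφ
  obtain ⟨r1, r2⟩ := hred m φ hm
  obtain ⟨k1, k2, k3⟩ := hk _ (numGraph B φ) ⟨numGraph_colorable φ, numGraph_degree φ hφ⟩
  obtain ⟨g1, g2⟩ := numGraph_gap φ hm hφ hε
    (labelPartition fun v : Fin _ => (p.exec (graphInput (numGraph B φ))).arr 1 v)
  obtain ⟨b1, b2⟩ := totN_bounds (numGraph B φ) ((p.exec (graphInput (numGraph B φ))).arr 1) Q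
  have hcost := hK' m _ (numGraph B φ) red p φ rfl r1 r2 k1 k2
  have hspec := decider_spec (numGraph B φ) (p := p) (t := t) r1
  rw [ht] at hspec
  refine ⟨hcost, ?_, ?_⟩
  · intro hsat
    rw [hspec, if_pos]
    rw [g1 hsat] at k3
    generalize density (numGraph B φ) (labelPartition fun v : Fin _ =>
      (p.exec (graphInput (numGraph B φ))).arr 1 v) = d at *
    generalize totN Q (packN (6 * m * (6 * B + 1)) ((graphInput (numGraph B φ)).arr 0)
      ((p.exec (graphInput (numGraph B φ))).arr 1)) (6 * m * (6 * B + 1)) = T at *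
    have hm1 : (1 : ℝ) ≤ m := by exact_mod_cast hm
    have hn : (0 : ℝ) < 2 * (m : ℝ) * (6 * B + 1) := by positivity
    have hQ := mul_le_mul_of_nonneg_left k3 (Nat.cast_nonneg (α := ℝ) Q)
    have h1 := mul_lt_mul_of_pos_right hK2 hn
    have h2 : ((6 * m * (6 * B + 1) : ℕ) : ℝ) = 3 * (2 * (m : ℝ) * (6 * B + 1)) := by
      push_cast
      ring
    rw [h2] at b2
    have h3 : (K : ℝ) * ((6 * m * (6 * B + 1) : ℕ) : ℝ) < 3 * (T : ℝ) := by
      rw [h2]
      nlinarith
    exact_mod_cast h3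
  · intro hgap
    rw [hspec, if_neg]
    have g3 := g2 hgap
    generalize density (numGraph B φ) (labelPartition fun v : Fin _ =>
      (p.exec (graphInput (numGraph B φ))).arr 1 v) = d at *
    generalize totN Q (packN (6 * m * (6 * B + 1)) ((graphInput (numGraph B φ)).arr 0)
      ((p.exec (graphInput (numGraph B φ))).arr 1)) (6 * m * (6 * B + 1)) = T at *
    have hm1 : (1 : ℝ) ≤ m := by exact_mod_cast hm
    have hn : (0 : ℝ) < 2 * (m : ℝ) * (6 * B + 1) := by positivity
    have hQ := mul_le_mul_of_nonneg_left g3 (Nat.cast_nonneg (α := ℝ) Q)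
    have h1 := mul_le_mul_of_nonneg_right hK1 hn.le
    have h2 : ((6 * m * (6 * B + 1) : ℕ) : ℝ) = 3 * (2 * (m : ℝ) * (6 * B + 1)) := by
      push_cast
      ring
    intro hlt
    have h3 : (K : ℝ) * ((6 * m * (6 * B + 1) : ℕ) : ℝ) < 3 * (T : ℝ) := by exact_mod_cast hlt
    rw [h2] at h3
    nlinarith

/-- For `ε > 1` there is nothing to decide. -/
theorem decides_of_one_lt (B : ℕ) {ε : ℝ} (hε : 1 < ε) : ∃ q : Cmd, DecidesGap q B ε := by
  refine ⟨.set 0 (.const 1), 2, ?_⟩
  intro m φ hm _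
  refine ⟨?_, fun _ => ?_, fun h => ?_⟩
  · simp only [Cmd.cost, Expr.cost, size_one]
    have : 2 ^ 2 ≤ (m + 2) ^ 2 := Nat.pow_le_pow_left (by omega) 2
    omega
  · simp [Cmd.exec, Expr.eval]
  · exfalso
    have h1 := h fun _ => true
    have h2 : unsat φ (fun _ => true) ≤ m := by
      unfold unsat
      exact (card_filter_le _ _).trans (by simp)
    have h3 : (unsat φ (fun _ => true) : ℝ) ≤ m := by exact_mod_cast h2
    have hm1 : (1 : ℝ) ≤ m := by exact_mod_cast hm
    nlinarith

/-- An approximation algorithm decides the gap problem. -/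
theorem decides_of_approximates {B : ℕ} (hB : 1 ≤ B) {ε δ : ℝ} (hε : 0 < ε)
    (hδ : δ < ε / (2016 * B ^ 2)) {p : Cmd} (hp : Approximates p Sparse δ) :
    ∃ q : Cmd, DecidesGap q B ε := by
  have : NeZero B := ⟨by omega⟩
  by_cases h1 : ε ≤ 1
  · exact decides_of_approximates_aux hε h1 hδ hp
  · exact decides_of_one_lt B (by linarith)

/-- An approximation scheme decides all gap problems. -/
theorem decides_of_PTAS (h : HasPTAS) (B : ℕ) {ε : ℝ} (hε : 0 < ε) :
    ∃ q : Cmd, DecidesGap q B ε := by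
  have hB : 1 ≤ B + 1 := by omega
  have hpos : 0 < ε / (2016 * ((B + 1 : ℕ) : ℝ) ^ 2) := by positivity
  obtain ⟨p, hp⟩ := h (ε / (2016 * ((B + 1 : ℕ) : ℝ) ^ 2) / 2) (by positivity)
  obtain ⟨q, hq⟩ := decides_of_approximates hB hε (half_lt_self hpos)
    (hp.mono (fun _ _ _ => trivial))
  exact ⟨q, hq.mono_left (by omega)⟩

/-- The reduction. -/
theorem reduction (B : ℕ) (hB : 1 ≤ B) : ∃ (red : Cmd) (C : ℕ), ∀ (m : ℕ) (φ : Formula m),
    1 ≤ m → (∀ x, #(occurrences φ x) ≤ B) → ∃ G : SimpleGraph (Fin (6 * m * (6 * B + 1))),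
      Sparse _ G ∧
      (∀ a, 2 * (m : ℝ) * (6 * B + 1) - OPT G ≤ 2 * unsat φ a) ∧
      (∀ P : Finpartition (univ : Finset (Fin (6 * m * (6 * B + 1)))), ∃ a, (unsat φ a : ℝ) ≤
        144 * B * (2 * (m : ℝ) * (6 * B + 1) - density G P)) ∧
      red.exec (formulaInput φ) = graphInput G ∧ red.cost (formulaInput φ) ≤ (m + 2) ^ C := by
  have : NeZero B := ⟨by omega⟩
  obtain ⟨red, C, hred⟩ := red_exists B
  refine ⟨red, C, fun m φ hm hφ => ?_⟩
  obtain ⟨r1, r2⟩ := hred m φ hm
  exact ⟨numGraph B φ, ⟨numGraph_colorable φ, numGraph_degree φ hφ⟩, numGraph_complete φ hφ,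
    numGraph_sound φ hφ, r1, r2⟩

end Pool.Agent.Lib.MP_0b8c1e_lc
end
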